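import Pool.Agent.RMS.Basic

/-! RMS, module APP: application of the transfer lemma (helper40). -/

set_option autoImplicit false

namespace Pool.Agent.RMS

open Finset
open Classical

private theorem APP_dvd {Y p : ℕ} (hp : p.Prime) (hpY : p ≤ Y) : p ∣ QQ Y p := by
  unfold QQ
  rw [if_pos hp]
  exact dvd_pow_self p (Nat.log_pos hp.one_lt hpY).ne'

private theorem APP_val {Y p : ℕ} (hp : p.Prime) (hpY : p ≤ Y) (z : ZMod (QQ Y p)) (k : ℕ) :
    p ∣ (z + ((k : ℕ) : ZMod (QQ Y p))).val ↔ p ∣ z.val + k := by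
  have hQ := APP_dvd hp hpY
  rw [ZMod.val_add, ZMod.val_natCast, Nat.dvd_mod_iff hQ, ← Nat.dvd_mod_iff hQ,
    Nat.add_mod_mod, Nat.dvd_mod_iff hQ]

private theorem APP_pow {p n e : ℕ} (h : ¬ p ∣ n) : p ^ e ∣ n ↔ e = 0 := by
  constructor
  · intro h1
    by_contra h2
    exact h ((dvd_pow_self p h2).trans h1)
  · rintro rfl
    rw [pow_zero]
    exact one_dvd n

/-- the residues which matter at `i` -/
private noncomputable def APP_N (Y h J : ℕ) (i : Fin (Y + 1)) : Finset (ZMod (QQ Y i)) :=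
  if (i : ℕ) ≤ h ∨ (i : ℕ) ≤ J then univ
  else if (i : ℕ).Prime then
    (Icc 1 J).biUnion fun k => univ.filter fun z : ZMod (QQ Y i) =>
      (i : ℕ) ∣ (z + ((k : ℕ) : ZMod (QQ Y i))).val
  else ∅

/-- the number of residues `z` with `p ∣ z + k` -/
private theorem APP_count {Y p : ℕ} (hp : p.Prime) (hpY : p ≤ Y) (k : ℕ) :
    ((univ.filter fun z : ZMod (QQ Y p) => p ∣ (z + ((k : ℕ) : ZMod (QQ Y p))).val).card : ℝ) ≤
      (QQ Y p : ℝ) / p := by
  have hQ := APP_dvd hp hpY
  have h1 : (univ.filter fun z : ZMod (QQ Y p) =>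
      p ∣ (z + ((k : ℕ) : ZMod (QQ Y p))).val).card ≤ (range (QQ Y p / p)).card := by
    refine card_le_card_of_injOn (fun z => (z + ((k : ℕ) : ZMod (QQ Y p))).val / p) ?_ ?_
    · intro z hz
      have hz := (mem_filter.1 (mem_coe.1 hz)).2
      rw [Finset.mem_coe, mem_range]
      exact Nat.div_lt_div_of_lt_of_dvd hQ (ZMod.val_lt _)
    · intro z hz z' hz' hzz
      have hz := (mem_filter.1 (mem_coe.1 hz)).2
      have hz' := (mem_filter.1 (mem_coe.1 hz')).2
      have h2 : (z + ((k : ℕ) : ZMod (QQ Y p))).val = (z' + ((k : ℕ) : ZMod (QQ Y p))).val := by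
        rw [← Nat.div_mul_cancel hz, ← Nat.div_mul_cancel hz']
        exact congrArg (· * p) hzz
      exact add_right_cancel (ZMod.val_injective _ h2)
  rw [card_range] at h1
  calc ((univ.filter fun z : ZMod (QQ Y p) =>
      p ∣ (z + ((k : ℕ) : ZMod (QQ Y p))).val).card : ℝ) ≤ ((QQ Y p / p : ℕ) : ℝ) := by
        exact_mod_cast h1
    _ ≤ (QQ Y p : ℝ) / p := Nat.cast_div_le

private theorem APP_Qpos (Y i : ℕ) : (0 : ℝ) < QQ Y i := by
  exact_mod_cast Nat.pos_of_ne_zero (NeZero.ne (QQ Y i))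

private theorem APP_Ni (Y h J : ℕ) (i : Fin (Y + 1)) :
    ((APP_N Y h J i).card : ℝ) / QQ Y i ≤ (if (i : ℕ) < h + J + 1 then 1 else 0) +
      J * (if (i : ℕ).Prime then (1 : ℝ) / (i : ℕ) else 0) := by
  have hQ := APP_Qpos Y i
  have h0 : (0 : ℝ) ≤ J * (if (i : ℕ).Prime then (1 : ℝ) / (i : ℕ) else 0) := by
    split_ifs <;> positivity
  have h0' : (0 : ℝ) ≤ (if (i : ℕ) < h + J + 1 then 1 else 0) := by
    split_ifs <;> norm_num
  unfold APP_N
  by_cases h1 : (i : ℕ) ≤ h ∨ (i : ℕ) ≤ J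
  · rw [if_pos h1, card_univ, ZMod.card, div_self hQ.ne', if_pos (by omega)]
    linarith
  · rw [if_neg h1]
    by_cases h2 : (i : ℕ).Prime
    · rw [if_pos h2, if_pos h2]
      have h3 : (((Icc 1 J).biUnion fun k => univ.filter fun z : ZMod (QQ Y i) =>
          (i : ℕ) ∣ (z + ((k : ℕ) : ZMod (QQ Y i))).val).card : ℝ) ≤ J * ((QQ Y i : ℝ) / (i : ℕ)) := by
        refine (Nat.cast_le.2 card_biUnion_le).trans ?_
        rw [Nat.cast_sum]
        refine (sum_le_sum fun k _ => APP_count h2 (Nat.lt_succ_iff.1 i.2) k).trans ?_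
        rw [sum_const, Nat.card_Icc, nsmul_eq_mul, Nat.add_sub_cancel]
      have h4 : (((Icc 1 J).biUnion fun k => univ.filter fun z : ZMod (QQ Y i) =>
          (i : ℕ) ∣ (z + ((k : ℕ) : ZMod (QQ Y i))).val).card : ℝ) / QQ Y i ≤
          J * ((1 : ℝ) / (i : ℕ)) := by
        rw [div_le_iff₀ hQ]
        refine h3.trans (le_of_eq ?_)
        ring
      linarith
    · rw [if_neg h2, card_empty, Nat.cast_zero, zero_div]
      linarith

private theorem APP_sum (Y h J : ℕ) : ∑ i : Fin (Y + 1), ((APP_N Y h J i).card : ℝ) / QQ Y i ≤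
    (h : ℝ) + J + 1 + J * ∑ p ∈ (Icc 1 Y).filter Nat.Prime, (1 : ℝ) / p := by
  refine (sum_le_sum fun i _ => APP_Ni Y h J i).trans ?_
  rw [sum_add_distrib, ← mul_sum]
  have h1 : ∑ i : Fin (Y + 1), (if (i : ℕ) < h + J + 1 then (1 : ℝ) else 0) ≤ (h : ℝ) + J + 1 := by
    rw [Fin.sum_univ_eq_sum_range (fun i => if i < h + J + 1 then (1 : ℝ) else 0) (Y + 1),
      sum_boole]
    have h2 : ((range (Y + 1)).filter fun i => i < h + J + 1).card ≤ (range (h + J + 1)).card := by
      refine card_le_card fun i hi => ?_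
      rw [mem_filter] at hi
      exact mem_range.2 hi.2
    rw [card_range] at h2
    exact_mod_cast h2
  have h2 : ∑ i : Fin (Y + 1), (if (i : ℕ).Prime then (1 : ℝ) / (i : ℕ) else 0) =
      ∑ p ∈ (Icc 1 Y).filter Nat.Prime, (1 : ℝ) / p := by
    rw [Fin.sum_univ_eq_sum_range (fun i => if i.Prime then (1 : ℝ) / (i : ℕ) else 0) (Y + 1),
      ← sum_filter]
    refine sum_congr ?_ fun _ _ => rfl
    ext p
    rw [mem_filter, mem_filter, mem_range, mem_Icc]
    constructor
    · rintro ⟨h3, h4⟩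
      exact ⟨⟨h4.one_lt.le, by omega⟩, h4⟩
    · rintro ⟨h3, h4⟩
      exact ⟨by omega, h4⟩
  rw [h2]
  linarith

private theorem APP_Qle {Y : ℕ} (hY : 1 ≤ Y) (i : ℕ) : QQ Y i ≤ Y := by
  unfold QQ
  split_ifs
  · exact Nat.pow_log_le_self i (by omega)
  · exact hY

private theorem APP_cop (Y i j : ℕ) (h : i ≠ j) : (QQ Y i).Coprime (QQ Y j) := by
  unfold QQ
  split_ifs with h1 h2
  · exact Nat.Coprime.pow _ _ ((Nat.coprime_primes h1 h2).2 h)
  · exact Nat.coprime_one_right _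
  · exact Nat.coprime_one_left _
  · exact Nat.coprime_one_left _

/-- the point `x` with the irrelevant coordinates replaced by zero -/
private theorem APP_dv (Y h J : ℕ) (x : Om Y) (a k : ℕ) (hk : k ∈ Icc 1 J) :
    dv a ((fun i => if x i ∈ APP_N Y h J i then x i else 0 : Om Y) + ((k : ℕ) : Om Y)) ↔
      dv a (x + ((k : ℕ) : Om Y)) := by
  rw [mem_Icc] at hk
  unfold dv
  refine forall_congr' fun i => ?_
  rw [Pi.add_apply, Pi.add_apply, Pi.natCast_apply]
  by_cases hi : x i ∈ APP_N Y h J i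
  · rw [if_pos hi]
  · rw [if_neg hi]
    unfold APP_N at hi
    have h1 : ¬ ((i : ℕ) ≤ h ∨ (i : ℕ) ≤ J) := by
      intro h2
      rw [if_pos h2] at hi
      exact hi (mem_univ _)
    rw [if_neg h1] at hi
    by_cases h2 : (i : ℕ).Prime
    · rw [if_pos h2, mem_biUnion] at hi
      push Not at hi
      have h3 : ¬ (i : ℕ) ∣ (x i + ((k : ℕ) : ZMod (QQ Y i))).val := fun h =>
        hi k (mem_Icc.2 hk) (mem_filter.2 ⟨mem_univ _, h⟩)
      rw [APP_pow h3, APP_pow]
      rw [APP_val h2 (Nat.lt_succ_iff.1 i.2), ZMod.val_zero, zero_add]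
      intro h4
      have h5 := Nat.le_of_dvd (by omega) h4
      omega
    · rw [Nat.factorization_eq_zero_of_not_prime a h2, pow_zero]
      exact ⟨fun _ => one_dvd _, fun _ => one_dvd _⟩

private theorem APP_TT (Y h J : ℕ) (B : Finset ℕ) (x : Om Y) :
    TT B J (fun i => if x i ∈ APP_N Y h J i then x i else 0 : Om Y) = TT B J x := by
  unfold TT
  refine sum_congr rfl fun k hk => ?_
  have h1 : DD B ((fun i => if x i ∈ APP_N Y h J i then x i else 0 : Om Y) + ((k : ℕ) : Om Y)) =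
      DD B (x + ((k : ℕ) : Om Y)) := by
    unfold DD
    exact congrArg card (filter_congr fun a _ => APP_dv Y h J x a k hk)
  rw [h1]

theorem thm_APP (hT : St_TRF) (hE : St_EMB) : St_APP := by
  intro Y h J X K l B κ κ' θ L hB hX hY hκ hκ' hL
  have hTF := (hE.2 Y B hB).2
  have key := hT (Fin (Y + 1)) (fun i => QQ Y i)
    (fun i j hij => APP_cop Y i j fun h1 => hij (Fin.ext h1)) (APP_N Y h J) (fun _ => 0)
    (fun x : Om Y => if θ < nrm (TT B J x - κ' x) then (1 : ℝ) else 0)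
    (fun x => by split_ifs <;> norm_num) (fun x => by split_ifs <;> norm_num)
    (fun x => by
      have h1 := APP_TT Y h J B x
      have h2 : κ' (fun i => if x i ∈ APP_N Y h J i then x i else 0) = κ' x := by
        refine hκ' _ _ fun i hi => ?_
        have h3 : x i ∈ APP_N Y h J i := by
          unfold APP_N
          rw [if_pos (Or.inl hi)]
          exact mem_univ _
        exact if_pos h3
      rw [h1, h2])
    L ((APP_sum Y h J).trans hL) K l X (Y ^ (K + 2 * l)) hX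
    (fun s hs => by
      refine (prod_le_pow_card s _ Y fun i _ => APP_Qle hY i).trans ?_
      exact Nat.pow_le_pow_right hY hs)
  have e1 : pr (fun x : Om Y => θ < nrm (TT B J x - κ' x)) =
      (∑ x : Om Y, if θ < nrm (TT B J x - κ' x) then (1 : ℝ) else 0) /
        (Fintype.card (∀ i : Fin (Y + 1), ZMod (QQ Y i)) : ℝ) := by
    unfold pr
    rw [sum_boole]
  have e2 : ∑ m ∈ Ico X (2 * X), (if θ < nrm (TT B J (fun i : Fin (Y + 1) =>
      ((m : ℕ) : ZMod (QQ Y i))) - κ' (fun i : Fin (Y + 1) => ((m : ℕ) : ZMod (QQ Y i))))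
        then (1 : ℝ) else 0) =
      (((Ico X (2 * X)).filter fun m => θ < nrm (TF B J m - κ m)).card : ℝ) := by
    rw [← sum_boole]
    refine sum_congr rfl fun m _ => ?_
    have h1 : (fun i : Fin (Y + 1) => ((m : ℕ) : ZMod (QQ Y i))) = ((m : ℕ) : Om Y) := rfl
    rw [h1, hTF J m, hκ m]
  have hins : (fun a b => propDecidable (a = b) : DecidableEq (Fin (Y + 1))) =
      instDecidableEqFin (Y + 1) := Subsingleton.elim _ _
  rw [hins] at key
  rw [e1]
  refine key.trans (le_of_eq ?_)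
  rw [e2, Fintype.card_fin]
  push_cast
  ring

end Pool.Agent.RMS
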