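import Pool.Agent.RMS.Basic
import Pool.Agent.Helper89.Lambert

/-! RMS [BASE]: the sum over `A` modulo one along the powers of two. -/

set_option autoImplicit false

namespace Pool.Agent.RMS

open Finset
open Classical

theorem BASE_dA (A : Set ℕ) (n : ℕ) : Pool.Agent.Helper89.Lambert.dA A n = dA A n := by
  unfold Pool.Agent.Helper89.Lambert.dA dA
  rw [Finset.card_filter]

theorem BASE_shift (A : Set ℕ) (m : ℕ) :
    ∃ z : ℤ, (2 : ℝ) ^ m * (∑' n : A, (1 : ℝ) / (2 ^ n.1 - 1)) = z + TA A m := by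
  obtain ⟨z, hz⟩ := Pool.Agent.Helper89.Lambert.shift A m 0 (fun j h1 h2 => by omega)
  refine ⟨z, ?_⟩
  rw [hz]
  unfold TA
  congr 1
  refine tsum_congr fun i => ?_
  rw [BASE_dA, show m + 0 + 1 + i = m + 1 + i by ring, show 0 + 1 + i = i + 1 by ring,
    one_div, inv_pow, div_eq_mul_inv]

theorem thm_BASE : St_BASE := by
  intro A hrat
  unfold Irrational at hrat
  push Not at hrat
  obtain ⟨q, hq⟩ := hrat
  set S : ℝ := ∑' n : A, (1 : ℝ) / (2 ^ n.1 - 1) with hS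
  obtain ⟨s, b, hb, hqb⟩ := Nat.exists_eq_two_pow_mul_odd (n := q.den) q.den_nz
  have hcop : Nat.Coprime 2 b := (Nat.coprime_two_left).2 hb
  set h : ℕ := b.totient with hh
  have hh1 : 1 ≤ h := Nat.totient_pos.2 hb.pos
  -- `b` divides `2^(h k) - 1`
  have hdiv : ∀ k : ℕ, ∃ c : ℤ, (2 : ℝ) ^ (h * k) - 1 = b * c := by
    intro k
    have h1 : 2 ^ (h * k) ≡ 1 [MOD b] := by
      rw [pow_mul]
      simpa using (Nat.ModEq.pow_totient hcop).pow k
    have h2 : (b : ℤ) ∣ 2 ^ (h * k) - 1 := by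
      have := (Nat.modEq_iff_dvd.1 h1.symm)
      exact_mod_cast this
    obtain ⟨c, hc⟩ := h2
    exact ⟨c, by exact_mod_cast hc⟩
  have h4 : S * (2 ^ s * b) = q.num := by
    have h5 : (q : ℝ) * q.den = q.num := by exact_mod_cast Rat.mul_den_eq_num q
    rw [hqb] at h5
    push_cast at h5
    rw [← hq]
    exact h5
  -- integrality
  have hint : ∀ n k : ℕ, s ≤ n → ∃ z : ℤ, (2 : ℝ) ^ (n + h * k) * S - 2 ^ n * S = z := by
    intro n k hn
    obtain ⟨c, hc⟩ := hdiv k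
    obtain ⟨r, rfl⟩ := Nat.exists_eq_add_of_le hn
    refine ⟨2 ^ r * c * q.num, ?_⟩
    push_cast
    rw [← h4]
    calc (2 : ℝ) ^ (s + r + h * k) * S - 2 ^ (s + r) * S
        = 2 ^ s * 2 ^ r * (2 ^ (h * k) - 1) * S := by rw [pow_add, pow_add]; ring
      _ = 2 ^ s * 2 ^ r * (b * c) * S := by rw [hc]
      _ = 2 ^ r * c * (S * (2 ^ s * b)) := by ring
  refine ⟨h, s, fun m => Int.fract ((2 : ℝ) ^ (m + h * s) * S), hh1, ?_, ?_⟩
  · intro m
    change Int.fract _ = Int.fract _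
    rw [Int.fract_eq_fract]
    have hle : s ≤ m + h * s := by nlinarith
    obtain ⟨z, hz⟩ := hint (m + h * s) 1 hle
    refine ⟨z, ?_⟩
    rw [← hz, show m + h + h * s = m + h * s + h * 1 by ring]
  · intro m hm
    obtain ⟨z1, hz1⟩ := BASE_shift A m
    obtain ⟨z2, hz2⟩ := hint m s hm
    refine ⟨⌊(2 : ℝ) ^ (m + h * s) * S⌋ - z2 - z1, ?_⟩
    change TA A m = Int.fract ((2 : ℝ) ^ (m + h * s) * S) + _
    push_cast
    have h6 := Int.floor_add_fract ((2 : ℝ) ^ (m + h * s) * S)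
    rw [← hS] at hz1
    linarith

end Pool.Agent.RMS
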