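import Pool.Agent.RMS.Basic

/-! RMS [BON]: the Bonferroni inequalities. -/

set_option autoImplicit false

namespace Pool.Agent.RMS

open Finset
open Classical

theorem BON_sum (m k : ℕ) :
    ∑ i ∈ range (k + 1), (-1 : ℤ) ^ i * ((m + 1).choose i : ℤ) = (-1) ^ k * (m.choose k : ℤ) := by
  induction k with
  | zero => simp
  | succ k ih =>
    rw [sum_range_succ, ih, Nat.choose_succ_succ]
    push_cast
    ring

theorem thm_BON : St_BON := by
  intro l n
  unfold bb
  rcases Nat.eq_zero_or_pos l with hl | hl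
  · subst hl
    rw [Nat.mul_zero, range_zero, sum_empty, Nat.choose_zero_right]
    split_ifs <;> norm_num
  · obtain ⟨k, hk⟩ : ∃ k, 2 * l = (2 * k + 1) + 1 := ⟨l - 1, by omega⟩
    rcases Nat.eq_zero_or_pos n with hn | hn
    · subst hn
      rw [hk, sum_range_succ', if_pos rfl]
      have h0 : ∑ i ∈ range (2 * k + 1), (-1 : ℤ) ^ (i + 1) * ((Nat.choose 0 (i + 1) : ℕ) : ℤ) = 0 := by
        refine sum_eq_zero fun i _ => ?_
        rw [Nat.choose_zero_succ]
        simp
      rw [h0, Nat.choose_zero_succ]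
      simp
    · obtain ⟨m, rfl⟩ : ∃ m, n = m + 1 := ⟨n - 1, by omega⟩
      rw [hk, BON_sum, if_neg (by omega)]
      have h1 : (-1 : ℤ) ^ (2 * k + 1) = -1 := by
        rw [pow_succ, pow_mul]
        norm_num
      have h2 : ((m + 1).choose (2 * k + 1 + 1) : ℤ) = m.choose (2 * k + 1) + m.choose (2 * k + 1 + 1) := by
        rw [Nat.choose_succ_succ]
        push_cast
        ring
      rw [h1, h2]
      constructor
      · have : (0 : ℤ) ≤ m.choose (2 * k + 1) := Int.natCast_nonneg _
        linarith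
      · have : (0 : ℤ) ≤ m.choose (2 * k + 1 + 1) := Int.natCast_nonneg _
        linarith

end Pool.Agent.RMS
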