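import Pool.Agent.RMS.St

/-! RMS: elementary facts on `pr`. -/

set_option autoImplicit false

namespace Pool.Agent.RMS

open Finset
open Classical

/-- membership in the filter used in `pr` (avoids problems with decidability instances) -/
theorem mem_fl {α : Type} [Fintype α] (P : α → Prop) (x : α) : x ∈ univ.filter P ↔ P x := by
  rw [mem_filter]
  exact ⟨fun h => h.2, fun h => ⟨mem_univ _, h⟩⟩

theorem pr_nonneg {α : Type} [Fintype α] (P : α → Prop) : 0 ≤ pr P := by
  unfold pr
  positivity

theorem pr_le_one {α : Type} [Fintype α] (P : α → Prop) : pr P ≤ 1 := by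
  unfold pr
  rcases Nat.eq_zero_or_pos (Fintype.card α) with h | h
  · rw [h]
    simp
  · rw [div_le_one (by exact_mod_cast h)]
    exact_mod_cast (card_filter_le _ _).trans (le_of_eq rfl)

theorem pr_mono {α : Type} [Fintype α] {P P' : α → Prop} (h : ∀ x, P x → P' x) : pr P ≤ pr P' := by
  unfold pr
  apply div_le_div_of_nonneg_right _ (Nat.cast_nonneg _)
  exact_mod_cast card_le_card (monotone_filter_right _ fun x _ => h x)

theorem pr_congr {α : Type} [Fintype α] {P P' : α → Prop} (h : ∀ x, P x ↔ P' x) : pr P = pr P' :=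
  le_antisymm (pr_mono fun x => (h x).1) (pr_mono fun x => (h x).2)

theorem pr_or_le {α : Type} [Fintype α] (P P' : α → Prop) :
    pr (fun x => P x ∨ P' x) ≤ pr P + pr P' := by
  unfold pr
  rw [← add_div]
  apply div_le_div_of_nonneg_right _ (Nat.cast_nonneg _)
  rw [← Nat.cast_add]
  apply Nat.cast_le.2
  refine (card_le_card (t := univ.filter P ∪ univ.filter P') fun x hx => ?_).trans (card_union_le _ _)
  rw [mem_union, mem_fl, mem_fl]
  exact (mem_fl (fun x => P x ∨ P' x) x).1 hx

theorem pr_false {α : Type} [Fintype α] : pr (fun _ : α => False) = 0 := by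
  unfold pr
  simp

theorem pr_exists_le {α ι : Type} [Fintype α] (s : Finset ι) (P : ι → α → Prop) :
    pr (fun x => ∃ i ∈ s, P i x) ≤ ∑ i ∈ s, pr (P i) := by
  induction s using Finset.induction_on with
  | empty =>
    rw [sum_empty]
    refine (pr_mono (P' := fun _ => False) ?_).trans pr_false.le
    rintro x ⟨i, hi, _⟩
    simp at hi
  | insert a s ha ih =>
    rw [sum_insert ha]
    refine (pr_mono (P' := fun x => P a x ∨ ∃ i ∈ s, P i x) ?_).trans
      ((pr_or_le _ _).trans (by linarith))
    rintro x ⟨i, hi, hx⟩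
    rcases mem_insert.1 hi with rfl | hi
    · exact Or.inl hx
    · exact Or.inr ⟨i, hi, hx⟩

theorem pr_equiv {α β : Type} [Fintype α] [Fintype β] (e : α ≃ β) (P : β → Prop) :
    pr (fun x => P (e x)) = pr P := by
  unfold pr
  rw [Fintype.card_congr e]
  congr 2
  refine card_bij (fun x _ => e x) (fun x hx => ?_) (fun x _ y _ h => e.injective h) (fun y hy => ?_)
  · simpa using hx
  · exact ⟨e.symm y, by simpa using hy, by simp⟩

theorem pr_shift {α : Type} [Fintype α] [AddGroup α] (P : α → Prop) (c : α) :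
    pr (fun x => P (x + c)) = pr P :=
  pr_equiv (Equiv.addRight c) P

/-- Markov. -/
theorem pr_markov {α : Type} [Fintype α] (f : α → ℝ) (hf : ∀ x, 0 ≤ f x) (t : ℝ) (ht : 0 < t) :
    pr (fun x => t ≤ f x) ≤ (∑ x, f x) / (Fintype.card α : ℝ) / t := by
  unfold pr
  rw [div_div, mul_comm (Fintype.card α : ℝ) t, ← div_div]
  apply div_le_div_of_nonneg_right _ (Nat.cast_nonneg _)
  rw [le_div_iff₀ ht, ← nsmul_eq_mul, ← sum_const]
  calc ∑ _x ∈ univ.filter (fun x => t ≤ f x), t ≤ ∑ x ∈ univ.filter (fun x => t ≤ f x), f x :=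
        sum_le_sum fun x hx => (mem_filter.1 hx).2
    _ ≤ ∑ x, f x := sum_le_univ_sum_of_nonneg hf

end Pool.Agent.RMS
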