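import Pool.Agent.RMS.St2

/-! RMS [COR]: sparse windows by the pigeonhole principle. -/

set_option autoImplicit false

namespace Pool.Agent.RMS

open Finset Filter
open Classical

/-- iterated logarithm of a natural number -/
noncomputable def COR_L (y : ℕ) : ℝ := Real.log (Real.log (y : ℝ))

theorem COR_log_pos (y : ℕ) (h : 1 ≤ COR_L y) : 1 < Real.log (y : ℝ) := by
  have h0 : 0 ≤ Real.log (y : ℝ) := Real.log_natCast_nonneg y
  rcases h0.eq_or_lt with h1 | h1
  · unfold COR_L at h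
    rw [← h1, Real.log_zero] at h
    linarith
  · have h2 : Real.exp 1 ≤ Real.log (y : ℝ) := (Real.le_log_iff_exp_le h1).1 h
    have h3 : (1 : ℝ) + 1 ≤ Real.exp 1 := Real.add_one_le_exp 1
    linarith

theorem COR_one_lt (y : ℕ) (h : 1 ≤ COR_L y) : (1 : ℝ) < (y : ℝ) := by
  have h1 := COR_log_pos y h
  by_contra h2
  push Not at h2
  have h3 := Real.log_nonpos (Nat.cast_nonneg y) h2
  linarith

theorem COR_le (y x : ℕ) (hx : 1 ≤ COR_L x) (h : COR_L y ≤ COR_L x) : y ≤ x := by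
  by_contra h1
  push Not at h1
  have h2 := COR_log_pos x hx
  have h3 := COR_one_lt x hx
  have h4 : Real.log (x : ℝ) < Real.log (y : ℝ) :=
    Real.log_lt_log (by linarith) (by exact_mod_cast h1)
  have h5 : COR_L x < COR_L y := Real.log_lt_log (by linarith) h4
  linarith

theorem COR_nonneg (A : Set ℕ) (a : ℕ) : 0 ≤ A.indicator (fun a : ℕ => (1 : ℝ) / a) a :=
  Set.indicator_nonneg (fun b _ => by positivity) a

theorem COR_RS_nonneg (A : Set ℕ) (y z : ℕ) : 0 ≤ RS A y z :=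
  sum_nonneg fun a _ => COR_nonneg A a

theorem COR_RS_mono (A : Set ℕ) (y z : ℕ) (h : y ≤ z) : RS A 0 y ≤ RS A 0 z :=
  sum_le_sum_of_subset_of_nonneg (Ioc_subset_Ioc_right h) fun a _ _ => COR_nonneg A a

theorem COR_RS_add (A : Set ℕ) (y z : ℕ) (h : y ≤ z) : RS A 0 z = RS A 0 y + RS A y z :=
  (sum_Ioc_consecutive _ (Nat.zero_le y) h).symm

/-- the end of the window -/
noncomputable def COR_f (y : ℕ) : ℕ := ⌊(y : ℝ) ^ (Real.log (Real.log y) ^ 3)⌋₊

theorem COR_f_ge (y : ℕ) (h : 1 ≤ COR_L y) : y ≤ COR_f y := by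
  have h1 := COR_one_lt y h
  refine Nat.le_floor ?_
  have h2 : (1 : ℝ) ≤ Real.log (Real.log y) ^ 3 := one_le_pow₀ h
  calc (y : ℝ) = (y : ℝ) ^ (1 : ℝ) := (Real.rpow_one _).symm
    _ ≤ _ := Real.rpow_le_rpow_of_exponent_le h1.le h2

theorem COR_f_le (y : ℕ) (h : 1 ≤ COR_L y) :
    COR_L (COR_f y) ≤ COR_L y + 3 * Real.log (COR_L y) := by
  have h1 := COR_one_lt y h
  have h2 := COR_log_pos y h
  have h3 : ((COR_f y : ℕ) : ℝ) ≤ (y : ℝ) ^ (COR_L y ^ 3) :=
    Nat.floor_le (Real.rpow_nonneg (by linarith) _)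
  have h4 : (y : ℝ) ≤ ((COR_f y : ℕ) : ℝ) := by exact_mod_cast COR_f_ge y h
  have h5 : Real.log ((COR_f y : ℕ) : ℝ) ≤ COR_L y ^ 3 * Real.log y := by
    refine (Real.log_le_log (by linarith) h3).trans (le_of_eq ?_)
    rw [Real.log_rpow (by linarith)]
  have h6 : Real.log (y : ℝ) ≤ Real.log ((COR_f y : ℕ) : ℝ) := Real.log_le_log (by linarith) h4
  have h7 : Real.log (Real.log ((COR_f y : ℕ) : ℝ)) ≤ Real.log (COR_L y ^ 3 * Real.log y) :=
    Real.log_le_log (by linarith) h5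
  refine h7.trans (le_of_eq ?_)
  have h8 : (COR_L y ^ 3 : ℝ) ≠ 0 := by positivity
  rw [Real.log_mul h8 (by linarith), Real.log_pow]
  unfold COR_L
  push_cast
  ring

theorem COR_f_one (y : ℕ) (h : 1 ≤ COR_L y) : 1 ≤ COR_L (COR_f y) := by
  have h1 := COR_one_lt y h
  have h2 := COR_log_pos y h
  have h4 : (y : ℝ) ≤ ((COR_f y : ℕ) : ℝ) := by exact_mod_cast COR_f_ge y h
  have h6 : Real.log (y : ℝ) ≤ Real.log ((COR_f y : ℕ) : ℝ) := Real.log_le_log (by linarith) h4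
  have h7 : Real.log (Real.log (y : ℝ)) ≤ Real.log (Real.log ((COR_f y : ℕ) : ℝ)) :=
    Real.log_le_log (by linarith) h6
  exact h.trans h7

theorem COR_win (A : Set ℕ) (y : ℕ) (t : ℝ) (ht : Real.log (2 + RS A 0 y) ≤ t)
    (h : ¬ Win A y) : 1 / t ^ 3 ≤ RS A y (COR_f y) := by
  have h1 : 1 / Real.log (2 + RS A 0 y) ^ 3 < RS A y (COR_f y) := not_le.1 h
  have h2 : 0 < Real.log (2 + RS A 0 y) := by
    have := COR_RS_nonneg A 0 y
    exact Real.log_pos (by linarith)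
  have h3 : 1 / t ^ 3 ≤ 1 / Real.log (2 + RS A 0 y) ^ 3 :=
    one_div_le_one_div_of_le (by positivity) (pow_le_pow_left₀ h2.le ht 3)
  exact h3.trans h1.le

theorem COR_main (A : Set ℕ) (Y1 y0 x : ℕ) (U t : ℝ) (hY : ∀ y, Y1 ≤ y → ¬ Win A y)
    (hy0 : Y1 ≤ y0) (hy1 : 1 ≤ COR_L y0) (hU : U = COR_L x) (ht : t = Real.log U)
    (h1 : 12 ≤ t) (h2 : 12 * t ≤ U) (h3 : 4 * COR_L y0 ≤ U) (h4 : RS A 0 x ≤ U / t ^ 5) :
    False := by
  have hU1 : 1 ≤ U := by linarith
  have ht0 : 0 < t := by linarith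
  have hx1 : 1 ≤ COR_L x := hU ▸ hU1
  have h5 : U / t ^ 5 ≤ U / 2 := by
    refine div_le_div_of_nonneg_left (by linarith) (by norm_num) ?_
    calc (2 : ℝ) ≤ t ^ 1 := by linarith
      _ ≤ t ^ 5 := pow_le_pow_right₀ (by linarith) (by norm_num)
  have claim : ∀ i : ℕ, COR_L y0 + 3 * t * i ≤ U → ∃ y, Y1 ≤ y ∧ 1 ≤ COR_L y ∧
      COR_L y ≤ COR_L y0 + 3 * t * i ∧ i / t ^ 3 ≤ RS A 0 y := by
    intro i
    induction i with
    | zero =>
      intro _
      refine ⟨y0, hy0, hy1, ?_, ?_⟩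
      · simp
      · simpa using COR_RS_nonneg A 0 y0
    | succ i ih =>
      intro hi
      push_cast at hi
      have hi' : COR_L y0 + 3 * t * i ≤ U := by nlinarith
      obtain ⟨y, ha, hb, hc, hd⟩ := ih hi'
      have hyx : y ≤ x := COR_le y x hx1 (by rw [← hU]; linarith)
      have he : Real.log (2 + RS A 0 y) ≤ t := by
        rw [ht]
        have h6 := COR_RS_mono A y x hyx
        have h7 := COR_RS_nonneg A 0 y
        refine Real.log_le_log (by linarith) ?_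
        linarith
      have hf := COR_win A y t he (hY y ha)
      have hg := COR_RS_add A y (COR_f y) (COR_f_ge y hb)
      have hl : Real.log (COR_L y) ≤ t := by
        rw [ht]
        exact Real.log_le_log (by linarith) (by linarith)
      refine ⟨COR_f y, ha.trans (COR_f_ge y hb), COR_f_one y hb, ?_, ?_⟩
      · have hm := COR_f_le y hb
        push_cast
        linarith
      · rw [hg]
        push_cast
        rw [add_div]
        linarith
  have hc0 : 0 ≤ (U - COR_L y0) / (3 * t) := div_nonneg (by linarith) (by linarith)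
  obtain ⟨n, hn⟩ : ∃ n : ℕ, n = ⌊(U - COR_L y0) / (3 * t)⌋₊ := ⟨_, rfl⟩
  have hn1 : (n : ℝ) ≤ (U - COR_L y0) / (3 * t) := hn ▸ Nat.floor_le hc0
  have hn2 : (U - COR_L y0) / (3 * t) < n + 1 := hn ▸ Nat.lt_floor_add_one _
  rw [le_div_iff₀ (by linarith)] at hn1
  rw [div_lt_iff₀ (by linarith)] at hn2
  obtain ⟨y, _, _, hc, hd⟩ := claim n (by linarith)
  have hyx : y ≤ x := COR_le y x hx1 (by rw [← hU]; linarith)
  have h6 : n / t ^ 3 ≤ U / t ^ 5 := hd.trans ((COR_RS_mono A y x hyx).trans h4)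
  have h7 : (n : ℝ) * t ^ 2 ≤ U := by
    rw [div_le_div_iff₀ (by positivity) (by positivity)] at h6
    have h8 : (n : ℝ) * t ^ 5 = (n * t ^ 2) * t ^ 3 := by ring
    rw [h8] at h6
    exact le_of_mul_le_mul_right h6 (by positivity)
  have h9 : (n : ℝ) * t * 12 ≤ U := by
    have h10 : (n : ℝ) * t * 12 ≤ n * t * t :=
      mul_le_mul_of_nonneg_left h1 (by positivity)
    calc (n : ℝ) * t * 12 ≤ n * t * t := h10
      _ = n * t ^ 2 := by ring
      _ ≤ U := h7
  nlinarith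

theorem thm_COR : St_COR := by
  intro A hA
  by_contra h
  rw [not_frequently] at h
  obtain ⟨Y1, hY1⟩ := eventually_atTop.1 h
  have hL : Tendsto COR_L atTop atTop :=
    Real.tendsto_log_atTop.comp (Real.tendsto_log_atTop.comp tendsto_natCast_atTop_atTop)
  have hLL : Tendsto (fun x => Real.log (COR_L x)) atTop atTop := Real.tendsto_log_atTop.comp hL
  obtain ⟨y0, hy1, hy0⟩ := ((hL.eventually_ge_atTop 1).and (eventually_ge_atTop Y1)).exists
  have hlo : ∀ᶠ u : ℝ in atTop, 12 * Real.log u ≤ u := by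
    filter_upwards [Real.isLittleO_log_id_atTop.def (by norm_num : (0 : ℝ) < 1 / 12),
      eventually_ge_atTop (0 : ℝ)] with u hu hu0
    have h1 : Real.log u ≤ ‖Real.log u‖ := Real.le_norm_self _
    rw [id, Real.norm_of_nonneg hu0] at hu
    linarith
  have hev : ∀ᶠ x : ℕ in atTop, 12 ≤ Real.log (COR_L x) ∧
      12 * Real.log (COR_L x) ≤ COR_L x ∧ 4 * COR_L y0 ≤ COR_L x :=
    (hLL.eventually_ge_atTop 12).and ((hL.eventually hlo).and (hL.eventually_ge_atTop _))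
  obtain ⟨x, hx, h1, h2, h3⟩ := (hA.and_eventually hev).exists
  exact COR_main A Y1 y0 x (COR_L x) (Real.log (COR_L x)) hY1 hy0 hy1 rfl rfl h1 h2 h3 hx

end Pool.Agent.RMS
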