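import Pool.Agent.RMS.St2

/-! RMS, module CORE: assembly.  Statement and proof: `St_CORE` in `Pool/Agent/RMS/St2.lean`. -/

set_option autoImplicit false

namespace Pool.Agent.RMS

open Finset
open Classical

private theorem CORE_RS_nonneg (A : Set ℕ) (y z : ℕ) : 0 ≤ RS A y z := by
  unfold RS
  refine sum_nonneg fun a _ => ?_
  exact Set.indicator_nonneg (fun a _ => by positivity) a

private theorem CORE_sum (A : Set ℕ) (Y : ℕ) : ∑ a ∈ AY A Y, (1 : ℝ) / a = RS A 0 Y := by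
  unfold AY RS
  rw [sum_filter]
  have e : Icc 1 Y = Ioc 0 Y := by
    ext a
    simp [Nat.succ_le_iff, Nat.pos_iff_ne_zero]
  rw [e]
  refine sum_congr rfl fun a _ => ?_
  by_cases h : a ∈ A
  · rw [if_pos h, Set.indicator_of_mem h]
  · rw [if_neg h, Set.indicator_of_notMem h]

private theorem CORE_mem (A : Set ℕ) (Y : ℕ) : ∀ a ∈ AY A Y, 1 ≤ a ∧ a ≤ Y := by
  intro a ha
  unfold AY at ha
  exact mem_Icc.1 (mem_filter.1 ha).1

theorem thm_CORE (hL : St_LIFT) (hA : St_APP) (hU : St_TRU) (hG : St_STG) (hF : St_FNB)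
    (hD : St_DS2) : St_CORE := by
  intro A κ h s h1 hper hTA Y X J j0 K l n n1 k w L ε hhY hYX hsX hjX hj0 hj0J hLL hε hn hn1 hk hw
    hhw
  obtain ⟨κ', hκ1, hκ2⟩ := hL Y h κ h1 hhY hper
  have hB := CORE_mem A Y
  have hRS1 := CORE_RS_nonneg A Y (4 * X)
  have hRS0 := CORE_RS_nonneg A 0 Y
  have hY1 : 1 ≤ Y := h1.trans hhY
  have hX0 : 0 < X := by omega
  have hL0 : 0 ≤ L := by
    refine le_trans ?_ hLL
    have : (0 : ℝ) ≤ ∑ p ∈ (Icc 1 Y).filter Nat.Prime, (1 : ℝ) / p :=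
      sum_nonneg fun p _ => by positivity
    positivity
  obtain ⟨E, hE⟩ : ∃ E : ℝ, E = L ^ (K + 1) / (K + 1).factorial +
      Real.exp L * L ^ (2 * l) / (2 * l).factorial +
      2 * (Y : ℝ) ^ (K + 2 * l) * (Y + 2 : ℝ) ^ (K + 2 * l) / X := ⟨_, rfl⟩
  have hE0 : 0 ≤ E := by
    rw [hE]
    have := Real.exp_pos L
    positivity
  rw [← hE] at hε
  have hε0 : 0 ≤ ε := by
    refine le_trans ?_ hε
    positivity
  -- the bound for the bad event
  have hbad : ∀ j : ℕ, 1 ≤ j → j ≤ j0 →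
      pr (fun x : Om Y => (1 : ℝ) / 2 ^ (j + 3) < nrm (TT (AY A Y) J x - κ' x)) ≤ ε := by
    intro j hj hjj0
    have a1 := hA Y h J X K l (AY A Y) κ κ' ((1 : ℝ) / 2 ^ (j + 3)) L hB hX0 hY1 hκ1 hκ2 hLL
    have a2 := hU A κ s X Y J j hTA hsX hYX (by omega)
    have a3 : (4 : ℝ) * (j + 11) * RS A Y (4 * X) ≤ 4 * (j0 + 11) * RS A Y (4 * X) := by
      apply mul_le_mul_of_nonneg_right _ hRS1
      have : (j : ℝ) ≤ j0 := by exact_mod_cast hjj0
      linarith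
    have a4 : (2 : ℝ) ^ (j + 4) / 2 ^ J * (RS A 0 Y + 1) ≤
        2 ^ (j0 + 4) / 2 ^ J * (RS A 0 Y + 1) := by
      apply mul_le_mul_of_nonneg_right _ (by linarith)
      apply div_le_div_of_nonneg_right _ (by positivity)
      exact pow_le_pow_right₀ (by norm_num) (by omega)
    linarith
  obtain ⟨f1, f2, f3, f4⟩ := hF Y (AY A Y) hB
  rw [CORE_sum A Y] at f1
  refine hD (lam Y (AY A Y)) (Fn Y (AY A Y)) (RS A 0 Y) ε J j0 (max 200 (h + 1)) n n1 hRS0 hε0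
    (fun w => pr_nonneg _) (fun e => pr_nonneg _) f3 f2 f1 ?_ (le_max_left _ _) hj0 hn hn1 k w
    (max_le hw hhw) hk
  intro w j hW hj hjj0 hjw
  have hhw' : h < w := lt_of_lt_of_le (Nat.lt_succ_self h) ((le_max_right _ _).trans hW)
  exact hG Y (AY A Y) h κ' J j w ε hB hκ2 hj (hjj0.trans hj0J) hjw hhw' (hbad j hj hjj0)

end Pool.Agent.RMS
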