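import Pool.Agent.RMS.Basic

/-! RMS: module CRT (helper99). -/

set_option autoImplicit false

namespace Pool.Agent.RMS

open Finset
open Classical

theorem CRT_shift (G : ℕ → ℝ) (q : ℕ) (hG : ∀ m, G (m + q) = G m) (X : ℕ) :
    ∑ m ∈ range q, G (X + m) = ∑ m ∈ range q, G m := by
  induction X with
  | zero => simp
  | succ X ih =>
    rw [← ih]
    have h1 : ∑ m ∈ range (q + 1), G (X + m) = ∑ m ∈ range q, G (X + m) + G (X + q) :=
      sum_range_succ (fun m => G (X + m)) q
    have h2 : ∑ m ∈ range (q + 1), G (X + m) = ∑ m ∈ range q, G (X + (m + 1)) + G (X + 0) :=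
      sum_range_succ' (fun m => G (X + m)) q
    have h3 : G (X + q) = G (X + 0) := hG X
    have h4 : ∑ m ∈ range q, G (X + 1 + m) = ∑ m ∈ range q, G (X + (m + 1)) :=
      sum_congr rfl fun m _ => by rw [show X + 1 + m = X + (m + 1) by ring]
    linarith

theorem CRT_mul (G : ℕ → ℝ) (q : ℕ) (hG : ∀ m, G (m + q) = G m) (c : ℕ) :
    ∑ m ∈ range (q * c), G m = c * ∑ m ∈ range q, G m := by
  induction c with
  | zero => simp
  | succ c ih =>
    rw [Nat.mul_succ, sum_range_add, ih, CRT_shift G q hG (q * c)]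
    push_cast
    ring

/-- the mean of a periodic function over an interval -/
theorem CRT_mean (G : ℕ → ℝ) (q : ℕ) (hq : 0 < q) (hG : ∀ m, G (m + q) = G m)
    (h1 : ∀ m, |G m| ≤ 1) (X : ℕ) (hX : 0 < X) :
    |(∑ m ∈ Ico X (2 * X), G m) / X - (∑ m ∈ range q, G m) / q| ≤ 2 * (q : ℝ) / X := by
  have hqR : (0 : ℝ) < q := by exact_mod_cast hq
  have hXR : (0 : ℝ) < X := by exact_mod_cast hX
  set S : ℝ := ∑ m ∈ range q, G m with hS
  have hS1 : |S| ≤ q := by
    calc |S| ≤ ∑ m ∈ range q, |G m| := abs_sum_le_sum_abs _ _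
      _ ≤ ∑ _m ∈ range q, (1 : ℝ) := sum_le_sum fun m _ => h1 m
      _ = q := by simp
  set r := X % q with hr
  set c := X / q with hc
  have hXe : X = q * c + r := (Nat.div_add_mod X q).symm
  have hrq : r < q := Nat.mod_lt _ hq
  have hG' : ∀ m, G (X + (m + q)) = G (X + m) := fun m => by
    rw [← add_assoc]; exact hG _
  have hsum : ∑ m ∈ Ico X (2 * X), G m
      = c * S + ∑ m ∈ range r, G (X + (q * c + m)) := by
    rw [sum_Ico_eq_sum_range, show 2 * X - X = q * c + r by omega, sum_range_add,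
      CRT_mul (fun m => G (X + m)) q hG' c, CRT_shift G q hG X]
  have hrest : |∑ m ∈ range r, G (X + (q * c + m))| ≤ r := by
    calc |∑ m ∈ range r, G (X + (q * c + m))| ≤ ∑ m ∈ range r, |G (X + (q * c + m))| :=
          abs_sum_le_sum_abs _ _
      _ ≤ ∑ _m ∈ range r, (1 : ℝ) := sum_le_sum fun m _ => h1 _
      _ = r := by simp
  have hXR' : (X : ℝ) = q * c + r := by exact_mod_cast hXe
  have hid : (∑ m ∈ Ico X (2 * X), G m) / X - S / q
      = (∑ m ∈ range r, G (X + (q * c + m)) - r * (S / q)) / X := by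
    rw [hsum, div_sub' hXR.ne']
    congr 1
    have : (X : ℝ) * (S / q) = c * S + r * (S / q) := by
      rw [hXR']
      field_simp
    rw [this]
    ring
  rw [hid, abs_div, abs_of_pos hXR]
  apply div_le_div_of_nonneg_right _ hXR.le
  have hrR : (r : ℝ) ≤ q := by exact_mod_cast hrq.le
  have h5 : |(r : ℝ) * (S / q)| ≤ r := by
    rw [abs_mul, abs_div, abs_of_pos hqR, abs_of_nonneg (Nat.cast_nonneg r)]
    have : |S| / q ≤ 1 := (div_le_one hqR).2 hS1
    calc (r : ℝ) * (|S| / q) ≤ r * 1 := mul_le_mul_of_nonneg_left this (Nat.cast_nonneg _)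
      _ = r := mul_one _
  calc |∑ m ∈ range r, G (X + (q * c + m)) - r * (S / q)|
      ≤ |∑ m ∈ range r, G (X + (q * c + m))| + |r * (S / q)| := abs_sub _ _
    _ ≤ r + r := add_le_add hrest h5
    _ ≤ 2 * q := by linarith

theorem CRT_zmod (M : ℕ) [NeZero M] (F : ZMod M → ℝ) :
    ∑ z, F z = ∑ m ∈ range M, F (m : ZMod M) := by
  symm
  refine sum_bij (fun m _ => (m : ZMod M)) (fun m _ => mem_univ _) ?_ ?_ (fun m _ => rfl)
  · intro a ha b hb hab
    have h := congrArg ZMod.val hab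
    rwa [ZMod.val_natCast, ZMod.val_natCast, Nat.mod_eq_of_lt (mem_range.1 ha),
      Nat.mod_eq_of_lt (mem_range.1 hb)] at h
  · intro z _
    exact ⟨z.val, mem_range.2 (ZMod.val_lt z), ZMod.natCast_zmod_val z⟩

theorem thm_CRT : St_CRT := by
  intro ι _ Q _ hcop T g X hX hg1 hgT
  set q : ℕ := ∏ i ∈ T, Q i with hq
  set M : ℕ := ∏ i, Q i with hM
  have hq0 : 0 < q := prod_pos fun i _ => Nat.pos_of_ne_zero (NeZero.ne (Q i))
  have hM0 : 0 < M := prod_pos fun i _ => Nat.pos_of_ne_zero (NeZero.ne (Q i))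
  have hqM : q ∣ M := prod_dvd_prod_of_subset _ _ _ (subset_univ T)
  set G : ℕ → ℝ := fun m => g (fun i => ((m : ℕ) : ZMod (Q i))) with hGdef
  have hG : ∀ m, G (m + q) = G m := by
    intro m
    refine hgT _ _ fun i hi => ?_
    have h1 : ((q : ℕ) : ZMod (Q i)) = 0 := (ZMod.natCast_eq_zero_iff _ _).2 (dvd_prod_of_mem _ hi)
    rw [Nat.cast_add, h1, add_zero]
  have hG1 : ∀ m, |G m| ≤ 1 := fun m => hg1 _
  have hmean : (∑ x, g x) / (Fintype.card (∀ i, ZMod (Q i)) : ℝ)
      = (∑ m ∈ range q, G m) / q := by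
    have hne : NeZero M := ⟨hM0.ne'⟩
    have hne' : NeZero (∏ i, Q i) := hne
    have hpw : Pairwise (Function.onFun Nat.Coprime Q) := fun i j hij => hcop i j hij
    let e := ZMod.prodEquivPi Q hpw
    have hcard : Fintype.card (∀ i, ZMod (Q i)) = M := by
      rw [Fintype.card_pi]
      exact prod_congr rfl fun i _ => ZMod.card _
    have hsum : ∑ x, g x = ∑ m ∈ range M, G m := by
      rw [← Equiv.sum_comp e.toEquiv g, CRT_zmod (∏ i, Q i) (fun z => g (e.toEquiv z))]
      refine sum_congr rfl fun m _ => ?_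
      have h2 : e.toEquiv ((m : ℕ) : ZMod (∏ i, Q i)) = fun i => ((m : ℕ) : ZMod (Q i)) := by
        change e ((m : ℕ) : ZMod (∏ i, Q i)) = _
        rw [map_natCast]
        rfl
      rw [h2]
    obtain ⟨c, hc⟩ := hqM
    have hc0 : c ≠ 0 := by
      rintro rfl
      rw [mul_zero] at hc
      omega
    rw [hsum, hcard, hc, CRT_mul G q hG c]
    have hqR : (q : ℝ) ≠ 0 := by exact_mod_cast hq0.ne'
    have hcR : (c : ℝ) ≠ 0 := by exact_mod_cast hc0
    push_cast
    field_simp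
  rw [hmean]
  exact CRT_mean G q hq0 hG hG1 X hX

end Pool.Agent.RMS
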