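import Pool.Agent.RMS.Basic

/-! RMS, module DIF: changing one coordinate of a point (helper40). -/

set_option autoImplicit false

namespace Pool.Agent.RMS

open Finset
open Classical

private theorem DIF_val {Y p : ℕ} (hp : p.Prime) (hpY : p ≤ Y) (z : ZMod (QQ Y p)) (k : ℕ) :
    p ∣ (z + ((k : ℕ) : ZMod (QQ Y p))).val ↔ p ∣ z.val + k := by
  have hQ : p ∣ QQ Y p := by
    unfold QQ
    rw [if_pos hp]
    refine dvd_pow_self p ?_
    exact (Nat.log_pos hp.one_lt hpY).ne'
  rw [ZMod.val_add, ZMod.val_natCast, Nat.dvd_mod_iff hQ, ← Nat.dvd_mod_iff hQ,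
    Nat.add_mod_mod, Nat.dvd_mod_iff hQ]

private theorem DIF_pow {p n e : ℕ} (h : ¬ p ∣ n) : p ^ e ∣ n ↔ e = 0 := by
  constructor
  · intro h1
    by_contra h2
    exact h ((dvd_pow_self p h2).trans h1)
  · rintro rfl
    rw [pow_zero]
    exact one_dvd n

private theorem DIF_dv {Y : ℕ} (x : Om Y) (i : Fin (Y + 1)) (y : ZMod (QQ Y i)) (a k : ℕ)
    (h : (i : ℕ) ^ (a.factorization i) ∣ (y + ((k : ℕ) : ZMod (QQ Y i))).val ↔
      (i : ℕ) ^ (a.factorization i) ∣ (x i + ((k : ℕ) : ZMod (QQ Y i))).val) :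
    dv a (Function.update x i y + ((k : ℕ) : Om Y)) ↔ dv a (x + ((k : ℕ) : Om Y)) := by
  unfold dv
  refine forall_congr' fun i' => ?_
  rw [Pi.add_apply, Pi.add_apply, Pi.natCast_apply]
  by_cases hi : i' = i
  · subst hi
    rw [Function.update_self]
    exact h
  · rw [Function.update_of_ne hi]

theorem thm_DIF : St_DIF := by
  intro Y B x i y v j hp hj1 hjv hvi hB hxj hy
  have hpY : (i : ℕ) ≤ Y := Nat.lt_succ_iff.1 i.2
  have hxj' := (DIF_val hp hpY (x i) j).1 hxj
  refine ⟨fun k hk1 hkv hkj => ?_, ?_⟩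
  · have hxk : ¬ (i : ℕ) ∣ (x i + ((k : ℕ) : ZMod (QQ Y i))).val := by
      rw [DIF_val hp hpY]
      intro h1
      rcases lt_or_gt_of_ne hkj with h2 | h2
      · have h3 := (Nat.dvd_sub hxj' h1)
        have h4 : (x i).val + j - ((x i).val + k) = j - k := by omega
        rw [h4] at h3
        have h5 := Nat.le_of_dvd (by omega) h3
        omega
      · have h3 := (Nat.dvd_sub h1 hxj')
        have h4 : (x i).val + k - ((x i).val + j) = k - j := by omega
        rw [h4] at h3
        have h5 := Nat.le_of_dvd (by omega) h3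
        omega
    unfold DD
    congr 1
    refine filter_congr fun a _ => ?_
    exact DIF_dv x i y a k (by rw [DIF_pow (hy k hk1 hkv), DIF_pow hxk])
  · unfold DD
    rw [card_filter, card_filter, card_filter, ← sum_add_distrib]
    refine sum_congr rfl fun a ha => ?_
    by_cases hpa : (i : ℕ) ∣ a
    · have h1 : ¬ dv a (Function.update x i y + ((j : ℕ) : Om Y)) := by
        intro h2
        have h3 := h2 i
        rw [Pi.add_apply, Pi.natCast_apply, Function.update_self, DIF_pow (hy j hj1 hjv)] at h3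
        have h4 := hp.factorization_pos_of_dvd (hB a ha) hpa
        omega
      rw [if_neg h1, zero_add]
      by_cases h2 : dv a (x + ((j : ℕ) : Om Y))
      · rw [if_pos h2, if_pos ⟨hpa, h2⟩]
      · rw [if_neg h2, if_neg fun h3 => h2 h3.2]
    · have h1 : dv a (Function.update x i y + ((j : ℕ) : Om Y)) ↔ dv a (x + ((j : ℕ) : Om Y)) := by
        refine DIF_dv x i y a j ?_
        rw [Nat.factorization_eq_zero_of_not_dvd hpa, pow_zero]
        exact ⟨fun _ => one_dvd _, fun _ => one_dvd _⟩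
      have h4 : ¬ ((i : ℕ) ∣ a ∧ dv a (x + ((j : ℕ) : Om Y))) := fun h3 => hpa h3.1
      by_cases h2 : dv a (x + ((j : ℕ) : Om Y))
      · rw [if_pos h2, if_pos (h1.2 h2), if_neg h4]
      · rw [if_neg h2, if_neg (fun h3 => h2 (h1.1 h3)), if_neg h4]

end Pool.Agent.RMS
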