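import Pool.Agent.RMS.St2

/-! RMS, module DS2: refined descent.  Statement and proof: `St_DS2` in `Pool/Agent/RMS/St2.lean`. -/

set_option autoImplicit false

namespace Pool.Agent.RMS

open Finset
open Classical

private theorem DS2_s2 (n J : ℕ) : ∑ i ∈ Ioc n J, (1 : ℝ) / 2 ^ (i / 2) ≤ 3 / 2 ^ (n / 2) := by
  have key : ∀ d : ℕ, ∑ i ∈ Ioc n (n + d), (1 : ℝ) / 2 ^ (i / 2) ≤
      (3 - (n % 2 : ℕ)) / 2 ^ (n / 2) - (3 - ((n + d) % 2 : ℕ)) / 2 ^ ((n + d) / 2) := by
    intro d
    induction d with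
    | zero => simp
    | succ d ih =>
      rw [← add_assoc, ← Finset.insert_Ioc_right_eq_Ioc_add_one (by omega), sum_insert (by simp)]
      have e : (1 : ℝ) / 2 ^ ((n + d + 1) / 2) ≤ (3 - ((n + d) % 2 : ℕ)) / 2 ^ ((n + d) / 2) -
          (3 - ((n + d + 1) % 2 : ℕ)) / 2 ^ ((n + d + 1) / 2) := by
        obtain ⟨m, r, hr, hm⟩ : ∃ m r, r < 2 ∧ n + d = 2 * m + r :=
          ⟨(n + d) / 2, (n + d) % 2, by omega, by omega⟩
        rw [hm]
        interval_cases r
        · have h1 : (2 * m + 0 + 1) / 2 = m := by omega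
          have h2 : (2 * m + 0) / 2 = m := by omega
          have h3 : (2 * m + 0) % 2 = 0 := by omega
          have h4 : (2 * m + 0 + 1) % 2 = 1 := by omega
          rw [h1, h2, h3, h4, ← sub_div]
          apply le_of_eq
          norm_num
        · have h1 : (2 * m + 1 + 1) / 2 = m + 1 := by omega
          have h2 : (2 * m + 1) / 2 = m := by omega
          have h3 : (2 * m + 1) % 2 = 1 := by omega
          have h4 : (2 * m + 1 + 1) % 2 = 0 := by omega
          rw [h1, h2, h3, h4, pow_succ]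
          have h5 : (0 : ℝ) < 2 ^ m := by positivity
          apply le_of_eq
          field_simp
          norm_num
      linarith
  rcases le_total n J with h | h
  · obtain ⟨d, rfl⟩ := Nat.exists_eq_add_of_le h
    refine (key d).trans ?_
    have h1 : (0 : ℝ) ≤ (3 - ((n + d) % 2 : ℕ)) / 2 ^ ((n + d) / 2) := by
      have : (((n + d) % 2 : ℕ) : ℝ) ≤ 3 := by
        have h2 : (n + d) % 2 ≤ 3 := by omega
        exact_mod_cast h2
      exact div_nonneg (by linarith) (by positivity)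
    have h2 : (3 - ((n % 2 : ℕ) : ℝ)) / 2 ^ (n / 2) ≤ 3 / 2 ^ (n / 2) := by
      apply div_le_div_of_nonneg_right _ (by positivity)
      have : (0 : ℝ) ≤ (n % 2 : ℕ) := Nat.cast_nonneg _
      linarith
    linarith
  · rw [Ioc_eq_empty (by omega), sum_empty]
    positivity

private theorem DS2_s4 (n J : ℕ) : ∑ i ∈ Ioc n J, (1 : ℝ) / 2 ^ (i / 4) ≤ 7 / 2 ^ (n / 4) := by
  have key : ∀ d : ℕ, ∑ i ∈ Ioc n (n + d), (1 : ℝ) / 2 ^ (i / 4) ≤
      (7 - (n % 4 : ℕ)) / 2 ^ (n / 4) - (7 - ((n + d) % 4 : ℕ)) / 2 ^ ((n + d) / 4) := by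
    intro d
    induction d with
    | zero => simp
    | succ d ih =>
      rw [← add_assoc, ← Finset.insert_Ioc_right_eq_Ioc_add_one (by omega), sum_insert (by simp)]
      have e : (1 : ℝ) / 2 ^ ((n + d + 1) / 4) ≤ (7 - ((n + d) % 4 : ℕ)) / 2 ^ ((n + d) / 4) -
          (7 - ((n + d + 1) % 4 : ℕ)) / 2 ^ ((n + d + 1) / 4) := by
        obtain ⟨m, r, hr, hm⟩ : ∃ m r, r < 4 ∧ n + d = 4 * m + r :=
          ⟨(n + d) / 4, (n + d) % 4, by omega, by omega⟩
        rw [hm]
        by_cases hr3 : r = 3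
        · subst hr3
          have h1 : (4 * m + 3 + 1) / 4 = m + 1 := by omega
          have h2 : (4 * m + 3) / 4 = m := by omega
          have h3 : (4 * m + 3) % 4 = 3 := by omega
          have h4 : (4 * m + 3 + 1) % 4 = 0 := by omega
          rw [h1, h2, h3, h4, pow_succ]
          have h5 : (0 : ℝ) < 2 ^ m := by positivity
          apply le_of_eq
          field_simp
          norm_num
        · have h1 : (4 * m + r + 1) / 4 = m := by omega
          have h2 : (4 * m + r) / 4 = m := by omega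
          have h3 : (4 * m + r) % 4 = r := by omega
          have h4 : (4 * m + r + 1) % 4 = r + 1 := by omega
          rw [h1, h2, h3, h4, ← sub_div]
          apply le_of_eq
          push_cast
          ring
      linarith
  rcases le_total n J with h | h
  · obtain ⟨d, rfl⟩ := Nat.exists_eq_add_of_le h
    refine (key d).trans ?_
    have h1 : (0 : ℝ) ≤ (7 - ((n + d) % 4 : ℕ)) / 2 ^ ((n + d) / 4) := by
      have : (((n + d) % 4 : ℕ) : ℝ) ≤ 7 := by
        have h2 : (n + d) % 4 ≤ 7 := by omega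
        exact_mod_cast h2
      exact div_nonneg (by linarith) (by positivity)
    have h2 : (7 - ((n % 4 : ℕ) : ℝ)) / 2 ^ (n / 4) ≤ 7 / 2 ^ (n / 4) := by
      apply div_le_div_of_nonneg_right _ (by positivity)
      have : (0 : ℝ) ≤ (n % 4 : ℕ) := Nat.cast_nonneg _
      linarith
    linarith
  · rw [Ioc_eq_empty (by omega), sum_empty]
    positivity

/-- `20 n ≤ 2 ^ n` for `n ≥ 8`, in the form `n ≤ 2 ^ n / 20` -/
private theorem DS2_p1 (n : ℕ) (hn : 8 ≤ n) : n ≤ 2 ^ n / 20 := by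
  rw [Nat.le_div_iff_mul_le (by norm_num)]
  induction n, hn using Nat.le_induction with
  | base => norm_num
  | succ n hn ih => rw [pow_succ]; omega

private theorem DS2_p2 (n : ℕ) (hn : 22 ≤ n) : 16 * n + 62 ≤ 2 ^ n := by
  induction n, hn using Nat.le_induction with
  | base => norm_num
  | succ n hn ih => rw [pow_succ]; omega


/-- the elementary estimates behind one step -/
private theorem DS2_step (lm F : ℕ → ℝ) (ε : ℝ) (J j0 W0 : ℕ)
    (hB1 : ∀ e w : ℕ, 1 ≤ w → F e ≤ lm w + w / 2 ^ e)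
    (hR : ∀ w j : ℕ, W0 ≤ w → 1 ≤ j → j ≤ j0 → 4 * j + 20 ≤ w →
      lm w ≤ 2 * F j + 10 * ε + 10 * ∑ i ∈ Ioc (w / 2) J, F (i / 2))
    (hW0 : 200 ≤ W0) (w : ℕ) (hw : W0 ≤ w) (hw0 : w < 4 * j0 + 20) (a' : ℝ) (a : ℕ → ℝ)
    (ha' : ∀ m : ℕ, m = 2 ^ (((w - 20) / 4) / 2) → 2 * w ≤ m → lm m ≤ a' + 1 / 2 ^ (m / 20))
    (ha : ∀ i ∈ Ioc (w / 2) J, ∀ m : ℕ, m = 2 ^ (i / 4) → 2 * w ≤ m →
      lm m ≤ a i + 1 / 2 ^ (m / 20)) :
    lm w ≤ 10 * ε + 2 * a' + 10 * ∑ i ∈ Ioc (w / 2) J, a i + 1 / 2 ^ (w / 20) := by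
  obtain ⟨j, hj⟩ : ∃ j, j = (w - 20) / 4 := ⟨_, rfl⟩
  rw [← hj] at ha'
  have hj45 : 45 ≤ j := by omega
  have hjj0 : j ≤ j0 := by omega
  have hjw : 4 * j + 20 ≤ w := by omega
  have hwj : w ≤ 4 * j + 23 := by omega
  have h1 := hR w j hw (by omega) hjj0 hjw
  have gen : ∀ (n e : ℕ) (b : ℝ), 22 ≤ n → n + n ≤ e →
      lm (2 ^ n) ≤ b + 1 / 2 ^ (2 ^ n / 20) → F e ≤ b + 2 / 2 ^ n := by
    intro n e b hn hne a2
    have hpos : 1 ≤ 2 ^ n := Nat.one_le_two_pow
    have a1 := hB1 e (2 ^ n) hpos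
    have a3 : (1 : ℝ) / 2 ^ (2 ^ n / 20) ≤ 1 / 2 ^ n := by
      apply div_le_div_of_nonneg_left (by norm_num) (by positivity)
      exact pow_le_pow_right₀ (by norm_num) (DS2_p1 n (by omega))
    have a4 : (((2 ^ n : ℕ) : ℝ)) / 2 ^ e ≤ 1 / 2 ^ n := by
      rw [div_le_div_iff₀ (by positivity) (by positivity), Nat.cast_pow, Nat.cast_ofNat,
        ← pow_add, one_mul]
      exact pow_le_pow_right₀ (by norm_num) hne
    have a5 : (2 : ℝ) / 2 ^ n = 1 / 2 ^ n + 1 / 2 ^ n := by ring
    rw [a5]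
    linarith
  have h2 : F j ≤ a' + 2 / 2 ^ (j / 2) := by
    refine gen (j / 2) j a' (by omega) (by omega) (ha' _ rfl ?_)
    have := DS2_p2 (j / 2) (by omega)
    omega
  have h3 : ∀ i ∈ Ioc (w / 2) J, F (i / 2) ≤ a i + 2 * (1 / 2 ^ (i / 4)) := by
    intro i hi
    have hi1 := (mem_Ioc.1 hi).1
    have := gen (i / 4) (i / 2) (a i) (by omega) (by omega) (ha i hi _ rfl (by
      have := DS2_p2 (i / 4) (by omega)
      omega))
    have e : (2 : ℝ) / 2 ^ (i / 4) = 2 * (1 / 2 ^ (i / 4)) := by ring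
    rwa [e] at this
  have h4 : ∑ i ∈ Ioc (w / 2) J, F (i / 2) ≤
      ∑ i ∈ Ioc (w / 2) J, a i + 2 * (7 / 2 ^ ((w / 2) / 4)) := by
    refine (sum_le_sum h3).trans ?_
    rw [sum_add_distrib, ← mul_sum]
    exact add_le_add le_rfl (mul_le_mul_of_nonneg_left (DS2_s4 _ _) (by norm_num : (0 : ℝ) ≤ 2))
  have e1 : j / 2 + 3 ≥ w / 8 := by omega
  have e2 : (w / 2) / 4 = w / 8 := by omega
  have h5 : (2 : ℝ) / 2 ^ (j / 2) ≤ 16 * (1 / 2 ^ (w / 8)) := by
    have : (1 : ℝ) / 2 ^ (j / 2 + 3) ≤ 1 / 2 ^ (w / 8) := by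
      apply div_le_div_of_nonneg_left (by norm_num) (by positivity)
      exact pow_le_pow_right₀ (by norm_num) e1
    have e3 : (2 : ℝ) / 2 ^ (j / 2) = 16 * (1 / 2 ^ (j / 2 + 3)) := by
      rw [pow_add]
      field_simp
      norm_num
    rw [e3]
    exact mul_le_mul_of_nonneg_left this (by norm_num)
  have h6 : (172 : ℝ) * (1 / 2 ^ (w / 8)) ≤ 1 / 2 ^ (w / 20) := by
    have : (1 : ℝ) / 2 ^ (w / 8) ≤ 1 / 2 ^ (w / 20 + 8) := by
      apply div_le_div_of_nonneg_left (by norm_num) (by positivity)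
      exact pow_le_pow_right₀ (by norm_num) (by omega)
    have e3 : (1 : ℝ) / 2 ^ (w / 20 + 8) = 1 / 256 * (1 / 2 ^ (w / 20)) := by
      rw [pow_add]
      field_simp
      norm_num
    rw [e3] at this
    have h7 : (0 : ℝ) ≤ 1 / 2 ^ (w / 20) := by positivity
    linarith
  rw [e2] at h4
  have e4 : (7 : ℝ) / 2 ^ (w / 8) = 7 * (1 / 2 ^ (w / 8)) := by ring
  rw [e4] at h4
  linarith

theorem thm_DS2 : St_DS2 := by
  intro lm F S ε J j0 W0 n n1 hS hε hlm hF hanti hB1 hB2 hR hW0 hj0 hn hn1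
  obtain ⟨δ, hδ⟩ : ∃ δ : ℝ, δ = 10 * ε + 4 * S / 2 ^ j0 := ⟨_, rfl⟩
  have hSj : 0 ≤ S / 2 ^ j0 := div_nonneg hS (by positivity)
  have e4S : 4 * S / 2 ^ j0 = 4 * (S / 2 ^ j0) := by ring
  have hδ0 : 0 ≤ δ := by rw [hδ, e4S]; linarith
  have hδε : 10 * ε ≤ δ := by rw [hδ, e4S]; linarith
  have hJ0 : (0 : ℝ) ≤ J := Nat.cast_nonneg _
  have hn0 : (0 : ℝ) ≤ n := Nat.cast_nonneg _
  have hn10 : (0 : ℝ) ≤ n1 := Nat.cast_nonneg _
  obtain ⟨δ1, hδ1⟩ : ∃ δ1 : ℝ, δ1 = (3 + 10 * (J : ℝ)) * δ := ⟨_, rfl⟩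
  have hJδ : 0 ≤ (J : ℝ) * δ := mul_nonneg hJ0 hδ0
  have hδδ1 : δ ≤ δ1 := by rw [hδ1]; nlinarith
  have hδ10 : 0 ≤ δ1 := hδ0.trans hδδ1
  -- (0)
  have h0 : ∀ w : ℕ, W0 ≤ w → 4 * j0 + 20 ≤ w → lm w ≤ δ := by
    intro w hw hk
    have h1 := hR w j0 hw (by omega) le_rfl hk
    have h2 := hB2 j0
    have h3 : ∑ i ∈ Ioc (w / 2) J, F (i / 2) ≤ S * (3 / 2 ^ ((w / 2) / 2)) := by
      refine le_trans ?_ (mul_le_mul_of_nonneg_left (DS2_s2 (w / 2) J) hS)
      rw [mul_sum]
      refine sum_le_sum fun i _ => ?_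
      refine (hB2 (i / 2)).trans (le_of_eq ?_)
      ring
    have h4 : (3 : ℝ) / 2 ^ ((w / 2) / 2) ≤ 3 / 2 ^ (j0 + 5) := by
      apply div_le_div_of_nonneg_left (by norm_num) (by positivity)
      exact pow_le_pow_right₀ (by norm_num) (by omega)
    have h5 : S * (3 / 2 ^ ((w / 2) / 2)) ≤ S * (3 / 2 ^ (j0 + 5)) :=
      mul_le_mul_of_nonneg_left h4 hS
    have h6 : S * (3 / 2 ^ (j0 + 5)) = 3 / 32 * (S / 2 ^ j0) := by
      rw [pow_add]
      field_simp
      norm_num
    rw [hδ, e4S]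
    linarith
  have pos2 : ∀ m : ℕ, (0 : ℝ) ≤ 1 / 2 ^ m := fun m => by positivity
  -- (2)
  have h2 : ∀ w : ℕ, W0 ≤ w → 8 * n + 40 ≤ w → lm w ≤ δ1 + 1 / 2 ^ (w / 20) := by
    intro w hw hw1
    by_cases hc : 4 * j0 + 20 ≤ w
    · have := h0 w hw hc
      have := pos2 (w / 20)
      linarith
    · have key := DS2_step lm F ε J j0 W0 hB1 hR hW0 w hw (by omega) δ (fun _ => δ) (by
        intro m hm hwm
        have h1 : 2 ^ n ≤ m := by
          rw [hm]
          exact Nat.pow_le_pow_right (by norm_num) (by omega)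
        have := h0 m (by omega) (by omega)
        have := pos2 (m / 20)
        linarith) (by
        intro i hi m hm hwm
        have hi1 := (mem_Ioc.1 hi).1
        have h1 : 2 ^ n ≤ m := by
          rw [hm]
          exact Nat.pow_le_pow_right (by norm_num) (by omega)
        have := h0 m (by omega) (by omega)
        have := pos2 (m / 20)
        linarith)
      rw [sum_const, nsmul_eq_mul, Nat.card_Ioc] at key
      have h3 : ((J - w / 2 : ℕ) : ℝ) * δ ≤ J * δ := by
        apply mul_le_mul_of_nonneg_right _ hδ0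
        exact_mod_cast Nat.sub_le J (w / 2)
      have h4 : δ1 = 3 * δ + 10 * (J * δ) := by rw [hδ1]; ring
      rw [h4]
      linarith
  -- (3)
  obtain ⟨B, hB⟩ : ∃ B : ℝ, B = (40 * (n : ℝ) + 1) * δ1 := ⟨_, rfl⟩
  have hnδ : 0 ≤ (n : ℝ) * δ1 := mul_nonneg hn0 hδ10
  have hB0 : δ1 ≤ B := by rw [hB]; nlinarith
  obtain ⟨K, hK⟩ : ∃ K : ℝ, K = 3 + 40 * (n1 : ℝ) := ⟨_, rfl⟩
  have hK1 : 1 ≤ K := by rw [hK]; linarith
  have main : ∀ k w : ℕ, W0 ≤ w → 8 * n + 40 ≤ 2 ^ k * w →
      lm w ≤ K ^ k * B + 1 / 2 ^ (w / 20) := by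
    intro k
    induction k with
    | zero =>
      intro w hw hk
      rw [pow_zero, one_mul] at hk
      rw [pow_zero, one_mul]
      have := h2 w hw hk
      linarith
    | succ k ih =>
      intro w hw hk
      have hKk : 1 ≤ K ^ k := one_le_pow₀ hK1
      have hBB : B ≤ K ^ k * B := le_mul_of_one_le_left (hδ10.trans hB0) hKk
      have hA0 : 0 ≤ K ^ k * B := (hδ10.trans hB0).trans hBB
      have hAA : K ^ k * B ≤ K ^ (k + 1) * B := by
        rw [pow_succ', mul_assoc]
        exact le_mul_of_one_le_left hA0 hK1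
      by_cases hc : 8 * n + 40 ≤ 2 ^ k * w
      · have := ih w hw hc
        linarith
      · have h2k : 1 ≤ 2 ^ k := Nat.one_le_two_pow
        have hww : w ≤ 2 ^ k * w := Nat.le_mul_of_pos_left w h2k
        by_cases hc0 : 4 * j0 + 20 ≤ w
        · have := h0 w hw hc0
          have := pos2 (w / 20)
          linarith
        · have ihm : ∀ m : ℕ, 2 * w ≤ m → lm m ≤ K ^ k * B + 1 / 2 ^ (m / 20) := by
            intro m hm
            apply ih m (by omega)
            have h5 : 2 ^ k * (2 * w) ≤ 2 ^ k * m := Nat.mul_le_mul_left _ hm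
            have e1 : 2 ^ (k + 1) * w = 2 ^ k * (2 * w) := by ring
            omega
          have key := DS2_step lm F ε J j0 W0 hB1 hR hW0 w hw (by omega) (K ^ k * B)
            (fun i => δ + ((if i < 4 * n then δ1 else 0) + (if i < 4 * n1 then K ^ k * B else 0)))
            (by
              intro m hm hwm
              exact ihm m hwm) (by
              intro i hi m hm hwm
              have hi1 := (mem_Ioc.1 hi).1
              have hp := pos2 (m / 20)
              by_cases c1 : i < 4 * n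
              · by_cases c2 : i < 4 * n1
                · have := ihm m hwm
                  simp only [if_pos c1, if_pos c2]
                  linarith
                · have h1 : 2 ^ n1 ≤ m := by
                    rw [hm]
                    exact Nat.pow_le_pow_right (by norm_num) (by omega)
                  have := h2 m (by omega) (by omega)
                  simp only [if_pos c1, if_neg c2]
                  linarith
              · have h1 : 2 ^ n ≤ m := by
                  rw [hm]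
                  exact Nat.pow_le_pow_right (by norm_num) (by omega)
                have := h0 m (by omega) (by omega)
                have h6 : (0 : ℝ) ≤ if i < 4 * n1 then K ^ k * B else 0 := by
                  split_ifs
                  · exact hA0
                  · exact le_rfl
                simp only [if_neg c1]
                linarith)
          have cnt : ∀ (b : ℕ) (c : ℝ), 0 ≤ c →
              ∑ i ∈ Ioc (w / 2) J, (if i < b then c else 0) ≤ b * c := by
            intro b c hc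
            rw [← sum_filter, sum_const, nsmul_eq_mul]
            apply mul_le_mul_of_nonneg_right _ hc
            have : ((Ioc (w / 2) J).filter fun i => i < b) ⊆ range b := by
              intro i hi
              exact mem_range.2 (mem_filter.1 hi).2
            exact_mod_cast (card_le_card this).trans (le_of_eq (card_range b))
          rw [sum_add_distrib, sum_add_distrib, sum_const, nsmul_eq_mul, Nat.card_Ioc] at key
          have h3 : ((J - w / 2 : ℕ) : ℝ) * δ ≤ J * δ := by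
            apply mul_le_mul_of_nonneg_right _ hδ0
            exact_mod_cast Nat.sub_le J (w / 2)
          have h4 := cnt (4 * n) δ1 hδ10
          have h5 := cnt (4 * n1) (K ^ k * B) hA0
          push_cast at h4 h5
          have h6 : δ1 = 3 * δ + 10 * (J * δ) := by rw [hδ1]; ring
          have h7 : K ^ (k + 1) * B = 3 * (K ^ k * B) + 40 * (n1 * (K ^ k * B)) := by
            rw [pow_succ, hK]
            ring
          have h8 : B = 40 * (n * δ1) + δ1 := by rw [hB]; ring
          rw [h7]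
          nlinarith
  intro k w hw hk
  have := main k w hw hk
  rw [hB, hδ1, hδ, hK] at this
  refine this.trans (le_of_eq ?_)
  ring

end Pool.Agent.RMS
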