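import Pool.Agent.RMS.Basic

/-! RMS, module EMB. -/

set_option autoImplicit false

namespace Pool.Agent.RMS

open Finset
open Classical

theorem EMB_pow_dvd (Y a p : ℕ) (ha : 1 ≤ a) (hY : a ≤ Y) (hp : p.Prime) :
    p ^ (a.factorization p) ∣ QQ Y p := by
  unfold QQ
  rw [if_pos hp]
  refine pow_dvd_pow p (Nat.le_log_of_pow_le hp.one_lt ?_)
  exact (Nat.le_of_dvd ha (Nat.ordProj_dvd a p)).trans hY

theorem EMB_coord (Y a m : ℕ) (ha : 1 ≤ a) (hY : a ≤ Y) (i : Fin (Y + 1)) :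
    (i : ℕ) ^ (a.factorization i) ∣ (((m : ℕ) : Om Y) i).val ↔
      (i : ℕ) ^ (a.factorization i) ∣ m := by
  rw [Pi.natCast_apply, ZMod.val_natCast]
  by_cases hp : (i : ℕ).Prime
  · exact Nat.dvd_mod_iff (EMB_pow_dvd Y a i ha hY hp)
  · rw [Nat.factorization_eq_zero_of_not_prime a hp, pow_zero]
    exact ⟨fun _ => one_dvd _, fun _ => one_dvd _⟩

theorem EMB_dv (Y a m : ℕ) (ha : 1 ≤ a) (hY : a ≤ Y) :
    dv a ((m : ℕ) : Om Y) ↔ a ∣ m := by
  constructor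
  · intro h
    rw [Nat.dvd_iff_prime_pow_dvd_dvd]
    intro p k hp hk
    rcases Nat.eq_zero_or_pos k with rfl | hk0
    · rw [pow_zero]
      exact one_dvd _
    have hle : p ^ k ≤ a := Nat.le_of_dvd ha hk
    have hpa : p ≤ a := (Nat.le_self_pow hk0.ne' p).trans hle
    have h1 := (EMB_coord Y a m ha hY ⟨p, by omega⟩).1 (h ⟨p, by omega⟩)
    refine dvd_trans (pow_dvd_pow p ?_) h1
    exact (hp.pow_dvd_iff_le_factorization (by omega)).1 hk
  · intro h i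
    exact (EMB_coord Y a m ha hY i).2 ((Nat.ordProj_dvd a i).trans h)

theorem thm_EMB : St_EMB := by
  refine ⟨fun Y a m ha hY => EMB_dv Y a m ha hY, fun Y B hB => ?_⟩
  have h1 : ∀ m : ℕ, DD B ((m : ℕ) : Om Y) = dF B m := by
    intro m
    unfold DD dF
    congr 1
    ext a
    rw [mem_filter, mem_filter]
    exact ⟨fun h => ⟨h.1, (EMB_dv Y a m (hB a h.1).1 (hB a h.1).2).1 h.2⟩,
      fun h => ⟨h.1, (EMB_dv Y a m (hB a h.1).1 (hB a h.1).2).2 h.2⟩⟩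
  refine ⟨h1, fun J m => ?_⟩
  unfold TT TF
  refine sum_congr rfl fun i _ => ?_
  rw [← Nat.cast_add, h1]

end Pool.Agent.RMS
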