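import Pool.Agent.RMS.St2
import Pool.Agent.Helper89.Defect

/-!
RMS, module ERD: sets with convergent sum of reciprocals (Erdos 1968)
-/

set_option autoImplicit false

namespace Pool.Agent.RMS

open Finset Filter
open Classical

open Pool.Agent.Helper89.Defect in
/-- sparse windows -/
theorem ERD_win (A : Set ℕ) (hA : A.Infinite)
    (hsparse : ∀ ε : ℝ, 0 < ε → ∃ᶠ y : ℕ in atTop,
      ∑ a ∈ Finset.Ioc y (2 ^ 2 ^ (3 * y)), A.indicator (fun a : ℕ => (1 : ℝ) / a) a < ε) :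
    Irrational (∑' n : A, (1 : ℝ) / (2 ^ n.1 - 1)) := by
  classical
  by_contra hrat
  obtain ⟨c, r, hc, hr, hper⟩ := exists_period A hA hrat
  have hcR : (0 : ℝ) < c := by exact_mod_cast hc
  have hev := (lcm_growth (8 * c) (8 * c)).and (eventually_ge_atTop r)
  obtain ⟨y, hys, hyg, hyr⟩ := ((hsparse (1 / (8 * c)) (by positivity)).and_eventually hev).exists
  set R := Nat.lcmUpto y with hR
  have hRpos : 0 < R := Nat.lcmUpto_pos y
  have hRR : (0 : ℝ) < R := by exact_mod_cast hRpos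
  have hrR : r ∣ R := dvd_lcmUpto hr hyr
  have hbig : R * 2 ^ (8 * c + 8 * c * R) ≤ 2 ^ 2 ^ (3 * y) := by
    calc R * 2 ^ (8 * c + 8 * c * R) ≤ 2 ^ R * 2 ^ (8 * c + 8 * c * R) :=
          Nat.mul_le_mul_right _ Nat.lt_two_pow_self.le
      _ = 2 ^ ((8 * c + 1) * R + 8 * c) := by rw [← pow_add]; congr 1; ring
      _ ≤ 2 ^ 2 ^ (3 * y) := Nat.pow_le_pow_right (by norm_num) hyg
  have hnn : ∀ a, (0 : ℝ) ≤ A.indicator (fun a : ℕ => (1 : ℝ) / a) a := fun a =>
    Set.indicator_nonneg (fun a _ => by positivity) a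
  have hmono : ∀ X, X ≤ R * 2 ^ (8 * c + 8 * c * R) →
      ∑ a ∈ Finset.Ioc y X, A.indicator (fun a : ℕ => (1 : ℝ) / a) a < 1 / (8 * c) := by
    intro X hX
    refine lt_of_le_of_lt (Finset.sum_le_sum_of_subset_of_nonneg ?_ fun a _ _ => hnn a) hys
    exact Finset.Ioc_subset_Ioc_right (hX.trans hbig)
  obtain ⟨i, hi1, hi2, hi3⟩ := exists_scale A y R (8 * c) (8 * c * R) hRpos (1 / (4 * c)) (by positivity) (by
    refine (hmono _ le_rfl).trans_le ?_
    push_cast
    have : (8 * (c : ℝ) * R) * (1 / (4 * c)) / (2 * R) = 1 := by field_simp; norm_num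
    rw [this, div_le_one (by positivity)]
    have : (1 : ℝ) ≤ c := by exact_mod_cast hc
    linarith)
  set T := 2 ^ i with hT
  have hTpos : 0 < T := by positivity
  have hTR : (1 : ℝ) ≤ T := by exact_mod_cast hTpos
  have hT8 : (8 : ℝ) * c ≤ T := by
    have : 8 * c ≤ T := (hi1.trans Nat.lt_two_pow_self.le)
    exact_mod_cast this
  have hup := sum_D_le A y R T hRpos (fun a h1 h2 => dvd_lcmUpto h1 h2)
  have hlow : (T : ℝ) / c ≤ ∑ t ∈ range (T + 1), D A (R * t) := by
    rw [Finset.sum_range_succ']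
    have h0 : D A (R * 0) = 0 := by
      unfold D
      simp
    rw [h0, add_zero]
    calc (T : ℝ) / c = ∑ _t ∈ range T, (1 : ℝ) / c := by
          rw [Finset.sum_const, card_range, nsmul_eq_mul]; ring
      _ ≤ _ := by
          refine Finset.sum_le_sum fun t _ => ?_
          have := hper (R * (t + 1)) (by positivity) (hrR.mul_right _)
          rw [div_le_iff₀ hcR]; linarith
  have hsplit : ∑ a ∈ Finset.Ioc y (R * T), A.indicator (fun a : ℕ => ((T + 1 : ℕ) : ℝ) / a + 1) a =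
      ((T + 1 : ℕ) : ℝ) * ∑ a ∈ Finset.Ioc y (R * T), A.indicator (fun a : ℕ => (1 : ℝ) / a) a +
        ∑ a ∈ Finset.Ioc y (R * T), A.indicator (fun _ : ℕ => (1 : ℝ)) a := by
    rw [Finset.mul_sum, ← Finset.sum_add_distrib]
    refine Finset.sum_congr rfl fun a _ => ?_
    by_cases ha : a ∈ A
    · simp only [Set.indicator_of_mem ha]; ring
    · simp [ha]
  have hRT : R * T ≤ R * 2 ^ (8 * c + 8 * c * R) :=
    Nat.mul_le_mul_left R (Nat.pow_le_pow_right (by norm_num) hi2.le)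
  have h1 := hmono (R * T) hRT
  have h2 : ((T + 1 : ℕ) : ℝ) ≤ 2 * T := by push_cast; linarith
  have h3 : ((T + 1 : ℕ) : ℝ) * ∑ a ∈ Finset.Ioc y (R * T), A.indicator (fun a : ℕ => (1 : ℝ) / a) a ≤
      2 * T * (1 / (8 * c)) :=
    mul_le_mul h2 h1.le (Finset.sum_nonneg fun a _ => hnn a) (by positivity)
  have h4 : ∑ a ∈ Finset.Ioc y (R * T), A.indicator (fun _ : ℕ => (1 : ℝ)) a ≤ 1 / (4 * c) * T := by
    rw [hT]; push_cast; exact hi3
  have h5 : (T : ℝ) / c ≤ 2 * T * (1 / (8 * c)) + 1 / (4 * c) * T + 2 := by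
    rw [hsplit] at hup
    linarith
  have h6 : (T : ℝ) / c = 4 * (T * (1 / (4 * c))) := by field_simp
  have h7 : 2 * (T : ℝ) * (1 / (8 * c)) = T * (1 / (4 * c)) := by field_simp; norm_num
  have h8 : (2 : ℝ) ≤ T * (1 / (4 * c)) := by
    rw [mul_one_div, le_div_iff₀ (by positivity)]
    linarith
  have h9 : (0 : ℝ) < T * (1 / (4 * c)) := by positivity
  rw [h6, h7] at h5
  linarith

theorem thm_ERD : St_ERD := by
  intro A hA hs
  refine ERD_win A hA fun ε hε => Eventually.frequently ?_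
  obtain ⟨s, hs'⟩ := summable_iff_vanishing_norm.1 hs ε hε
  filter_upwards [eventually_ge_atTop (s.sup id)] with y hy
  have h1 := hs' (Finset.Ioc y (2 ^ 2 ^ (3 * y))) (by
    rw [Finset.disjoint_left]
    intro a ha has
    have h2 : a ≤ s.sup id := Finset.le_sup (f := id) has
    have h3 := (Finset.mem_Ioc.1 ha).1
    omega)
  exact lt_of_le_of_lt (Real.le_norm_self _) h1

end Pool.Agent.RMS
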