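import Pool.Agent.RMS.St2

set_option autoImplicit false

/-! RMS [FIN]: the final theorem. -/

namespace Pool.Agent.RMS

open Finset Filter
open Classical

/-- the summand -/
theorem FIN_ind_nonneg (A : Set ℕ) (a : ℕ) : 0 ≤ A.indicator (fun a : ℕ => (1 : ℝ) / a) a :=
  Set.indicator_nonneg (fun _ _ => by positivity) a

theorem FIN_RS_nonneg (A : Set ℕ) (y z : ℕ) : 0 ≤ RS A y z :=
  sum_nonneg fun a _ => FIN_ind_nonneg A a

theorem FIN_RS_mono (A : Set ℕ) (y : ℕ) {z z' : ℕ} (h : z ≤ z') : RS A y z ≤ RS A y z' :=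
  sum_le_sum_of_subset_of_nonneg (Ioc_subset_Ioc_right h) fun a _ _ => FIN_ind_nonneg A a

theorem FIN_RS_range (A : Set ℕ) (Y : ℕ) :
    RS A 0 Y = ∑ a ∈ range (Y + 1), A.indicator (fun a : ℕ => (1 : ℝ) / a) a := by
  have h1 : range (Y + 1) = insert 0 (Ioc 0 Y) := by
    ext a
    rw [mem_range, mem_insert, mem_Ioc]
    omega
  have h2 : A.indicator (fun a : ℕ => (1 : ℝ) / a) 0 = 0 := by
    by_cases h : 0 ∈ A
    · rw [Set.indicator_of_mem h]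
      simp
    · rw [Set.indicator_of_notMem h]
  rw [h1, sum_insert (by simp), h2, zero_add]
  rfl

theorem FIN_RS_le (A : Set ℕ) (Y : ℕ) : RS A 0 Y ≤ 1 + Real.log Y := by
  have h1 : RS A 0 Y ≤ ∑ a ∈ Ioc 0 Y, (1 : ℝ) / a := by
    apply sum_le_sum
    intro a _
    exact Set.indicator_le_self' (fun _ _ => by positivity) a
  have h2 : ∑ a ∈ Ioc 0 Y, (1 : ℝ) / a = ((harmonic Y : ℚ) : ℝ) := by
    unfold harmonic
    push_cast
    rw [show Ioc 0 Y = Ico 1 (Y + 1) by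
      ext a
      rw [mem_Ioc, mem_Ico]
      omega, Finset.sum_Ico_eq_sum_range]
    apply sum_congr (by simp)
    intro i _
    rw [one_div]
    push_cast
    congr 1
    ring
  rw [h2] at h1
  exact h1.trans (harmonic_le_one_add_log Y)

theorem FIN_RS_tendsto (A : Set ℕ) (h : ¬ Summable (A.indicator fun a : ℕ => (1 : ℝ) / a)) :
    Tendsto (fun Y : ℕ => RS A 0 Y) atTop atTop := by
  have h1 := (not_summable_iff_tendsto_nat_atTop_of_nonneg (FIN_ind_nonneg A)).1 h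
  have h2 := h1.comp (tendsto_add_atTop_nat 1)
  refine h2.congr fun Y => ?_
  rw [FIN_RS_range]
  rfl

/-- the choice of `t` -/
theorem FIN_t {S : ℝ} (hS : 0 ≤ S) : ∃ t : ℕ, 1 ≤ t ∧ 2 + S ≤ 2 ^ t ∧ (2 : ℝ) ^ t ≤ 3 * (2 + S) := by
  obtain ⟨m, hm⟩ : ∃ m : ℕ, m = ⌈2 + S⌉₊ := ⟨_, rfl⟩
  have h1 : 2 + S ≤ m := by rw [hm]; exact Nat.le_ceil _
  have h2 : (m : ℝ) < 2 + S + 1 := by rw [hm]; exact Nat.ceil_lt_add_one (by linarith)
  have hm1 : 1 < m := by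
    have : (1 : ℝ) < m := by linarith
    exact_mod_cast this
  obtain ⟨t, ht⟩ : ∃ t : ℕ, t = Nat.clog 2 m := ⟨_, rfl⟩
  have ht0 : 0 < t := by rw [ht]; exact Nat.clog_pos (by norm_num) hm1
  refine ⟨t, ht0, ?_, ?_⟩
  · have h3 : m ≤ 2 ^ t := by rw [ht]; exact Nat.le_pow_clog (by norm_num) m
    have h4 : (m : ℝ) ≤ 2 ^ t := by exact_mod_cast h3
    linarith
  · have h3 : 2 ^ (t - 1) < m := by
      rw [ht]
      exact Nat.pow_pred_clog_lt_self (by norm_num) hm1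
    have h4 : (2 : ℝ) ^ (t - 1) < m := by exact_mod_cast h3
    have h5 : (2 : ℝ) ^ t = 2 * 2 ^ (t - 1) := by
      rw [← pow_succ']
      congr 1
      omega
    rw [h5]
    linarith

/-- squares and powers of `4` -/
theorem FIN_four (t : ℕ) : (t : ℝ) ^ 2 ≤ 4 ^ t ∧ (t : ℝ) ^ 2 ≤ 4 * 2 ^ t := by
  induction t with
  | zero => norm_num
  | succ t ih =>
    obtain ⟨h1, h2⟩ := ih
    have h3 : (0 : ℝ) ≤ t := Nat.cast_nonneg t
    have h4 : (t : ℝ) + 1 ≤ 2 ^ t := by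
      have := Nat.lt_two_pow_self (n := t)
      have h5 : t + 1 ≤ 2 ^ t := this
      exact_mod_cast h5
    have h5 : (1 : ℝ) ≤ 2 ^ t := one_le_pow₀ (by norm_num)
    have h6 : (4 : ℝ) ^ t = 2 ^ t * 2 ^ t := by
      rw [← mul_pow]
      norm_num
    have h7 : (2 : ℝ) ^ (t + 1) = 2 * 2 ^ t := by rw [pow_succ]; ring
    have h8 : (4 : ℝ) ^ (t + 1) = 4 * (2 ^ t * 2 ^ t) := by rw [pow_succ, h6]; ring
    push_cast
    rw [h7, h8]
    constructor
    · nlinarith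
    · nlinarith

/-- the inequality for `t` and `log (2 + S)` -/
theorem FIN_log {S : ℝ} {t : ℕ} (ht : 4 ≤ t) (h : (2 : ℝ) ^ t ≤ 3 * (2 + S)) :
    (t : ℝ) / 4 ≤ Real.log (2 + S) := by
  have h1 : (2 : ℝ) ^ (t - 2) ≤ 2 + S := by
    have h2 : (2 : ℝ) ^ t = 4 * 2 ^ (t - 2) := by
      have : t = (t - 2) + 2 := by omega
      nth_rewrite 1 [this]
      rw [pow_add]
      ring
    rw [h2] at h
    have h3 : (0 : ℝ) < 2 ^ (t - 2) := by positivity
    linarith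
  have h2 := Real.log_le_log (by positivity) h1
  rw [Real.log_pow] at h2
  have h3 : ((t - 2 : ℕ) : ℝ) = t - 2 := by
    rw [Nat.cast_sub (by omega)]
    norm_num
  rw [h3] at h2
  have h4 := Real.log_two_gt_d9
  have h5 : (4 : ℝ) ≤ t := by exact_mod_cast ht
  nlinarith

/-- the inequality for `t` and `log log Y` -/
theorem FIN_loglog {S x U : ℝ} {t : ℕ} (hx : 1 ≤ x) (hU : U = Real.log x) (hU8 : 8 ≤ U)
    (hS : S ≤ 1 + x) (h : (2 : ℝ) ^ t ≤ 3 * (2 + S)) : (t : ℝ) ≤ 2 * U := by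
  have h1 : (2 : ℝ) ^ t ≤ 12 * x := by linarith
  have h2 := Real.log_le_log (by positivity) h1
  rw [Real.log_pow, Real.log_mul (by norm_num) (by linarith), ← hU] at h2
  have h5 := Real.log_two_lt_d9
  have h4 := Real.log_two_gt_d9
  have h3 : Real.log 12 ≤ 2.78 := by
    have e1 : Real.log 12 ≤ Real.log 16 := Real.log_le_log (by norm_num) (by norm_num)
    have e2 : Real.log 16 = 4 * Real.log 2 := by
      rw [show (16 : ℝ) = 2 ^ 4 by norm_num, Real.log_pow]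
      norm_num
    linarith
  by_contra hcon
  have h6 := not_le.1 hcon
  have h7 : 2 * U * Real.log 2 < t * Real.log 2 := mul_lt_mul_of_pos_right h6 (by linarith)
  nlinarith

/-- the size of the total error -/
theorem FIN_eps {S R : ℝ} {t : ℕ} (ht : 11 ≤ t) (_hS0 : 0 ≤ S) (hS : 2 + S ≤ 2 ^ t)
    (hR : R ≤ 64 / (t : ℝ) ^ 3) :
    4 * (((2 * t : ℕ) : ℝ) + 11) * R + 2 ^ (2 * t + 4) / 2 ^ (5 * t) * (S + 1) + 1 / 4 ^ t ≤
      800 / (t : ℝ) ^ 2 ∧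
    10 * (800 / (t : ℝ) ^ 2) + 4 * S / 2 ^ (2 * t) ≤ 20000 / (t : ℝ) ^ 2 := by
  have ht' : (11 : ℝ) ≤ t := by exact_mod_cast ht
  have ht0 : (0 : ℝ) < t := by linarith
  obtain ⟨h4, h2⟩ := FIN_four t
  have h6 : (4 : ℝ) ^ t = 2 ^ t * 2 ^ t := by
    rw [← mul_pow]
    norm_num
  have hp : (0 : ℝ) < 2 ^ t := by positivity
  have e1 : 4 * (((2 * t : ℕ) : ℝ) + 11) * R ≤ 768 / (t : ℝ) ^ 2 := by
    push_cast
    calc 4 * (2 * (t : ℝ) + 11) * R ≤ 4 * (2 * t + 11) * (64 / (t : ℝ) ^ 3) :=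
          mul_le_mul_of_nonneg_left hR (by positivity)
      _ ≤ 4 * (3 * t) * (64 / (t : ℝ) ^ 3) := by
          apply mul_le_mul_of_nonneg_right _ (by positivity)
          linarith
      _ = 768 / (t : ℝ) ^ 2 := by
          field_simp
          norm_num
  have e2 : (2 : ℝ) ^ (2 * t + 4) / 2 ^ (5 * t) * (S + 1) ≤ 16 / 4 ^ t := by
    have e3 : (2 : ℝ) ^ (2 * t + 4) / 2 ^ (5 * t) = 16 / (2 ^ t * 2 ^ t * 2 ^ t) := by
      rw [div_eq_div_iff (by positivity) (by positivity), ← pow_add, ← pow_add, ← pow_add,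
        show (16 : ℝ) = 2 ^ 4 by norm_num, ← pow_add]
      congr 1
      ring
    rw [e3, h6]
    calc 16 / (2 ^ t * 2 ^ t * 2 ^ t) * (S + 1) ≤ 16 / (2 ^ t * 2 ^ t * 2 ^ t) * 2 ^ t := by
          apply mul_le_mul_of_nonneg_left _ (by positivity)
          linarith
      _ = 16 / (2 ^ t * 2 ^ t) := by
          field_simp
  have e3 : (17 : ℝ) / 4 ^ t ≤ 32 / (t : ℝ) ^ 2 := by
    rw [div_le_div_iff₀ (by positivity) (by positivity)]
    have : (0 : ℝ) < 4 ^ t := by positivity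
    linarith
  constructor
  · calc 4 * (((2 * t : ℕ) : ℝ) + 11) * R + 2 ^ (2 * t + 4) / 2 ^ (5 * t) * (S + 1) + 1 / 4 ^ t
        ≤ 768 / (t : ℝ) ^ 2 + 16 / 4 ^ t + 1 / 4 ^ t := by linarith
      _ = 768 / (t : ℝ) ^ 2 + 17 / 4 ^ t := by ring
      _ ≤ 768 / (t : ℝ) ^ 2 + 32 / (t : ℝ) ^ 2 := by linarith
      _ = 800 / (t : ℝ) ^ 2 := by ring
  · have e4 : 4 * S / 2 ^ (2 * t) ≤ 16 / (t : ℝ) ^ 2 := by
      have e5 : (2 : ℝ) ^ (2 * t) = 2 ^ t * 2 ^ t := by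
        rw [← pow_add]
        congr 1
        ring
      rw [e5]
      calc 4 * S / (2 ^ t * 2 ^ t) ≤ 4 * 2 ^ t / (2 ^ t * 2 ^ t) := by
            apply div_le_div_of_nonneg_right _ (by positivity)
            linarith
        _ = 4 / 2 ^ t := by
            field_simp
        _ ≤ 16 / (t : ℝ) ^ 2 := by
            rw [div_le_div_iff₀ (by positivity) (by positivity)]
            linarith
    calc 10 * (800 / (t : ℝ) ^ 2) + 4 * S / 2 ^ (2 * t) ≤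
          10 * (800 / (t : ℝ) ^ 2) + 16 / (t : ℝ) ^ 2 := by linarith
      _ = 8016 / (t : ℝ) ^ 2 := by ring
      _ ≤ 20000 / (t : ℝ) ^ 2 := by
          apply div_le_div_of_nonneg_right (by norm_num) (by positivity)

theorem FIN_claim (hC : St_CORE) (hS : St_SER) (hL : St_LIM) (A : Set ℕ)
    (hwin : ∃ᶠ Y : ℕ in atTop, Win A Y)
    (hns : ¬ Summable (A.indicator fun a : ℕ => (1 : ℝ) / a)) (h s : ℕ) (κ : ℕ → ℝ) (hh : 1 ≤ h)
    (hκ : ∀ m, κ (m + h) = κ m) (hT : ∀ m, s ≤ m → ∃ z : ℤ, TA A m = κ m + z)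
    (w : ℕ) (hw1 : 200 ≤ w) (hw2 : h < w) (η : ℝ) (hη : 0 < η) (Y1 : ℕ) :
    ∃ Y : ℕ, Y1 ≤ Y ∧ lam Y (AY A Y) w ≤ η + 1 / 2 ^ (w / 20) := by
  obtain ⟨t0, ht0⟩ := hL η hη
  obtain ⟨Y0, hY0⟩ := hS h
  obtain ⟨T, hTdef⟩ : ∃ T : ℕ, T = max (max t0 h) 23 := ⟨_, rfl⟩
  have hRS := FIN_RS_tendsto A hns
  have hUT : Tendsto (fun Y : ℕ => Real.log (Real.log Y)) atTop atTop :=
    Real.tendsto_log_atTop.comp
      (Real.tendsto_log_atTop.comp (tendsto_natCast_atTop_atTop (R := ℝ)))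
  have hlT : Tendsto (fun Y : ℕ => Real.log Y) atTop atTop :=
    Real.tendsto_log_atTop.comp (tendsto_natCast_atTop_atTop (R := ℝ))
  obtain ⟨Y, hwinY, hYY1, hYY0, hYh, hYs, hSY, hU, hl1⟩ := (hwin.and_eventually
    ((eventually_ge_atTop Y1).and ((eventually_ge_atTop Y0).and ((eventually_ge_atTop h).and
      ((eventually_ge_atTop s).and ((hRS.eventually_ge_atTop ((2 : ℝ) ^ T)).and
        ((hUT.eventually_ge_atTop 8).and (hlT.eventually_ge_atTop 1)))))))).exists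
  obtain ⟨S, hSdef⟩ : ∃ S : ℝ, S = RS A 0 Y := ⟨_, rfl⟩
  have hS0 : 0 ≤ S := by rw [hSdef]; exact FIN_RS_nonneg A 0 Y
  obtain ⟨t, ht1, ht2, ht3⟩ := FIN_t hS0
  have htT : T ≤ t := by
    have e1 : (2 : ℝ) ^ T ≤ 2 ^ t := by
      rw [← hSdef] at hSY
      linarith
    by_contra hcon
    have e2 : (2 : ℝ) ^ (t + 1) ≤ 2 ^ T := pow_le_pow_right₀ (by norm_num) (by omega)
    rw [pow_succ] at e2
    have e3 : (0 : ℝ) < 2 ^ t := by positivity
    linarith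
  have htt0 : t0 ≤ t := by omega
  have hth : h ≤ t := by omega
  have ht23 : 23 ≤ t := by omega
  have ht23' : (23 : ℝ) ≤ t := by exact_mod_cast ht23
  have htU : (t : ℝ) ≤ 2 * Real.log (Real.log Y) :=
    FIN_loglog (x := Real.log Y) hl1 rfl hU (by rw [hSdef]; exact FIN_RS_le A Y) ht3
  obtain ⟨X, l, hX1, hX2, hX3, hX4⟩ := hY0 Y t hYY0 hth ht1 htU
  obtain ⟨n, hn⟩ : ∃ n : ℕ, n = Nat.log 2 (8 * t + 20) + 1 := ⟨_, rfl⟩
  obtain ⟨n1, hn1⟩ : ∃ n1 : ℕ, n1 = Nat.log 2 (8 * n + 40) + 1 := ⟨_, rfl⟩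
  have hlim := ht0 t n n1 htt0 hn hn1
  have hn' : 8 * t + 20 ≤ 2 ^ n := by
    rw [hn]
    exact (Nat.lt_pow_succ_log_self (by norm_num) _).le
  have hn1' : 8 * n + 40 ≤ 2 ^ n1 := by
    rw [hn1]
    exact (Nat.lt_pow_succ_log_self (by norm_num) _).le
  have hlogS : (t : ℝ) / 4 ≤ Real.log (2 + S) := FIN_log (by omega) ht3
  have hR : RS A Y (4 * X) ≤ 64 / (t : ℝ) ^ 3 := by
    have e1 : 4 * X ≤ ⌊(Y : ℝ) ^ (Real.log (Real.log Y) ^ 3)⌋₊ := by
      apply Nat.le_floor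
      push_cast
      exact hX3
    refine (FIN_RS_mono A Y e1).trans ?_
    unfold Win at hwinY
    rw [← hSdef] at hwinY
    refine hwinY.trans ?_
    have e2 : ((t : ℝ) / 4) ^ 3 ≤ Real.log (2 + S) ^ 3 := pow_le_pow_left₀ (by positivity) hlogS 3
    calc 1 / Real.log (2 + S) ^ 3 ≤ 1 / ((t : ℝ) / 4) ^ 3 :=
          one_div_le_one_div_of_le (by positivity) e2
      _ = 64 / (t : ℝ) ^ 3 := by
          rw [div_pow]
          field_simp
          norm_num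
  obtain ⟨heps1, heps2⟩ := FIN_eps (S := S) (R := RS A Y (4 * X)) (by omega) hS0 ht2 hR
  have hsie := hX4 _ rfl
  have hcore := hC A κ h s hh hκ hT Y X (5 * t) (2 * t) (2 * l) l n n1 n1 w
    ((h : ℝ) + ((5 * t : ℕ) : ℝ) + 1 +
      ((5 * t : ℕ) : ℝ) * ∑ p ∈ (Icc 1 Y).filter Nat.Prime, (1 : ℝ) / p) (800 / (t : ℝ) ^ 2)
    hYh hX1 (hYs.trans hX1) (by omega) (by omega) (by omega) le_rfl (by
      rw [← hSdef]
      linarith) (by omega) hn1' (by nlinarith [Nat.pos_of_ne_zero (show w ≠ 0 by omega)]) hw1 hw2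
  rw [← hSdef] at hcore
  refine ⟨Y, hYY1, hcore.trans ?_⟩
  have e1 : (3 + 40 * (n1 : ℝ)) ^ n1 * (40 * n + 1) * (3 + 10 * ((5 * t : ℕ) : ℝ)) *
      (10 * (800 / (t : ℝ) ^ 2) + 4 * S / 2 ^ (2 * t)) ≤ η := by
    refine le_trans ?_ hlim
    exact mul_le_mul_of_nonneg_left heps2 (by positivity)
  linarith

theorem thm_FIN (hB : St_BASE) (hC : St_CORE) (hS : St_SER) (hL : St_LIM) (hE : St_ERD)
    (hR : St_RAN) (hF : St_FNB) : St_FIN := by
  intro A hinf hwin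
  by_contra hirr
  obtain ⟨h, s, κ, hh, hκ, hT⟩ := hB A hirr
  have hns : ¬ Summable (A.indicator fun a : ℕ => (1 : ℝ) / a) := fun hsum =>
    hirr (hE A hinf hsum)
  apply hns
  apply hR A (max 200 (h + 1))
  intro a haA ha1 p hp hpa hWp
  have hp1 : 200 ≤ p := (le_max_left _ _).trans hWp
  have hp2 : h < p := by
    have := (le_max_right 200 (h + 1)).trans hWp
    omega
  have ha0 : (0 : ℝ) < a := by exact_mod_cast ha1
  have key : (1 : ℝ) / a ≤ 1 / 2 ^ (p / 20) := by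
    apply le_of_forall_pos_le_add
    intro η hη
    obtain ⟨Y, hY1, hY2⟩ := FIN_claim hC hS hL A hwin hns h s κ hh hκ hT p hp1 hp2 η hη a
    have hmem : a ∈ AY A Y := by
      unfold AY
      rw [mem_filter, mem_Icc]
      exact ⟨⟨ha1, hY1⟩, haA⟩
    have h1 := (hF Y (AY A Y) (fun b hb => by
      unfold AY at hb
      rw [mem_filter, mem_Icc] at hb
      exact hb.1)).2.2.2 a hmem p hp hpa
    linarith
  have h2 : (2 : ℝ) ^ (p / 20) ≤ a := by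
    rw [one_div_le_one_div ha0 (by positivity)] at key
    exact key
  exact_mod_cast h2

end Pool.Agent.RMS
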