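import Pool.Agent.RMS.Basic

/-! RMS, module FNB: bounds for the number of divisors. -/

set_option autoImplicit false

namespace Pool.Agent.RMS

open Finset
open Classical

theorem FNB_mean (hM : St_MEA) (Y : ℕ) (B : Finset ℕ) (hB : ∀ a ∈ B, 1 ≤ a ∧ a ≤ Y) :
    (∑ x : Om Y, (DD B x : ℝ)) / (Fintype.card (Om Y) : ℝ) = ∑ a ∈ B, (1 : ℝ) / a := by
  have h1 : ∀ x : Om Y, (DD B x : ℝ) = ∑ a ∈ B, if dv a x then (1 : ℝ) else 0 := by
    intro x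
    rw [Finset.sum_boole, DD]
  have h2 : ∀ a ∈ B, (1 : ℝ) / a =
      (∑ x : Om Y, if dv a x then (1 : ℝ) else 0) / (Fintype.card (Om Y) : ℝ) := by
    intro a ha
    rw [← hM Y a (hB a ha).1 (hB a ha).2, pr, Finset.sum_boole]
  rw [sum_congr rfl fun x _ => h1 x, sum_comm, sum_congr rfl h2, sum_div]

theorem FNB_a (hM : St_MEA) (Y : ℕ) (B : Finset ℕ) (hB : ∀ a ∈ B, 1 ≤ a ∧ a ≤ Y) (e : ℕ) :
    Fn Y B e ≤ (∑ a ∈ B, (1 : ℝ) / a) / 2 ^ e := by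
  have h1 := pr_markov (fun x : Om Y => (DD B x : ℝ)) (fun x => Nat.cast_nonneg _) (2 ^ e)
    (by positivity)
  rw [FNB_mean hM Y B hB] at h1
  refine le_trans (pr_mono fun x hx => ?_) h1
  show (2 : ℝ) ^ e ≤ (DD B x : ℝ)
  exact_mod_cast hx

theorem thm_FNB (hM : St_MEA) (hS : St_SMO) : St_FNB := by
  intro Y B hB
  refine ⟨FNB_a hM Y B hB, ?_, ?_, ?_⟩
  · intro e w hw
    set B' : Finset ℕ := B.filter fun a => ∀ p : ℕ, p.Prime → p ∣ a → p < w with hB'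
    have h1 : ∀ a ∈ B', 1 ≤ a ∧ a ≤ Y := fun a ha => hB a (mem_filter.1 ha).1
    have h2 : Fn Y B' e ≤ w / 2 ^ e := by
      refine (FNB_a hM Y B' h1 e).trans ?_
      apply div_le_div_of_nonneg_right _ (by positivity)
      exact hS B' w hw fun a ha => ⟨(h1 a ha).1, (mem_filter.1 ha).2⟩
    refine le_trans ?_ (add_le_add (le_refl (lam Y B w)) h2)
    refine le_trans (pr_mono fun x hx => ?_) (pr_or_le _ _)
    by_cases hE : ∃ a ∈ B, (∃ p : ℕ, p.Prime ∧ p ∣ a ∧ w ≤ p) ∧ dv a x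
    · exact Or.inl hE
    · right
      refine le_trans hx ?_
      rw [DD, DD]
      refine card_le_card fun a ha => ?_
      obtain ⟨h3, h4⟩ := mem_filter.1 ha
      refine mem_filter.2 ⟨mem_filter.2 ⟨h3, fun p hp hpa => ?_⟩, h4⟩
      by_contra hlt
      exact hE ⟨a, h3, ⟨p, hp, hpa, not_lt.1 hlt⟩, h4⟩
  · intro w w' hww
    refine pr_mono ?_
    rintro x ⟨a, ha, ⟨p, hp, hpa, hpw⟩, hd⟩
    exact ⟨a, ha, ⟨p, hp, hpa, hww.trans hpw⟩, hd⟩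
  · intro a ha p hp hpa
    rw [← hM Y a (hB a ha).1 (hB a ha).2]
    exact pr_mono fun x hx => ⟨a, ha, ⟨p, hp, hpa, le_rfl⟩, hx⟩

end Pool.Agent.RMS
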