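import Pool.Agent.RMS.St3
import Pool.Agent.RMS.BON

/-! RMS [GB]: the upper bound weights. -/

set_option autoImplicit false

namespace Pool.Agent.RMS

open Finset
open Classical

theorem thm_GB : St_GB := by
  intro l n
  have h0 : cc l 0 = 1 := by
    unfold cc
    rw [sum_range_succ']
    have h1 : ∑ i ∈ range (2 * l), (-1 : ℤ) ^ (i + 1) * ((Nat.choose 0 (i + 1) : ℕ) : ℤ) = 0 := by
      refine sum_eq_zero fun i _ => ?_
      rw [Nat.choose_zero_succ]
      simp
    rw [h1]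
    simp
  have h2 : ∀ m : ℕ, cc l (m + 1) = (m.choose (2 * l) : ℤ) := by
    intro m
    unfold cc
    rw [BON_sum]
    have h3 : (-1 : ℤ) ^ (2 * l) = 1 := by
      rw [pow_mul]
      norm_num
    rw [h3, one_mul]
  refine ⟨h0, ?_, ?_⟩
  · rcases Nat.eq_zero_or_pos n with hn | hn
    · rw [hn, h0]
      norm_num
    · obtain ⟨m, rfl⟩ : ∃ m, n = m + 1 := ⟨n - 1, by omega⟩
      rw [h2]
      exact Int.natCast_nonneg _
  · intro hn
    obtain ⟨m, rfl⟩ : ∃ m, n = m + 1 := ⟨n - 1, by omega⟩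
    rw [h2]
    exact_mod_cast Nat.choose_le_choose (2 * l) (Nat.le_succ m)

end Pool.Agent.RMS
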