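import Pool.Agent.RMS.St3

/-!
RMS, part H, module GEX: the mean of the sum of the products of the upper bound weights (helper37).
-/

set_option autoImplicit false

namespace Pool.Agent.RMS

open Finset Filter
open Classical

/-- subsets of `S` and families of subsets of the blocks -/
theorem GEX_prod {ι κ : Type} [Fintype ι] [Fintype κ] (β : ι → κ) (S : Finset ι)
    (c : κ → ℕ → ℝ) :
    ∑ D ∈ S.powerset, ∏ b, c b ((S \ D).filter fun i => β i = b).card =
      ∏ b, ∑ D ∈ (S.filter fun i => β i = b).powerset,
        c b ((S.filter fun i => β i = b) \ D).card := by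
  rw [Finset.prod_univ_sum]
  refine Finset.sum_bij' (fun D _ => fun b => D.filter fun i => β i = b)
    (fun p _ => Finset.univ.biUnion p) ?_ ?_ ?_ ?_ ?_
  · intro D hD
    rw [Fintype.mem_piFinset]
    intro b
    rw [Finset.mem_powerset] at hD ⊢
    exact Finset.filter_subset_filter _ hD
  · intro p hp
    rw [Fintype.mem_piFinset] at hp
    rw [Finset.mem_powerset]
    intro i hi
    obtain ⟨b, -, hb⟩ := Finset.mem_biUnion.1 hi
    exact (Finset.mem_filter.1 (Finset.mem_powerset.1 (hp b) hb)).1
  · intro D hD
    ext i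
    rw [Finset.mem_biUnion]
    constructor
    · rintro ⟨b, -, hb⟩
      exact (Finset.mem_filter.1 hb).1
    · intro hi
      exact ⟨β i, Finset.mem_univ _, Finset.mem_filter.2 ⟨hi, rfl⟩⟩
  · intro p hp
    rw [Fintype.mem_piFinset] at hp
    funext b
    ext i
    rw [Finset.mem_filter, Finset.mem_biUnion]
    constructor
    · rintro ⟨⟨b', -, hb'⟩, hi⟩
      have h1 := (Finset.mem_filter.1 (Finset.mem_powerset.1 (hp b') hb')).2
      rw [← hi, h1]
      exact hb'
    · intro hi
      exact ⟨⟨b, Finset.mem_univ _, hi⟩,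
        (Finset.mem_filter.1 (Finset.mem_powerset.1 (hp b) hi)).2⟩
  · intro D hD
    refine Finset.prod_congr rfl fun b _ => ?_
    congr 2
    ext i
    simp only [Finset.mem_filter, Finset.mem_sdiff]
    tauto

/-- the block sum is bounded by one plus the sum of the binomial coefficients -/
theorem GEX_le (hG : St_GB) {ι : Type} (l : ℕ) (S : Finset ι) :
    ∑ D ∈ S.powerset, (cc l (S \ D).card : ℝ) ≤
      1 + ∑ D ∈ S.powerset, ((S \ D).card.choose (2 * l) : ℝ) := by
  have h1 : ∀ D ∈ S.powerset, (cc l (S \ D).card : ℝ) ≤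
      (if D = S then 1 else 0) + ((S \ D).card.choose (2 * l) : ℝ) := by
    intro D hD
    by_cases h : D = S
    · rw [if_pos h, h, Finset.sdiff_self, Finset.card_empty, (hG l 0).1]
      push_cast
      have : (0 : ℝ) ≤ ((Nat.choose 0 (2 * l) : ℕ) : ℝ) := Nat.cast_nonneg _
      linarith
    · rw [if_neg h, zero_add]
      have h2 : 1 ≤ (S \ D).card := by
        rw [Nat.one_le_iff_ne_zero, Ne, Finset.card_eq_zero, Finset.sdiff_eq_empty_iff_subset]
        intro h3
        exact h (Finset.Subset.antisymm (Finset.mem_powerset.1 hD) h3)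
      have h3 := (hG l (S \ D).card).2.2 h2
      exact_mod_cast h3
  refine (Finset.sum_le_sum h1).trans ?_
  rw [Finset.sum_add_distrib, Finset.sum_ite_eq', if_pos (Finset.mem_powerset_self S)]

theorem thm_GEX (hG : St_GB) (hI : St_IND) (hT : St_TAIL) : St_GEX := by
  intro ι κ _ _ Q _ β N L l hL
  have hcard : (0 : ℝ) < (Fintype.card (∀ i, ZMod (Q i)) : ℝ) := by
    exact_mod_cast Fintype.card_pos
  -- the factor of the block `b`
  have h1 : (∑ x : (∀ i, ZMod (Q i)), ∑ D ∈ (sp N x).powerset,
        ∏ b, (cc (l b) ((sp N x \ D).filter fun i => β i = b).card : ℝ)) =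
      ∑ x : (∀ i, ZMod (Q i)), ∏ b, ∑ D ∈ ((sp N x).filter fun i => β i = b).powerset,
        (cc (l b) (((sp N x).filter fun i => β i = b) \ D).card : ℝ) := by
    refine Finset.sum_congr rfl fun x _ => ?_
    exact GEX_prod β (sp N x) fun b n => (cc (l b) n : ℝ)
  rw [h1]
  have h2 := hI ι κ (fun i => ZMod (Q i)) β
    (fun b x => ∑ D ∈ ((sp N x).filter fun i => β i = b).powerset,
        (cc (l b) (((sp N x).filter fun i => β i = b) \ D).card : ℝ)) (by
      intro b x y hxy
      have h3 : ((sp N x).filter fun i => β i = b) = (sp N y).filter fun i => β i = b := by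
        ext i
        simp only [sp, Finset.mem_filter, Finset.mem_univ, true_and]
        constructor
        · rintro ⟨h4, h5⟩
          exact ⟨by rw [← hxy i h5]; exact h4, h5⟩
        · rintro ⟨h4, h5⟩
          exact ⟨by rw [hxy i h5]; exact h4, h5⟩
      simp only [h3])
  rw [h2, Real.exp_sum]
  refine Finset.prod_le_prod (fun b _ => ?_) fun b _ => ?_
  · refine div_nonneg (Finset.sum_nonneg fun x _ => Finset.sum_nonneg fun D _ => ?_) hcard.le
    exact_mod_cast (hG (l b) _).2.1
  · -- the mean of the factor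
    have h3 : ∀ x : (∀ i, ZMod (Q i)),
        sp (fun i => if β i = b then N i else ∅) x = (sp N x).filter fun i => β i = b := by
      intro x
      ext i
      simp only [sp, Finset.mem_filter, Finset.mem_univ, true_and]
      by_cases hb : β i = b
      · simp [hb]
      · simp [hb]
    have h4 : ∑ i, (((if β i = b then N i else ∅) : Finset (ZMod (Q i))).card : ℝ) / Q i ≤ L b := by
      refine le_trans (le_of_eq ?_) (hL b)
      rw [Finset.sum_filter]
      refine Finset.sum_congr rfl fun i _ => ?_
      by_cases hb : β i = b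
      · rw [if_pos hb, if_pos hb]
      · rw [if_neg hb, if_neg hb, Finset.card_empty, Nat.cast_zero, zero_div]
    have h5 := (hT ι Q (fun i => if β i = b then N i else ∅) (L b) h4 0 (l b)).2
    have h6 : (∑ x : (∀ i, ZMod (Q i)), ∑ D ∈ ((sp N x).filter fun i => β i = b).powerset,
        (cc (l b) (((sp N x).filter fun i => β i = b) \ D).card : ℝ)) /
        (Fintype.card (∀ i, ZMod (Q i)) : ℝ) ≤
        1 + Real.exp (L b) * L b ^ (2 * l b) / (2 * l b).factorial := by
      have h7 : (∑ x : (∀ i, ZMod (Q i)), ∑ D ∈ ((sp N x).filter fun i => β i = b).powerset,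
          (cc (l b) (((sp N x).filter fun i => β i = b) \ D).card : ℝ)) ≤
          (Fintype.card (∀ i, ZMod (Q i)) : ℝ) +
          ∑ x : (∀ i, ZMod (Q i)), ∑ D ∈ (sp (fun i => if β i = b then N i else ∅) x).powerset,
            ((sp (fun i => if β i = b then N i else ∅) x \ D).card.choose (2 * l b) : ℝ) := by
        have h8 : (Fintype.card (∀ i, ZMod (Q i)) : ℝ) = ∑ x : (∀ i, ZMod (Q i)), (1 : ℝ) := by
          rw [Finset.sum_const, Finset.card_univ, nsmul_eq_mul, mul_one]
        rw [h8, ← Finset.sum_add_distrib]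
        refine Finset.sum_le_sum fun x _ => ?_
        rw [h3 x]
        exact GEX_le hG (l b) _
      rw [div_le_iff₀ hcard]
      rw [div_le_iff₀ hcard] at h5
      rw [add_mul, one_mul]
      exact h7.trans (add_le_add le_rfl h5)
    refine h6.trans ?_
    rw [add_comm]
    exact Real.add_one_le_exp _

end Pool.Agent.RMS
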