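import Pool.Agent.RMS.St2
import Pool.Agent.GBQ.RhoLow

set_option autoImplicit false

/-! RMS [SER]: the sieve errors. -/

namespace Pool.Agent.RMS

open Finset Filter
open Classical

theorem SER_recip (Y : ℕ) (hY : 3 ≤ Y) :
    ∑ p ∈ (Icc 1 Y).filter Nat.Prime, (1 : ℝ) / p ≤ Real.log (Real.log Y) + 8 := by
  have h1 := Pool.Agent.GBQ.rhl_recip Y hY
  have h2 : ∑ p ∈ (Icc 1 Y).filter Nat.Prime, (1 : ℝ) / p ≤
      1 + ∑ j ∈ Ioc 2 Y, (if j.Prime then 1 / (j : ℝ) else 0) := by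
    rw [← sum_filter]
    have h3 : (Icc 1 Y).filter Nat.Prime ⊆ {2} ∪ (Ioc 2 Y).filter Nat.Prime := by
      intro p hp
      rw [mem_filter, mem_Icc] at hp
      obtain ⟨⟨h4, h5⟩, h6⟩ := hp
      rw [mem_union, mem_singleton, mem_filter, mem_Ioc]
      rcases Nat.lt_or_ge 2 p with h7 | h7
      · exact Or.inr ⟨⟨h7, h5⟩, h6⟩
      · have := h6.two_le
        exact Or.inl (by omega)
    calc ∑ p ∈ (Icc 1 Y).filter Nat.Prime, (1 : ℝ) / p
        ≤ ∑ p ∈ {2} ∪ (Ioc 2 Y).filter Nat.Prime, (1 : ℝ) / p :=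
          sum_le_sum_of_subset_of_nonneg h3 (fun _ _ _ => by positivity)
      _ ≤ ∑ p ∈ ({2} : Finset ℕ), (1 : ℝ) / p + ∑ p ∈ (Ioc 2 Y).filter Nat.Prime, (1 : ℝ) / p := by
          rw [← sum_union_inter]
          have : 0 ≤ ∑ p ∈ ({2} : Finset ℕ) ∩ (Ioc 2 Y).filter Nat.Prime, (1 : ℝ) / p :=
            sum_nonneg fun _ _ => by positivity
          linarith
      _ ≤ _ := by
          rw [sum_singleton]
          have : (1 : ℝ) / (2 : ℕ) ≤ 1 := by norm_num
          linarith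
  linarith

/-- `L^m / m!` is small -/
theorem SER_term {L a : ℝ} {m : ℕ} (hL0 : 0 ≤ L) (hL : L ≤ 11 * a) (hm : 100 * a ≤ m) :
    L ^ m / m.factorial ≤ Real.exp (-(23 * a)) := by
  have h1 : (7 * L) ^ m / m.factorial ≤ Real.exp (7 * L) :=
    Real.pow_div_factorial_le_exp (7 * L) (by positivity) m
  have h2 : Real.exp m ≤ (7 : ℝ) ^ m := by
    rw [← Real.exp_one_pow]
    apply pow_le_pow_left₀ (Real.exp_pos 1).le
    have := Real.exp_one_lt_d9
    linarith
  have h3 : L ^ m / m.factorial = (7 * L) ^ m / m.factorial / 7 ^ m := by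
    rw [mul_pow]
    field_simp
  rw [h3, div_le_iff₀ (by positivity)]
  calc (7 * L) ^ m / m.factorial ≤ Real.exp (7 * L) := h1
    _ ≤ Real.exp (-(23 * a) + m) := Real.exp_le_exp.2 (by linarith)
    _ = Real.exp (-(23 * a)) * Real.exp m := Real.exp_add _ _
    _ ≤ _ := mul_le_mul_of_nonneg_left h2 (Real.exp_pos _).le

theorem thm_SER : St_SER := by
  intro h
  have hev : ∀ᶠ Y : ℕ in atTop, 1400 ≤ Real.log (Real.log Y) :=
    (Real.tendsto_log_atTop.comp
      (Real.tendsto_log_atTop.comp (tendsto_natCast_atTop_atTop (R := ℝ)))).eventually_ge_atTop 1400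
  obtain ⟨Y1, hY1⟩ := eventually_atTop.1 hev
  refine ⟨max Y1 3, fun Y t hY ht1 ht2 ht3 => ?_⟩
  obtain ⟨U, hU⟩ : ∃ U : ℝ, U = Real.log (Real.log Y) := ⟨_, rfl⟩
  have hU1 : 1400 ≤ U := by rw [hU]; exact hY1 Y ((le_max_left _ _).trans hY)
  have hY3 : 3 ≤ Y := (le_max_right _ _).trans hY
  have hY3' : (3 : ℝ) ≤ Y := by exact_mod_cast hY3
  rw [← hU] at ht3
  have ht2' : (1 : ℝ) ≤ t := by exact_mod_cast ht2
  have ht1' : (h : ℝ) ≤ t := by exact_mod_cast ht1
  obtain ⟨a, ha⟩ : ∃ a : ℝ, a = t * U := ⟨_, rfl⟩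
  have haU : U ≤ a := by rw [ha]; nlinarith
  have hat : (t : ℝ) ≤ a := by rw [ha]; nlinarith
  obtain ⟨l, hl⟩ : ∃ l : ℕ, l = ⌈50 * a⌉₊ := ⟨_, rfl⟩
  have hl1 : 50 * a ≤ l := by rw [hl]; exact Nat.le_ceil _
  have hl2 : (l : ℝ) ≤ 50 * a + 1 := by
    rw [hl]
    exact (Nat.ceil_lt_add_one (by linarith)).le
  have hl0 : 1 ≤ l := by
    have : (1 : ℝ) ≤ l := by linarith
    exact_mod_cast this
  -- size of Y
  have hlogY : 0 < Real.log Y := Real.log_pos (by linarith)
  have hYU : 8 * U + 20 ≤ Y := by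
    have e1 : Real.exp U ≤ Y := by
      have e2 : Real.log (Real.log Y) ≤ Real.log Y := by
        have := Real.log_le_sub_one_of_pos hlogY
        linarith
      rw [← hU] at e2
      calc Real.exp U ≤ Real.exp (Real.log Y) := Real.exp_le_exp.2 e2
        _ = Y := Real.exp_log (by linarith)
    have e3 := Real.add_one_le_exp (U / 2)
    have e4 : Real.exp U = Real.exp (U / 2) * Real.exp (U / 2) := by
      rw [← Real.exp_add]
      congr 1
      ring
    have e5 : (U / 2 + 1) * (U / 2 + 1) ≤ Real.exp (U / 2) * Real.exp (U / 2) :=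
      mul_le_mul e3 e3 (by linarith) (Real.exp_pos _).le
    nlinarith
  have hYX : Y ≤ Y ^ (13 * l) := Nat.le_self_pow (by omega) Y
  refine ⟨Y ^ (13 * l), l, hYX, ?_, ?_, ?_⟩
  · refine le_trans ?_ hYX
    have e1 : (4 : ℝ) * t + 20 ≤ Y := by linarith
    exact_mod_cast e1
  · -- 4 X ≤ Y ^ (U^3)
    rw [← hU]
    have e1 : (4 : ℝ) ≤ Y := by linarith
    have e2 : (4 : ℝ) * ((Y ^ (13 * l) : ℕ) : ℝ) ≤ (Y : ℝ) ^ (13 * l + 1) := by
      rw [pow_succ]
      push_cast
      have : (0 : ℝ) ≤ (Y : ℝ) ^ (13 * l) := by positivity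
      nlinarith
    refine e2.trans ?_
    rw [← Real.rpow_natCast]
    apply Real.rpow_le_rpow_of_exponent_le (by linarith)
    push_cast
    have e3 : a ≤ 2 * U ^ 2 := by
      rw [ha]
      nlinarith
    have e4 : 13 * (l : ℝ) + 1 ≤ 1400 * U ^ 2 := by nlinarith
    have e5 : 1400 * U ^ 2 ≤ U ^ 3 := by
      have : (0 : ℝ) ≤ U ^ 2 := by positivity
      nlinarith
    linarith
  · intro L hL
    have hrec := SER_recip Y hY3
    rw [← hU] at hrec
    have hrec0 : 0 ≤ ∑ p ∈ (Icc 1 Y).filter Nat.Prime, (1 : ℝ) / p :=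
      sum_nonneg fun _ _ => by positivity
    have hL0 : 0 ≤ L := by
      rw [hL]
      positivity
    have hLa : L ≤ 11 * a := by
      rw [hL, ha]
      push_cast
      have e1 : 5 * (t : ℝ) * ∑ p ∈ (Icc 1 Y).filter Nat.Prime, (1 : ℝ) / p ≤
          5 * t * (U + 8) := mul_le_mul_of_nonneg_left hrec (by positivity)
      nlinarith
    have hT1 := SER_term (m := 2 * l + 1) hL0 hLa (by push_cast; linarith)
    have hT2 := SER_term (m := 2 * l) hL0 hLa (by push_cast; linarith)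
    have h4 : Real.exp L * L ^ (2 * l) / (2 * l).factorial ≤ Real.exp (-(12 * a)) := by
      calc Real.exp L * L ^ (2 * l) / (2 * l).factorial
          = Real.exp L * (L ^ (2 * l) / (2 * l).factorial) := by ring
        _ ≤ Real.exp (11 * a) * Real.exp (-(23 * a)) :=
            mul_le_mul (Real.exp_le_exp.2 hLa) hT2 (by positivity) (Real.exp_pos _).le
        _ = Real.exp (-(12 * a)) := by
            rw [← Real.exp_add]
            congr 1
            ring
    have h5 : Real.exp (-(23 * a)) ≤ Real.exp (-(12 * a)) := Real.exp_le_exp.2 (by linarith)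
    have h6 : Real.exp (-(12 * a)) ≤ 1 / 4 ^ t / 8 := by
      have e1 : (4 : ℝ) ^ t * 8 ≤ Real.exp (12 * a) := by
        have e2 : (4 : ℝ) ^ t ≤ Real.exp (2 * t) := by
          have e3 : (4 : ℝ) ≤ Real.exp 2 := by
            have e4 := Real.exp_one_gt_d9
            have e5 : Real.exp 2 = Real.exp 1 * Real.exp 1 := by
              rw [← Real.exp_add]
              norm_num
            rw [e5]
            nlinarith
          calc (4 : ℝ) ^ t ≤ Real.exp 2 ^ t := pow_le_pow_left₀ (by norm_num) e3 t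
            _ = Real.exp (2 * t) := by
              rw [← Real.exp_nat_mul]
              congr 1
              ring
        have e6 : (8 : ℝ) ≤ Real.exp (10 * a) := by
          have := Real.add_one_le_exp (10 * a)
          linarith
        calc (4 : ℝ) ^ t * 8 ≤ Real.exp (2 * t) * Real.exp (10 * a) :=
              mul_le_mul e2 e6 (by norm_num) (Real.exp_pos _).le
          _ = Real.exp (2 * t + 10 * a) := (Real.exp_add _ _).symm
          _ ≤ Real.exp (12 * a) := Real.exp_le_exp.2 (by linarith)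
      rw [Real.exp_neg, div_div, inv_eq_one_div]
      exact one_div_le_one_div_of_le (by positivity) e1
    have h7 : 2 * (Y : ℝ) ^ (2 * l + 2 * l) * (Y + 2 : ℝ) ^ (2 * l + 2 * l) /
        ((Y ^ (13 * l) : ℕ) : ℝ) ≤ 1 / 4 ^ t / 2 := by
      have e1 : (Y + 2 : ℝ) ^ (2 * l + 2 * l) ≤ (Y : ℝ) ^ (8 * l) := by
        calc (Y + 2 : ℝ) ^ (2 * l + 2 * l) ≤ ((Y : ℝ) ^ 2) ^ (2 * l + 2 * l) :=
              pow_le_pow_left₀ (by positivity) (by nlinarith) _
          _ = (Y : ℝ) ^ (8 * l) := by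
              rw [← pow_mul]
              congr 1
              ring
      have e2 : (4 : ℝ) ^ t * 4 ≤ (Y : ℝ) ^ l := by
        have e3 : t + 1 ≤ l := by
          have : (t : ℝ) + 1 ≤ l := by linarith
          exact_mod_cast this
        calc (4 : ℝ) ^ t * 4 = 4 ^ (t + 1) := (pow_succ _ _).symm
          _ ≤ 4 ^ l := pow_le_pow_right₀ (by norm_num) e3
          _ ≤ (Y : ℝ) ^ l := pow_le_pow_left₀ (by norm_num) (by linarith) l
      have hYl : (0 : ℝ) < (Y : ℝ) ^ l := by positivity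
      rw [div_le_iff₀ (by positivity)]
      push_cast
      have e4 : (Y : ℝ) ^ (13 * l) = (Y : ℝ) ^ (4 * l) * (Y : ℝ) ^ (8 * l) * (Y : ℝ) ^ l := by
        rw [← pow_add, ← pow_add]
        congr 1
        ring
      have e5 : 2 * l + 2 * l = 4 * l := by ring
      rw [e4]
      rw [e5] at e1 ⊢
      calc 2 * (Y : ℝ) ^ (4 * l) * (Y + 2 : ℝ) ^ (4 * l)
          ≤ 2 * (Y : ℝ) ^ (4 * l) * (Y : ℝ) ^ (8 * l) :=
            mul_le_mul_of_nonneg_left e1 (by positivity)
        _ = 1 / 4 ^ t / 2 * ((Y : ℝ) ^ (4 * l) * (Y : ℝ) ^ (8 * l) * ((4 : ℝ) ^ t * 4)) := by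
            field_simp
            ring
        _ ≤ 1 / 4 ^ t / 2 * ((Y : ℝ) ^ (4 * l) * (Y : ℝ) ^ (8 * l) * (Y : ℝ) ^ l) := by
            apply mul_le_mul_of_nonneg_left _ (by positivity)
            exact mul_le_mul_of_nonneg_left e2 (by positivity)
    have h8 : (0 : ℝ) ≤ 1 / 4 ^ t := by positivity
    linarith

end Pool.Agent.RMS
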