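import Pool.Agent.RMS.St3
import Pool.Agent.RMS.SER

/-! RMS, module HAP: application of the block transfer (helper20). -/

set_option autoImplicit false

namespace Pool.Agent.RMS

open Finset
open Classical

/-- the block of `i` -/
def HAP_b (Z k1 Y : ℕ) (i : Fin (Y + 1)) : Fin (k1 + 1) :=
  ⟨Nat.findGreatest (fun b => (i : ℕ) ≤ Z ^ 4 ^ (k1 - b)) k1,
    Nat.lt_succ_of_le (Nat.findGreatest_le k1)⟩

theorem HAP_le {Z k1 : ℕ} (i : Fin (Z ^ 4 ^ k1 + 1)) :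
    (i : ℕ) ≤ Z ^ 4 ^ (k1 - (HAP_b Z k1 (Z ^ 4 ^ k1) i : ℕ)) := by
  have h0 : (i : ℕ) ≤ Z ^ 4 ^ (k1 - 0) := Nat.lt_succ_iff.1 i.2
  exact Nat.findGreatest_spec (P := fun b => (i : ℕ) ≤ Z ^ 4 ^ (k1 - b)) (Nat.zero_le k1) h0

theorem HAP_lt {Z k1 Y : ℕ} (i : Fin (Y + 1)) (h : (HAP_b Z k1 Y i : ℕ) < k1) :
    Z ^ 4 ^ (k1 - ((HAP_b Z k1 Y i : ℕ) + 1)) < (i : ℕ) := by
  have h1 := Nat.findGreatest_is_greatest (P := fun b => (i : ℕ) ≤ Z ^ 4 ^ (k1 - b))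
    (n := k1) (k := (HAP_b Z k1 Y i : ℕ) + 1) (Nat.lt_succ_self _) h
  exact not_le.1 h1

/-- the relevant residues -/
noncomputable def HAP_N (P : ℕ → Prop) (h Y J : ℕ) (cut : ℕ → ℕ) (i : Fin (Y + 1)) :
    Finset (ZMod (qh P h i)) :=
  if (i : ℕ) = 0 then univ
  else if P i then
    (if (i : ℕ) ≤ J then univ else
      ((Icc 1 J).filter fun k => (i : ℕ) ≤ cut k).biUnion fun k =>
        univ.filter fun z : ZMod (qh P h i) => z + ((k : ℕ) : ZMod (qh P h i)) = 0)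
  else ∅

theorem HAP_card1 (P : ℕ → Prop) (h Y J : ℕ) (cut : ℕ → ℕ) (i : Fin (Y + 1)) (hi : J < (i : ℕ))
    (n : ℕ) (hn : ∀ k, 1 ≤ k → k ≤ J → (i : ℕ) ≤ cut k → k ≤ n) :
    (HAP_N P h Y J cut i).card ≤ n := by
  unfold HAP_N
  rw [if_neg (by omega)]
  by_cases h2 : P i
  · rw [if_pos h2, if_neg (not_le.2 hi)]
    have h0 : ∀ k ∈ (Icc 1 J).filter (fun k => (i : ℕ) ≤ cut k),
        (univ.filter fun z : ZMod (qh P h i) => z + ((k : ℕ) : ZMod (qh P h i)) = 0).card ≤ 1 := by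
      intro k _
      rw [card_le_one]
      intro z hz z' hz'
      have h3 := (mem_filter.1 hz).2
      have h4 := (mem_filter.1 hz').2
      exact add_right_cancel (h3.trans h4.symm)
    have h5 : ((Icc 1 J).filter fun k => (i : ℕ) ≤ cut k) ⊆ Icc 1 n := by
      intro k hk
      obtain ⟨h6, h7⟩ := mem_filter.1 hk
      obtain ⟨h8, h9⟩ := mem_Icc.1 h6
      exact mem_Icc.2 ⟨h8, hn k h8 h9 h7⟩
    have h6 := card_le_card h5
    rw [Nat.card_Icc, Nat.add_sub_cancel] at h6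
    refine card_biUnion_le.trans ((sum_le_card_nsmul _ _ 1 h0).trans ?_)
    rw [smul_eq_mul, mul_one]
    exact h6
  · rw [if_neg h2, card_empty]
    exact Nat.zero_le n

theorem HAP_q {P : ℕ → Prop} {h i : ℕ} (hP : P i) (hi : i ≠ 0) : qh P h i = i := by
  unfold qh
  rw [if_neg hi, if_pos hP]

theorem HAP_q1 {P : ℕ → Prop} {h i : ℕ} (hi : i ≠ 0) : qh P h i ≤ i := by
  unfold qh
  rw [if_neg hi]
  split_ifs
  · exact le_rfl
  · omega

theorem HAP_cop (P : ℕ → Prop) (h : ℕ) (hP : ∀ p, P p → p.Prime ∧ ¬ p ∣ h + 1) (i j : ℕ)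
    (hij : i ≠ j) : (qh P h i).Coprime (qh P h j) := by
  unfold qh
  split_ifs with h1 h2 h3 h4 h5 h6 h7
  · omega
  · exact ((Nat.Prime.coprime_iff_not_dvd (hP j h3).1).2 (hP j h3).2).symm
  · exact Nat.coprime_one_right _
  · exact (Nat.Prime.coprime_iff_not_dvd (hP i h4).1).2 (hP i h4).2
  · exact (Nat.coprime_primes (hP i h4).1 (hP j h6).1).2 hij
  · exact Nat.coprime_one_right _
  all_goals exact Nat.coprime_one_left _

/-- transport of a sum over a subset of `Fin` to a sum over primes in an interval -/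
theorem HAP_sum (P : ℕ → Prop) (Y u v : ℕ) (hP : ∀ p, P p → p.Prime) (s : Finset (Fin (Y + 1)))
    (hs : ∀ i ∈ s, u < (i : ℕ) ∧ (i : ℕ) ≤ v) :
    ∑ i ∈ s, (if P i then (1 : ℝ) / (i : ℕ) else 0) ≤
      ∑ p ∈ (Ioc u v).filter Nat.Prime, (1 : ℝ) / p := by
  rw [← sum_filter]
  have h1 : ∑ i ∈ s.filter (fun i : Fin (Y + 1) => P (i : ℕ)), (1 : ℝ) / ((i : ℕ) : ℝ) =
      ∑ p ∈ (s.filter (fun i : Fin (Y + 1) => P (i : ℕ))).image
        (fun i : Fin (Y + 1) => (i : ℕ)), (1 : ℝ) / p := by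
    rw [sum_image]
    intro a _ b _ hab
    exact Fin.ext hab
  rw [h1]
  apply sum_le_sum_of_subset_of_nonneg
  · intro p hp
    obtain ⟨i, hi, rfl⟩ := mem_image.1 hp
    obtain ⟨h2, h3⟩ := mem_filter.1 hi
    exact mem_filter.2 ⟨mem_Ioc.2 (hs i h2), hP _ h3⟩
  · intro p _ _
    positivity

/-- blocks below the last one -/
theorem HAP_L1 (C1 : ℝ) (h : ℕ) (P : ℕ → Prop) (k1 Z b : ℕ) (hb : b < k1)
    (hC : ∀ u v : ℕ, 2 ≤ u → v ≤ u ^ 4 → ∑ p ∈ (Ioc u v).filter Nat.Prime, (1 : ℝ) / p ≤ C1)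
    (hP : ∀ p, P p → p.Prime) (hZ : k1 + 30 < Z)
    (s : Finset (Fin (Z ^ 4 ^ k1 + 1))) (hs : ∀ i ∈ s, (HAP_b Z k1 (Z ^ 4 ^ k1) i : ℕ) = b) :
    ∑ i ∈ s, ((HAP_N P h (Z ^ 4 ^ k1) (k1 + 30) (ct Z k1) i).card : ℝ) / (qh P h i : ℝ) ≤
      2 ^ (b + 1) * C1 := by
  have hs' : ∀ i ∈ s, Z ^ 4 ^ (k1 - (b + 1)) < (i : ℕ) ∧ (i : ℕ) ≤ Z ^ 4 ^ (k1 - b) := by
    intro i hi
    have h1 := hs i hi
    have h2 := HAP_le i
    have h3 := HAP_lt i (by rw [h1]; exact hb)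
    rw [h1] at h2 h3
    exact ⟨h3, h2⟩
  have hpow : Z ≤ Z ^ 4 ^ (k1 - (b + 1)) := Nat.le_self_pow (by positivity) Z
  have key : ∀ i ∈ s, ((HAP_N P h (Z ^ 4 ^ k1) (k1 + 30) (ct Z k1) i).card : ℝ) / (qh P h i : ℝ) ≤
      2 ^ (b + 1) * (if P i then (1 : ℝ) / (i : ℕ) else 0) := by
    intro i hi
    obtain ⟨h1, h2⟩ := hs' i hi
    have hiJ : k1 + 30 < (i : ℕ) := by omega
    have hi0 : (i : ℕ) ≠ 0 := by omega
    by_cases hPi : P i
    · have hq : ((qh P h (i : ℕ) : ℕ) : ℝ) = ((i : ℕ) : ℝ) := by rw [HAP_q hPi hi0]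
      rw [if_pos hPi, hq]
      have h3 : (HAP_N P h (Z ^ 4 ^ k1) (k1 + 30) (ct Z k1) i).card ≤ 2 ^ (b + 1) := by
        apply HAP_card1 P h _ _ _ i hiJ
        intro k hk1 hk2 hk3
        have h4 : Z ^ 4 ^ (k1 - (b + 1)) < Z ^ 4 ^ (k1 - Nat.log 2 k) := h1.trans_le hk3
        have h5 : 4 ^ (k1 - (b + 1)) < 4 ^ (k1 - Nat.log 2 k) :=
          (Nat.pow_lt_pow_iff_right (by omega)).1 h4
        have h6 : k1 - (b + 1) < k1 - Nat.log 2 k := (Nat.pow_lt_pow_iff_right (by norm_num)).1 h5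
        have h7 : Nat.log 2 k < b + 1 := by omega
        exact (Nat.lt_pow_of_log_lt (by norm_num) h7).le
      have h4 : ((HAP_N P h (Z ^ 4 ^ k1) (k1 + 30) (ct Z k1) i).card : ℝ) ≤ 2 ^ (b + 1) := by
        exact_mod_cast h3
      have hi' : (0 : ℝ) < ((i : ℕ) : ℝ) := by exact_mod_cast Nat.pos_of_ne_zero hi0
      rw [mul_one_div]
      exact div_le_div_of_nonneg_right h4 hi'.le
    · have h3 : HAP_N P h (Z ^ 4 ^ k1) (k1 + 30) (ct Z k1) i = ∅ := by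
        unfold HAP_N
        rw [if_neg hi0, if_neg hPi]
      rw [h3, if_neg hPi, card_empty]
      simp
  refine (sum_le_sum key).trans ?_
  rw [← mul_sum]
  apply mul_le_mul_of_nonneg_left _ (by positivity)
  refine (HAP_sum P _ _ _ hP s hs').trans ?_
  apply hC _ _ (by omega)
  rw [← pow_mul]
  have h8 : 4 ^ (k1 - (b + 1)) * 4 = 4 ^ (k1 - b) := by
    rw [← pow_succ]
    congr 1
    omega
  rw [h8]

/-- the last block -/
theorem HAP_L2 (h : ℕ) (P : ℕ → Prop) (k1 Z : ℕ)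
    (hP : ∀ p, P p → p.Prime) (hZ3 : 3 ≤ Z)
    (hU : Real.log (Real.log Z) ≤ 2 ^ k1)
    (s : Finset (Fin (Z ^ 4 ^ k1 + 1))) (hs : ∀ i ∈ s, (HAP_b Z k1 (Z ^ 4 ^ k1) i : ℕ) = k1) :
    ∑ i ∈ s, ((HAP_N P h (Z ^ 4 ^ k1) (k1 + 30) (ct Z k1) i).card : ℝ) / (qh P h i : ℝ) ≤
      (lst k1 : ℝ) := by
  have hs' : ∀ i ∈ s, (i : ℕ) ≤ Z := by
    intro i hi
    have h1 := hs i hi
    have h2 := HAP_le i
    rw [h1, Nat.sub_self, pow_zero, pow_one] at h2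
    exact h2
  have key : ∀ i ∈ s, ((HAP_N P h (Z ^ 4 ^ k1) (k1 + 30) (ct Z k1) i).card : ℝ) / (qh P h i : ℝ) ≤
      (if (i : ℕ) = 0 then (1 : ℝ) else 0) +
        ((k1 + 30 : ℕ) : ℝ) * (if (P i ∧ (i : ℕ) ≠ 0) then (1 : ℝ) / (i : ℕ) else 0) := by
    intro i hi
    have hq0 : (0 : ℝ) < (qh P h i : ℝ) := by exact_mod_cast Nat.pos_of_ne_zero (NeZero.ne _)
    by_cases hi0 : (i : ℕ) = 0
    · have h3 : HAP_N P h (Z ^ 4 ^ k1) (k1 + 30) (ct Z k1) i = univ := by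
        unfold HAP_N
        rw [if_pos hi0]
      rw [h3, card_univ, ZMod.card, div_self hq0.ne', if_pos hi0, if_neg (fun h => h.2 hi0)]
      simp
    · rw [if_neg hi0, zero_add]
      have hi' : (0 : ℝ) < ((i : ℕ) : ℝ) := by exact_mod_cast Nat.pos_of_ne_zero hi0
      by_cases hPi : P i
      · rw [if_pos ⟨hPi, hi0⟩]
        by_cases hiJ : (i : ℕ) ≤ k1 + 30
        · have h3 : HAP_N P h (Z ^ 4 ^ k1) (k1 + 30) (ct Z k1) i = univ := by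
            unfold HAP_N
            rw [if_neg hi0, if_pos hPi, if_pos hiJ]
          rw [h3, card_univ, ZMod.card, div_self hq0.ne', mul_one_div, le_div_iff₀ hi', one_mul]
          exact_mod_cast hiJ
        · have h3 : (HAP_N P h (Z ^ 4 ^ k1) (k1 + 30) (ct Z k1) i).card ≤ k1 + 30 :=
            HAP_card1 P h _ _ _ i (not_le.1 hiJ) _ fun k _ hk _ => hk
          have h4 : ((qh P h (i : ℕ) : ℕ) : ℝ) = ((i : ℕ) : ℝ) := by rw [HAP_q hPi hi0]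
          rw [h4, mul_one_div]
          exact div_le_div_of_nonneg_right (by exact_mod_cast h3) hi'.le
      · have h3 : HAP_N P h (Z ^ 4 ^ k1) (k1 + 30) (ct Z k1) i = ∅ := by
          unfold HAP_N
          rw [if_neg hi0, if_neg hPi]
        rw [h3, card_empty, if_neg (fun h => hPi h.1)]
        simp
  refine (sum_le_sum key).trans ?_
  rw [sum_add_distrib, ← mul_sum]
  have h1 : ∑ i ∈ s, (if (i : ℕ) = 0 then (1 : ℝ) else 0) ≤ 1 := by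
    rw [← sum_filter, sum_const, nsmul_eq_mul, mul_one]
    have : (s.filter fun i : Fin (Z ^ 4 ^ k1 + 1) => (i : ℕ) = 0).card ≤ 1 := by
      rw [card_le_one]
      intro a ha b hb
      exact Fin.ext ((mem_filter.1 ha).2.trans (mem_filter.1 hb).2.symm)
    exact_mod_cast this
  have h2 : ∑ i ∈ s, (if (P i ∧ (i : ℕ) ≠ 0) then (1 : ℝ) / (i : ℕ) else 0) ≤ 2 ^ k1 + 8 := by
    have h3 : ∑ i ∈ s, (if (P i ∧ (i : ℕ) ≠ 0) then (1 : ℝ) / (i : ℕ) else 0) =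
        ∑ i ∈ s.filter (fun i : Fin (Z ^ 4 ^ k1 + 1) => (i : ℕ) ≠ 0),
          (if P i then (1 : ℝ) / (i : ℕ) else 0) := by
      rw [sum_filter]
      refine sum_congr rfl fun i _ => ?_
      by_cases h4 : (i : ℕ) = 0
      · rw [if_neg (fun h => h.2 h4), if_neg (not_not.2 h4)]
      · rw [if_pos h4]
        by_cases h5 : P i
        · rw [if_pos ⟨h5, h4⟩, if_pos h5]
        · rw [if_neg (fun h => h5 h.1), if_neg h5]
    rw [h3]
    refine (HAP_sum P _ 0 Z hP _ fun i hi => ?_).trans ?_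
    · obtain ⟨h4, h5⟩ := mem_filter.1 hi
      exact ⟨Nat.pos_of_ne_zero h5, hs' i h4⟩
    · have h4 := SER_recip Z hZ3
      have h5 : Ioc 0 Z = Icc 1 Z := by
        ext x
        rw [mem_Ioc, mem_Icc]
        omega
      rw [h5]
      linarith
  have h3 : (0 : ℝ) ≤ ((k1 + 30 : ℕ) : ℝ) := Nat.cast_nonneg _
  have h4 := mul_le_mul_of_nonneg_left h2 h3
  unfold lst
  push_cast at h4 ⊢
  linarith

theorem HAP_exp (k1 n : ℕ) (hn : n ≤ k1) :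
    ∑ b ∈ range n, 4 ^ (k1 - b) * 2 ^ b + 2 * (4 ^ (k1 - n) * 2 ^ n) = 2 * 4 ^ k1 := by
  induction n with
  | zero => simp
  | succ n ih =>
    have h1 := ih (by omega)
    rw [sum_range_succ]
    have h2 : 4 ^ (k1 - n) = 4 ^ (k1 - (n + 1)) * 4 := by
      rw [← pow_succ]
      congr 1
      omega
    rw [h2] at h1 ⊢
    rw [pow_succ]
    linarith

theorem HAP_prod (c2 k1 Z : ℕ) (hZ : 1 ≤ Z) :
    ∏ b ∈ range k1, (Z ^ 4 ^ (k1 - b)) ^ (2 * (c2 * 2 ^ b) + 2 * (c2 * 2 ^ b)) ≤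
      Z ^ (8 * c2 * 4 ^ k1) := by
  have h1 : ∏ b ∈ range k1, (Z ^ 4 ^ (k1 - b)) ^ (2 * (c2 * 2 ^ b) + 2 * (c2 * 2 ^ b)) =
      Z ^ (∑ b ∈ range k1, 4 * c2 * (4 ^ (k1 - b) * 2 ^ b)) := by
    rw [← prod_pow_eq_pow_sum]
    refine prod_congr rfl fun b _ => ?_
    rw [← pow_mul]
    congr 1
    ring
  rw [h1, ← mul_sum]
  apply Nat.pow_le_pow_right hZ
  have h2 := HAP_exp k1 k1 le_rfl
  have h3 : ∑ b ∈ range k1, 4 ^ (k1 - b) * 2 ^ b ≤ 2 * 4 ^ k1 := by omega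
  calc 4 * c2 * ∑ b ∈ range k1, 4 ^ (k1 - b) * 2 ^ b ≤ 4 * c2 * (2 * 4 ^ k1) :=
        Nat.mul_le_mul_left _ h3
    _ = 8 * c2 * 4 ^ k1 := by ring

/-- invariance of the truncated sum -/
theorem HAP_TO (P : ℕ → Prop) (h Y J : ℕ) (cut : ℕ → ℕ) (hP : ∀ p, P p → p.Prime) (x : Oh P h Y) :
    TO cut J (fun i => if x i ∈ HAP_N P h Y J cut i then x i else 0 : Oh P h Y) = TO cut J x := by
  unfold TO
  refine sum_congr rfl fun k hk => ?_
  obtain ⟨hk1, hk2⟩ := mem_Icc.1 hk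
  have h1 : dO (cut k) k (fun i => if x i ∈ HAP_N P h Y J cut i then x i else 0 : Oh P h Y) =
      dO (cut k) k x := by
    unfold dO
    refine congrArg card (filter_congr fun i _ => ?_)
    by_cases hi : x i ∈ HAP_N P h Y J cut i
    · beta_reduce
      rw [if_pos hi]
    · beta_reduce
      rw [if_neg hi]
      constructor
      · rintro ⟨h2, h3, h4⟩
        exfalso
        have hi0 : (i : ℕ) ≠ 0 := (hP _ h2).ne_zero
        unfold HAP_N at hi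
        rw [if_neg hi0, if_pos h2] at hi
        by_cases hiJ : (i : ℕ) ≤ J
        · rw [if_pos hiJ] at hi
          exact hi (mem_univ _)
        · rw [zero_add, ZMod.natCast_eq_zero_iff, HAP_q h2 hi0] at h4
          have := Nat.le_of_dvd (by omega) h4
          omega
      · rintro ⟨h2, h3, h4⟩
        exfalso
        have hi0 : (i : ℕ) ≠ 0 := (hP _ h2).ne_zero
        unfold HAP_N at hi
        rw [if_neg hi0, if_pos h2] at hi
        by_cases hiJ : (i : ℕ) ≤ J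
        · rw [if_pos hiJ] at hi
          exact hi (mem_univ _)
        · rw [if_neg hiJ] at hi
          exact hi (mem_biUnion.2 ⟨k, mem_filter.2 ⟨hk, h3⟩, mem_filter.2 ⟨mem_univ _, h4⟩⟩)
  rw [h1]

/-- the truncated sum on the integers -/
theorem HAP_TP (P : ℕ → Prop) (h Y J : ℕ) (cut : ℕ → ℕ) (hP : ∀ p, P p → p.Prime)
    (hc : ∀ k, cut k ≤ Y) (m : ℕ) :
    TO cut J (fun i => ((m : ℕ) : ZMod (qh P h i)) : Oh P h Y) = TP P cut J m := by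
  unfold TO TP
  refine sum_congr rfl fun k hk => ?_
  have h1 : dO (cut k) k (fun i => ((m : ℕ) : ZMod (qh P h i)) : Oh P h Y) =
      dP P (cut k) (m + k) := by
    unfold dO dP
    refine card_bij (fun i _ => (i : ℕ)) ?_ ?_ ?_
    · intro i hi
      obtain ⟨h2, h3, h4⟩ := (mem_filter.1 hi).2
      have hi0 : (i : ℕ) ≠ 0 := (hP _ h2).ne_zero
      rw [← Nat.cast_add, ZMod.natCast_eq_zero_iff, HAP_q h2 hi0] at h4
      exact mem_filter.2 ⟨mem_Icc.2 ⟨Nat.pos_of_ne_zero hi0, h3⟩, h2, h4⟩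
    · intro i _ j _ hij
      exact Fin.ext hij
    · intro p hp
      obtain ⟨h2, h3, h4⟩ := mem_filter.1 hp
      obtain ⟨h5, h6⟩ := mem_Icc.1 h2
      refine ⟨⟨p, Nat.lt_succ_of_le (h6.trans (hc k))⟩, mem_filter.2 ⟨mem_univ _, h3, h6, ?_⟩, rfl⟩
      rw [← Nat.cast_add, ZMod.natCast_eq_zero_iff, HAP_q h3 (by omega)]
      exact h4
  rw [h1]

theorem HAP_per (κ : ℕ → ℝ) (n : ℕ) (hκ : ∀ m, κ (m + n) = κ m) (m : ℕ) : κ (m % n) = κ m := by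
  have h1 : ∀ q r : ℕ, κ (r + q * n) = κ r := by
    intro q r
    induction q with
    | zero => simp
    | succ q ih => rw [Nat.succ_mul, ← add_assoc, hκ, ih]
  have h2 := h1 (m / n) (m % n)
  rw [mul_comm, Nat.mod_add_div] at h2
  exact h2.symm

/-- the product over a block -/
theorem HAP_B1 (P : ℕ → Prop) (h k1 Z b : ℕ) (hb : b < k1) (hZ : 1 ≤ Z)
    (s : Finset (Fin (Z ^ 4 ^ k1 + 1))) (hs : ∀ i ∈ s, (HAP_b Z k1 (Z ^ 4 ^ k1) i : ℕ) = b)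
    (n : ℕ) (hn : s.card ≤ n) :
    ∏ i ∈ s, qh P h i ≤ (Z ^ 4 ^ (k1 - b)) ^ n := by
  refine (prod_le_pow_card s _ (Z ^ 4 ^ (k1 - b)) fun i hi => ?_).trans
    (Nat.pow_le_pow_right (by positivity) hn)
  have h1 := hs i hi
  have h2 := HAP_le i
  have h3 := HAP_lt i (by rw [h1]; exact hb)
  rw [h1] at h2
  exact (HAP_q1 (by omega)).trans h2

theorem HAP_B2 (P : ℕ → Prop) (h k1 Z : ℕ) (hZ : 1 ≤ Z)
    (s : Finset (Fin (Z ^ 4 ^ k1 + 1))) (hs : ∀ i ∈ s, (HAP_b Z k1 (Z ^ 4 ^ k1) i : ℕ) = k1)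
    (n : ℕ) (hn : s.card ≤ n) :
    ∏ i ∈ s, qh P h i ≤ (h + 1) * Z ^ n := by
  have h1 : ∀ i ∈ s, qh P h i ≤ (if (i : ℕ) = 0 then h + 1 else 1) * Z := by
    intro i hi
    by_cases hi0 : (i : ℕ) = 0
    · rw [if_pos hi0]
      have h2 : qh P h i = h + 1 := by
        unfold qh
        rw [if_pos hi0]
      rw [h2]
      exact Nat.le_mul_of_pos_right _ (by omega)
    · rw [if_neg hi0, one_mul]
      have h2 := hs i hi
      have h3 := HAP_le i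
      rw [h2, Nat.sub_self, pow_zero, pow_one] at h3
      exact (HAP_q1 hi0).trans h3
  refine (prod_le_prod' h1).trans ?_
  rw [prod_mul_distrib, prod_const]
  refine Nat.mul_le_mul ?_ (Nat.pow_le_pow_right hZ hn)
  rw [← prod_filter, prod_const]
  have h2 : (s.filter fun i : Fin (Z ^ 4 ^ k1 + 1) => (i : ℕ) = 0).card ≤ 1 := by
    rw [card_le_one]
    intro a ha b hb
    exact Fin.ext ((mem_filter.1 ha).2.trans (mem_filter.1 hb).2.symm)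
  calc (h + 1) ^ (s.filter fun i : Fin (Z ^ 4 ^ k1 + 1) => (i : ℕ) = 0).card ≤ (h + 1) ^ 1 :=
        Nat.pow_le_pow_right (by omega) h2
    _ = h + 1 := pow_one _

theorem HAP_n1 (k1 Z b : ℕ) (hb : b < k1) (hZ : 1 ≤ Z)
    (s : Finset (Fin (Z ^ 4 ^ k1 + 1))) (hs : ∀ i ∈ s, (HAP_b Z k1 (Z ^ 4 ^ k1) i : ℕ) = b) :
    s.card + 1 ≤ Z ^ 4 ^ (k1 - b) := by
  have h1 : s.card ≤ (Ioc (Z ^ 4 ^ (k1 - (b + 1))) (Z ^ 4 ^ (k1 - b))).card := by
    refine card_le_card_of_injOn (fun i : Fin (Z ^ 4 ^ k1 + 1) => (i : ℕ)) ?_ ?_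
    · intro i hi
      have h1 := hs i hi
      have h2 := HAP_le i
      have h3 := HAP_lt i (by rw [h1]; exact hb)
      rw [h1] at h2 h3
      exact mem_coe.2 (mem_Ioc.2 ⟨h3, h2⟩)
    · intro i _ j _ hij
      exact Fin.ext hij
  rw [Nat.card_Ioc] at h1
  have h2 : 1 ≤ Z ^ 4 ^ (k1 - (b + 1)) := Nat.one_le_pow _ _ (by omega)
  have h3 : Z ^ 4 ^ (k1 - (b + 1)) ≤ Z ^ 4 ^ (k1 - b) :=
    Nat.pow_le_pow_right hZ (Nat.pow_le_pow_right (by norm_num) (by omega))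
  omega

theorem HAP_n2 (k1 Z : ℕ)
    (s : Finset (Fin (Z ^ 4 ^ k1 + 1))) (hs : ∀ i ∈ s, (HAP_b Z k1 (Z ^ 4 ^ k1) i : ℕ) = k1) :
    s.card + 1 ≤ Z + 2 := by
  have h1 : s.card ≤ (range (Z + 1)).card := by
    refine card_le_card_of_injOn (fun i : Fin (Z ^ 4 ^ k1 + 1) => (i : ℕ)) ?_ ?_
    · intro i hi
      have h1 := hs i hi
      have h2 := HAP_le i
      rw [h1, Nat.sub_self, pow_zero, pow_one] at h2
      exact mem_coe.2 (mem_range.2 (Nat.lt_succ_of_le h2))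
    · intro i _ j _ hij
      exact Fin.ext hij
  rw [card_range] at h1
  omega

theorem thm_HAP (hT : St_TRG) : St_HAP := by
  intro C1 c2 h P κ k1 Z hC0 hc2 hC hP hκ hZ3 hZJ hJ hU
  have hPp : ∀ p, P p → p.Prime := fun p hp => (hP p hp).1
  have hct : ∀ k, ct Z k1 k ≤ Z ^ 4 ^ k1 := by
    intro k
    unfold ct
    exact Nat.pow_le_pow_right (by omega) (Nat.pow_le_pow_right (by norm_num) (Nat.sub_le _ _))
  obtain ⟨Y, hY⟩ : ∃ Y : ℕ, Y = Z ^ 4 ^ k1 := ⟨_, rfl⟩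
  obtain ⟨X, hX⟩ : ∃ X : ℕ, X = Z ^ ((16 * c2 + 2) * 4 ^ k1) := ⟨_, rfl⟩
  have hX0 : 0 < X := by rw [hX]; positivity
  obtain ⟨B, hB⟩ : ∃ B : ℕ, B = Z ^ (8 * c2 * 4 ^ k1) * (h + 1) * Z ^ (4 * (5 * lst k1)) := ⟨_, rfl⟩
  have hBs : ∀ s : Finset (Fin (Z ^ 4 ^ k1 + 1)),
      (∀ b : Fin (k1 + 1), ∀ s' : Finset (Fin (Z ^ 4 ^ k1 + 1)), s' ⊆ s →
        (∀ i ∈ s', HAP_b Z k1 (Z ^ 4 ^ k1) i = b) →
        s'.card ≤ 2 * lb c2 k1 b + 2 * lb c2 k1 b) → ∏ i ∈ s, qh P h i ≤ B := by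
    intro s hs
    have h1 : ∏ i ∈ s, qh P h i = ∏ b : Fin (k1 + 1),
        ∏ i ∈ s.filter (fun i => HAP_b Z k1 (Z ^ 4 ^ k1) i = b), qh P h i :=
      (Finset.prod_fiberwise s (fun i => HAP_b Z k1 (Z ^ 4 ^ k1) i) fun i => qh P h i).symm
    rw [h1, Fin.prod_univ_castSucc]
    have h2 : ∏ b : Fin k1, ∏ i ∈ s.filter (fun i => HAP_b Z k1 (Z ^ 4 ^ k1) i = b.castSucc),
        qh P h i ≤ Z ^ (8 * c2 * 4 ^ k1) := by
      refine le_trans ?_ (HAP_prod c2 k1 Z (by omega))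
      rw [← Fin.prod_univ_eq_prod_range
        (fun b => (Z ^ 4 ^ (k1 - b)) ^ (2 * (c2 * 2 ^ b) + 2 * (c2 * 2 ^ b))) k1]
      refine prod_le_prod' fun b _ => ?_
      have h3 := hs b.castSucc (s.filter (fun i => HAP_b Z k1 (Z ^ 4 ^ k1) i = b.castSucc))
        (filter_subset _ _) (fun i hi => (mem_filter.1 hi).2)
      unfold lb at h3
      rw [Fin.val_castSucc, if_pos b.2] at h3
      exact HAP_B1 P h k1 Z b b.2 (by omega) _
        (fun i hi => by rw [(mem_filter.1 hi).2, Fin.val_castSucc]) _ h3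
    have h4 : ∏ i ∈ s.filter (fun i => HAP_b Z k1 (Z ^ 4 ^ k1) i = Fin.last k1), qh P h i ≤
        (h + 1) * Z ^ (4 * (5 * lst k1)) := by
      have h3 := hs (Fin.last k1)
        (s.filter (fun i => HAP_b Z k1 (Z ^ 4 ^ k1) i = Fin.last k1))
        (filter_subset _ _) (fun i hi => (mem_filter.1 hi).2)
      unfold lb at h3
      rw [Fin.val_last, if_neg (lt_irrefl k1)] at h3
      exact HAP_B2 P h k1 Z (by omega) _
        (fun i hi => by rw [(mem_filter.1 hi).2, Fin.val_last]) _ (h3.trans (by omega))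
    rw [hB, mul_assoc]
    exact Nat.mul_le_mul h2 h4
  have hL : ∀ (b : Fin (k1 + 1)) (s : Finset (Fin (Z ^ 4 ^ k1 + 1))),
      (∀ i ∈ s, HAP_b Z k1 (Z ^ 4 ^ k1) i = b) →
      ∑ i ∈ s, ((HAP_N P h (Z ^ 4 ^ k1) (k1 + 30) (ct Z k1) i).card : ℝ) / (qh P h i : ℝ) ≤
        Lb C1 k1 b := by
    intro b s hs
    unfold Lb
    split_ifs with hb
    · exact HAP_L1 C1 h P k1 Z b hb hC hPp hZJ s fun i hi => by rw [hs i hi]
    · have hb' : (b : ℕ) = k1 := le_antisymm (Nat.lt_succ_iff.1 b.2) (not_lt.1 hb)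
      exact HAP_L2 h P k1 Z hPp hZ3 hU s fun i hi => by rw [hs i hi, hb']
  have hn : ∀ (b : Fin (k1 + 1)) (s : Finset (Fin (Z ^ 4 ^ k1 + 1))),
      (∀ i ∈ s, HAP_b Z k1 (Z ^ 4 ^ k1) i = b) →
      s.card + 1 ≤ if (b : ℕ) < k1 then Z ^ 4 ^ (k1 - (b : ℕ)) else Z + 2 := by
    intro b s hs
    split_ifs with hb
    · exact HAP_n1 k1 Z b hb (by omega) s fun i hi => by rw [hs i hi]
    · have hb' : (b : ℕ) = k1 := le_antisymm (Nat.lt_succ_iff.1 b.2) (not_lt.1 hb)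
      exact HAP_n2 k1 Z s fun i hi => by rw [hs i hi, hb']
  have key := hT (Fin (Z ^ 4 ^ k1 + 1)) (Fin (k1 + 1)) (fun i => qh P h i)
    (fun i j hij => HAP_cop P h hP i j fun h1 => hij (Fin.ext h1)) (HAP_b Z k1 (Z ^ 4 ^ k1))
    (HAP_N P h (Z ^ 4 ^ k1) (k1 + 30) (ct Z k1)) (fun _ => 0)
    (fun x : Oh P h (Z ^ 4 ^ k1) =>
      if (1 : ℝ) / 16 < nrm (TO (ct Z k1) (k1 + 30) x - κ (x 0).val) then (1 : ℝ) else 0)
    (fun x => by split_ifs <;> norm_num) (fun x => by split_ifs <;> norm_num)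
    (fun x => by
      have h1 := HAP_TO P h (Z ^ 4 ^ k1) (k1 + 30) (ct Z k1) hPp x
      have h3 : x 0 ∈ HAP_N P h (Z ^ 4 ^ k1) (k1 + 30) (ct Z k1) 0 := by
        unfold HAP_N
        rw [if_pos (by simp)]
        exact mem_univ _
      have h2 : (fun i => if x i ∈ HAP_N P h (Z ^ 4 ^ k1) (k1 + 30) (ct Z k1) i then x i else 0 :
          Oh P h (Z ^ 4 ^ k1)) 0 = x 0 := if_pos h3
      rw [h1, h2])
    (fun b => Lb C1 k1 b) (fun b => 2 * lb c2 k1 b) (fun b => lb c2 k1 b) X B hX0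
    (fun b => hL b _ fun i hi => by simpa using hi)
    (fun b => by
      unfold lb
      split_ifs
      · exact Nat.mul_pos hc2 (by positivity)
      · unfold lst
        omega)
    (fun s hs => hBs s fun b s' hs' hs'' => (card_le_card fun i hi => by
      simpa using ⟨hs' hi, hs'' i hi⟩).trans (hs b))
  have e1 : pr (fun x : Oh P h (Z ^ 4 ^ k1) =>
      (1 : ℝ) / 16 < nrm (TO (ct Z k1) (k1 + 30) x - κ (x 0).val)) =
      (∑ x : Oh P h (Z ^ 4 ^ k1),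
        if (1 : ℝ) / 16 < nrm (TO (ct Z k1) (k1 + 30) x - κ (x 0).val) then (1 : ℝ) else 0) /
        (Fintype.card (∀ i : Fin (Z ^ 4 ^ k1 + 1), ZMod (qh P h i)) : ℝ) := by
    unfold pr
    rw [sum_boole]
  have e2 : ∑ m ∈ Ico X (2 * X), (if (1 : ℝ) / 16 < nrm (TO (ct Z k1) (k1 + 30)
      (fun i => ((m : ℕ) : ZMod (qh P h i)) : Oh P h (Z ^ 4 ^ k1)) -
        κ ((fun i => ((m : ℕ) : ZMod (qh P h i)) : Oh P h (Z ^ 4 ^ k1)) 0).val) then (1 : ℝ) else 0) =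
      (((Ico X (2 * X)).filter fun m =>
        (1 : ℝ) / 16 < nrm (TP P (ct Z k1) (k1 + 30) m - κ m)).card : ℝ) := by
    rw [← sum_boole]
    refine sum_congr rfl fun m _ => ?_
    have h1 : ((fun i => ((m : ℕ) : ZMod (qh P h i)) : Oh P h (Z ^ 4 ^ k1)) 0).val =
        m % (h + 1) := by
      have h2 : qh P h ((0 : Fin (Z ^ 4 ^ k1 + 1)) : ℕ) = h + 1 := by
        unfold qh
        rw [if_pos (by simp)]
      rw [ZMod.val_natCast, h2]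
    rw [HAP_TP P h (Z ^ 4 ^ k1) (k1 + 30) (ct Z k1) hPp hct m, h1, HAP_per κ (h + 1) hκ m]
  have hins : (fun a b => propDecidable (a = b) : DecidableEq (Fin (Z ^ 4 ^ k1 + 1))) =
      instDecidableEqFin (Z ^ 4 ^ k1 + 1) := Subsingleton.elim _ _
  rw [hins] at key
  rw [e1]
  refine key.trans ?_
  rw [e2]
  have hXR : (X : ℝ) = (Z : ℝ) ^ ((16 * c2 + 2) * 4 ^ k1) := by
    rw [hX]
    push_cast
    rfl
  have hBR : (B : ℝ) = (Z : ℝ) ^ (8 * c2 * 4 ^ k1) * (h + 1) * (Z : ℝ) ^ (4 * (5 * lst k1)) := by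
    rw [hB]
    push_cast
    rfl
  have hNP : NP (HAP_b Z k1 (Z ^ 4 ^ k1)) (fun b => 2 * lb c2 k1 b) (fun b => lb c2 k1 b) ≤
      (Z : ℝ) ^ (8 * c2 * 4 ^ k1) * ((Z : ℝ) + 2) ^ (4 * (5 * lst k1)) := by
    have h1 : NP (HAP_b Z k1 (Z ^ 4 ^ k1)) (fun b => 2 * lb c2 k1 b) (fun b => lb c2 k1 b) ≤
        ∏ b : Fin (k1 + 1), (((if (b : ℕ) < k1 then Z ^ 4 ^ (k1 - (b : ℕ)) else Z + 2 : ℕ) : ℝ)) ^
          (2 * lb c2 k1 b + 2 * lb c2 k1 b) := by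
      unfold NP
      refine prod_le_prod (fun b _ => by positivity) fun b _ => ?_
      apply pow_le_pow_left₀ (by positivity)
      have h2 := hn b (univ.filter fun i => HAP_b Z k1 (Z ^ 4 ^ k1) i = b)
        fun i hi => (mem_filter.1 hi).2
      have h3 : ((univ.filter fun i => HAP_b Z k1 (Z ^ 4 ^ k1) i = b).card : ℝ) + 1 ≤
          ((if (b : ℕ) < k1 then Z ^ 4 ^ (k1 - (b : ℕ)) else Z + 2 : ℕ) : ℝ) := by
        exact_mod_cast h2
      refine le_trans (le_of_eq ?_) h3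
      rw [Finset.filter_congr_decidable]
    refine h1.trans ?_
    rw [Fin.prod_univ_castSucc]
    have h4 : ∏ b : Fin k1, (((if ((b.castSucc : Fin (k1 + 1)) : ℕ) < k1 then
        Z ^ 4 ^ (k1 - ((b.castSucc : Fin (k1 + 1)) : ℕ)) else Z + 2 : ℕ) : ℝ)) ^
          (2 * lb c2 k1 b.castSucc + 2 * lb c2 k1 b.castSucc) ≤ (Z : ℝ) ^ (8 * c2 * 4 ^ k1) := by
      have h5 := HAP_prod c2 k1 Z (by omega)
      have h6 : ∏ b : Fin k1, (((if ((b.castSucc : Fin (k1 + 1)) : ℕ) < k1 then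
        Z ^ 4 ^ (k1 - ((b.castSucc : Fin (k1 + 1)) : ℕ)) else Z + 2 : ℕ) : ℝ)) ^
          (2 * lb c2 k1 b.castSucc + 2 * lb c2 k1 b.castSucc) =
          ((∏ b ∈ range k1, (Z ^ 4 ^ (k1 - b)) ^ (2 * (c2 * 2 ^ b) + 2 * (c2 * 2 ^ b)) : ℕ) : ℝ) := by
        rw [← Fin.prod_univ_eq_prod_range
          (fun b => (Z ^ 4 ^ (k1 - b)) ^ (2 * (c2 * 2 ^ b) + 2 * (c2 * 2 ^ b))) k1, Nat.cast_prod]
        refine prod_congr rfl fun b _ => ?_
        unfold lb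
        rw [Fin.val_castSucc, if_pos b.2, if_pos b.2]
        exact (Nat.cast_pow _ _).symm
      rw [h6]
      exact_mod_cast h5
    have h7 : (((if ((Fin.last k1 : Fin (k1 + 1)) : ℕ) < k1 then
        Z ^ 4 ^ (k1 - ((Fin.last k1 : Fin (k1 + 1)) : ℕ)) else Z + 2 : ℕ) : ℝ)) ^
          (2 * lb c2 k1 (Fin.last k1) + 2 * lb c2 k1 (Fin.last k1)) =
          ((Z : ℝ) + 2) ^ (4 * (5 * lst k1)) := by
      unfold lb
      rw [Fin.val_last, if_neg (lt_irrefl k1), if_neg (lt_irrefl k1)]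
      have h8 : 2 * (5 * lst k1) + 2 * (5 * lst k1) = 4 * (5 * lst k1) := by ring
      rw [h8, Nat.cast_add, Nat.cast_two]
    rw [h7]
    exact mul_le_mul_of_nonneg_right h4 (by positivity)
  rw [Fin.sum_univ_eq_sum_range (fun b => Lb C1 k1 b ^ (2 * lb c2 k1 b + 1) /
      (2 * lb c2 k1 b + 1).factorial) (k1 + 1),
    Fin.sum_univ_eq_sum_range (fun b => Real.exp (Lb C1 k1 b) * Lb C1 k1 b ^ (2 * lb c2 k1 b) /
      (2 * lb c2 k1 b).factorial) (k1 + 1), Fintype.card_fin, hXR, hBR]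
  have h8 : 2 * ((Z : ℝ) ^ (8 * c2 * 4 ^ k1) * (h + 1) * (Z : ℝ) ^ (4 * (5 * lst k1))) /
      (Z : ℝ) ^ ((16 * c2 + 2) * 4 ^ k1) *
      NP (HAP_b Z k1 (Z ^ 4 ^ k1)) (fun b => 2 * lb c2 k1 b) (fun b => lb c2 k1 b) ≤
      2 * ((Z : ℝ) ^ (8 * c2 * 4 ^ k1) * (h + 1) * (Z : ℝ) ^ (4 * (5 * lst k1))) /
      (Z : ℝ) ^ ((16 * c2 + 2) * 4 ^ k1) *
      ((Z : ℝ) ^ (8 * c2 * 4 ^ k1) * ((Z : ℝ) + 2) ^ (4 * (5 * lst k1))) :=
    mul_le_mul_of_nonneg_left hNP (by positivity)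
  have h9 : (((k1 + 1 : ℕ) : ℝ) + 1) = (k1 : ℝ) + 2 := by
    push_cast
    ring
  rw [h9, ← hX]
  have h10 := mul_le_mul_of_nonneg_left h8 (show (0 : ℝ) ≤ (k1 : ℝ) + 2 by positivity)
  linarith

end Pool.Agent.RMS
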