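import Pool.Agent.RMS.St3

/-!
RMS, HBL: the sum of the reciprocals of the primes in `(u, u ^ 4]` is bounded (helper93).
-/

set_option autoImplicit false

namespace Pool.Agent.RMS

open Finset
open Classical

/-- the number of the primes in a dyadic interval -/
theorem HBL_card (k : ℕ) : k * ((Ioc (2 ^ k) (2 ^ (k + 1))).filter Nat.Prime).card ≤ 4 * 2 ^ k := by
  have h1 : (2 ^ k) ^ ((Ioc (2 ^ k) (2 ^ (k + 1))).filter Nat.Prime).card ≤
      ∏ p ∈ (Ioc (2 ^ k) (2 ^ (k + 1))).filter Nat.Prime, p :=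
    Finset.pow_card_le_prod _ _ _ fun p hp => (mem_Ioc.1 (mem_filter.1 hp).1).1.le
  have h2 : ∏ p ∈ (Ioc (2 ^ k) (2 ^ (k + 1))).filter Nat.Prime, p ≤ primorial (2 ^ (k + 1)) := by
    unfold primorial
    refine Finset.prod_le_prod_of_subset_of_one_le' (fun p hp => ?_) fun p hp _ =>
      (mem_filter.1 hp).2.one_lt.le
    rw [mem_filter, mem_Ioc] at hp
    rw [mem_filter, mem_range]
    exact ⟨by omega, hp.2⟩
  have h3 := primorial_le_four_pow (2 ^ (k + 1))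
  have h4 : 2 ^ (k * ((Ioc (2 ^ k) (2 ^ (k + 1))).filter Nat.Prime).card) ≤ 2 ^ (4 * 2 ^ k) := by
    refine (le_of_eq (pow_mul 2 k _)).trans (h1.trans (h2.trans (h3.trans (le_of_eq ?_))))
    rw [show (4 : ℕ) = 2 ^ 2 by norm_num, ← pow_mul]
    congr 1
    ring
  exact (Nat.pow_le_pow_iff_right (by norm_num)).1 h4

theorem HBL_block (k : ℕ) (hk : 1 ≤ k) :
    ∑ p ∈ (Ioc (2 ^ k) (2 ^ (k + 1))).filter Nat.Prime, (1 : ℝ) / p ≤ 4 / k := by
  have h1 : ∑ p ∈ (Ioc (2 ^ k) (2 ^ (k + 1))).filter Nat.Prime, (1 : ℝ) / p ≤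
      ((Ioc (2 ^ k) (2 ^ (k + 1))).filter Nat.Prime).card • ((1 : ℝ) / 2 ^ k) := by
    refine Finset.sum_le_card_nsmul _ _ _ fun p hp => ?_
    have h2 : 2 ^ k < p := (mem_Ioc.1 (mem_filter.1 hp).1).1
    apply one_div_le_one_div_of_le (by positivity)
    exact_mod_cast h2.le
  refine h1.trans ?_
  rw [nsmul_eq_mul, mul_one_div, div_le_div_iff₀ (by positivity) (by exact_mod_cast hk)]
  have h3 := HBL_card k
  have h4 : (k : ℝ) * ((Ioc (2 ^ k) (2 ^ (k + 1))).filter Nat.Prime).card ≤ 4 * 2 ^ k := by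
    exact_mod_cast h3
  linarith

theorem HBL_bi (s : Finset ℕ) (t : ℕ → Finset ℕ) (f : ℕ → ℝ) (hf : ∀ p, 0 ≤ f p) :
    ∑ p ∈ s.biUnion t, f p ≤ ∑ k ∈ s, ∑ p ∈ t k, f p := by
  induction s using Finset.induction_on with
  | empty => simp
  | insert a s ha ih =>
    rw [Finset.biUnion_insert, Finset.sum_insert ha]
    have h1 := Finset.sum_union_inter (s₁ := t a) (s₂ := s.biUnion t) (f := f)
    have h2 : 0 ≤ ∑ p ∈ t a ∩ s.biUnion t, f p := Finset.sum_nonneg fun p _ => hf p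
    linarith

theorem thm_HBL : St_HBL := by
  intro u v hu hv
  have hK : 1 ≤ Nat.log 2 u := Nat.log_pos (by norm_num) hu
  have h1 : (Ioc u v).filter Nat.Prime ⊆
      (Ico (Nat.log 2 u) (4 * Nat.log 2 u + 4)).biUnion
        fun k => (Ioc (2 ^ k) (2 ^ (k + 1))).filter Nat.Prime := by
    intro p hp
    rw [mem_filter, mem_Ioc] at hp
    obtain ⟨⟨hp1, hp2⟩, hp3⟩ := hp
    -- the exponent with `2 ^ k < p ≤ 2 ^ (k + 1)`
    have hp4 : p - 1 ≠ 0 := by have := hp3.two_le; omega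
    have h2 : 2 ^ Nat.log 2 (p - 1) ≤ p - 1 := Nat.pow_log_le_self 2 hp4
    have h3 : p - 1 < 2 ^ (Nat.log 2 (p - 1) + 1) := Nat.lt_pow_succ_log_self (by norm_num) _
    rw [mem_biUnion]
    refine ⟨Nat.log 2 (p - 1), mem_Ico.2 ⟨Nat.log_mono_right (by omega), ?_⟩,
      mem_filter.2 ⟨mem_Ioc.2 ⟨by omega, by omega⟩, hp3⟩⟩
    have h4 : u < 2 ^ (Nat.log 2 u + 1) := Nat.lt_pow_succ_log_self (by norm_num) _
    have h5 : u ^ 4 < 2 ^ (4 * Nat.log 2 u + 4) := by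
      calc u ^ 4 < (2 ^ (Nat.log 2 u + 1)) ^ 4 := Nat.pow_lt_pow_left h4 (by norm_num)
        _ = 2 ^ (4 * Nat.log 2 u + 4) := by
          rw [← pow_mul]
          congr 1
          ring
    exact (Nat.pow_lt_pow_iff_right (by norm_num)).1 (h2.trans_lt (by omega))
  have h6 : ∑ p ∈ (Ioc u v).filter Nat.Prime, (1 : ℝ) / p ≤
      ∑ p ∈ (Ico (Nat.log 2 u) (4 * Nat.log 2 u + 4)).biUnion
        (fun k => (Ioc (2 ^ k) (2 ^ (k + 1))).filter Nat.Prime), (1 : ℝ) / p :=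
    Finset.sum_le_sum_of_subset_of_nonneg h1 fun p _ _ => by positivity
  refine h6.trans ((HBL_bi _ _ (fun p : ℕ => (1 : ℝ) / p) fun p => by positivity).trans ?_)
  have hK' : (1 : ℝ) ≤ Nat.log 2 u := by exact_mod_cast hK
  have h7 : ∑ k ∈ Ico (Nat.log 2 u) (4 * Nat.log 2 u + 4),
      ∑ p ∈ (Ioc (2 ^ k) (2 ^ (k + 1))).filter Nat.Prime, (1 : ℝ) / p ≤
      (Ico (Nat.log 2 u) (4 * Nat.log 2 u + 4)).card • (4 / (Nat.log 2 u : ℝ)) := by
    refine Finset.sum_le_card_nsmul _ _ _ fun k hk => ?_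
    have hk1 := (mem_Ico.1 hk).1
    refine (HBL_block k (by omega)).trans ?_
    apply div_le_div_of_nonneg_left (by norm_num) (by linarith)
    exact_mod_cast hk1
  refine h7.trans ?_
  rw [nsmul_eq_mul, Nat.card_Ico, show 4 * Nat.log 2 u + 4 - Nat.log 2 u = 3 * Nat.log 2 u + 4 by omega]
  push_cast
  rw [mul_div_assoc', div_le_iff₀ (by linarith)]
  linarith

end Pool.Agent.RMS
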