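import Pool.Agent.RMS.St3

/-!
RMS, part H, module HCO: pigeonhole for windows of the form `(Y, Y^V]`.
-/

set_option autoImplicit false

namespace Pool.Agent.RMS

open Finset Filter
open Classical

theorem HCO_ind_nonneg (B : Set ℕ) (a : ℕ) : 0 ≤ B.indicator (fun a : ℕ => (1 : ℝ) / a) a :=
  Set.indicator_nonneg (fun x _ => by positivity) a

theorem HCO_mono (B : Set ℕ) {u v u' v' : ℕ} (h1 : u' ≤ u) (h2 : v ≤ v') :
    RS B u v ≤ RS B u' v' :=
  Finset.sum_le_sum_of_subset_of_nonneg (Finset.Ioc_subset_Ioc h1 h2)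
    (fun i _ _ => HCO_ind_nonneg B i)

theorem HCO_tel (B : Set ℕ) (Y : ℕ → ℕ) (hY : Monotone Y) (a n : ℕ) :
    ∑ r ∈ Ico a (a + n), RS B (Y r) (Y (r + 1)) = RS B (Y a) (Y (a + n)) := by
  induction n with
  | zero => simp [RS]
  | succ n ih =>
    rw [← Nat.add_assoc, Finset.sum_Ico_succ_top (by omega), ih]
    exact Finset.sum_Ioc_consecutive _ (hY (by omega)) (hY (by omega))

theorem thm_HCO : St_HCO := by
  intro V c0 hV hc0
  have hVr : (1 : ℝ) < V := by exact_mod_cast (by omega : 1 < V)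
  have hlogV : 0 < Real.log V := Real.log_pos hVr
  refine ⟨c0 / (4 * Real.log V), by positivity, ?_⟩
  intro B hfr
  rw [Filter.frequently_atTop] at hfr ⊢
  intro a
  obtain ⟨x, hx, hRS⟩ := hfr (2 ^ V ^ (2 * a + 2))
  have hx0 : x ≠ 0 := by
    have : 0 < 2 ^ V ^ (2 * a + 2) := Nat.pos_of_ne_zero (by positivity)
    omega
  set L := Nat.log 2 x with hL
  have hL1 : 2 ^ L ≤ x := Nat.pow_log_le_self 2 hx0
  have hL2 : x < 2 ^ (L + 1) := Nat.lt_pow_succ_log_self (by norm_num) x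
  have hLa : V ^ (2 * a + 2) ≤ L := by
    have h1 : 2 ^ V ^ (2 * a + 2) < 2 ^ (L + 1) := lt_of_le_of_lt hx hL2
    have h2 := (Nat.pow_lt_pow_iff_right (by norm_num : 1 < 2)).1 h1
    omega
  have hL0 : L ≠ 0 := by
    have : 0 < V ^ (2 * a + 2) := Nat.pow_pos (by omega)
    omega
  set R := Nat.log V L with hR
  have hR1 : V ^ R ≤ L := Nat.pow_log_le_self V hL0
  have hR2 : L < V ^ (R + 1) := Nat.lt_pow_succ_log_self (by omega) L
  have hRa : 2 * a + 2 ≤ R := by
    have h1 : V ^ (2 * a + 2) < V ^ (R + 1) := lt_of_le_of_lt hLa hR2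
    have h2 := (Nat.pow_lt_pow_iff_right (by omega : 1 < V)).1 h1
    omega
  -- the upper bound of `log (log x)`
  have hxr : (1 : ℝ) ≤ x := by exact_mod_cast Nat.one_le_iff_ne_zero.2 hx0
  have hlog : Real.log (Real.log x) ≤ (R + 1) * Real.log V := by
    have h1 : Real.log x ≤ V ^ (R + 1) := by
      have h2 : Real.log x ≤ Real.log ((2 : ℝ) ^ (L + 1)) := by
        apply Real.log_le_log (by linarith)
        exact_mod_cast hL2.le
      rw [Real.log_pow] at h2
      have h3 : Real.log 2 ≤ 1 := by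
        have := Real.log_two_lt_d9
        linarith
      have h4 : ((L + 1 : ℕ) : ℝ) ≤ V ^ (R + 1) := by exact_mod_cast hR2
      have h5 : (0 : ℝ) ≤ ((L + 1 : ℕ) : ℝ) := by positivity
      calc Real.log x ≤ ((L + 1 : ℕ) : ℝ) * Real.log 2 := h2
        _ ≤ ((L + 1 : ℕ) : ℝ) * 1 := mul_le_mul_of_nonneg_left h3 h5
        _ ≤ V ^ (R + 1) := by rw [mul_one]; exact h4
    rcases le_or_gt (Real.log x) 0 with h0 | h0
    · have h2 : Real.log x = 0 := le_antisymm h0 (Real.log_nonneg hxr)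
      rw [h2, Real.log_zero]
      positivity
    · have h2 := Real.log_le_log h0 h1
      rw [Real.log_pow] at h2
      push_cast at h2
      exact h2
  -- the windows
  let Y : ℕ → ℕ := fun r => 2 ^ V ^ r
  have hYm : Monotone Y := by
    intro r s hrs
    exact Nat.pow_le_pow_right (by norm_num) (Nat.pow_le_pow_right (by omega) hrs)
  have hYs : ∀ r, Y (r + 1) = Y r ^ V := by
    intro r
    change 2 ^ V ^ (r + 1) = (2 ^ V ^ r) ^ V
    rw [← pow_mul, ← pow_succ]
  have hYR : Y R ≤ x := le_trans (Nat.pow_le_pow_right (by norm_num) hR1) hL1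
  obtain ⟨n, hn⟩ : ∃ n, R = a + n := ⟨R - a, by omega⟩
  have htel := HCO_tel B Y hYm a n
  have h1 : RS B (Y a) (Y (a + n)) ≤ RS B 0 x := HCO_mono B (Nat.zero_le _) (by rw [← hn]; exact hYR)
  have hn1 : 1 ≤ n := by omega
  have hnR : ((R : ℝ) + 1) ≤ 4 * n := by
    have : R + 1 ≤ 4 * n := by omega
    exact_mod_cast this
  have h2 : ∑ r ∈ Ico a (a + n), RS B (Y r) (Y (r + 1)) ≤ ∑ _r ∈ Ico a (a + n), c0 := by
    rw [htel, Finset.sum_const, Nat.card_Ico, Nat.add_sub_cancel_left, nsmul_eq_mul]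
    refine le_trans h1 (le_trans hRS ?_)
    calc c0 / (4 * Real.log V) * Real.log (Real.log x)
        ≤ c0 / (4 * Real.log V) * ((R + 1) * Real.log V) :=
          mul_le_mul_of_nonneg_left hlog (by positivity)
      _ = c0 * (R + 1) / 4 := by field_simp
      _ ≤ n * c0 := by
        have : c0 * ((R : ℝ) + 1) ≤ c0 * (4 * n) := mul_le_mul_of_nonneg_left hnR hc0.le
        linarith
  obtain ⟨r, hr, hr2⟩ := Finset.exists_le_of_sum_le (by
    rw [Finset.nonempty_Ico]; omega) h2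
  refine ⟨Y r, ?_, ?_⟩
  · have h3 : a ≤ r := (Finset.mem_Ico.1 hr).1
    have h4 : r < V ^ r := Nat.lt_pow_self (by omega)
    have h5 : V ^ r < 2 ^ V ^ r := Nat.lt_pow_self (by norm_num)
    change a ≤ 2 ^ V ^ r
    omega
  · rw [← hYs]
    exact hr2

end Pool.Agent.RMS
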