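import Pool.Agent.RMS.Basic

/-! RMS [HIT]: the hit lemma. -/

set_option autoImplicit false

namespace Pool.Agent.RMS

open Finset
open Classical

theorem HIT_true {γ : Type} [Fintype γ] [Nonempty γ] (P : γ → Prop) (h : ∀ x, P x) : pr P = 1 := by
  unfold pr
  rw [filter_true_of_mem (fun t _ => h t), card_univ]
  have : (0 : ℝ) < Fintype.card γ := by exact_mod_cast Fintype.card_pos
  exact div_self this.ne'

theorem HIT_card_prod {β γ : Type} [Fintype β] [Fintype γ] (P : β × γ → Prop) :
    ((univ.filter P).card : ℝ) = ∑ a : β, ((univ.filter fun t : γ => P (a, t)).card : ℝ) := by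
  have h1 : ((univ.filter P).card : ℝ) = ∑ z : β × γ, (if P z then (1 : ℝ) else 0) := by
    rw [card_filter]
    push_cast
    rfl
  rw [h1, Fintype.sum_prod_type]
  refine sum_congr rfl fun a _ => ?_
  rw [card_filter]
  push_cast
  rfl

theorem HIT_prod {β γ : Type} [Fintype β] [Fintype γ] (P : β × γ → Prop) :
    pr P = (∑ a : β, pr (fun t : γ => P (a, t))) / (Fintype.card β : ℝ) := by
  unfold pr
  rw [HIT_card_prod, Fintype.card_prod, ← sum_div, div_div, Nat.cast_mul,
    mul_comm (Fintype.card β : ℝ)]

theorem HIT_prod' {β γ : Type} [Fintype β] [Fintype γ] (P : β × γ → Prop) :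
    pr P = (∑ t : γ, ((univ.filter fun a : β => P (a, t)).card : ℝ)) / (Fintype.card γ : ℝ) /
      (Fintype.card β : ℝ) := by
  have h := pr_equiv (Equiv.prodComm γ β) P
  rw [← h]
  unfold pr
  rw [HIT_card_prod, Fintype.card_prod, div_div, Nat.cast_mul]
  rfl

theorem HIT_slice {R : ℕ} (α : Fin (R + 1) → Type) [∀ i, Fintype (α i)]
    (P : (∀ i, α i) → Prop) :
    pr P = (∑ a : α 0, pr (fun t : (∀ i : Fin R, α i.succ) => P (Fin.cons a t))) /
      (Fintype.card (α 0) : ℝ) := by
  have h := pr_equiv (Fin.consEquiv α) P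
  rw [← h, HIT_prod]
  rfl

theorem HIT_slice' {R : ℕ} (α : Fin (R + 1) → Type) [∀ i, Fintype (α i)]
    (P : (∀ i, α i) → Prop) :
    pr P = (∑ t : (∀ i : Fin R, α i.succ),
      ((univ.filter fun a : α 0 => P (Fin.cons a t)).card : ℝ)) /
        (Fintype.card (∀ i : Fin R, α i.succ) : ℝ) / (Fintype.card (α 0) : ℝ) := by
  have h := pr_equiv (Fin.consEquiv α) P
  rw [← h, HIT_prod']
  rfl

theorem thm_HIT : St_HIT := by
  intro R
  induction R with
  | zero =>
    intro α _ _ H V Bad _ hV
    have h1 : pr V ≤ pr (fun _ : (∀ i, α i) => False) :=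
      pr_mono fun x hx => by
        obtain ⟨i, _⟩ := hV x hx
        exact i.elim0
    rw [pr_false] at h1
    have h2 := pr_nonneg (fun x : (∀ i, α i) => ∃ i, H i x)
    have h3 := pr_nonneg Bad
    linarith
  | succ R ih =>
    intro α _ _ H V Bad hH hV
    by_cases hB : 1 / 4 ≤ pr Bad
    · have h1 := pr_le_one V
      have h2 := pr_nonneg (fun x : (∀ i, α i) => ∃ i, H i x)
      linarith
    rw [not_le] at hB
    have hc : (0 : ℝ) < Fintype.card (α 0) := by exact_mod_cast Fintype.card_pos
    -- the event of the bad tails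
    have hE : pr (fun t : (∀ i : Fin R, α i.succ) => (Fintype.card (α 0) : ℝ) ≤
        2 * ((univ.filter fun y : α 0 => Bad (Fin.cons y t)).card : ℝ)) ≤ 2 * pr Bad := by
      have h1 := pr_markov (fun t : (∀ i : Fin R, α i.succ) =>
        2 * ((univ.filter fun y : α 0 => Bad (Fin.cons y t)).card : ℝ))
        (fun t => by positivity) _ hc
      refine h1.trans (le_of_eq ?_)
      rw [HIT_slice' α Bad, ← mul_sum]
      ring
    -- the slices
    have hsl : ∀ a : α 0, pr (fun t : (∀ i : Fin R, α i.succ) => V (Fin.cons a t)) ≤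
        1 / 2 * pr (fun t : (∀ i : Fin R, α i.succ) => ∃ i, H i (Fin.cons a t)) +
          4 * pr (fun t : (∀ i : Fin R, α i.succ) => Bad (Fin.cons a t)) := by
      intro a
      by_cases hA : ∃ t : (∀ i : Fin R, α i.succ), H 0 (Fin.cons a t)
      · obtain ⟨t0, ht0⟩ := hA
        have hall : ∀ t : (∀ i : Fin R, α i.succ), H 0 (Fin.cons a t) := fun t =>
          hH 0 _ _ (fun k hk => by
            have hk0 : k = 0 := nonpos_iff_eq_zero.1 hk
            subst hk0
            rfl) ht0
        have h1 : pr (fun t : (∀ i : Fin R, α i.succ) => V (Fin.cons a t)) ≤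
            pr (fun t : (∀ i : Fin R, α i.succ) => (Fintype.card (α 0) : ℝ) ≤
              2 * ((univ.filter fun y : α 0 => Bad (Fin.cons y t)).card : ℝ)) := by
          refine pr_mono fun t ht => ?_
          obtain ⟨i, _, hi2, hi3⟩ := hV _ ht
          have hi0 : i = 0 := by
            by_contra hne
            exact hi2 0 (Fin.pos_iff_ne_zero.2 hne) (hall t)
          subst hi0
          have he : ∀ y : α 0, Function.update (Fin.cons a t : ∀ i, α i) 0 y = Fin.cons y t :=
            fun y => Fin.update_cons_zero a t y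
          simp only [he] at hi3
          exact hi3
        have h2 : pr (fun t : (∀ i : Fin R, α i.succ) => ∃ i, H i (Fin.cons a t)) = 1 :=
          HIT_true _ fun t => ⟨0, hall t⟩
        have h3 := pr_nonneg (fun t : (∀ i : Fin R, α i.succ) => Bad (Fin.cons a t))
        rw [h2]
        linarith
      · have hno : ∀ t : (∀ i : Fin R, α i.succ), ¬ H 0 (Fin.cons a t) := fun t ht => hA ⟨t, ht⟩
        have h1 := ih (fun i => α i.succ) (fun i t => H i.succ (Fin.cons a t))
          (fun t => V (Fin.cons a t)) (fun t => Bad (Fin.cons a t))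
          (fun i t t' htt hi => hH i.succ _ _ (fun k hk => by
            refine Fin.cases ?_ (fun k' => ?_) k hk
            · intro _
              rfl
            · intro hk'
              simp only [Fin.cons_succ]
              exact htt k' (Fin.succ_le_succ_iff.1 hk')) hi)
          (fun t ht => by
            obtain ⟨i, hi1, hi2, hi3⟩ := hV _ ht
            obtain ⟨i', rfl⟩ : ∃ i', i = Fin.succ i' := by
              rcases Fin.eq_zero_or_eq_succ i with h0 | h0
              · subst h0
                exact absurd hi1 (hno t)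
              · exact h0
            refine ⟨i', hi1, fun k hk => hi2 k.succ (Fin.succ_lt_succ_iff.2 hk), ?_⟩
            simp only [Fin.cons_update]
            exact hi3)
        have h2 : pr (fun t : (∀ i : Fin R, α i.succ) => ∃ i : Fin R, H i.succ (Fin.cons a t)) ≤
            pr (fun t : (∀ i : Fin R, α i.succ) => ∃ i, H i (Fin.cons a t)) :=
          pr_mono fun t ⟨i, hi⟩ => ⟨i.succ, hi⟩
        linarith
    rw [HIT_slice α V, HIT_slice α (fun x => ∃ i, H i x), HIT_slice α Bad]
    calc (∑ a : α 0, pr (fun t : (∀ i : Fin R, α i.succ) => V (Fin.cons a t))) /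
          (Fintype.card (α 0) : ℝ)
        ≤ (∑ a : α 0, (1 / 2 * pr (fun t : (∀ i : Fin R, α i.succ) => ∃ i, H i (Fin.cons a t)) +
          4 * pr (fun t : (∀ i : Fin R, α i.succ) => Bad (Fin.cons a t)))) /
            (Fintype.card (α 0) : ℝ) :=
          div_le_div_of_nonneg_right (sum_le_sum fun a _ => hsl a) hc.le
      _ = _ := by
          rw [sum_add_distrib, ← mul_sum, ← mul_sum]
          ring

end Pool.Agent.RMS
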