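import Pool.Agent.RMS.St3

/-!
RMS, part H, module HNE: the numerical bound for the error terms of the transfer.
-/

set_option autoImplicit false

namespace Pool.Agent.RMS

open Finset Filter
open Classical

/-- the bound for the terms of the exponential series -/
theorem HNE_pow (L : ℝ) (hL : 0 ≤ L) (n : ℕ) : L ^ n / n.factorial ≤ Real.exp (8 * L - 2 * n) := by
  have h2 : Real.exp 2 ≤ 8 := by
    have h3 : Real.exp 2 = Real.exp 1 * Real.exp 1 := by
      rw [← Real.exp_add]
      norm_num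
    have h4 := Real.exp_one_lt_d9
    have h5 := Real.exp_pos 1
    rw [h3]
    nlinarith
  have h3 := Real.pow_div_factorial_le_exp (Real.exp 2 * L) (by positivity) n
  have h4 : Real.exp 2 ^ n = Real.exp (2 * n) := by
    rw [← Real.exp_nat_mul]
    congr 1
    ring
  rw [mul_pow, h4, mul_div_assoc] at h3
  have h5 : L ^ n / n.factorial ≤ Real.exp (Real.exp 2 * L) * Real.exp (-(2 * n)) := by
    have h6 : L ^ n / n.factorial = Real.exp (2 * n) * (L ^ n / n.factorial) *
        Real.exp (-(2 * n)) := by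
      rw [mul_right_comm, ← Real.exp_add, add_neg_cancel, Real.exp_zero, one_mul]
    rw [h6]
    exact mul_le_mul_of_nonneg_right h3 (Real.exp_pos _).le
  refine h5.trans ?_
  rw [← Real.exp_add]
  apply Real.exp_le_exp.2
  have h7 : Real.exp 2 * L ≤ 8 * L := mul_le_mul_of_nonneg_right h2 hL
  linarith

/-- both terms of a block -/
theorem HNE_two (L : ℝ) (hL : 0 ≤ L) (l : ℕ) (M : ℝ) (h : 9 * L - 4 * l ≤ -M) :
    L ^ (2 * l + 1) / (2 * l + 1).factorial ≤ Real.exp (-M) ∧
      Real.exp L * L ^ (2 * l) / (2 * l).factorial ≤ Real.exp (-M) := by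
  constructor
  · refine (HNE_pow L hL (2 * l + 1)).trans (Real.exp_le_exp.2 ?_)
    push_cast
    linarith
  · rw [mul_div_assoc]
    refine (mul_le_mul_of_nonneg_left (HNE_pow L hL (2 * l)) (Real.exp_pos L).le).trans ?_
    rw [← Real.exp_add]
    apply Real.exp_le_exp.2
    push_cast
    linarith

/-- the geometric series -/
theorem HNE_geo (n : ℕ) : ∑ b ∈ range n, Real.exp (-(12 * ((b : ℝ) + 1))) ≤ 2 / 4096 := by
  have h1 : Real.exp (-12) ≤ 1 / 4096 := by
    rw [Real.exp_neg, ← one_div]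
    apply one_div_le_one_div_of_le (by norm_num)
    have h2 : Real.exp 12 = Real.exp 1 ^ 12 := by
      rw [← Real.exp_nat_mul]
      norm_num
    have h3 : (2 : ℝ) ≤ Real.exp 1 := by
      have := Real.add_one_le_exp (1 : ℝ)
      linarith
    rw [h2]
    calc (4096 : ℝ) = 2 ^ 12 := by norm_num
      _ ≤ Real.exp 1 ^ 12 := pow_le_pow_left₀ (by norm_num) h3 12
  have h4 : ∀ b : ℕ, Real.exp (-(12 * ((b : ℝ) + 1))) ≤ 1 / 4096 * (1 / 2) ^ b := by
    intro b
    have h5 : Real.exp (-(12 * ((b : ℝ) + 1))) = Real.exp (-12) * Real.exp (-12) ^ b := by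
      rw [← Real.exp_nat_mul, ← Real.exp_add]
      congr 1
      ring
    rw [h5]
    refine mul_le_mul h1 (pow_le_pow_left₀ (Real.exp_pos _).le (h1.trans (by norm_num)) b)
      (pow_nonneg (Real.exp_pos _).le b) (by norm_num)
  refine (Finset.sum_le_sum fun b _ => h4 b).trans ?_
  rw [← Finset.mul_sum]
  have h6 : ∑ b ∈ range n, (1 / 2 : ℝ) ^ b ≤ 2 := by
    rw [geom_sum_eq (by norm_num)]
    have h7 : (0 : ℝ) ≤ (1 / 2) ^ n := by positivity
    have h8 : ((1 / 2 : ℝ) ^ n - 1) / (1 / 2 - 1) = 2 * (1 - (1 / 2) ^ n) := by ring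
    rw [h8]
    linarith
  linarith

theorem thm_HNE : St_HNE := by
  intro C1 hC1
  obtain ⟨c2, hc2⟩ := exists_nat_ge (max 1 ((18 * C1 + 12) / 4))
  have h1 : (1 : ℝ) ≤ c2 := (le_max_left _ _).trans hc2
  have h2 : (18 * C1 + 12) / 4 ≤ c2 := (le_max_right _ _).trans hc2
  refine ⟨c2, by exact_mod_cast h1, fun k1 => ?_⟩
  have key : ∀ b ∈ range (k1 + 1),
      0 ≤ Lb C1 k1 b ∧ 9 * Lb C1 k1 b - 4 * (lb c2 k1 b : ℕ) ≤ -(12 * ((b : ℝ) + 1)) := by
    intro b hb
    rw [mem_range] at hb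
    unfold Lb lb
    split_ifs with h
    · constructor
      · positivity
      · have h3 : (b : ℝ) + 1 ≤ 2 ^ b := by
          have h4 : b < 2 ^ b := Nat.lt_two_pow_self
          have h5 : b + 1 ≤ 2 ^ b := h4
          exact_mod_cast h5
        have h6 : (0 : ℝ) < 2 ^ b := by positivity
        push_cast
        have h7 : 9 * (2 ^ (b + 1) * C1) - 4 * ((c2 : ℝ) * 2 ^ b) = 2 ^ b * (18 * C1 - 4 * c2) := by
          ring
        rw [h7]
        have h8 : 18 * C1 - 4 * (c2 : ℝ) ≤ -12 := by linarith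
        nlinarith
    · constructor
      · positivity
      · have hbk : b = k1 := by omega
        subst hbk
        have h3 : 9 * b + 271 ≤ lst b := by
          unfold lst
          have h4 : 1 ≤ 2 ^ b := Nat.one_le_two_pow
          nlinarith
        have h5 : (9 : ℝ) * b + 271 ≤ lst b := by exact_mod_cast h3
        push_cast
        have h6 : (0 : ℝ) ≤ b := Nat.cast_nonneg b
        linarith
  have hS1 : ∑ b ∈ range (k1 + 1), Lb C1 k1 b ^ (2 * lb c2 k1 b + 1) /
      (2 * lb c2 k1 b + 1).factorial ≤ 2 / 4096 :=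
    (Finset.sum_le_sum fun b hb => (HNE_two _ (key b hb).1 _ _ (key b hb).2).1).trans
      (HNE_geo _)
  have hS2 : ∑ b ∈ range (k1 + 1), Real.exp (Lb C1 k1 b) * Lb C1 k1 b ^ (2 * lb c2 k1 b) /
      (2 * lb c2 k1 b).factorial ≤ 2 / 4096 :=
    (Finset.sum_le_sum fun b hb => (HNE_two _ (key b hb).1 _ _ (key b hb).2).2).trans
      (HNE_geo _)
  have hS3 : 0 ≤ ∑ b ∈ range (k1 + 1), Real.exp (Lb C1 k1 b) * Lb C1 k1 b ^ (2 * lb c2 k1 b) /
      (2 * lb c2 k1 b).factorial := by
    refine Finset.sum_nonneg fun b hb => ?_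
    have := (key b hb).1
    positivity
  generalize ∑ b ∈ range (k1 + 1), Real.exp (Lb C1 k1 b) * Lb C1 k1 b ^ (2 * lb c2 k1 b) /
      (2 * lb c2 k1 b).factorial = t at hS2 hS3 ⊢
  have h9 : Real.exp t ≤ 1 / (1 - t) :=
    Real.exp_bound_div_one_sub_of_interval hS3 (by linarith)
  have h10 : 1 / (1 - t) ≤ 1 + 2 * t := by
    rw [div_le_iff₀ (by linarith)]
    nlinarith
  linarith

end Pool.Agent.RMS
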