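import Pool.Agent.RMS.St3

/-!
RMS, part H, module HNR: the numerical bound for the remainder terms (helper37).
-/

set_option autoImplicit false

namespace Pool.Agent.RMS

open Finset Filter
open Classical

/-- the size of the last block -/
theorem HNR_lst (k : ℕ) (hk : 20 ≤ k) : 60 * lst k ≤ 4 ^ k := by
  obtain ⟨n, rfl⟩ := Nat.exists_eq_add_of_le' hk
  have h1 : n + 50 ≤ 2 ^ (n + 11) := by
    induction n with
    | zero => norm_num
    | succ n ih =>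
      have h2 := ih (by omega)
      have h3 : 2 ^ (n + 1 + 11) = 2 * 2 ^ (n + 11) := by ring
      have h4 : 0 < 2 ^ (n + 11) := by positivity
      omega
  have h2 : 2 ^ (n + 20) + 8 ≤ 2 ^ (n + 21) := by
    have h3 : 2 ^ (n + 21) = 2 ^ (n + 20) + 2 ^ (n + 20) := by ring
    have h4 : 2 ^ 3 ≤ 2 ^ (n + 20) := Nat.pow_le_pow_right (by norm_num) (by omega)
    omega
  have h3 : (n + 50) * (2 ^ (n + 20) + 8) ≤ 2 ^ (2 * n + 32) := by
    refine (Nat.mul_le_mul h1 h2).trans (le_of_eq ?_)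
    rw [← pow_add]
    congr 1
    omega
  have h4 : 4 ^ (n + 20) = 256 * 2 ^ (2 * n + 32) := by
    have h5 : (4 : ℕ) = 2 ^ 2 := by norm_num
    have h6 : (256 : ℕ) = 2 ^ 8 := by norm_num
    rw [h5, h6, ← pow_mul, ← pow_add]
    congr 1
    omega
  have h5 : 1 ≤ 2 ^ (2 * n + 32) := Nat.one_le_two_pow
  have h6 : lst (n + 20) = 1 + (n + 50) * (2 ^ (n + 20) + 8) := by
    have h7 : n + 50 = n + 20 + 30 := by omega
    rw [h7]
    rfl
  have h8 : ∀ A B : ℕ, A ≤ B → 1 ≤ B → 60 * (1 + A) ≤ 256 * B := by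
    intro A B h9 h10
    omega
  calc 60 * lst (n + 20) = 60 * (1 + (n + 50) * (2 ^ (n + 20) + 8)) := by rw [h6]
    _ ≤ 256 * 2 ^ (2 * n + 32) := h8 _ _ h3 h5
    _ = 4 ^ (n + 20) := h4.symm

/-- the final estimate -/
theorem HNR_fin (h k : ℕ) (hk : 20 ≤ k) (hh : h ≤ k) :
    240 * (k + 2) * (h + 1) ≤ 2 ^ 4 ^ k := by
  have h1 : h + 1 ≤ 2 ^ k := (Nat.lt_two_pow_self (n := h)).trans_le
    (Nat.pow_le_pow_right (by norm_num) hh)
  have h2 : k + 2 ≤ 2 ^ (k + 1) := by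
    have h3 : k < 2 ^ k := Nat.lt_two_pow_self
    have h4 : 2 ^ (k + 1) = 2 ^ k + 2 ^ k := by ring
    omega
  have h3 : 240 * (k + 2) * (h + 1) ≤ 2 ^ 8 * 2 ^ (k + 1) * 2 ^ k :=
    Nat.mul_le_mul (Nat.mul_le_mul (by norm_num) h2) h1
  refine h3.trans ?_
  rw [← pow_add, ← pow_add]
  refine Nat.pow_le_pow_right (by norm_num) ?_
  have h4 : k + 1 ≤ 2 ^ k := Nat.lt_two_pow_self
  have h5 : (4 : ℕ) ^ k = 2 ^ k * 2 ^ k := by
    rw [← mul_pow]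
    rfl
  rw [h5]
  have h6 : (k + 1) * (k + 1) ≤ 2 ^ k * 2 ^ k := Nat.mul_le_mul h4 h4
  refine le_trans ?_ h6
  nlinarith

/-- the estimate with general parameters -/
theorem HNR_gen (Z x y : ℝ) (hZ : 2 ≤ Z) (c e m : ℕ)
    (hm : 60 * m ≤ e) (h : 240 * x * y ≤ 2 ^ e) :
    x * (2 * (Z ^ (8 * c * e) * y * Z ^ (4 * (5 * m))) / Z ^ ((16 * c + 2) * e) *
      (Z ^ (8 * c * e) * (Z + 2) ^ (4 * (5 * m)))) ≤ 1 / 120 := by
  have hZ0 : 0 < Z := by linarith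
  have hZ1 : 1 ≤ Z := by linarith
  have h2 : (Z + 2) ^ (4 * (5 * m)) ≤ Z ^ (2 * (4 * (5 * m))) := by
    rw [pow_mul Z 2 (4 * (5 * m))]
    refine pow_le_pow_left₀ (by linarith) ?_ _
    nlinarith
  have h3 : Z ^ (4 * (5 * m)) * (Z + 2) ^ (4 * (5 * m)) ≤ Z ^ e := by
    refine (mul_le_mul_of_nonneg_left h2 (by positivity)).trans ?_
    rw [← pow_add]
    refine pow_le_pow_right₀ hZ1 ?_
    omega
  have h4 : Z ^ ((16 * c + 2) * e) =
      Z ^ (8 * c * e) * Z ^ (8 * c * e) * (Z ^ e * Z ^ e) := by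
    rw [← pow_add, ← pow_add, ← pow_add]
    congr 1
    ring
  have h5 : (2 : ℝ) ^ e ≤ Z ^ e := pow_le_pow_left₀ zero_le_two hZ _
  have hW0 : 0 < Z ^ (8 * c * e) := pow_pos hZ0 _
  have hV0 : 0 < Z ^ e := pow_pos hZ0 _
  have ha0 : 0 < Z ^ (4 * (5 * m)) := pow_pos hZ0 _
  have hb0 : 0 < (Z + 2) ^ (4 * (5 * m)) := by positivity
  rw [h4]
  generalize Z ^ (8 * c * e) = W at hW0 ⊢
  generalize Z ^ (4 * (5 * m)) = a at ha0 h3 ⊢
  generalize (Z + 2) ^ (4 * (5 * m)) = b at hb0 h3 ⊢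
  generalize Z ^ e = V at hV0 h3 h5 ⊢
  have h7 : x * (2 * (W * y * a) / (W * W * (V * V)) * (W * b)) =
      (2 * x * y) * (a * b) / (V * V) := by
    field_simp
  rw [h7, div_le_iff₀ (by positivity)]
  have h8 : 2 * x * y ≤ 1 / 120 * V := by linarith
  calc (2 * x * y) * (a * b) ≤ (1 / 120 * V) * V :=
        mul_le_mul h8 h3 (by positivity) (by positivity)
    _ = 1 / 120 * (V * V) := by ring

theorem thm_HNR : St_HNR := by
  intro c2 h
  refine ⟨max 20 h, fun k Z hk hZ => ?_⟩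
  have hk1 : 20 ≤ k := (le_max_left _ _).trans hk
  have hk2 : h ≤ k := (le_max_right _ _).trans hk
  have hZ2 : (2 : ℝ) ≤ (Z : ℝ) := by exact_mod_cast hZ
  have h6 : 240 * ((k : ℝ) + 2) * (h + 1) ≤ (2 : ℝ) ^ 4 ^ k := by
    exact_mod_cast HNR_fin h k hk1 hk2
  exact HNR_gen (Z : ℝ) ((k : ℝ) + 2) ((h : ℝ) + 1) hZ2 c2 (4 ^ k)
    (lst k) (HNR_lst k hk1) h6

end Pool.Agent.RMS
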