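import Pool.Agent.RMS.St3

/-!
RMS, [HPA]: the parameters (helper49).
-/

set_option autoImplicit false

namespace Pool.Agent.RMS

open Finset Filter
open Classical

theorem HPA_cube (n : ℕ) (hn : 10 ≤ n) : n ^ 3 < 2 ^ n := by
  induction n, hn using Nat.le_induction with
  | base => norm_num
  | succ n hn ih =>
    have h1 : (n + 1) ^ 3 ≤ 2 * n ^ 3 := by nlinarith [Nat.mul_le_mul hn hn]
    calc (n + 1) ^ 3 ≤ 2 * n ^ 3 := h1
      _ < 2 * 2 ^ n := by omega
      _ = 2 ^ (n + 1) := by ring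

theorem HPA_lin (n : ℕ) (hn : 6 ≤ n) : n + 31 < 2 ^ n := by
  induction n, hn using Nat.le_induction with
  | base => norm_num
  | succ n hn ih =>
    rw [pow_succ]
    omega

theorem thm_HPA : St_HPA := by
  intro k0 c
  refine ⟨2 ^ 2 ^ 2 ^ (k0 + 10), ?_⟩
  intro Y hY
  set L := Nat.log 2 Y with hL
  set l := Nat.log 2 L with hl
  set m := Nat.log 2 l with hm
  have hL1 : 2 ^ 2 ^ (k0 + 10) ≤ L := by
    have h := Nat.log_mono_right (b := 2) hY
    rwa [Nat.log_pow (by norm_num)] at h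
  have hl1 : 2 ^ (k0 + 10) ≤ l := by
    have h := Nat.log_mono_right (b := 2) hL1
    rwa [Nat.log_pow (by norm_num)] at h
  have hm1 : k0 + 10 ≤ m := by
    have h := Nat.log_mono_right (b := 2) hl1
    rwa [Nat.log_pow (by norm_num)] at h
  have hY1 : Y ≠ 0 := by
    have : 0 < 2 ^ 2 ^ 2 ^ (k0 + 10) := by positivity
    omega
  have hL0 : L ≠ 0 := by
    have : 0 < 2 ^ 2 ^ (k0 + 10) := by positivity
    omega
  have hl0 : l ≠ 0 := by
    have : 0 < 2 ^ (k0 + 10) := by positivity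
    omega
  have hYL : 2 ^ L ≤ Y := Nat.pow_log_le_self 2 hY1
  have hYL' : Y < 2 ^ (L + 1) := Nat.lt_pow_succ_log_self (by norm_num) Y
  have hLl : 2 ^ l ≤ L := Nat.pow_log_le_self 2 hL0
  have hLl' : L < 2 ^ (l + 1) := Nat.lt_pow_succ_log_self (by norm_num) L
  have hlm : 2 ^ m ≤ l := Nat.pow_log_le_self 2 hl0
  have hlm' : l < 2 ^ (m + 1) := Nat.lt_pow_succ_log_self (by norm_num) l
  have hl10 : 10 ≤ l := by
    have h1 : m < 2 ^ m := Nat.lt_two_pow_self
    omega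
  have hl3 : l ^ 3 < L := lt_of_lt_of_le (HPA_cube l hl10) hLl
  set M := 4 ^ (m - 3) with hM
  have hM1 : 1 ≤ M := Nat.one_le_pow _ _ (by norm_num)
  have hMl : M ≤ l ^ 2 := by
    calc M ≤ 4 ^ m := Nat.pow_le_pow_right (by norm_num) (by omega)
      _ = (2 ^ m) ^ 2 := by rw [← pow_mul, mul_comm, pow_mul]; norm_num
      _ ≤ l ^ 2 := Nat.pow_le_pow_left hlm 2
  have hmM : m * M ≤ l ^ 3 := by
    have h1 : m ≤ l := by
      have h1 : m < 2 ^ m := Nat.lt_two_pow_self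
      omega
    calc m * M ≤ l * l ^ 2 := Nat.mul_le_mul h1 hMl
      _ = l ^ 3 := by ring
  have hML : M ≤ L := by
    have h1 : l ^ 2 ≤ l ^ 3 := Nat.pow_le_pow_right (by omega) (by norm_num)
    omega
  have hex : ∃ Z : ℕ, Y ≤ Z ^ M := ⟨Y, Nat.le_self_pow (by omega) Y⟩
  obtain ⟨Z, hZ, hmin⟩ : ∃ Z : ℕ, Y ≤ Z ^ M ∧ ∀ z < Z, ¬ Y ≤ z ^ M :=
    ⟨Nat.find hex, Nat.find_spec hex, fun z hz => Nat.find_min hex hz⟩
  have hZm : m + 31 < Z := by
    by_contra h
    push Not at h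
    have h1 : Y ≤ (m + 31) ^ M := hZ.trans (Nat.pow_le_pow_left h M)
    have h2 : (m + 31) ^ M ≤ 2 ^ (m * M) := by
      rw [pow_mul]
      exact Nat.pow_le_pow_left (HPA_lin m (by omega)).le M
    have h3 : 2 ^ (m * M) < 2 ^ L := Nat.pow_lt_pow_right (by norm_num) (by omega)
    omega
  have hZY : Z ≤ Y := by
    by_contra h
    push Not at h
    exact hmin Y h (Nat.le_self_pow (by omega) Y)
  have hY2 : 2 ≤ Y := by omega
  refine ⟨m + 1, Z, by omega, by omega, by omega, ?_, ?_, ?_, ?_⟩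
  · have := HPA_lin (m + 1) (by omega)
    omega
  · have hZ3 : (3 : ℝ) ≤ Z := by
      have : 3 ≤ Z := by omega
      exact_mod_cast this
    have hlogZ : 0 < Real.log Z := Real.log_pos (by linarith)
    have hZY' : (Z : ℝ) ≤ Y := by exact_mod_cast hZY
    have hlog2 : Real.log 2 ≤ 1 := by
      have := Real.log_two_lt_d9
      linarith
    have hlog2' : 0 < Real.log 2 := Real.log_pos (by norm_num)
    have h1 : Real.log Z ≤ L + 1 := by
      have h2 : (Z : ℝ) ≤ 2 ^ (L + 1) := by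
        have : Z ≤ 2 ^ (L + 1) := by omega
        exact_mod_cast this
      have h3 := Real.log_le_log (by linarith) h2
      rw [Real.log_pow] at h3
      have h4 : ((L + 1 : ℕ) : ℝ) * Real.log 2 ≤ (L + 1 : ℕ) * 1 :=
        mul_le_mul_of_nonneg_left hlog2 (Nat.cast_nonneg _)
      push_cast at h3 h4
      linarith
    have h2 : Real.log (Real.log Z) ≤ Real.log (2 ^ (l + 1)) := by
      apply Real.log_le_log hlogZ
      have h3 : ((L + 1 : ℕ) : ℝ) ≤ 2 ^ (l + 1) := by exact_mod_cast hLl'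
      push_cast at h3
      linarith
    rw [Real.log_pow] at h2
    have h3 : ((l + 1 : ℕ) : ℝ) * Real.log 2 ≤ (l + 1 : ℕ) * 1 :=
      mul_le_mul_of_nonneg_left hlog2 (Nat.cast_nonneg _)
    have h4 : ((l + 1 : ℕ) : ℝ) ≤ 2 ^ (m + 1) := by exact_mod_cast hlm'
    linarith
  · have h1 : m + 1 - 4 = m - 3 := by omega
    rw [h1]
    exact hZ
  · have h1 : 4 ^ (m + 1) = M * 256 := by
      rw [hM, show m + 1 = (m - 3) + 4 by omega, pow_add]
      norm_num
    have h2 : Z ^ M ≤ Y ^ 2 := by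
      have h3 : Z ≤ 2 * (Z - 1) := by omega
      have h4 : (Z - 1) ^ M < Y := by
        have := hmin (Z - 1) (by omega)
        omega
      calc Z ^ M ≤ (2 * (Z - 1)) ^ M := Nat.pow_le_pow_left h3 M
        _ = 2 ^ M * (Z - 1) ^ M := mul_pow _ _ _
        _ ≤ 2 ^ L * Y := Nat.mul_le_mul (Nat.pow_le_pow_right (by norm_num) hML) h4.le
        _ ≤ Y * Y := Nat.mul_le_mul_right _ hYL
        _ = Y ^ 2 := by ring
    have h5 : Z ^ (c * 4 ^ (m + 1)) = (Z ^ M) ^ (256 * c) := by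
      rw [← pow_mul, h1]
      congr 1
      ring
    rw [h5]
    calc 4 * (Z ^ M) ^ (256 * c) ≤ Y ^ 2 * (Y ^ 2) ^ (256 * c) := by
          refine Nat.mul_le_mul ?_ (Nat.pow_le_pow_left h2 _)
          calc 4 = 2 ^ 2 := by norm_num
            _ ≤ Y ^ 2 := Nat.pow_le_pow_left hY2 2
      _ = Y ^ (512 * c + 2) := by
          rw [← pow_mul, ← pow_add]
          congr 1
          ring

end Pool.Agent.RMS
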