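import Pool.Agent.RMS.St3
import Pool.Agent.RMS.Basic

/-!
RMS, part H, module HPR (helper13): the probability that some prime divides.
-/

set_option autoImplicit false

namespace Pool.Agent.RMS

open Finset Filter
open Classical

theorem HPR_fac (P : ℕ → Prop) (h i : ℕ) (hP : ∀ p, P p → p.Prime) :
    ((univ.filter fun z : ZMod (qh P h i) => ¬ (P i ∧ z + 1 = 0)).card : ℝ) /
      (Fintype.card (ZMod (qh P h i)) : ℝ) ≤ Real.exp (if P i then -((1 : ℝ) / i) else 0) := by
  have hq0 : (0 : ℝ) < (Fintype.card (ZMod (qh P h i)) : ℝ) := by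
    exact_mod_cast Fintype.card_pos
  rw [div_le_iff₀ hq0]
  by_cases hi : P i
  · rw [if_pos hi]
    have hi0 : i ≠ 0 := (hP i hi).ne_zero
    have hq : qh P h i = i := by
      unfold qh
      rw [if_neg hi0, if_pos hi]
    have h1 : (univ.filter fun z : ZMod (qh P h i) => ¬ (P i ∧ z + 1 = 0)) = univ.erase (-1) := by
      ext z
      rw [mem_filter, mem_erase, not_and]
      constructor
      · intro h2
        refine ⟨fun h3 => h2.2 hi ?_, mem_univ _⟩
        rw [h3]
        exact neg_add_cancel 1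
      · intro h2
        exact ⟨mem_univ _, fun _ h3 => h2.1 (eq_neg_of_add_eq_zero_left h3)⟩
    rw [h1, card_erase_of_mem (mem_univ _), card_univ, ZMod.card, hq]
    have hi1 : 1 ≤ i := Nat.one_le_iff_ne_zero.2 hi0
    rw [Nat.cast_sub hi1]
    have hir : (0 : ℝ) < i := by exact_mod_cast hi1
    have h2 := Real.add_one_le_exp (-((1 : ℝ) / i))
    have h3 : ((i : ℝ) - ((1 : ℕ) : ℝ)) = (-((1 : ℝ) / i) + 1) * i := by
      field_simp
      push_cast
      ring
    rw [h3]
    exact mul_le_mul_of_nonneg_right h2 hir.le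
  · rw [if_neg hi, Real.exp_zero, one_mul]
    exact_mod_cast card_filter_le _ _

theorem HPR_sum (P : ℕ → Prop) (Y : ℕ) (hP : ∀ p, P p → p.Prime) :
    ∑ i : Fin (Y + 1), (if P i then -((1 : ℝ) / (i : ℕ)) else 0) =
      -∑ p ∈ (Icc 1 Y).filter P, (1 : ℝ) / p := by
  rw [Fin.sum_univ_eq_sum_range (fun i => if P i then -((1 : ℝ) / (i : ℕ)) else 0) (Y + 1),
    ← sum_neg_distrib, sum_filter]
  symm
  apply sum_subset
  · intro p hp
    rw [mem_Icc] at hp
    rw [mem_range]
    omega
  · intro p hp hp'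
    rw [mem_range] at hp
    rw [mem_Icc] at hp'
    have : p = 0 := by omega
    rw [if_neg]
    intro h
    exact (hP p h).ne_zero this

theorem thm_HPR : St_HPR := by
  intro P h Y hP
  set V : Oh P h Y → Prop := fun x => ∃ i : Fin (Y + 1), P i ∧ x i + 1 = 0 with hV
  set W : Oh P h Y → Prop := fun x => ∀ i : Fin (Y + 1), ¬ (P i ∧ x i + 1 = 0) with hW
  have hc0 : (0 : ℝ) < (Fintype.card (Oh P h Y) : ℝ) := by exact_mod_cast Fintype.card_pos
  have h1 : 1 ≤ pr V + pr W := by
    have h2 : pr (fun x : Oh P h Y => V x ∨ W x) = 1 := by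
      unfold pr
      rw [div_eq_one_iff_eq hc0.ne']
      congr 1
      rw [← card_univ]
      congr 1
      ext x
      rw [mem_fl (fun x : Oh P h Y => V x ∨ W x)]
      refine ⟨fun _ => mem_univ _, fun _ => ?_⟩
      by_cases h3 : V x
      · exact Or.inl h3
      · exact Or.inr fun i hi => h3 ⟨i, hi⟩
    rw [← h2]
    exact pr_or_le _ _
  have h4 : pr W ≤ Real.exp (-∑ p ∈ (Icc 1 Y).filter P, (1 : ℝ) / p) := by
    have key : ∀ S : Finset (Oh P h Y), (∀ x, x ∈ S ↔ W x) →
        (S.card : ℝ) / (Fintype.card (Oh P h Y) : ℝ) ≤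
          Real.exp (-∑ p ∈ (Icc 1 Y).filter P, (1 : ℝ) / p) := by
      intro S hS
      have h5 : S = Fintype.piFinset (fun i : Fin (Y + 1) =>
          univ.filter fun z : ZMod (qh P h i) => ¬ (P i ∧ z + 1 = 0)) := by
        ext x
        rw [hS, Fintype.mem_piFinset]
        constructor
        · intro h6 i
          rw [mem_filter]
          exact ⟨mem_univ _, h6 i⟩
        · intro h6 i
          have := h6 i
          rw [mem_filter] at this
          exact this.2
      rw [h5, Fintype.card_piFinset, Fintype.card_pi, Nat.cast_prod, Nat.cast_prod,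
        ← prod_div_distrib, ← HPR_sum P Y hP, Real.exp_sum]
      refine prod_le_prod (fun i _ => by positivity) fun i _ => ?_
      exact HPR_fac P h i hP
    exact key _ fun x => mem_fl W x
  linarith

end Pool.Agent.RMS
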