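import Pool.Agent.RMS.Basic

/-! RMS [TRP]: the pointwise truncation. -/

set_option autoImplicit false

namespace Pool.Agent.RMS

open Finset
open Classical

theorem TRP_split (A : Set ℕ) (Y n : ℕ) (hn : 1 ≤ n) :
    dA A n = dF (AY A Y) n + dG A Y n := by
  unfold dA dF dG AY
  have h1 : (((Icc 1 Y).filter fun a => a ∈ A).filter fun a => a ∣ n)
      = (n.divisors.filter fun a => a ∈ A).filter fun a => a ≤ Y := by
    ext a
    simp only [mem_filter, mem_Icc, Nat.mem_divisors]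
    constructor
    · rintro ⟨⟨⟨h1, h2⟩, h3⟩, h4⟩
      exact ⟨⟨⟨h4, by omega⟩, h3⟩, h2⟩
    · rintro ⟨⟨⟨h4, _⟩, h3⟩, h2⟩
      exact ⟨⟨⟨Nat.pos_of_dvd_of_pos h4 (by omega), h2⟩, h3⟩, h4⟩
  have h2 : (n.divisors.filter fun a => a ∈ A ∧ Y < a)
      = (n.divisors.filter fun a => a ∈ A).filter fun a => ¬ a ≤ Y := by
    ext a
    simp only [mem_filter, not_le]
    tauto
  rw [h1, h2, Finset.card_filter_add_card_filter_not]

theorem TRP_dG_le (A : Set ℕ) (Y n : ℕ) : dG A Y n ≤ n := by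
  unfold dG
  exact (card_filter_le _ _).trans (Nat.card_divisors_le_self n)

theorem TRP_dF_le (B : Finset ℕ) (n : ℕ) : dF B n ≤ B.card := by
  unfold dF
  exact card_filter_le _ _

theorem TRP_sumF (B : Finset ℕ) (m : ℕ) :
    Summable fun i : ℕ => (dF B (m + 1 + i) : ℝ) / 2 ^ (i + 1) := by
  have hg : Summable fun i : ℕ => (B.card : ℝ) * (1 / 2) ^ i :=
    (summable_geometric_of_lt_one (by norm_num) (by norm_num)).mul_left _
  refine Summable.of_nonneg_of_le (fun i => by positivity) (fun i => ?_) hg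
  have h1 : (dF B (m + 1 + i) : ℝ) ≤ B.card := by exact_mod_cast TRP_dF_le B _
  have h2 : (1 : ℝ) / 2 ^ (i + 1) ≤ (1 / 2) ^ i := by
    rw [pow_succ, one_div_pow]
    apply one_div_le_one_div_of_le (by positivity)
    have : (0 : ℝ) < 2 ^ i := by positivity
    linarith
  rw [div_eq_mul_one_div]
  exact mul_le_mul h1 h2 (by positivity) (by positivity)

theorem TRP_sumG (A : Set ℕ) (Y m : ℕ) :
    Summable fun i : ℕ => (dG A Y (m + 1 + i) : ℝ) / 2 ^ (i + 1) := by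
  have h0 : Summable fun n : ℕ => (n : ℝ) * (1 / 2) ^ n := by
    have := summable_pow_mul_geometric_of_norm_lt_one (R := ℝ) 1 (r := 1 / 2)
      (by rw [Real.norm_eq_abs]; norm_num [abs_of_pos])
    simpa using this
  have h1 : Summable fun i : ℕ => ((i : ℝ) * (1 / 2) ^ i) + (m + 1 : ℝ) * (1 / 2) ^ i :=
    h0.add ((summable_geometric_of_lt_one (by norm_num) (by norm_num)).mul_left _)
  refine Summable.of_nonneg_of_le (fun i => by positivity) (fun i => ?_) h1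
  have h2 : (dG A Y (m + 1 + i) : ℝ) ≤ ((m + 1 + i : ℕ) : ℝ) := by
    exact_mod_cast TRP_dG_le A Y _
  have h3 : (1 : ℝ) / 2 ^ (i + 1) ≤ (1 / 2) ^ i := by
    rw [pow_succ, one_div_pow]
    apply one_div_le_one_div_of_le (by positivity)
    have : (0 : ℝ) < 2 ^ i := by positivity
    linarith
  rw [div_eq_mul_one_div]
  calc (dG A Y (m + 1 + i) : ℝ) * (1 / 2 ^ (i + 1)) ≤ ((m + 1 + i : ℕ) : ℝ) * (1 / 2) ^ i :=
        mul_le_mul h2 h3 (by positivity) (by positivity)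
    _ = (i : ℝ) * (1 / 2) ^ i + (m + 1 : ℝ) * (1 / 2) ^ i := by push_cast; ring

theorem TRP_decomp (A : Set ℕ) (Y J m : ℕ) :
    TA A m = TF (AY A Y) J m + R2 (AY A Y) J m +
      ∑' i : ℕ, (dG A Y (m + 1 + i) : ℝ) / 2 ^ (i + 1) := by
  have h1 : TA A m = ∑' i : ℕ, (dF (AY A Y) (m + 1 + i) : ℝ) / 2 ^ (i + 1) +
      ∑' i : ℕ, (dG A Y (m + 1 + i) : ℝ) / 2 ^ (i + 1) := by
    rw [← (TRP_sumF (AY A Y) m).tsum_add (TRP_sumG A Y m)]
    unfold TA
    refine tsum_congr fun i => ?_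
    rw [TRP_split A Y (m + 1 + i) (by omega)]
    push_cast
    ring
  have h2 : ∑' i : ℕ, (dF (AY A Y) (m + 1 + i) : ℝ) / 2 ^ (i + 1)
      = TF (AY A Y) J m + R2 (AY A Y) J m := by
    rw [← (TRP_sumF (AY A Y) m).sum_add_tsum_nat_add J]
    congr 1
    · unfold TF
      rw [show Icc 1 J = Ico (0 + 1) (J + 1) by ext; simp [Nat.lt_succ_iff, Nat.succ_le_iff],
        ← Finset.sum_Ico_add' (fun i : ℕ => (dF (AY A Y) (m + i) : ℝ) / 2 ^ i) 0 J 1,
        ← Finset.range_eq_Ico]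
      refine sum_congr rfl fun i _ => ?_
      rw [show m + 1 + i = m + (i + 1) by ring]
    · unfold R2
      refine tsum_congr fun i => ?_
      rw [show m + 1 + (i + J) = m + 1 + (J + i) by ring, show i + J + 1 = J + i + 1 by ring]
  rw [h1, h2]

theorem TRP_pow (r : ℕ) : ((2 ^ (r / 2) : ℕ) : ℝ) ≤ (3 / 2) ^ r := by
  have h1 : (2 : ℝ) ^ (r / 2) ≤ ((3 / 2) ^ 2) ^ (r / 2) := by
    gcongr
    norm_num
  push_cast
  calc (2 : ℝ) ^ (r / 2) ≤ ((3 / 2) ^ 2) ^ (r / 2) := h1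
    _ = (3 / 2) ^ (2 * (r / 2)) := by rw [← pow_mul]
    _ ≤ (3 / 2) ^ r := pow_le_pow_right₀ (by norm_num) (Nat.mul_div_le r 2)

theorem TRP_lin (r : ℕ) (hr : 13 ≤ r) : (6 : ℝ) * r ≤ (3 / 2) ^ r := by
  induction r, hr using Nat.le_induction with
  | base => norm_num
  | succ n hn ih =>
    rw [pow_succ]
    push_cast
    have : (13 : ℝ) ≤ n := by exact_mod_cast hn
    linarith

theorem TRP_rest (A : Set ℕ) (X Y j m : ℕ) (hX : 2 * j + 20 ≤ X) (hm : m < 2 * X)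
    (hG : ∀ i ∈ Icc 1 X, dG A Y (m + i) < 2 ^ ((i - (j + 8)) / 2)) :
    ∑' i : ℕ, (dG A Y (m + 1 + i) : ℝ) / 2 ^ (i + 1) ≤ 1 / 2 ^ (j + 6) := by
  have hS := TRP_sumG A Y m
  rw [← hS.sum_add_tsum_nat_add (j + 8)]
  have h0 : ∑ i ∈ range (j + 8), (dG A Y (m + 1 + i) : ℝ) / 2 ^ (i + 1) = 0 := by
    refine sum_eq_zero fun i hi => ?_
    rw [mem_range] at hi
    have h1 := hG (i + 1) (mem_Icc.2 ⟨by omega, by omega⟩)
    rw [show i + 1 - (j + 8) = 0 by omega] at h1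
    have h2 : dG A Y (m + 1 + i) = 0 := by
      rw [show m + 1 + i = m + (i + 1) by ring]
      simpa using h1
    rw [h2]
    simp
  rw [h0, zero_add]
  have hg : Summable fun i : ℕ => (1 / 2 ^ (j + 8) : ℝ) * (3 / 4) ^ i :=
    (summable_geometric_of_lt_one (by norm_num) (by norm_num)).mul_left _
  have hS' : Summable fun i : ℕ => (dG A Y (m + 1 + (i + (j + 8))) : ℝ) / 2 ^ (i + (j + 8) + 1) :=
    (summable_nat_add_iff (f := fun i : ℕ => (dG A Y (m + 1 + i) : ℝ) / 2 ^ (i + 1)) (j + 8)).2 hS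
  have hle : ∀ i : ℕ, (dG A Y (m + 1 + (i + (j + 8))) : ℝ) / 2 ^ (i + (j + 8) + 1) ≤
      (1 / 2 ^ (j + 8) : ℝ) * (3 / 4) ^ i := by
    intro i
    have hmain : (dG A Y (m + 1 + (i + (j + 8))) : ℝ) ≤ (3 / 2) ^ (i + 1) := by
      rcases le_or_gt (i + (j + 8) + 1) X with h | h
      · have h1 := hG (i + (j + 8) + 1) (mem_Icc.2 ⟨by omega, h⟩)
        rw [show i + (j + 8) + 1 - (j + 8) = i + 1 by omega,
          show m + (i + (j + 8) + 1) = m + 1 + (i + (j + 8)) by ring] at h1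
        have h2 : (dG A Y (m + 1 + (i + (j + 8))) : ℝ) ≤ ((2 ^ ((i + 1) / 2) : ℕ) : ℝ) := by
          exact_mod_cast h1.le
        exact h2.trans (TRP_pow _)
      · have h1 := TRP_dG_le A Y (m + 1 + (i + (j + 8)))
        have h2 : dG A Y (m + 1 + (i + (j + 8))) ≤ 6 * (i + 1) := by omega
        have h3 : (dG A Y (m + 1 + (i + (j + 8))) : ℝ) ≤ ((6 * (i + 1) : ℕ) : ℝ) := by
          exact_mod_cast h2
        refine h3.trans ?_
        have h4 := TRP_lin (i + 1) (by omega)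
        push_cast at h4 ⊢
        exact h4
    rw [div_le_iff₀ (by positivity)]
    refine hmain.trans ?_
    have h5 : (1 / 2 ^ (j + 8) : ℝ) * (3 / 4) ^ i * 2 ^ (i + (j + 8) + 1)
        = 2 * (((3 / 4) ^ i * 2 ^ i) * (1 / 2 ^ (j + 8) * 2 ^ (j + 8))) := by
      rw [pow_succ, pow_add]
      ring
    have h6 : (1 / 2 ^ (j + 8) * 2 ^ (j + 8) : ℝ) = 1 := by
      field_simp
    rw [h5, h6, mul_one, ← mul_pow, pow_succ]
    have h7 : (0 : ℝ) < (3 / 2) ^ i := by positivity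
    norm_num
    linarith
  refine (hS'.tsum_le_tsum hle hg).trans ?_
  rw [tsum_mul_left, tsum_geometric_of_lt_one (by norm_num) (by norm_num)]
  have h8 : (1 : ℝ) / 2 ^ (j + 8) * (1 - 3 / 4)⁻¹ = 1 / 2 ^ (j + 6) := by
    rw [show j + 8 = j + 6 + 2 by ring, pow_add _ (j + 6) 2]
    field_simp
    norm_num
  exact h8.le

theorem thm_TRP : St_TRP := by
  intro A κ X Y J j m hz hX hm hn
  by_contra hcon
  push Not at hcon
  obtain ⟨h1, h2⟩ := hcon
  obtain ⟨z, hz⟩ := hz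
  have h3 := TRP_rest A X Y j m hX hm h1
  have h4 := TRP_decomp A Y J m
  set R3 : ℝ := ∑' i : ℕ, (dG A Y (m + 1 + i) : ℝ) / 2 ^ (i + 1) with hR3
  have hR3n : 0 ≤ R3 := tsum_nonneg fun i => by positivity
  have hR2n : 0 ≤ R2 (AY A Y) J m := tsum_nonneg fun i => by positivity
  have h5 : nrm (TF (AY A Y) J m - κ m) ≤ R2 (AY A Y) J m + R3 := by
    unfold nrm
    refine (round_le (TF (AY A Y) J m - κ m) z).trans ?_
    have h6 : TF (AY A Y) J m - κ m - z = -(R2 (AY A Y) J m + R3) := by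
      rw [h4] at hz
      linarith
    rw [h6, abs_neg, abs_of_nonneg (by linarith)]
  have h7 : (1 : ℝ) / 2 ^ (j + 3) = 8 * (1 / 2 ^ (j + 6)) := by
    rw [show j + 6 = j + 3 + 3 by ring, pow_add _ (j + 3) 3]
    field_simp
    norm_num
  have h8 : (1 : ℝ) / 2 ^ (j + 4) = 4 * (1 / 2 ^ (j + 6)) := by
    rw [show j + 6 = j + 4 + 2 by ring, pow_add _ (j + 4) 2]
    field_simp
    norm_num
  have h9 : (0 : ℝ) < 1 / 2 ^ (j + 6) := by positivity
  rw [h7] at hn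
  rw [h8] at h2
  linarith

end Pool.Agent.RMS
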