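import Pool.Agent.RMS.St3
import Pool.Agent.RMS.TRP

/-!
RMS, module HRE: reduction to a set whose small primes and non-prime elements are harmless (helper34).
-/

set_option autoImplicit false

namespace Pool.Agent.RMS

open Finset Filter
open Classical

theorem HRE_dA_eq (A : Set ℕ) (n : ℕ) : dA A n = dG A 0 n := by
  unfold dA dG
  congr 1
  ext a
  simp only [mem_filter, Nat.mem_divisors]
  constructor
  · rintro ⟨⟨h1, h2⟩, h3⟩
    exact ⟨⟨h1, h2⟩, h3, Nat.pos_of_dvd_of_pos h1 (Nat.pos_of_ne_zero h2)⟩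
  · rintro ⟨⟨h1, h2⟩, h3, _⟩
    exact ⟨⟨h1, h2⟩, h3⟩

theorem HRE_sumA (A : Set ℕ) (m : ℕ) :
    Summable fun i : ℕ => (dA A (m + 1 + i) : ℝ) / 2 ^ (i + 1) := by
  refine (TRP_sumG A 0 m).congr fun i => ?_
  rw [HRE_dA_eq]

theorem HRE_split (A : Set ℕ) (F : Finset ℕ) (hF : ∀ a ∈ F, a ∈ A) (n : ℕ) (hn : 1 ≤ n) :
    dA A n = dA {a | a ∈ A ∧ a ∉ F ∧ a ≠ 0} n + dF F n := by
  have h1 : (F.filter fun a => a ∣ n) = (n.divisors.filter fun a => a ∈ A).filter fun a => a ∈ F := by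
    ext a
    simp only [mem_filter, Nat.mem_divisors]
    constructor
    · rintro ⟨h1, h2⟩
      exact ⟨⟨⟨h2, by omega⟩, hF a h1⟩, h1⟩
    · rintro ⟨⟨⟨h1, _⟩, _⟩, h2⟩
      exact ⟨h2, h1⟩
  have h3 : dA {a | a ∈ A ∧ a ∉ F ∧ a ≠ 0} n =
      ((n.divisors.filter fun a => a ∈ A).filter fun a => ¬ a ∈ F).card := by
    unfold dA
    refine congrArg Finset.card ?_
    ext a
    simp only [mem_filter, Nat.mem_divisors, Set.mem_ofPred_eq]
    constructor
    · rintro ⟨h1, h2, h3, _⟩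
      exact ⟨⟨h1, h2⟩, h3⟩
    · rintro ⟨⟨h1, h2⟩, h3⟩
      refine ⟨h1, h2, h3, ?_⟩
      rintro rfl
      have := Nat.eq_zero_of_zero_dvd h1.1
      omega
  have h4 : dF F n = ((n.divisors.filter fun a => a ∈ A).filter fun a => a ∈ F).card := by
    rw [← h1]
    unfold dF
    rfl
  rw [h3, h4, add_comm, Finset.card_filter_add_card_filter_not]
  unfold dA
  rfl

theorem HRE_TA (A : Set ℕ) (F : Finset ℕ) (hF : ∀ a ∈ F, a ∈ A) (m : ℕ) :
    TA A m = TA {a | a ∈ A ∧ a ∉ F ∧ a ≠ 0} m +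
      ∑' i : ℕ, (dF F (m + 1 + i) : ℝ) / 2 ^ (i + 1) := by
  unfold TA
  rw [← (HRE_sumA _ m).tsum_add (TRP_sumF F m)]
  refine tsum_congr fun i => ?_
  rw [HRE_split A F hF (m + 1 + i) (by omega)]
  push_cast
  ring

theorem HRE_per (F : Finset ℕ) (H : ℕ) (hF : ∀ a ∈ F, a ∣ H) (n : ℕ) : dF F (n + H) = dF F n := by
  unfold dF
  congr 1
  refine filter_congr fun a ha => ?_
  exact (Nat.dvd_add_left (hF a ha))

theorem HRE_kper {κ : ℕ → ℝ} {h : ℕ} (hκ : ∀ m, κ (m + h) = κ m) (k m : ℕ) :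
    κ (m + h * k) = κ m := by
  induction k with
  | zero => simp
  | succ k ih => rw [mul_add, mul_one, ← add_assoc, hκ, ih]

theorem thm_HRE (hB : St_BASE) : St_HRE := by
  intro A hsum hirr η hη
  obtain ⟨h0, s0, κ0, hh0, hκ0, hTA⟩ := hB A hirr
  -- the tail
  obtain ⟨T, hT⟩ := hsum.vanishing (Iio_mem_nhds hη)
  set w : ℕ := max 20 (T.sup id) with hw
  have hwT : ∀ a ∈ T, a ≤ w := fun a ha => (Finset.le_sup (f := id) ha).trans (le_max_right _ _)
  set F0 : Finset ℕ := (Icc 1 w).filter fun a => a ∈ A with hF0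
  set H : ℕ := h0 * ∏ a ∈ F0, a with hH
  have hH0 : 0 < H := by
    apply Nat.mul_pos hh0
    apply Finset.prod_pos
    intro a ha
    rw [hF0, mem_filter, mem_Icc] at ha
    exact ha.1.1
  set F1 : Finset ℕ := F0 ∪ H.primeFactors.filter fun a => a ∈ A with hF1
  have hF1A : ∀ a ∈ F1, a ∈ A := by
    intro a ha
    rw [hF1, mem_union, hF0, mem_filter, mem_filter] at ha
    rcases ha with ha | ha
    · exact ha.2
    · exact ha.2
  have hF1H : ∀ a ∈ F1, a ∣ H := by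
    intro a ha
    rw [hF1, mem_union] at ha
    rcases ha with ha | ha
    · exact (Finset.dvd_prod_of_mem (fun a => a) ha).trans (Dvd.intro_left h0 hH.symm)
    · rw [mem_filter] at ha
      exact Nat.dvd_of_mem_primeFactors ha.1
  refine ⟨{a | a ∈ A ∧ a ∉ F1 ∧ a ≠ 0}, H - 1, s0,
    fun m => κ0 m - ∑' i : ℕ, (dF F1 (m + 1 + i) : ℝ) / 2 ^ (i + 1), fun a ha => ha.1, ?_, ?_, ?_, ?_, ?_⟩
  · refine (F1.finite_toSet.union (Set.finite_singleton 0)).subset ?_
    rintro a ⟨ha, ha'⟩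
    simp only [Set.mem_ofPred_eq, not_and, not_not] at ha'
    by_cases h : a ∈ F1
    · exact Or.inl h
    · exact Or.inr (ha' ha h)
  · intro m
    rw [Nat.sub_add_cancel hH0]
    have e1 : κ0 (m + H) = κ0 m := HRE_kper hκ0 _ m
    beta_reduce
    rw [e1]
    congr 1
    refine tsum_congr fun i => ?_
    rw [show m + H + 1 + i = m + 1 + i + H by ring, HRE_per F1 H hF1H]
  · intro m hm
    obtain ⟨z, hz⟩ := hTA m hm
    refine ⟨z, ?_⟩
    have := HRE_TA A F1 hF1A m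
    linarith
  · rintro p ⟨hpA, hpF, _⟩ hp
    rw [Nat.sub_add_cancel hH0]
    rw [hF1, mem_union, not_or] at hpF
    constructor
    · by_contra hcon
      apply hpF.1
      rw [hF0, mem_filter, mem_Icc]
      exact ⟨⟨hp.one_le, (not_lt.1 hcon).trans (le_max_left _ _)⟩, hpA⟩
    · intro hd
      apply hpF.2
      rw [mem_filter]
      exact ⟨Nat.mem_primeFactors.2 ⟨hp, hd, hH0.ne'⟩, hpA⟩
  · intro n
    have h1 := hT ((Ioc 0 n).filter fun a => w < a) (by
      rw [Finset.disjoint_left]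
      intro a ha haT
      rw [mem_filter] at ha
      exact absurd (hwT a haT) (not_le.2 ha.2))
    rw [Set.mem_Iio] at h1
    refine le_trans ?_ h1.le
    unfold RS
    rw [sum_filter]
    refine sum_le_sum fun a ha => ?_
    rw [mem_Ioc] at ha
    rw [Set.indicator_apply]
    split_ifs with h2 h3
    · rw [Set.indicator_of_mem]
      exact ⟨h2.1.1, h2.2⟩
    · exfalso
      apply h2.1.2.1
      rw [hF1, mem_union, hF0, mem_filter, mem_Icc]
      exact Or.inl ⟨⟨ha.1, not_lt.1 h3⟩, h2.1.1⟩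
    · exact Set.indicator_nonneg (fun _ _ => by positivity) _
    · exact le_refl _

end Pool.Agent.RMS
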