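import Pool.Agent.RMS.St3
import Pool.Agent.RMS.Basic

/-! RMS: module HST (helper25). -/

set_option autoImplicit false

namespace Pool.Agent.RMS

open Finset
open Classical

section

variable {P : ℕ → Prop} {h Y : ℕ}

theorem HST_dO (c k : ℕ) (x : Oh P h Y) (i : Fin (Y + 1)) (y : ZMod (qh P h i)) :
    (dO c k x : ℝ) - (dO c k (Function.update x i y) : ℝ) =
      (if P i ∧ (i : ℕ) ≤ c ∧ x i + ((k : ℕ) : ZMod (qh P h i)) = 0 then (1 : ℝ) else 0) -
      (if P i ∧ (i : ℕ) ≤ c ∧ y + ((k : ℕ) : ZMod (qh P h i)) = 0 then (1 : ℝ) else 0) := by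
  have h1 : ∀ z : Oh P h Y, (dO c k z : ℝ) = ∑ j : Fin (Y + 1),
      if P j ∧ (j : ℕ) ≤ c ∧ z j + ((k : ℕ) : ZMod (qh P h j)) = 0 then (1 : ℝ) else 0 := by
    intro z
    unfold dO
    rw [card_filter]
    push_cast
    rfl
  rw [h1 x, h1 (Function.update x i y), ← add_sum_erase univ _ (mem_univ i),
    ← add_sum_erase univ (fun j : Fin (Y + 1) => if P j ∧ (j : ℕ) ≤ c ∧
      Function.update x i y j + ((k : ℕ) : ZMod (qh P h j)) = 0 then (1 : ℝ) else 0)
      (mem_univ i)]
  have h2 : ∑ j ∈ univ.erase i, (if P j ∧ (j : ℕ) ≤ c ∧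
      Function.update x i y j + ((k : ℕ) : ZMod (qh P h j)) = 0 then (1 : ℝ) else 0) =
      ∑ j ∈ univ.erase i, if P j ∧ (j : ℕ) ≤ c ∧
        x j + ((k : ℕ) : ZMod (qh P h j)) = 0 then (1 : ℝ) else 0 := by
    refine sum_congr rfl fun j hj => ?_
    rw [Function.update_of_ne (ne_of_mem_erase hj)]
  rw [h2, Function.update_self]
  ring

theorem HST_geo (a J : ℕ) : ∑ k ∈ (Icc 1 J).filter (fun k => a < k), (1 : ℝ) / 2 ^ k ≤
    1 / 2 ^ a := by
  have h1 : ∀ J, ∑ k ∈ (Icc 1 J).filter (fun k => a < k), (1 : ℝ) / 2 ^ k ≤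
      1 / 2 ^ a - (if a < J then 1 / 2 ^ J else 0) := by
    intro J
    induction J with
    | zero => simp
    | succ J ih =>
      have h2 : Icc 1 (J + 1) = insert (J + 1) (Icc 1 J) := by
        ext k
        simp only [mem_Icc, mem_insert]
        omega
      rw [h2, filter_insert]
      by_cases h3 : a < J + 1
      · rw [if_pos h3, sum_insert (by simp), if_pos h3]
        by_cases h4 : a < J
        · rw [if_pos h4] at ih
          have h5 : (1 : ℝ) / 2 ^ J = 2 * (1 / 2 ^ (J + 1)) := by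
            rw [pow_succ]
            field_simp
          linarith
        · rw [if_neg h4] at ih
          have h5 : J = a := by omega
          have h6 : (Icc 1 J).filter (fun k => a < k) = ∅ := by
            rw [filter_eq_empty_iff]
            intro k hk
            have := (mem_Icc.1 hk).2
            omega
          rw [h6, sum_empty, h5]
          have h7 : (1 : ℝ) / 2 ^ a = 2 * (1 / 2 ^ (a + 1)) := by
            rw [pow_succ]
            field_simp
          linarith
      · rw [if_neg h3, if_neg h3]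
        by_cases h4 : a < J
        · omega
        · rw [if_neg h4] at ih
          exact ih
  have h2 := h1 J
  have h3 : (0 : ℝ) ≤ if a < J then 1 / 2 ^ J else 0 := by
    split_ifs
    · positivity
    · exact le_refl 0
  linarith

theorem HST_key (hP : ∀ p, P p → p.Prime ∧ 20 < p) (J : ℕ) (cut : ℕ → ℕ) (hJ : 1 ≤ J)
    (hc : Y ≤ cut 1) (x : Oh P h Y) (i : Fin (Y + 1)) (hi : P i) (hx : x i + 1 = 0)
    (y : ZMod (qh P h i)) (hy : ∀ k ∈ Icc 1 10, y + ((k : ℕ) : ZMod (qh P h i)) ≠ 0) :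
    1 / 2 - 1 / 2 ^ 10 ≤ TO cut J x - TO cut J (Function.update x i y) ∧
      TO cut J x - TO cut J (Function.update x i y) ≤ 1 / 2 + 1 / 2 ^ 20 := by
  have hi20 := (hP i hi).2
  have hqi : qh P h i = i := by
    unfold qh
    rw [if_neg (by omega), if_pos hi]
  have h0 : TO cut J x - TO cut J (Function.update x i y) = ∑ k ∈ Icc 1 J,
      ((if P i ∧ (i : ℕ) ≤ cut k ∧ x i + ((k : ℕ) : ZMod (qh P h i)) = 0 then (1 : ℝ) else 0) -
      (if P i ∧ (i : ℕ) ≤ cut k ∧ y + ((k : ℕ) : ZMod (qh P h i)) = 0 then (1 : ℝ) else 0)) /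
        2 ^ k := by
    unfold TO
    rw [← sum_sub_distrib]
    refine sum_congr rfl fun k _ => ?_
    rw [← HST_dO, sub_div]
  have hx' : x i = -1 := eq_neg_of_add_eq_zero_left hx
  -- the terms of `x`
  have hk : ∀ k, 1 < k → k ≤ 20 → ¬ (x i + ((k : ℕ) : ZMod (qh P h i)) = 0) := by
    intro k hk1 hk2 h1
    have h2 : (((k - 1 : ℕ) : ℕ) : ZMod (qh P h i)) = 0 := by
      rw [Nat.cast_sub (by omega), Nat.cast_one, ← h1, hx']
      ring
    rw [ZMod.natCast_eq_zero_iff, hqi] at h2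
    have := Nat.le_of_dvd (by omega) h2
    omega
  rw [h0, ← add_sum_erase (Icc 1 J) _ (mem_Icc.2 ⟨le_refl 1, hJ⟩)]
  have h1 : (if P i ∧ (i : ℕ) ≤ cut 1 ∧ x i + ((1 : ℕ) : ZMod (qh P h i)) = 0
      then (1 : ℝ) else 0) = 1 := by
    rw [if_pos]
    refine ⟨hi, ?_, ?_⟩
    · have := i.2
      omega
    · rw [Nat.cast_one]
      exact hx
  have h2 : (if P i ∧ (i : ℕ) ≤ cut 1 ∧ y + ((1 : ℕ) : ZMod (qh P h i)) = 0
      then (1 : ℝ) else 0) = 0 := by
    rw [if_neg]
    rintro ⟨-, -, h3⟩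
    exact hy 1 (by simp) h3
  rw [h1, h2]
  have hsub : ∀ a, 1 ≤ a → ∑ k ∈ ((Icc 1 J).erase 1).filter (fun k => a < k), (1 : ℝ) / 2 ^ k ≤
      1 / 2 ^ a := by
    intro a ha
    refine le_trans (sum_le_sum_of_subset_of_nonneg (fun k hk => ?_) fun _ _ _ => by positivity)
      (HST_geo a J)
    rw [mem_filter] at hk ⊢
    exact ⟨mem_of_mem_erase hk.1, hk.2⟩
  constructor
  · have h3 : -(∑ k ∈ ((Icc 1 J).erase 1).filter (fun k => 10 < k), (1 : ℝ) / 2 ^ k) ≤
        ∑ k ∈ (Icc 1 J).erase 1,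
        ((if P i ∧ (i : ℕ) ≤ cut k ∧ x i + ((k : ℕ) : ZMod (qh P h i)) = 0 then (1 : ℝ) else 0) -
        (if P i ∧ (i : ℕ) ≤ cut k ∧ y + ((k : ℕ) : ZMod (qh P h i)) = 0 then (1 : ℝ) else 0)) /
          2 ^ k := by
      rw [sum_filter, ← sum_neg_distrib]
      refine sum_le_sum fun k hk => ?_
      have hk1 : 1 ≤ k := (mem_Icc.1 (mem_of_mem_erase hk)).1
      have hp : (0 : ℝ) < 2 ^ k := by positivity
      have ha : (0 : ℝ) ≤ (if P i ∧ (i : ℕ) ≤ cut k ∧ x i + ((k : ℕ) : ZMod (qh P h i)) = 0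
          then (1 : ℝ) else 0) := by split_ifs <;> norm_num
      by_cases h4 : 10 < k
      · rw [if_pos h4, ← neg_div]
        apply div_le_div_of_nonneg_right _ hp.le
        have hb : (if P i ∧ (i : ℕ) ≤ cut k ∧ y + ((k : ℕ) : ZMod (qh P h i)) = 0
            then (1 : ℝ) else 0) ≤ 1 := by split_ifs <;> norm_num
        linarith
      · rw [if_neg h4, neg_zero]
        apply div_nonneg _ hp.le
        have hb : (if P i ∧ (i : ℕ) ≤ cut k ∧ y + ((k : ℕ) : ZMod (qh P h i)) = 0
            then (1 : ℝ) else 0) = 0 := by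
          rw [if_neg]
          rintro ⟨-, -, h5⟩
          exact hy k (mem_Icc.2 ⟨hk1, by omega⟩) h5
        rw [hb, sub_zero]
        exact ha
    have h4 := hsub 10 (by norm_num)
    have h5 : ((1 : ℝ) - 0) / 2 ^ 1 = 1 / 2 := by norm_num
    rw [h5]
    linarith
  · have h3 : ∑ k ∈ (Icc 1 J).erase 1,
        ((if P i ∧ (i : ℕ) ≤ cut k ∧ x i + ((k : ℕ) : ZMod (qh P h i)) = 0 then (1 : ℝ) else 0) -
        (if P i ∧ (i : ℕ) ≤ cut k ∧ y + ((k : ℕ) : ZMod (qh P h i)) = 0 then (1 : ℝ) else 0)) /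
          2 ^ k ≤ ∑ k ∈ ((Icc 1 J).erase 1).filter (fun k => 20 < k), (1 : ℝ) / 2 ^ k := by
      rw [sum_filter]
      refine sum_le_sum fun k hk' => ?_
      have hk1 : 1 ≤ k := (mem_Icc.1 (mem_of_mem_erase hk')).1
      have hk2 : k ≠ 1 := ne_of_mem_erase hk'
      have hp : (0 : ℝ) < 2 ^ k := by positivity
      have hb : (0 : ℝ) ≤ (if P i ∧ (i : ℕ) ≤ cut k ∧ y + ((k : ℕ) : ZMod (qh P h i)) = 0
          then (1 : ℝ) else 0) := by split_ifs <;> norm_num
      by_cases h4 : 20 < k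
      · rw [if_pos h4]
        apply div_le_div_of_nonneg_right _ hp.le
        have ha : (if P i ∧ (i : ℕ) ≤ cut k ∧ x i + ((k : ℕ) : ZMod (qh P h i)) = 0
            then (1 : ℝ) else 0) ≤ 1 := by split_ifs <;> norm_num
        linarith
      · rw [if_neg h4]
        apply div_nonpos_of_nonpos_of_nonneg _ hp.le
        have ha : (if P i ∧ (i : ℕ) ≤ cut k ∧ x i + ((k : ℕ) : ZMod (qh P h i)) = 0
            then (1 : ℝ) else 0) = 0 := by
          rw [if_neg]
          rintro ⟨-, -, h5⟩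
          exact hk k (by omega) (by omega) h5
        rw [ha, zero_sub]
        linarith
    have h4 := hsub 20 (by norm_num)
    have h5 : ((1 : ℝ) - 0) / 2 ^ 1 = 1 / 2 := by norm_num
    rw [h5]
    linarith

/-- the distance to the integers -/
theorem HST_int (t t' : ℝ) (h1 : nrm t ≤ 1 / 16) (h2 : nrm t' ≤ 1 / 16)
    (h3 : 1 / 2 - 1 / 2 ^ 10 ≤ t - t') (h4 : t - t' ≤ 1 / 2 + 1 / 2 ^ 20) : False := by
  unfold nrm at h1 h2
  have h5 : |(t - t') - ((round t - round t' : ℤ) : ℝ)| ≤ 1 / 8 := by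
    have h6 : (t - t') - ((round t - round t' : ℤ) : ℝ) = (t - round t) - (t' - round t') := by
      push_cast
      ring
    rw [h6]
    refine (abs_sub _ _).trans ?_
    linarith
  obtain ⟨h6, h7⟩ := abs_le.1 h5
  rcases le_or_gt (round t - round t') 0 with h8 | h8
  · have h9 : ((round t - round t' : ℤ) : ℝ) ≤ 0 := by exact_mod_cast h8
    norm_num at h3
    linarith
  · have h9 : (1 : ℝ) ≤ ((round t - round t' : ℤ) : ℝ) := by exact_mod_cast h8
    norm_num at h4
    linarith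

end

theorem thm_HST (hH : St_HIT) : St_HST := by
  intro P h Y J cut κ hP hJ hc
  set Bad : Oh P h Y → Prop := fun x => (1 : ℝ) / 16 < nrm (TO cut J x - κ (x 0).val) with hBad
  set H : Fin (Y + 1) → Oh P h Y → Prop := fun i x => P i ∧ x i + 1 = 0 with hHd
  set V : Oh P h Y → Prop := fun x => (∃ i, H i x) ∧ ¬ Bad x with hV
  have hhit := hH (Y + 1) (fun i => ZMod (qh P h i)) H V Bad
    (fun i x y hxy hx => ⟨hx.1, by
      show y i + 1 = 0
      rw [← hxy i (le_refl i)]
      exact hx.2⟩) (by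
      rintro x ⟨⟨i0, hi0⟩, hx2⟩
      obtain ⟨i, hi, hmin⟩ := (wellFounded_lt (α := Fin (Y + 1))).has_min {i | H i x} ⟨i0, hi0⟩
      refine ⟨i, hi, fun k hk hHk => hmin k hHk hk, ?_⟩
      have hi20 := (hP i hi.1).2
      have hqi : qh P h i = i := by
        unfold qh
        rw [if_neg (by omega), if_pos hi.1]
      have hcard : Fintype.card (ZMod (qh P h i)) = i := by rw [ZMod.card, hqi]
      -- the good values
      obtain ⟨G, hG⟩ : ∃ G : ZMod (qh P h i) → Prop, ∀ y, G y ↔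
          ∀ k ∈ Icc 1 10, y + ((k : ℕ) : ZMod (qh P h i)) ≠ 0 := ⟨_, fun _ => Iff.rfl⟩
      have h1 : (univ.filter fun y : ZMod (qh P h i) => ¬ G y).card ≤ 10 := by
        refine (card_le_card (t := (Icc 1 10).image fun k : ℕ =>
          -((k : ℕ) : ZMod (qh P h i))) fun y hy => ?_).trans (card_image_le.trans ?_)
        · have hy' := (mem_filter.1 hy).2
          rw [hG] at hy'
          push Not at hy'
          obtain ⟨k, hk, hyk⟩ := hy'
          exact mem_image.2 ⟨k, hk, (eq_neg_of_add_eq_zero_left hyk).symm⟩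
        · simp
      have h2 := card_filter_add_card_filter_not (s := (univ : Finset (ZMod (qh P h i)))) G
      rw [card_univ, hcard] at h2
      have h3 : (univ.filter G).card ≤
          (univ.filter fun y => Bad (Function.update x i y)).card := by
        apply card_le_card
        intro y hy
        refine mem_filter.2 ⟨mem_univ _, ?_⟩
        by_contra hcon
        obtain ⟨h4, h5⟩ := HST_key hP J cut hJ hc x i hi.1 hi.2 y ((hG y).1 (mem_filter.1 hy).2)
        have h6 : nrm (TO cut J x - κ (x 0).val) ≤ 1 / 16 := not_lt.1 hx2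
        have h7 : nrm (TO cut J (Function.update x i y) -
          κ ((Function.update x i y) 0).val) ≤ 1 / 16 := not_lt.1 hcon
        have hne : (0 : Fin (Y + 1)) ≠ i := by
          intro h0
          rw [← h0] at hi20
          simp at hi20
        rw [Function.update_of_ne hne] at h7
        exact HST_int _ _ h6 h7 (by linarith) (by linarith)
      rw [hcard]
      have h4 : (i : ℕ) ≤ 2 * (univ.filter fun y => Bad (Function.update x i y)).card := by
        omega
      exact_mod_cast h4)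
  have h3 : pr (fun x : Oh P h Y => ∃ i, H i x) ≤ pr V + pr Bad := by
    refine le_trans (pr_mono (P' := fun x => V x ∨ Bad x) ?_) (pr_or_le _ _)
    intro x hx
    by_cases h5 : Bad x
    · exact Or.inr h5
    · exact Or.inl ⟨hx, h5⟩
  have h4 : pr V ≤ 1 / 2 * pr (fun x : Oh P h Y => ∃ i, H i x) + 4 * pr Bad := hhit
  have h5 : pr (fun x : Oh P h Y => ∃ i, H i x) ≤ 10 * pr Bad := by linarith
  exact h5

end Pool.Agent.RMS
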