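import Pool.Agent.RMS.St3

/-!
RMS, module HSU: the numerical sum (helper34).
-/

set_option autoImplicit false

namespace Pool.Agent.RMS

open Finset Filter
open Classical

theorem HSU_ind_nonneg (A : Set ℕ) (a : ℕ) : 0 ≤ A.indicator (fun a : ℕ => (1 : ℝ) / a) a :=
  Set.indicator_nonneg (fun _ _ => by positivity) _

theorem HSU_anti (A : Set ℕ) {y y' : ℕ} (h : y ≤ y') (z : ℕ) : RS A y' z ≤ RS A y z := by
  unfold RS
  exact sum_le_sum_of_subset_of_nonneg (Ioc_subset_Ioc_left h) fun a _ _ => HSU_ind_nonneg A a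

theorem HSU_split (A : Set ℕ) (y y' z : ℕ) : RS A y z ≤ RS A y y' + RS A y' z := by
  unfold RS
  have h1 : Ioc y z ⊆ Ioc y y' ∪ Ioc y' z := by
    intro a ha
    rw [mem_union, mem_Ioc, mem_Ioc]
    rw [mem_Ioc] at ha
    omega
  refine (sum_le_sum_of_subset_of_nonneg h1 fun a _ _ => HSU_ind_nonneg A a).trans ?_
  rw [← sum_union_inter]
  have : 0 ≤ ∑ a ∈ Ioc y y' ∩ Ioc y' z, A.indicator (fun a : ℕ => (1 : ℝ) / a) a :=
    sum_nonneg fun a _ => HSU_ind_nonneg A a
  linarith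

theorem HSU_le_primes (A : Set ℕ) (y z : ℕ) :
    RS {p | p ∈ A ∧ p.Prime} y z ≤ ∑ p ∈ (Ioc y z).filter Nat.Prime, (1 : ℝ) / p := by
  unfold RS
  rw [sum_filter]
  refine sum_le_sum fun a _ => ?_
  rw [Set.indicator_apply]
  by_cases h : a.Prime
  · rw [if_pos h]
    split_ifs
    · exact le_refl _
    · positivity
  · rw [if_neg h, if_neg fun h' => h h'.2]

theorem HSU_geom (a C : ℝ) (n : ℕ) :
    ∑ i ∈ Ioc 31 (31 + n), (a + C * i) / 2 ^ i =
      (a + 33 * C) / 2 ^ 31 - (a + C * (31 + n + 2)) / 2 ^ (31 + n) := by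
  induction n with
  | zero => simp; ring
  | succ n ih =>
    rw [← add_assoc, sum_Ioc_succ_top (by omega), ih]
    push_cast
    rw [pow_succ]
    field_simp
    ring

theorem thm_HSU : St_HSU := by
  intro A C1 η W S Z k1 X hC1 hη hW hZ hk1 hk2 hpr _ hRS hRS0
  set P : Set ℕ := {p | p ∈ A ∧ p.Prime} with hP
  have hZ1 : 1 ≤ Z := by omega
  have hmono : ∀ e, e ≤ 4 → RS P (Z ^ 4 ^ (k1 - e)) (4 * X) ≤ W := by
    intro e he
    refine (HSU_anti P ?_ _).trans hRS
    exact Nat.pow_le_pow_right hZ1 (Nat.pow_le_pow_right (by norm_num) (by omega))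
  have hstep : ∀ e, e ≤ k1 → RS P (Z ^ 4 ^ (k1 - e)) (4 * X) ≤ W + C1 * e := by
    intro e
    induction e with
    | zero =>
      intro _
      have := hmono 0 (by omega)
      simp only [Nat.cast_zero, mul_zero, add_zero]
      exact this
    | succ e ih =>
      intro he
      have h1 := HSU_split P (Z ^ 4 ^ (k1 - (e + 1))) (Z ^ 4 ^ (k1 - e)) (4 * X)
      have h2 := ih (by omega)
      have h3 := (HSU_le_primes A (Z ^ 4 ^ (k1 - (e + 1))) (Z ^ 4 ^ (k1 - e))).trans
        (hpr _ _ (by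
          calc 2 ≤ Z := hZ
            _ = Z ^ 1 := (pow_one Z).symm
            _ ≤ Z ^ 4 ^ (k1 - (e + 1)) := Nat.pow_le_pow_right hZ1 (Nat.one_le_pow _ _ (by norm_num))) (by
          rw [← pow_mul, ← pow_succ, show k1 - (e + 1) + 1 = k1 - e by omega]))
      push_cast
      linarith
  have hA : ∑ i ∈ Icc 1 31, 4 * (η + RS P (ct Z k1 i) (4 * X)) ≤ 124 * (η + W) := by
    refine (sum_le_card_nsmul _ _ (4 * (η + W)) fun i hi => ?_).trans ?_
    · rw [mem_Icc] at hi
      have h1 : Nat.log 2 i ≤ 4 := by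
        have : Nat.log 2 i < 5 := Nat.log_lt_of_lt_pow (by omega) (by omega)
        omega
      have := hmono _ h1
      unfold ct
      linarith
    · rw [Nat.card_Icc, nsmul_eq_mul]
      norm_num
      linarith
  have hB : ∑ i ∈ Ioc 31 (k1 + 30), (η + RS P (ct Z k1 i) (4 * X)) / 2 ^ i ≤
      (η + W + 33 * C1) / 2 ^ 31 := by
    calc ∑ i ∈ Ioc 31 (k1 + 30), (η + RS P (ct Z k1 i) (4 * X)) / 2 ^ i
        ≤ ∑ i ∈ Ioc 31 (k1 + 30), (η + W + C1 * i) / 2 ^ i := by
          refine sum_le_sum fun i hi => ?_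
          rw [mem_Ioc] at hi
          have h1 : Nat.log 2 i < k1 := Nat.log_lt_of_lt_pow (by omega) (by omega)
          have h2 := hstep _ h1.le
          have h3 : (Nat.log 2 i : ℝ) ≤ i := by exact_mod_cast Nat.log_le_self 2 i
          have h4 : C1 * Nat.log 2 i ≤ C1 * i := mul_le_mul_of_nonneg_left h3 hC1
          unfold ct
          apply div_le_div_of_nonneg_right _ (by positivity)
          linarith
      _ = (η + W + 33 * C1) / 2 ^ 31 -
          (η + W + C1 * (31 + ((k1 - 1 : ℕ) : ℝ) + 2)) / 2 ^ (31 + (k1 - 1)) := by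
          rw [← HSU_geom, show 31 + (k1 - 1) = k1 + 30 by omega]
      _ ≤ _ := by
          have : 0 ≤ (η + W + C1 * (31 + ((k1 - 1 : ℕ) : ℝ) + 2)) / 2 ^ (31 + (k1 - 1)) := by
            positivity
          linarith
  have hC : 256 * (η + RS P 0 (4 * X)) / 2 ^ (k1 + 30) ≤ 256 * (η + S) / 2 ^ (k1 + 30) := by
    apply div_le_div_of_nonneg_right _ (by positivity)
    linarith
  have hD : 256 * ((η + W + 33 * C1) / 2 ^ 31) ≤ (η + W) + C1 / 200000 := by
    have : 256 * ((η + W + 33 * C1) / 2 ^ 31) = (η + W) / 8388608 + 33 * C1 / 8388608 := by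
      norm_num
      ring
    rw [this]
    have h1 : (η + W) / 8388608 ≤ η + W := div_le_self (by positivity) (by norm_num)
    have h2 : 33 * C1 / 8388608 ≤ C1 / 200000 := by
      rw [div_le_div_iff₀ (by norm_num) (by norm_num)]
      nlinarith
    linarith
  have hB' := mul_le_mul_of_nonneg_left hB (by norm_num : (0 : ℝ) ≤ 256)
  linarith

end Pool.Agent.RMS
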