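import Pool.Agent.RMS.Basic

/-! RMS, module TRM: means. -/

set_option autoImplicit false

namespace Pool.Agent.RMS

open Finset
open Classical

theorem TRM_cnt (X n a : ℕ) (ha : 1 ≤ a) :
    ((((Ico X (2 * X)).filter fun m => a ∣ m + n).card : ℕ) : ℝ) ≤ X / a + 1 := by
  have ha' : (0 : ℝ) < a := by exact_mod_cast ha
  have h0 : ((Ico X (2 * X)).filter fun m => a ∣ m + n).card ≤ X / a + 1 := by
    rcases ((Ico X (2 * X)).filter fun m => a ∣ m + n).eq_empty_or_nonempty with h | h
    · rw [h, card_empty]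
      exact Nat.zero_le _
    · set s := (Ico X (2 * X)).filter fun m => a ∣ m + n with hs
      obtain ⟨m0, hm0, hmin⟩ := exists_min_image s id h
      have h1 : s.card ≤ (range (X / a + 1)).card := by
        refine card_le_card_of_injOn (fun m => (m - m0) / a) ?_ ?_
        · intro m hm
          have hm1 := hm
          rw [mem_coe, hs, mem_filter, mem_Ico] at hm1
          have hm2 := hm0
          rw [hs, mem_filter, mem_Ico] at hm2
          rw [mem_coe, mem_range]
          have : (m - m0) / a ≤ X / a := Nat.div_le_div_right (by omega)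
          show (m - m0) / a < X / a + 1
          omega
        · intro m hm m' hm' hmm
          have hm1 := hm
          rw [mem_coe, hs, mem_filter] at hm1
          have hm2 := hm0
          rw [hs, mem_filter] at hm2
          have hm3 := hm'
          rw [mem_coe, hs, mem_filter] at hm3
          have l1 : m0 ≤ m := hmin m hm
          have l2 : m0 ≤ m' := hmin m' hm'
          have d1 : a ∣ m - m0 := by
            have h3 := Nat.dvd_sub hm1.2 hm2.2
            rwa [show m + n - (m0 + n) = m - m0 by omega] at h3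
          have d2 : a ∣ m' - m0 := by
            have h3 := Nat.dvd_sub hm3.2 hm2.2
            rwa [show m' + n - (m0 + n) = m' - m0 by omega] at h3
          have h4 : m - m0 = m' - m0 := by
            rw [← Nat.div_mul_cancel d1, ← Nat.div_mul_cancel d2]
            congr 1
          omega
      rwa [card_range] at h1
  have h1 : ((X / a : ℕ) : ℝ) ≤ X / a := Nat.cast_div_le
  have h2 : ((((Ico X (2 * X)).filter fun m => a ∣ m + n).card : ℕ) : ℝ) ≤ ((X / a + 1 : ℕ) : ℝ) := by
    exact_mod_cast h0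
  push_cast at h2
  linarith

theorem TRM_a (A : Set ℕ) (X Y i e : ℕ) (hX : 1 ≤ X) (hi : i ≤ X) :
    (((Ico X (2 * X)).filter fun m => 2 ^ e ≤ dG A Y (m + i)).card : ℝ) ≤
      4 * X * RS A Y (4 * X) / 2 ^ e := by
  have hX' : (0 : ℝ) < X := by exact_mod_cast hX
  have h2e : (0 : ℝ) < 2 ^ e := by positivity
  rw [le_div_iff₀ h2e]
  -- the number of the divisors as a sum
  have hdG : ∀ m ∈ Ico X (2 * X), (dG A Y (m + i) : ℝ) =
      ∑ a ∈ Ioc Y (4 * X), if a ∈ A ∧ a ∣ m + i then (1 : ℝ) else 0 := by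
    intro m hm
    rw [mem_Ico] at hm
    have h1 : (m + i).divisors.filter (fun a => a ∈ A ∧ Y < a) =
        (Ioc Y (4 * X)).filter (fun a => a ∈ A ∧ a ∣ m + i) := by
      ext a
      rw [mem_filter, mem_filter, Nat.mem_divisors, mem_Ioc]
      constructor
      · rintro ⟨⟨h2, h3⟩, h4, h5⟩
        have := Nat.le_of_dvd (by omega) h2
        exact ⟨⟨h5, by omega⟩, h4, h2⟩
      · rintro ⟨⟨h2, h3⟩, h4, h5⟩
        exact ⟨⟨h5, by omega⟩, h4, h2⟩
    rw [dG, h1, Finset.sum_boole]
  have h1 : (((Ico X (2 * X)).filter fun m => 2 ^ e ≤ dG A Y (m + i)).card : ℝ) * 2 ^ e ≤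
      ∑ m ∈ Ico X (2 * X), (dG A Y (m + i) : ℝ) := by
    rw [← nsmul_eq_mul, ← sum_const]
    refine le_trans (sum_le_sum (g := fun m => (dG A Y (m + i) : ℝ)) fun m hm => ?_)
      (sum_le_sum_of_subset_of_nonneg (filter_subset _ _) fun m _ _ => Nat.cast_nonneg _)
    have := (mem_filter.1 hm).2
    exact_mod_cast this
  refine h1.trans ?_
  rw [sum_congr rfl hdG, sum_comm, RS, mul_sum]
  refine sum_le_sum fun a ha => ?_
  rw [mem_Ioc] at ha
  by_cases hA : a ∈ A
  · rw [Set.indicator_of_mem hA]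
    have ha' : (0 : ℝ) < a := by
      have : 0 < a := by omega
      exact_mod_cast this
    have h2 : ∑ m ∈ Ico X (2 * X), (if a ∈ A ∧ a ∣ m + i then (1 : ℝ) else 0) =
        ((((Ico X (2 * X)).filter fun m => a ∣ m + i).card : ℕ) : ℝ) := by
      rw [← Finset.sum_boole]
      refine sum_congr rfl fun m _ => ?_
      by_cases h : a ∣ m + i
      · rw [if_pos ⟨hA, h⟩, if_pos h]
      · rw [if_neg (fun h' => h h'.2), if_neg h]
    rw [h2]
    by_cases h3 : a ≤ 3 * X
    · refine (TRM_cnt X i a (by omega)).trans ?_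
      rw [div_add_one ha'.ne', mul_one_div]
      apply div_le_div_of_nonneg_right _ ha'.le
      have : (a : ℝ) ≤ 3 * X := by exact_mod_cast h3
      linarith
    · have h4 : (Ico X (2 * X)).filter (fun m => a ∣ m + i) = ∅ := by
        apply filter_eq_empty_iff.2
        intro m hm hd
        rw [mem_Ico] at hm
        have := Nat.le_of_dvd (by omega) hd
        omega
      rw [h4, card_empty, Nat.cast_zero]
      positivity
  · rw [Set.indicator_of_notMem hA, mul_zero]
    refine (sum_eq_zero fun m _ => ?_).le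
    rw [if_neg (fun h => hA h.1)]

theorem TRM_b (B : Finset ℕ) (X Y J : ℕ) (hB : ∀ a ∈ B, 1 ≤ a ∧ a ≤ Y) (hY : Y ≤ X) :
    ∑ m ∈ Ico X (2 * X), R2 B J m ≤ X * (1 + ∑ a ∈ B, (1 : ℝ) / a) / 2 ^ J := by
  set S : ℝ := ∑ a ∈ B, (1 : ℝ) / a with hS
  have hBc : B.card ≤ X := by
    have h1 : B ⊆ Icc 1 Y := fun a ha => mem_Icc.2 (hB a ha)
    have h2 := card_le_card h1
    rw [Nat.card_Icc] at h2
    omega
  have hcount : ∀ n : ℕ, ∑ m ∈ Ico X (2 * X), (dF B (m + n) : ℝ) ≤ X * (1 + S) := by
    intro n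
    have h1 : ∀ m ∈ Ico X (2 * X), (dF B (m + n) : ℝ) = ∑ a ∈ B, if a ∣ m + n then (1 : ℝ) else 0 := by
      intro m _
      rw [Finset.sum_boole, dF]
    rw [sum_congr rfl h1, sum_comm]
    have h2 : ∀ a ∈ B, ∑ m ∈ Ico X (2 * X), (if a ∣ m + n then (1 : ℝ) else 0) ≤ X / a + 1 := by
      intro a ha
      rw [Finset.sum_boole]
      refine le_trans (le_of_eq ?_) (TRM_cnt X n a (hB a ha).1)
      congr 2
    refine (sum_le_sum h2).trans ?_
    rw [sum_add_distrib, sum_const, nsmul_eq_mul, mul_one]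
    have h3 : ∑ a ∈ B, (X : ℝ) / a = X * S := by
      rw [hS, mul_sum]
      refine sum_congr rfl fun a _ => ?_
      rw [mul_one_div]
    rw [h3]
    have h4 : (B.card : ℝ) ≤ X := by exact_mod_cast hBc
    linarith
  have hgeo : HasSum (fun i : ℕ => (1 : ℝ) / 2 ^ (J + i + 1)) (1 / 2 ^ J) := by
    have h1 := hasSum_geometric_two.mul_left ((1 : ℝ) / 2 ^ J / 2)
    have h2 : (1 : ℝ) / 2 ^ J / 2 * 2 = 1 / 2 ^ J := by
      field_simp
    rw [h2] at h1
    have h3 : (fun i : ℕ => (1 : ℝ) / 2 ^ (J + i + 1)) =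
        fun i : ℕ => (1 : ℝ) / 2 ^ J / 2 * (1 / 2) ^ i := by
      funext i
      rw [div_div, div_pow, one_pow, ← one_div_mul_one_div, pow_succ, pow_add]
      field_simp
    rw [h3]
    exact h1
  have hsum : ∀ m, Summable fun i : ℕ => (dF B (m + 1 + (J + i)) : ℝ) / 2 ^ (J + i + 1) := by
    intro m
    refine Summable.of_nonneg_of_le (fun i => by positivity) (fun i => ?_)
      (hgeo.summable.mul_left (B.card : ℝ))
    rw [mul_one_div]
    apply div_le_div_of_nonneg_right _ (by positivity)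
    have : dF B (m + 1 + (J + i)) ≤ B.card := card_filter_le _ _
    exact_mod_cast this
  have h1 : ∑ m ∈ Ico X (2 * X), R2 B J m =
      ∑' i : ℕ, ∑ m ∈ Ico X (2 * X), (dF B (m + 1 + (J + i)) : ℝ) / 2 ^ (J + i + 1) := by
    rw [Summable.tsum_finsetSum fun m _ => hsum m]
    rfl
  have h2 : HasSum (fun i : ℕ => X * (1 + S) * ((1 : ℝ) / 2 ^ (J + i + 1)))
      (X * (1 + S) * (1 / 2 ^ J)) := hgeo.mul_left _
  rw [h1, ← mul_one_div, ← h2.tsum_eq]
  refine Summable.tsum_le_tsum (fun i => ?_) (summable_sum fun m _ => hsum m) h2.summable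
  rw [← sum_div, mul_one_div]
  apply div_le_div_of_nonneg_right _ (by positivity)
  have h3 := hcount (1 + (J + i))
  simpa [add_assoc] using h3

theorem thm_TRM : St_TRM := ⟨TRM_a, TRM_b⟩

end Pool.Agent.RMS
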