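import Pool.Agent.RMS.St3
import Pool.Agent.RMS.TRM
import Pool.Agent.RMS.TRP

/-! RMS, module HTR: truncation with cutoffs. -/

set_option autoImplicit false

namespace Pool.Agent.RMS

open Finset
open Classical

theorem HTR_mean (B : Set ℕ) (X Y i : ℕ) (hX : 1 ≤ X) (hi : i ≤ X) :
    ∑ m ∈ Ico X (2 * X), (dG B Y (m + i) : ℝ) ≤ 4 * X * RS B Y (4 * X) := by
  have hX' : (0 : ℝ) < X := by exact_mod_cast hX
  have hdG : ∀ m ∈ Ico X (2 * X), (dG B Y (m + i) : ℝ) =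
      ∑ a ∈ Ioc Y (4 * X), if a ∈ B ∧ a ∣ m + i then (1 : ℝ) else 0 := by
    intro m hm
    rw [mem_Ico] at hm
    have h1 : (m + i).divisors.filter (fun a => a ∈ B ∧ Y < a) =
        (Ioc Y (4 * X)).filter (fun a => a ∈ B ∧ a ∣ m + i) := by
      ext a
      rw [mem_filter, mem_filter, Nat.mem_divisors, mem_Ioc]
      constructor
      · rintro ⟨⟨h2, h3⟩, h4, h5⟩
        have := Nat.le_of_dvd (by omega) h2
        exact ⟨⟨h5, by omega⟩, h4, h2⟩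
      · rintro ⟨⟨h2, h3⟩, h4, h5⟩
        exact ⟨⟨h5, by omega⟩, h4, h2⟩
    rw [dG, h1, Finset.sum_boole]
  rw [sum_congr rfl hdG, sum_comm, RS, mul_sum]
  refine sum_le_sum fun a ha => ?_
  rw [mem_Ioc] at ha
  by_cases hA : a ∈ B
  · rw [Set.indicator_of_mem hA]
    have ha' : (0 : ℝ) < a := by
      have : 0 < a := by omega
      exact_mod_cast this
    have h2 : ∑ m ∈ Ico X (2 * X), (if a ∈ B ∧ a ∣ m + i then (1 : ℝ) else 0) =
        ((((Ico X (2 * X)).filter fun m => a ∣ m + i).card : ℕ) : ℝ) := by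
      rw [← Finset.sum_boole]
      refine sum_congr rfl fun m _ => ?_
      by_cases h : a ∣ m + i
      · rw [if_pos ⟨hA, h⟩, if_pos h]
      · rw [if_neg (fun h' => h h'.2), if_neg h]
    rw [h2]
    by_cases h3 : a ≤ 3 * X
    · refine (TRM_cnt X i a (by omega)).trans ?_
      rw [div_add_one ha'.ne', mul_one_div]
      apply div_le_div_of_nonneg_right _ ha'.le
      have : (a : ℝ) ≤ 3 * X := by exact_mod_cast h3
      linarith
    · have h4 : (Ico X (2 * X)).filter (fun m => a ∣ m + i) = ∅ := by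
        apply filter_eq_empty_iff.2
        intro m hm hd
        rw [mem_Ico] at hm
        have := Nat.le_of_dvd (by omega) hd
        omega
      rw [h4, card_empty, Nat.cast_zero]
      positivity
  · rw [Set.indicator_of_notMem hA, mul_zero]
    refine (sum_eq_zero fun m _ => ?_).le
    rw [if_neg (fun h => hA h.1)]

/-- the divisors which are not counted at the shift `i` -/
noncomputable def HTR_g (A : Set ℕ) (J : ℕ) (cut : ℕ → ℕ) (i n : ℕ) : ℕ :=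
  (n.divisors.filter fun a => a ∈ A ∧ ¬ (i ≤ J ∧ a.Prime ∧ a ≤ cut i)).card

theorem HTR_dG0 (A : Set ℕ) (n : ℕ) : dG A 0 n = dA A n := by
  unfold dG dA
  congr 1
  ext a
  rw [mem_filter, mem_filter]
  constructor
  · rintro ⟨h1, h2, _⟩
    exact ⟨h1, h2⟩
  · rintro ⟨h1, h2⟩
    exact ⟨h1, h2, Nat.pos_of_mem_divisors h1⟩

theorem HTR_split' (A : Set ℕ) (P : ℕ → Prop) (hP : ∀ a, P a ↔ a ∈ A ∧ a.Prime) (J : ℕ)
    (cut : ℕ → ℕ) (i n : ℕ) (hn : 1 ≤ n) :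
    (dA A n : ℝ) = (if i ≤ J then (dP P (cut i) n : ℝ) else 0) +
      (HTR_g A J cut i n : ℝ) := by
  have h0 : dA A n = ((n.divisors.filter fun a => a ∈ A).filter fun a =>
      i ≤ J ∧ a.Prime ∧ a ≤ cut i).card + HTR_g A J cut i n := by
    unfold dA HTR_g
    have h2 : (n.divisors.filter fun a => a ∈ A ∧ ¬ (i ≤ J ∧ a.Prime ∧ a ≤ cut i)) =
        (n.divisors.filter fun a => a ∈ A).filter fun a => ¬ (i ≤ J ∧ a.Prime ∧ a ≤ cut i) := by
      ext a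
      rw [mem_filter, mem_filter, mem_filter]
      tauto
    rw [h2, Finset.card_filter_add_card_filter_not]
  have h1 : ((n.divisors.filter fun a => a ∈ A).filter fun a =>
      i ≤ J ∧ a.Prime ∧ a ≤ cut i).card =
      if i ≤ J then dP P (cut i) n else 0 := by
    by_cases hi : i ≤ J
    · rw [if_pos hi]
      unfold dP
      congr 1
      ext a
      rw [mem_filter, mem_filter, mem_filter, Nat.mem_divisors, mem_Icc, hP]
      constructor
      · rintro ⟨⟨⟨h1, _⟩, h2⟩, _, h3, h4⟩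
        exact ⟨⟨h3.one_lt.le, h4⟩, ⟨h2, h3⟩, h1⟩
      · rintro ⟨⟨_, h4⟩, ⟨h2, h3⟩, h1⟩
        exact ⟨⟨⟨h1, by omega⟩, h2⟩, hi, h3, h4⟩
    · rw [if_neg hi, card_eq_zero, filter_eq_empty_iff]
      intro a _ h
      exact hi h.1
  rw [h0, h1]
  push_cast
  rfl

theorem HTR_split (A : Set ℕ) (J : ℕ) (cut : ℕ → ℕ) (i n : ℕ) (hn : 1 ≤ n) :
    (dA A n : ℝ) = (if i ≤ J then (dP (fun p => p ∈ A ∧ p.Prime) (cut i) n : ℝ) else 0) +
      (HTR_g A J cut i n : ℝ) := HTR_split' A _ (fun _ => Iff.rfl) J cut i n hn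

theorem HTR_g_le' (A B1 B2 : Set ℕ) (h1 : ∀ a, a ∈ B1 ↔ a ∈ A ∧ ¬ a.Prime)
    (h2 : ∀ a, a ∈ B2 ↔ a ∈ A ∧ a.Prime) (J : ℕ) (cut : ℕ → ℕ) (i n : ℕ) :
    HTR_g A J cut i n ≤ dG B1 0 n + dG B2 (if i ≤ J then cut i else 0) n := by
  unfold HTR_g dG
  refine (card_le_card ?_).trans (card_union_le _ _)
  intro a ha
  rw [mem_filter] at ha
  rw [mem_union, mem_filter, mem_filter, h1, h2]
  obtain ⟨h1, h2, h3⟩ := ha
  have ha0 : 0 < a := Nat.pos_of_mem_divisors h1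
  by_cases hp : a.Prime
  · refine Or.inr ⟨h1, ⟨h2, hp⟩, ?_⟩
    split
    · next hi =>
      by_contra h4
      exact h3 ⟨hi, hp, by omega⟩
    · exact ha0
  · exact Or.inl ⟨h1, ⟨h2, hp⟩, ha0⟩

theorem HTR_g_le (A : Set ℕ) (J : ℕ) (cut : ℕ → ℕ) (i n : ℕ) :
    HTR_g A J cut i n ≤ dG {a | a ∈ A ∧ ¬ a.Prime} 0 n +
      dG {p | p ∈ A ∧ p.Prime} (if i ≤ J then cut i else 0) n :=
  HTR_g_le' A _ _ (fun _ => Iff.rfl) (fun _ => Iff.rfl) J cut i n

theorem HTR_two (X : ℕ) (hX : 100 ≤ X) : (4 * (X : ℝ)) / 2 ^ X ≤ 1 / 2 ^ 40 := by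
  rw [div_le_div_iff₀ (by positivity) (by positivity), one_mul]
  have h1 : X - 50 < 2 ^ (X - 50) := Nat.lt_two_pow_self
  have h2 : 4 * X * 2 ^ 40 ≤ 2 ^ X := by
    have h3 : 2 ^ X = 2 ^ (X - 50) * 2 ^ 50 := by
      rw [← pow_add]
      congr 1
      omega
    rw [h3]
    have h4 : 4 * X ≤ 8 * (X - 50) := by omega
    calc 4 * X * 2 ^ 40 ≤ 8 * (X - 50) * 2 ^ 40 := Nat.mul_le_mul_right _ h4
      _ ≤ 8 * 2 ^ (X - 50) * 2 ^ 40 :=
          Nat.mul_le_mul_right _ (Nat.mul_le_mul_left _ h1.le)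
      _ ≤ 2 ^ (X - 50) * 2 ^ 50 := by
          have : 8 * 2 ^ (X - 50) * 2 ^ 40 = 2 ^ (X - 50) * (8 * 2 ^ 40) := by ring
          rw [this]
          exact Nat.mul_le_mul_left _ (by norm_num)
  exact_mod_cast h2

/-- the tail of the series -/
theorem HTR_tail (A : Set ℕ) (X m : ℕ) (hX : 100 ≤ X) (hm : m < 2 * X) :
    TA A m ≤ ∑ i ∈ Icc 1 X, (dA A (m + i) : ℝ) / 2 ^ i + 1 / 2 ^ 40 ∧
      ∑ i ∈ Icc 1 X, (dA A (m + i) : ℝ) / 2 ^ i ≤ TA A m := by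
  have hS : Summable fun i : ℕ => (dA A (m + 1 + i) : ℝ) / 2 ^ (i + 1) := by
    have := TRP_sumG A 0 m
    simpa only [HTR_dG0] using this
  have h1 : TA A m = ∑ i ∈ Icc 1 X, (dA A (m + i) : ℝ) / 2 ^ i +
      ∑' i : ℕ, (dA A (m + 1 + (i + X)) : ℝ) / 2 ^ (i + X + 1) := by
    unfold TA
    rw [← hS.sum_add_tsum_nat_add X]
    congr 1
    rw [show Icc 1 X = Ico (0 + 1) (X + 1) by ext; simp [Nat.lt_succ_iff, Nat.succ_le_iff],
      ← Finset.sum_Ico_add' (fun i : ℕ => (dA A (m + i) : ℝ) / 2 ^ i) 0 X 1,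
      ← Finset.range_eq_Ico]
    refine sum_congr rfl fun i _ => ?_
    rw [show m + 1 + i = m + (i + 1) by ring]
  have hS' : Summable fun i : ℕ => (dA A (m + 1 + (i + X)) : ℝ) / 2 ^ (i + X + 1) :=
    (summable_nat_add_iff (f := fun i : ℕ => (dA A (m + 1 + i) : ℝ) / 2 ^ (i + 1)) X).2 hS
  have hle : ∀ i : ℕ, (dA A (m + 1 + (i + X)) : ℝ) / 2 ^ (i + X + 1) ≤
      (2 * (X : ℝ) / 2 ^ X * (1 / 2) ^ i) + (1 / 2 ^ X * ((i : ℝ) * (1 / 2) ^ i)) := by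
    intro i
    have h2 : (dA A (m + 1 + (i + X)) : ℝ) ≤ ((3 * X + i : ℕ) : ℝ) := by
      have h3 : dA A (m + 1 + (i + X)) ≤ m + 1 + (i + X) := by
        rw [← HTR_dG0]
        exact TRP_dG_le A 0 _
      exact_mod_cast h3.trans (by omega)
    have h4 : (2 : ℝ) ^ (i + X + 1) = 2 * 2 ^ X * 2 ^ i := by
      rw [pow_succ, pow_add]
      ring
    rw [h4, div_le_iff₀ (by positivity)]
    have h5 : (2 * (X : ℝ) / 2 ^ X * (1 / 2) ^ i + 1 / 2 ^ X * ((i : ℝ) * (1 / 2) ^ i)) *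
        (2 * 2 ^ X * 2 ^ i) = 4 * X + 2 * i := by
      rw [div_pow, one_pow]
      field_simp
      ring
    rw [h5]
    refine h2.trans ?_
    push_cast
    have : (0 : ℝ) ≤ i := Nat.cast_nonneg _
    have : (0 : ℝ) ≤ X := Nat.cast_nonneg _
    linarith
  have hg1 : HasSum (fun i : ℕ => 2 * (X : ℝ) / 2 ^ X * (1 / 2) ^ i)
      (2 * (X : ℝ) / 2 ^ X * 2) := hasSum_geometric_two.mul_left _
  have hg2 : HasSum (fun i : ℕ => 1 / (2 : ℝ) ^ X * ((i : ℝ) * (1 / 2) ^ i))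
      (1 / 2 ^ X * 2) := by
    have h6 := hasSum_coe_mul_geometric_of_norm_lt_one (r := (1 / 2 : ℝ))
      (by rw [Real.norm_eq_abs]; norm_num [abs_of_pos])
    have h7 : (1 / 2 : ℝ) / (1 - 1 / 2) ^ 2 = 2 := by norm_num
    rw [h7] at h6
    exact h6.mul_left _
  have h8 : ∑' i : ℕ, (dA A (m + 1 + (i + X)) : ℝ) / 2 ^ (i + X + 1) ≤
      2 * (X : ℝ) / 2 ^ X * 2 + 1 / 2 ^ X * 2 := by
    rw [← (hg1.add hg2).tsum_eq]
    exact hS'.tsum_le_tsum hle (hg1.add hg2).summable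
  have h9 : 0 ≤ ∑' i : ℕ, (dA A (m + 1 + (i + X)) : ℝ) / 2 ^ (i + X + 1) :=
    tsum_nonneg fun i => by positivity
  have h10 : 2 * (X : ℝ) / 2 ^ X * 2 + 1 / 2 ^ X * 2 ≤ 1 / 2 ^ 40 + 1 / 2 ^ 40 := by
    have e1 := HTR_two X hX
    have e2 : 2 * (X : ℝ) / 2 ^ X * 2 = 4 * X / 2 ^ X := by ring
    have e3 : 1 / 2 ^ X * 2 ≤ 4 * (X : ℝ) / 2 ^ X := by
      rw [one_div_mul_eq_div]
      apply div_le_div_of_nonneg_right _ (by positivity)
      have : (100 : ℝ) ≤ X := by exact_mod_cast hX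
      linarith
    linarith
  constructor
  · -- a slightly better bound
    have e1 : 2 * (X : ℝ) / 2 ^ X * 2 + 1 / 2 ^ X * 2 ≤ 1 / 2 ^ 40 := by
      have h1' : X - 50 < 2 ^ (X - 50) := Nat.lt_two_pow_self
      have e2 : 2 * (X : ℝ) / 2 ^ X * 2 + 1 / 2 ^ X * 2 = (4 * X + 2) / 2 ^ X := by ring
      rw [e2, div_le_div_iff₀ (by positivity) (by positivity), one_mul]
      have h2 : (4 * X + 2) * 2 ^ 40 ≤ 2 ^ X := by
        have h3 : 2 ^ X = 2 ^ (X - 50) * 2 ^ 50 := by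
          rw [← pow_add]
          congr 1
          omega
        rw [h3]
        have h4 : 4 * X + 2 ≤ 10 * (X - 50) := by omega
        calc (4 * X + 2) * 2 ^ 40 ≤ 10 * (X - 50) * 2 ^ 40 := Nat.mul_le_mul_right _ h4
          _ ≤ 10 * 2 ^ (X - 50) * 2 ^ 40 :=
              Nat.mul_le_mul_right _ (Nat.mul_le_mul_left _ h1'.le)
          _ ≤ 2 ^ (X - 50) * 2 ^ 50 := by
              have : 10 * 2 ^ (X - 50) * 2 ^ 40 = 2 ^ (X - 50) * (10 * 2 ^ 40) := by ring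
              rw [this]
              exact Nat.mul_le_mul_left _ (by norm_num)
      exact_mod_cast h2
    rw [h1]
    linarith
  · rw [h1]
    linarith

/-- the pointwise estimate -/
theorem HTR_point (A : Set ℕ) (κ : ℕ → ℝ) (X J : ℕ) (cut : ℕ → ℕ) (m : ℕ)
    (hz : ∃ z : ℤ, TA A m = κ m + z) (hX : 100 ≤ X) (hJX : J ≤ X) (hm : m < 2 * X)
    (hbad : (1 : ℝ) / 16 < nrm (TP (fun p => p ∈ A ∧ p.Prime) cut J m - κ m)) :
    (∃ i ∈ Icc 1 31, 1 ≤ HTR_g A J cut i (m + i)) ∨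
      (1 : ℝ) / 64 ≤ ∑ i ∈ Ioc 31 X, (HTR_g A J cut i (m + i) : ℝ) / 2 ^ i := by
  by_contra hcon
  push Not at hcon
  obtain ⟨h1, h2⟩ := hcon
  obtain ⟨z, hz⟩ := hz
  obtain ⟨h3, h4⟩ := HTR_tail A X m hX hm
  have h5 : ∑ i ∈ Icc 1 X, (dA A (m + i) : ℝ) / 2 ^ i =
      TP (fun p => p ∈ A ∧ p.Prime) cut J m +
        ∑ i ∈ Icc 1 X, (HTR_g A J cut i (m + i) : ℝ) / 2 ^ i := by
    have e1 : ∀ i ∈ Icc 1 X, (dA A (m + i) : ℝ) / 2 ^ i =
        (if i ≤ J then (dP (fun p => p ∈ A ∧ p.Prime) (cut i) (m + i) : ℝ) / 2 ^ i else 0) +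
          (HTR_g A J cut i (m + i) : ℝ) / 2 ^ i := by
      intro i hi
      rw [mem_Icc] at hi
      rw [HTR_split A J cut i (m + i) (by omega), add_div]
      congr 1
      split
      · rfl
      · rw [zero_div]
    rw [sum_congr rfl e1, sum_add_distrib]
    congr 1
    unfold TP
    rw [← sum_filter]
    refine sum_congr ?_ fun _ _ => rfl
    ext i
    rw [mem_filter, mem_Icc, mem_Icc]
    omega
  have h6 : ∑ i ∈ Icc 1 X, (HTR_g A J cut i (m + i) : ℝ) / 2 ^ i =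
      ∑ i ∈ Ioc 31 X, (HTR_g A J cut i (m + i) : ℝ) / 2 ^ i := by
    symm
    refine sum_subset ?_ ?_
    · intro i hi
      rw [mem_Ioc] at hi
      rw [mem_Icc]
      omega
    · intro i hi hi'
      rw [mem_Icc] at hi
      rw [mem_Ioc] at hi'
      have h7 := h1 i (mem_Icc.2 ⟨hi.1, by omega⟩)
      have h8 : HTR_g A J cut i (m + i) = 0 := by omega
      rw [h8, Nat.cast_zero, zero_div]
  have h7 : 0 ≤ ∑ i ∈ Ioc 31 X, (HTR_g A J cut i (m + i) : ℝ) / 2 ^ i :=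
    sum_nonneg fun i _ => by positivity
  have h8 : nrm (TP (fun p => p ∈ A ∧ p.Prime) cut J m - κ m) ≤
      TA A m - TP (fun p => p ∈ A ∧ p.Prime) cut J m := by
    unfold nrm
    refine (round_le (TP (fun p => p ∈ A ∧ p.Prime) cut J m - κ m) z).trans ?_
    have h9 : TP (fun p => p ∈ A ∧ p.Prime) cut J m - κ m - z =
        -(TA A m - TP (fun p => p ∈ A ∧ p.Prime) cut J m) := by
      rw [hz]
      ring
    rw [h9, abs_neg, abs_of_nonneg]
    rw [h5, h6] at h4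
    linarith
  rw [h5, h6] at h3
  have h10 : (1 : ℝ) / 2 ^ 40 ≤ 1 / 64 := by norm_num
  linarith

theorem thm_HTR : St_HTR := by
  intro A κ s X J cut η hz hsX hX hJ hJX hη hη2
  have hX' : (0 : ℝ) < X := by
    have : 0 < X := by omega
    exact_mod_cast this
  set μ : ℕ → ℝ := fun i => RS {p | p ∈ A ∧ p.Prime} (if i ≤ J then cut i else 0) (4 * X) with hμ
  -- the means
  have hmean : ∀ i, i ≤ X → ∑ m ∈ Ico X (2 * X), (HTR_g A J cut i (m + i) : ℝ) ≤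
      4 * X * (η + μ i) := by
    intro i hi
    have h1 : ∑ m ∈ Ico X (2 * X), (HTR_g A J cut i (m + i) : ℝ) ≤
        ∑ m ∈ Ico X (2 * X), ((dG {a | a ∈ A ∧ ¬ a.Prime} 0 (m + i) : ℝ) +
          (dG {p | p ∈ A ∧ p.Prime} (if i ≤ J then cut i else 0) (m + i) : ℝ)) :=
      sum_le_sum fun m _ => by exact_mod_cast HTR_g_le A J cut i (m + i)
    refine h1.trans ?_
    rw [sum_add_distrib]
    have h2 := HTR_mean {a | a ∈ A ∧ ¬ a.Prime} X 0 i (by omega) hi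
    have h3 := HTR_mean {p | p ∈ A ∧ p.Prime} X (if i ≤ J then cut i else 0) i (by omega) hi
    have h4 : 4 * (X : ℝ) * RS {a | a ∈ A ∧ ¬ a.Prime} 0 (4 * X) ≤ 4 * X * η :=
      mul_le_mul_of_nonneg_left hη2 (by positivity)
    calc _ ≤ 4 * X * η + 4 * X * μ i := add_le_add (h2.trans h4) h3
      _ = 4 * X * (η + μ i) := by ring
  have hμ0 : ∀ i, 0 ≤ μ i := by
    intro i
    rw [hμ]
    unfold RS
    exact sum_nonneg fun a _ => Set.indicator_nonneg (fun a _ => by positivity) a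
  -- the counting
  set S := (Ico X (2 * X)).filter fun m =>
      (1 : ℝ) / 16 < nrm (TP (fun p => p ∈ A ∧ p.Prime) cut J m - κ m) with hS
  have hcount : (S.card : ℝ) ≤
      ∑ i ∈ Icc 1 31, ∑ m ∈ Ico X (2 * X), (HTR_g A J cut i (m + i) : ℝ) +
      64 * ∑ m ∈ Ico X (2 * X), ∑ i ∈ Ioc 31 X, (HTR_g A J cut i (m + i) : ℝ) / 2 ^ i := by
    rw [sum_comm, mul_sum, ← sum_add_distrib]
    have h1 : (S.card : ℝ) = ∑ m ∈ S, (1 : ℝ) := by
      rw [sum_const, nsmul_eq_mul, mul_one]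
    rw [h1]
    refine (sum_le_sum (g := fun m => ∑ i ∈ Icc 1 31, (HTR_g A J cut i (m + i) : ℝ) +
      64 * ∑ i ∈ Ioc 31 X, (HTR_g A J cut i (m + i) : ℝ) / 2 ^ i) fun m hm => ?_).trans
      (sum_le_sum_of_subset_of_nonneg (filter_subset _ _) fun m _ _ => by positivity)
    rw [hS, mem_filter, mem_Ico] at hm
    have hn1 : (0 : ℝ) ≤ ∑ i ∈ Icc 1 31, (HTR_g A J cut i (m + i) : ℝ) := by positivity
    have hn2 : (0 : ℝ) ≤ ∑ i ∈ Ioc 31 X, (HTR_g A J cut i (m + i) : ℝ) / 2 ^ i := by positivity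
    rcases HTR_point A κ X J cut m (hz m (by omega)) hX hJX hm.1.2 hm.2 with ⟨i, hi, h2⟩ | h2
    · have h3 : (HTR_g A J cut i (m + i) : ℝ) ≤ ∑ i ∈ Icc 1 31, (HTR_g A J cut i (m + i) : ℝ) :=
        single_le_sum (f := fun i => (HTR_g A J cut i (m + i) : ℝ))
          (fun i _ => Nat.cast_nonneg _) hi
      have h4 : (1 : ℝ) ≤ HTR_g A J cut i (m + i) := by exact_mod_cast h2
      linarith
    · linarith
  have hmain : (S.card : ℝ) / X ≤ ∑ i ∈ Icc 1 31, 4 * (η + μ i) +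
      256 * ∑ i ∈ Ioc 31 X, (η + μ i) / 2 ^ i := by
    rw [div_le_iff₀ hX']
    refine hcount.trans ?_
    have h1 : ∑ i ∈ Icc 1 31, ∑ m ∈ Ico X (2 * X), (HTR_g A J cut i (m + i) : ℝ) ≤
        (∑ i ∈ Icc 1 31, 4 * (η + μ i)) * X := by
      rw [sum_mul]
      refine sum_le_sum fun i hi => ?_
      rw [mem_Icc] at hi
      refine (hmean i (by omega)).trans (le_of_eq ?_)
      ring
    have h2 : 64 * ∑ m ∈ Ico X (2 * X), ∑ i ∈ Ioc 31 X, (HTR_g A J cut i (m + i) : ℝ) / 2 ^ i ≤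
        (256 * ∑ i ∈ Ioc 31 X, (η + μ i) / 2 ^ i) * X := by
      rw [sum_comm, mul_sum, mul_sum, sum_mul]
      refine sum_le_sum fun i hi => ?_
      rw [mem_Ioc] at hi
      rw [← sum_div, mul_div_assoc', mul_div_assoc', div_mul_eq_mul_div]
      apply div_le_div_of_nonneg_right _ (by positivity)
      have := hmean i hi.2
      linarith
    linarith
  refine hmain.trans ?_
  have hA1 : ∑ i ∈ Icc 1 31, 4 * (η + μ i) =
      ∑ i ∈ Icc 1 31, 4 * (η + RS {p | p ∈ A ∧ p.Prime} (cut i) (4 * X)) := by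
    refine sum_congr rfl fun i hi => ?_
    rw [mem_Icc] at hi
    rw [hμ]
    show 4 * (η + RS {p | p ∈ A ∧ p.Prime} (if i ≤ J then cut i else 0) (4 * X)) = _
    rw [if_pos (by omega)]
  have hsplit : Ioc 31 X = Ioc 31 J ∪ Ioc J X := (Ioc_union_Ioc_eq_Ioc hJ hJX).symm
  have hdisj : Disjoint (Ioc 31 J) (Ioc J X) := by
    rw [disjoint_left]
    intro i h1 h2
    rw [mem_Ioc] at h1 h2
    omega
  have hA2 : ∑ i ∈ Ioc 31 X, (η + μ i) / 2 ^ i =
      ∑ i ∈ Ioc 31 J, (η + RS {p | p ∈ A ∧ p.Prime} (cut i) (4 * X)) / 2 ^ i +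
      ∑ i ∈ Ioc J X, (η + RS {p | p ∈ A ∧ p.Prime} 0 (4 * X)) / 2 ^ i := by
    rw [hsplit, sum_union hdisj]
    congr 1
    · refine sum_congr rfl fun i hi => ?_
      rw [mem_Ioc] at hi
      rw [hμ]
      show (η + RS {p | p ∈ A ∧ p.Prime} (if i ≤ J then cut i else 0) (4 * X)) / 2 ^ i = _
      rw [if_pos hi.2]
    · refine sum_congr rfl fun i hi => ?_
      rw [mem_Ioc] at hi
      rw [hμ]
      show (η + RS {p | p ∈ A ∧ p.Prime} (if i ≤ J then cut i else 0) (4 * X)) / 2 ^ i = _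
      rw [if_neg (by omega)]
  have hgeo : ∀ K, J ≤ K → ∑ i ∈ Ioc J K, (1 : ℝ) / 2 ^ i = 1 / 2 ^ J - 1 / 2 ^ K := by
    intro K hK
    induction K, hK using Nat.le_induction with
    | base => simp
    | succ K hK ih =>
      have e1 : Ioc J (K + 1) = insert (K + 1) (Ioc J K) := by
        ext i
        rw [mem_insert, mem_Ioc, mem_Ioc]
        omega
      rw [e1, sum_insert (by rw [mem_Ioc]; omega), ih, pow_succ]
      field_simp
      ring
  have hRS0 : 0 ≤ RS {p | p ∈ A ∧ p.Prime} 0 (4 * X) := by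
    unfold RS
    exact sum_nonneg fun a _ => Set.indicator_nonneg (fun a _ => by positivity) a
  have hA3 : ∑ i ∈ Ioc J X, (η + RS {p | p ∈ A ∧ p.Prime} 0 (4 * X)) / 2 ^ i ≤
      (η + RS {p | p ∈ A ∧ p.Prime} 0 (4 * X)) / 2 ^ J := by
    have e1 : ∑ i ∈ Ioc J X, (η + RS {p | p ∈ A ∧ p.Prime} 0 (4 * X)) / 2 ^ i =
        (η + RS {p | p ∈ A ∧ p.Prime} 0 (4 * X)) * ∑ i ∈ Ioc J X, (1 : ℝ) / 2 ^ i := by
      rw [mul_sum]
      exact sum_congr rfl fun i _ => by rw [mul_one_div]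
    have e3 : (0 : ℝ) < 1 / 2 ^ X := by positivity
    have e4 : (1 : ℝ) / 2 ^ J - 1 / 2 ^ X ≤ 1 / 2 ^ J := by linarith
    rw [e1, hgeo X hJX, div_eq_mul_one_div (η + RS {p | p ∈ A ∧ p.Prime} 0 (4 * X)) ((2 : ℝ) ^ J)]
    exact mul_le_mul_of_nonneg_left e4 (by linarith)
  rw [hA1, hA2, mul_add, ← add_assoc]
  have e2 : 256 * (η + RS {p | p ∈ A ∧ p.Prime} 0 (4 * X)) / 2 ^ J =
      256 * ((η + RS {p | p ∈ A ∧ p.Prime} 0 (4 * X)) / 2 ^ J) := by ring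
  rw [e2]
  linarith

end Pool.Agent.RMS
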