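import Pool.Agent.RMS.St3

/-!
RMS-H [IND]: independence of blocks of coordinates.
-/

set_option autoImplicit false

namespace Pool.Agent.RMS

open Finset Filter
open Classical

/-- the exchange of the coordinates outside of `p` in a pair of points -/
noncomputable def IND_f {ι : Type} {α : ι → Type} (p : ι → Prop)
    (q : (∀ i, α i) × (∀ i, α i)) : (∀ i, α i) × (∀ i, α i) :=
  (fun i => if p i then q.1 i else q.2 i, fun i => if p i then q.2 i else q.1 i)

theorem IND_inv {ι : Type} {α : ι → Type} (p : ι → Prop) :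
    Function.Involutive (IND_f (α := α) p) := by
  rintro ⟨x, y⟩
  unfold IND_f
  refine Prod.ext ?_ ?_
  · funext i
    by_cases h : p i
    · simp only [h, if_true]
    · simp only [h, if_false]
  · funext i
    by_cases h : p i
    · simp only [h, if_true]
    · simp only [h, if_false]

/-- two blocks -/
theorem IND_two {ι : Type} [Fintype ι] (α : ι → Type) [∀ i, Fintype (α i)] (p : ι → Prop)
    (φ ψ : (∀ i, α i) → ℝ) (hφ : ∀ x y, (∀ i, p i → x i = y i) → φ x = φ y)
    (hψ : ∀ x y, (∀ i, ¬ p i → x i = y i) → ψ x = ψ y) :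
    (Fintype.card (∀ i, α i) : ℝ) * ∑ x, φ x * ψ x = (∑ x, φ x) * ∑ x, ψ x := by
  have h1 : (∑ x, φ x) * ∑ x, ψ x = ∑ q : (∀ i, α i) × (∀ i, α i), φ q.1 * ψ q.2 := by
    rw [Finset.sum_mul_sum, Fintype.sum_prod_type]
  have h2 : ∀ q : (∀ i, α i) × (∀ i, α i),
      φ q.1 * ψ q.2 = φ (IND_f p q).1 * ψ (IND_f p q).1 := by
    rintro ⟨x, y⟩
    have e1 : φ (IND_f p (x, y)).1 = φ x := by
      apply hφ
      intro i hi
      show (if p i then x i else y i) = x i
      rw [if_pos hi]
    have e2 : ψ (IND_f p (x, y)).1 = ψ y := by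
      apply hψ
      intro i hi
      show (if p i then x i else y i) = y i
      rw [if_neg hi]
    rw [e1, e2]
  rw [h1, Finset.sum_congr rfl fun q _ => h2 q]
  have h3 : ∑ q : (∀ i, α i) × (∀ i, α i), φ (IND_f p q).1 * ψ (IND_f p q).1 =
      ∑ q : (∀ i, α i) × (∀ i, α i), φ q.1 * ψ q.1 :=
    Equiv.sum_comp (IND_inv (α := α) p).toPerm (fun q => φ q.1 * ψ q.1)
  rw [h3, Fintype.sum_prod_type, Finset.mul_sum]
  refine Finset.sum_congr rfl fun x _ => ?_
  show (Fintype.card (∀ i, α i) : ℝ) * (φ x * ψ x) = ∑ _y : (∀ i, α i), φ x * ψ x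
  rw [Finset.sum_const, Finset.card_univ, nsmul_eq_mul]

theorem thm_IND : St_IND := by
  intro ι κ _ _ α _ _ β φ hφ
  have hc : (Fintype.card (∀ i, α i) : ℝ) ≠ 0 := by
    have : 0 < Fintype.card (∀ i, α i) := Fintype.card_pos
    positivity
  have key : ∀ s : Finset κ, (∑ x, ∏ b ∈ s, φ b x) / (Fintype.card (∀ i, α i) : ℝ) =
      ∏ b ∈ s, ((∑ x, φ b x) / (Fintype.card (∀ i, α i) : ℝ)) := by
    intro s
    induction s using Finset.induction_on with
    | empty =>
      simp only [Finset.prod_empty, Finset.sum_const, Finset.card_univ, nsmul_eq_mul, mul_one]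
      exact div_self hc
    | insert a s ha ih =>
      rw [Finset.prod_insert ha, ← ih]
      have h1 := IND_two α (fun i => β i = a) (φ a) (fun x => ∏ b ∈ s, φ b x)
        (fun x y h => hφ a x y h) (fun x y h => Finset.prod_congr rfl fun b hb => by
          apply hφ b x y
          intro i hi
          apply h i
          intro hia
          exact ha (by rw [← hia, hi]; exact hb))
      have h2 : ∑ x, ∏ b ∈ insert a s, φ b x = ∑ x, φ a x * ∏ b ∈ s, φ b x :=
        Finset.sum_congr rfl fun x _ => Finset.prod_insert ha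
      rw [h2, div_mul_div_comm, ← h1, mul_div_mul_left _ _ hc]
  exact key Finset.univ

end Pool.Agent.RMS
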