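import Pool.Agent.RMS.Basic

/-! RMS, module LIFT. -/

set_option autoImplicit false

namespace Pool.Agent.RMS

open Finset
open Classical

theorem LIFT_coprime (Y i j : ℕ) (h : i ≠ j) : (QQ Y i).Coprime (QQ Y j) := by
  unfold QQ
  split_ifs with hi hj hj
  · exact Nat.Coprime.pow _ _ ((Nat.coprime_primes hi hj).2 h)
  · exact Nat.coprime_one_right _
  · exact Nat.coprime_one_left _
  · exact Nat.coprime_one_left _

theorem LIFT_surj (Y : ℕ) (x : Om Y) : ∃ m : ℕ, ((m : ℕ) : Om Y) = x := by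
  have hc : Pairwise (Function.onFun Nat.Coprime fun i : Fin (Y + 1) => QQ Y i) := by
    intro i j hij
    exact LIFT_coprime Y i j fun h => hij (Fin.ext h)
  let e := ZMod.prodEquivPi (fun i : Fin (Y + 1) => QQ Y i) hc
  haveI : NeZero (∏ i : Fin (Y + 1), QQ Y i) :=
    ⟨Finset.prod_ne_zero_iff.2 fun i _ => NeZero.ne _⟩
  refine ⟨(e.symm x).val, ?_⟩
  have h1 : e (((e.symm x).val : ℕ) : ZMod (∏ i : Fin (Y + 1), QQ Y i)) = x := by
    rw [ZMod.natCast_zmod_val, RingEquiv.apply_symm_apply]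
  rw [map_natCast] at h1
  exact h1

theorem LIFT_dvd (Y h m m' : ℕ) (h1 : 1 ≤ h) (hY : h ≤ Y) (hmm : m ≤ m')
    (he : ∀ i : Fin (Y + 1), (i : ℕ) ≤ h → ((m : ℕ) : Om Y) i = ((m' : ℕ) : Om Y) i) :
    h ∣ m' - m := by
  rw [Nat.dvd_iff_prime_pow_dvd_dvd]
  intro p k hp hk
  rcases Nat.eq_zero_or_pos k with rfl | hk0
  · rw [pow_zero]
    exact one_dvd _
  have hle : p ^ k ≤ h := Nat.le_of_dvd h1 hk
  have hph : p ≤ h := (Nat.le_self_pow hk0.ne' p).trans hle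
  have hkl : k ≤ Nat.log p Y := Nat.le_log_of_pow_le hp.one_lt (hle.trans hY)
  have h2 := he ⟨p, by omega⟩ hph
  rw [Pi.natCast_apply, Pi.natCast_apply] at h2
  have h3 : m ≡ m' [MOD QQ Y p] := (ZMod.natCast_eq_natCast_iff _ _ _).1 h2
  have h4 : QQ Y p ∣ m' - m := (Nat.modEq_iff_dvd' hmm).1 h3
  refine dvd_trans ?_ h4
  unfold QQ
  rw [if_pos hp]
  exact pow_dvd_pow p hkl

theorem LIFT_per (h : ℕ) (κ : ℕ → ℝ) (hκ : ∀ m, κ (m + h) = κ m) (m t : ℕ) :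
    κ (m + h * t) = κ m := by
  induction t with
  | zero => rw [mul_zero, add_zero]
  | succ t ih => rw [mul_add, mul_one, ← add_assoc, hκ, ih]

theorem LIFT_le (Y h m m' : ℕ) (κ : ℕ → ℝ) (hκ : ∀ m, κ (m + h) = κ m) (h1 : 1 ≤ h)
    (hY : h ≤ Y) (hmm : m ≤ m')
    (he : ∀ i : Fin (Y + 1), (i : ℕ) ≤ h → ((m : ℕ) : Om Y) i = ((m' : ℕ) : Om Y) i) :
    κ m = κ m' := by
  obtain ⟨t, ht⟩ := LIFT_dvd Y h m m' h1 hY hmm he
  have : m' = m + h * t := by omega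
  rw [this, LIFT_per h κ hκ]

theorem LIFT_eq (Y h m m' : ℕ) (κ : ℕ → ℝ) (hκ : ∀ m, κ (m + h) = κ m) (h1 : 1 ≤ h)
    (hY : h ≤ Y)
    (he : ∀ i : Fin (Y + 1), (i : ℕ) ≤ h → ((m : ℕ) : Om Y) i = ((m' : ℕ) : Om Y) i) :
    κ m = κ m' := by
  rcases le_total m m' with h2 | h2
  · exact LIFT_le Y h m m' κ hκ h1 hY h2 he
  · exact (LIFT_le Y h m' m κ hκ h1 hY h2 fun i hi => (he i hi).symm).symm

theorem thm_LIFT : St_LIFT := by
  intro Y h κ h1 hY hκ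
  choose M hM using LIFT_surj Y
  refine ⟨fun x => κ (M x), fun m => ?_, fun x y hxy => ?_⟩
  · refine LIFT_eq Y h _ _ κ hκ h1 hY fun i _ => ?_
    rw [hM]
  · refine LIFT_eq Y h _ _ κ hκ h1 hY fun i hi => ?_
    rw [hM, hM]
    exact hxy i hi

end Pool.Agent.RMS
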