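import Pool.Agent.RMS.St2

/-!
# [LIM] the limit of the parameters
-/

set_option autoImplicit false

namespace Pool.Agent.RMS

open Finset
open Classical

theorem LIM_pow (m : ℕ) (h : 17 ≤ m) : 384 * m ^ 2 ≤ 2 ^ m := by
  induction m, h using Nat.le_induction with
  | base => norm_num
  | succ m hm ih =>
    have h1 : (m + 1) ^ 2 ≤ 2 * m ^ 2 := by nlinarith
    rw [pow_succ 2 m]
    nlinarith

theorem LIM_pow2 (m : ℕ) (h : 9 ≤ m) : 43 * m ≤ 2 ^ m := by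
  induction m, h using Nat.le_induction with
  | base => norm_num
  | succ m hm ih =>
    rw [pow_succ 2 m]
    omega

theorem LIM_pow3 (k : ℕ) (h : 12 ≤ k) : 160 * k + 121 ≤ 2 ^ k := by
  induction k, h using Nat.le_induction with
  | base => norm_num
  | succ k hk ih =>
    rw [pow_succ 2 k]
    omega

/-- **[LIM]** -/
theorem thm_LIM : St_LIM := by
  intro η hη
  obtain ⟨M, hM⟩ : ∃ M : ℕ, (59360000 : ℝ) / η < 2 ^ M := by
    obtain ⟨M, hM⟩ := exists_nat_gt ((59360000 : ℝ) / η)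
    refine ⟨M, lt_of_lt_of_le hM ?_⟩
    exact_mod_cast Nat.lt_two_pow_self.le
  obtain ⟨n0, hn0, hn0'⟩ : ∃ n0 : ℕ, 8187 ≤ n0 ∧ 2 * M ≤ n0 := ⟨8187 + 2 * M, by omega, by omega⟩
  refine ⟨2 ^ n0, fun t n n1 ht hn hn1 => ?_⟩
  have ht1 : 1 ≤ t := le_trans Nat.one_le_two_pow ht
  -- size of `n`
  have hlog : n0 ≤ Nat.log 2 (8 * t + 20) := by
    apply Nat.le_log_of_pow_le (by norm_num)
    omega
  have hnn : n0 + 1 ≤ n := by omega
  have h2n : 2 ^ n ≤ 56 * t := by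
    have h1 : 2 ^ Nat.log 2 (8 * t + 20) ≤ 8 * t + 20 := Nat.pow_log_le_self 2 (by omega)
    rw [hn, pow_succ]
    omega
  have h2n1 : 2 ^ n1 ≤ 96 * n := by
    have h1 : 2 ^ Nat.log 2 (8 * n + 40) ≤ 8 * n + 40 := Nat.pow_log_le_self 2 (by omega)
    rw [hn1, pow_succ]
    omega
  have hn1l : 17 ≤ n1 := by
    have h1 : 16 ≤ Nat.log 2 (8 * n + 40) := by
      apply Nat.le_log_of_pow_le (by norm_num)
      norm_num
      omega
    omega
  have hsq : n1 ^ 2 ≤ n / 4 := by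
    have h1 := LIM_pow n1 hn1l
    omega
  have hP : (3 + 40 * (n1 : ℝ)) ^ n1 ≤ 2 ^ (n / 4) := by
    have h1 : (3 + 40 * (n1 : ℝ)) ≤ 2 ^ n1 := by
      have h2 := LIM_pow2 n1 (by omega)
      have h3 : 3 + 40 * n1 ≤ 2 ^ n1 := by omega
      exact_mod_cast h3
    calc (3 + 40 * (n1 : ℝ)) ^ n1 ≤ (2 ^ n1) ^ n1 := pow_le_pow_left₀ (by positivity) h1 _
      _ = 2 ^ (n1 ^ 2) := by rw [← pow_mul, sq]
      _ ≤ 2 ^ (n / 4) := pow_le_pow_right₀ (by norm_num) hsq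
  have hQ : (40 * (n : ℝ) + 1) ≤ 2 ^ (n / 4) := by
    have h2 := LIM_pow3 (n / 4) (by omega)
    have h3 : 40 * n + 1 ≤ 2 ^ (n / 4) := by omega
    exact_mod_cast h3
  have htR : (1 : ℝ) ≤ t := by exact_mod_cast ht1
  have htpos : (0 : ℝ) < t := by linarith
  have hR : (3 + 10 * ((5 * t : ℕ) : ℝ)) * (20000 / (t : ℝ) ^ 2) ≤ 59360000 / 2 ^ n := by
    have h2nR : (2 : ℝ) ^ n ≤ 56 * t := by exact_mod_cast h2n
    have h2pos : (0 : ℝ) < 2 ^ n := by positivity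
    rw [mul_div_assoc', div_le_div_iff₀ (by positivity) h2pos]
    push_cast
    have h4 : (3 + 10 * (5 * (t : ℝ))) ≤ 53 * t := by linarith
    calc (3 + 10 * (5 * (t : ℝ))) * 20000 * 2 ^ n ≤ 53 * t * 20000 * (56 * t) := by
          apply mul_le_mul _ h2nR h2pos.le (by positivity)
          nlinarith
      _ = 59360000 * (t : ℝ) ^ 2 := by ring
  have hsplit : (2 : ℝ) ^ (n / 4) * 2 ^ (n / 4) * 2 ^ M ≤ 2 ^ n := by
    rw [← pow_add, ← pow_add]
    apply pow_le_pow_right₀ (by norm_num)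
    omega
  have hM' : (59360000 : ℝ) < 2 ^ M * η := by
    rwa [div_lt_iff₀ hη] at hM
  have hRn : 0 ≤ (3 + 10 * ((5 * t : ℕ) : ℝ)) * (20000 / (t : ℝ) ^ 2) := by positivity
  calc (3 + 40 * (n1 : ℝ)) ^ n1 * (40 * n + 1) * (3 + 10 * ((5 * t : ℕ) : ℝ)) *
        (20000 / (t : ℝ) ^ 2)
      = ((3 + 40 * (n1 : ℝ)) ^ n1 * (40 * n + 1)) *
        ((3 + 10 * ((5 * t : ℕ) : ℝ)) * (20000 / (t : ℝ) ^ 2)) := by ring
    _ ≤ (2 ^ (n / 4) * 2 ^ (n / 4)) * (59360000 / 2 ^ n) := by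
        apply mul_le_mul _ hR hRn (by positivity)
        exact mul_le_mul hP hQ (by positivity) (by positivity)
    _ ≤ η := by
        have h2pos : (0 : ℝ) < 2 ^ n := by positivity
        rw [mul_div_assoc', div_le_iff₀ h2pos]
        have h5 : (0 : ℝ) < 2 ^ (n / 4) * 2 ^ (n / 4) := by positivity
        calc (2 : ℝ) ^ (n / 4) * 2 ^ (n / 4) * 59360000
            ≤ 2 ^ (n / 4) * 2 ^ (n / 4) * (2 ^ M * η) := by
              apply mul_le_mul_of_nonneg_left hM'.le h5.le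
          _ = η * (2 ^ (n / 4) * 2 ^ (n / 4) * 2 ^ M) := by ring
          _ ≤ η * 2 ^ n := by
              apply mul_le_mul_of_nonneg_left hsplit hη.le

end Pool.Agent.RMS
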