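import Pool.Agent.RMS.Basic

/-! RMS, module MEA. -/

set_option autoImplicit false

namespace Pool.Agent.RMS

open Finset
open Classical

theorem MEA_count (Q d : ℕ) [NeZero Q] (hd : d ∣ Q) :
    ((univ.filter fun z : ZMod Q => d ∣ z.val).card : ℝ) = (Q : ℝ) / d := by
  obtain ⟨c, hc⟩ := hd
  have hQ : Q ≠ 0 := NeZero.ne Q
  have hd0 : 0 < d := Nat.pos_of_ne_zero fun h => hQ (by rw [hc, h, zero_mul])
  have h1 : (univ.filter fun z : ZMod Q => d ∣ z.val).card = (range c).card := by
    symm
    refine card_bij (fun j _ => ((d * j : ℕ) : ZMod Q)) ?_ ?_ ?_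
    · intro j hj
      have hlt : d * j < Q := by
        rw [hc]
        exact Nat.mul_lt_mul_of_pos_left (mem_range.1 hj) hd0
      rw [mem_filter]
      refine ⟨mem_univ _, ?_⟩
      rw [ZMod.val_natCast, Nat.mod_eq_of_lt hlt]
      exact dvd_mul_right _ _
    · intro j hj j' hj' h
      have hlt : d * j < Q := by
        rw [hc]
        exact Nat.mul_lt_mul_of_pos_left (mem_range.1 hj) hd0
      have hlt' : d * j' < Q := by
        rw [hc]
        exact Nat.mul_lt_mul_of_pos_left (mem_range.1 hj') hd0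
      have h2 := (ZMod.natCast_eq_natCast_iff' _ _ _).1 h
      rw [Nat.mod_eq_of_lt hlt, Nat.mod_eq_of_lt hlt'] at h2
      exact Nat.eq_of_mul_eq_mul_left hd0 h2
    · intro z hz
      obtain ⟨j, hj⟩ := (mem_filter.1 hz).2
      refine ⟨j, ?_, ?_⟩
      · rw [mem_range]
        have := ZMod.val_lt z
        rw [hj] at this
        have h3 : d * j < d * c := by
          rw [← hc]
          exact this
        exact Nat.lt_of_mul_lt_mul_left h3
      · rw [← hj, ZMod.natCast_zmod_val]
  rw [h1, card_range, eq_div_iff (by exact_mod_cast hd0.ne'), hc]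
  push_cast
  ring

theorem MEA_dvd (Y a i : ℕ) (ha : 1 ≤ a) (hY : a ≤ Y) :
    i ^ (a.factorization i) ∣ QQ Y i := by
  by_cases hp : i.Prime
  · unfold QQ
    rw [if_pos hp]
    refine pow_dvd_pow i (Nat.le_log_of_pow_le hp.one_lt ?_)
    exact (Nat.le_of_dvd ha (Nat.ordProj_dvd a i)).trans hY
  · rw [Nat.factorization_eq_zero_of_not_prime a hp, pow_zero]
    exact one_dvd _

theorem MEA_prod (Y a : ℕ) (ha : 1 ≤ a) (hY : a ≤ Y) :
    ∏ i : Fin (Y + 1), (i : ℕ) ^ (a.factorization i) = a := by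
  rw [Fin.prod_univ_eq_prod_range (fun i => i ^ (a.factorization i)) (Y + 1)]
  conv_rhs => rw [← Nat.prod_factorization_pow_eq_self (n := a) (by omega)]
  rw [Finsupp.prod]
  symm
  refine prod_subset ?_ ?_
  · intro p hp
    rw [mem_range]
    have := Nat.le_of_mem_primeFactors (Nat.support_factorization a ▸ hp)
    omega
  · intro p _ hp
    rw [Finsupp.notMem_support_iff.1 hp, pow_zero]

theorem thm_MEA : St_MEA := by
  intro Y a ha hY
  have h1 : (univ.filter fun x : Om Y => dv a x) =
      Fintype.piFinset fun i : Fin (Y + 1) =>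
        univ.filter fun z : ZMod (QQ Y i) => (i : ℕ) ^ (a.factorization i) ∣ z.val := by
    ext x
    rw [Fintype.mem_piFinset, mem_filter]
    constructor
    · intro h i
      rw [mem_filter]
      exact ⟨mem_univ _, h.2 i⟩
    · intro h
      exact ⟨mem_univ _, fun i => (mem_filter.1 (h i)).2⟩
  unfold pr
  rw [h1, Fintype.card_piFinset, Fintype.card_pi]
  push_cast
  rw [← prod_div_distrib]
  have h2 : ∀ i : Fin (Y + 1),
      ((univ.filter fun z : ZMod (QQ Y i) => (i : ℕ) ^ (a.factorization i) ∣ z.val).card : ℝ) /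
        (Fintype.card (ZMod (QQ Y i)) : ℝ) = (((i : ℕ) ^ (a.factorization i) : ℕ) : ℝ)⁻¹ := by
    intro i
    rw [MEA_count _ _ (MEA_dvd Y a i ha hY), ZMod.card]
    have hQ : (QQ Y i : ℝ) ≠ 0 := by exact_mod_cast NeZero.ne (QQ Y i)
    rw [div_right_comm, div_self hQ, one_div]
  rw [prod_congr rfl fun i _ => h2 i, prod_inv_distrib, ← Nat.cast_prod, MEA_prod Y a ha hY,
    one_div]

end Pool.Agent.RMS
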