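import Pool.Agent.RMS.Basic

/-! RMS [RAN]: Rankin's trick. -/

set_option autoImplicit false

namespace Pool.Agent.RMS

open Finset
open Classical

/-- the completely multiplicative function `n ↦ 1/√n` -/
noncomputable def RAN_s : ℕ →* ℝ where
  toFun n := (Real.sqrt (n : ℝ))⁻¹
  map_one' := by simp
  map_mul' m n := by
    rw [Nat.cast_mul, Real.sqrt_mul (Nat.cast_nonneg m), mul_inv]

private theorem RAN_s_apply (n : ℕ) : RAN_s n = (Real.sqrt (n : ℝ))⁻¹ := rfl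

private theorem RAN_s_nonneg (n : ℕ) : 0 ≤ RAN_s n := by
  rw [RAN_s_apply]
  positivity

private theorem RAN_s_le {n : ℕ} (h : 2 ≤ n) : RAN_s n ≤ 3 / 4 := by
  rw [RAN_s_apply]
  have h2 : (4 : ℝ) / 3 ≤ Real.sqrt (n : ℝ) := by
    apply Real.le_sqrt_of_sq_le
    have : (2 : ℝ) ≤ n := by exact_mod_cast h
    nlinarith
  calc (Real.sqrt (n : ℝ))⁻¹ ≤ ((4 : ℝ) / 3)⁻¹ := inv_anti₀ (by norm_num) h2
    _ = 3 / 4 := by norm_num

private theorem RAN_sum_s (m : ℕ) : ∑ n ∈ range (m + 1), RAN_s n ≤ 2 * Real.sqrt (m : ℝ) := by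
  induction m with
  | zero =>
    simp [RAN_s_apply]
  | succ m ih =>
    rw [sum_range_succ]
    refine (add_le_add_left ih _).trans ?_
    rw [RAN_s_apply]
    set a := Real.sqrt (m : ℝ) with ha
    set b := Real.sqrt ((m + 1 : ℕ) : ℝ) with hb
    have ha2 : a * a = m := Real.mul_self_sqrt (Nat.cast_nonneg m)
    have hb2 : b * b = m + 1 := by
      rw [hb, Real.mul_self_sqrt (Nat.cast_nonneg _)]
      push_cast
      ring
    have hb0 : 0 < b := Real.sqrt_pos.2 (by positivity)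
    have h1 : b * b⁻¹ = 1 := mul_inv_cancel₀ hb0.ne'
    have h2 : b * (2 * a + b⁻¹) ≤ b * (2 * b) := by
      have : b * (2 * a + b⁻¹) = 2 * a * b + 1 := by
        rw [mul_add, h1]
        ring
      rw [this]
      nlinarith [sq_nonneg (a - b)]
    exact le_of_mul_le_mul_left h2 hb0

private theorem RAN_prod (y : ℕ) :
    ∏ p ∈ y.primesBelow, (1 - RAN_s p)⁻¹ ≤ Real.exp (8 * Real.sqrt (y : ℝ)) := by
  have h1 : ∏ p ∈ y.primesBelow, (1 - RAN_s p)⁻¹ ≤ ∏ p ∈ y.primesBelow, Real.exp (4 * RAN_s p) := by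
    apply prod_le_prod
    · intro p hp
      have hp2 : 2 ≤ p := (Nat.prime_of_mem_primesBelow hp).two_le
      have := RAN_s_le hp2
      exact inv_nonneg.2 (by linarith)
    · intro p hp
      have hp2 : 2 ≤ p := (Nat.prime_of_mem_primesBelow hp).two_le
      have h34 := RAN_s_le hp2
      have h0 := RAN_s_nonneg p
      have hpos : 0 < 1 - RAN_s p := by linarith
      have h3 : (1 - RAN_s p)⁻¹ ≤ 4 * RAN_s p + 1 := by
        rw [inv_le_iff_one_le_mul₀ hpos]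
        nlinarith
      exact h3.trans (Real.add_one_le_exp _)
  refine h1.trans ?_
  rw [← Real.exp_sum]
  apply Real.exp_le_exp.2
  rw [← mul_sum]
  have h2 : ∑ p ∈ y.primesBelow, RAN_s p ≤ ∑ n ∈ range (y + 1), RAN_s n := by
    apply sum_le_sum_of_subset_of_nonneg
    · intro p hp
      have := Nat.lt_of_mem_primesBelow hp
      exact mem_range.2 (by omega)
    · intro i _ _
      exact RAN_s_nonneg i
  have h3 := RAN_sum_s y
  nlinarith

private theorem RAN_smooth (y : ℕ) (t : Finset ℕ) (ht : ∀ a ∈ t, a ∈ Nat.smoothNumbers y) :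
    ∑ a ∈ t, RAN_s a ≤ Real.exp (8 * Real.sqrt (y : ℝ)) := by
  have hlt : ∀ {p : ℕ}, p.Prime → ‖RAN_s p‖ < 1 := by
    intro p hp
    rw [Real.norm_of_nonneg (RAN_s_nonneg p)]
    have := RAN_s_le hp.two_le
    linarith
  have h := (EulerProduct.summable_and_hasSum_smoothNumbers_prod_primesBelow_geometric
    (f := RAN_s) hlt y).2
  have h' : HasSum ((Nat.smoothNumbers y).indicator fun n : ℕ => RAN_s n)
      (∏ p ∈ y.primesBelow, (1 - RAN_s p)⁻¹) := by
    rw [← hasSum_subtype_iff_indicator]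
    exact h
  refine le_trans ?_ (RAN_prod y)
  refine le_trans (le_of_eq ?_) (sum_le_hasSum t (fun i _ => ?_) h')
  · apply sum_congr rfl
    intro a ha
    rw [Set.indicator_of_mem (ht a ha)]
  · exact Set.indicator_nonneg (fun n _ => RAN_s_nonneg n) i

private theorem RAN_block (A : Set ℕ) (W : ℕ)
    (hA : ∀ a ∈ A, 1 ≤ a → ∀ p : ℕ, p.Prime → p ∣ a → W ≤ p → 2 ^ (p / 20) ≤ a) (r : ℕ) :
    ∑ a ∈ Ico (2 ^ r) (2 ^ (r + 1)), A.indicator (fun a : ℕ => (1 : ℝ) / a) a ≤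
      (5 / 7 : ℝ) ^ r * Real.exp (8 * Real.sqrt ((W + 20 * r + 20 : ℕ) : ℝ)) := by
  set t : Finset ℕ := (Ico (2 ^ r) (2 ^ (r + 1))).filter fun a => a ∈ A with ht
  have hsm : ∀ a ∈ t, a ∈ Nat.smoothNumbers (W + 20 * r + 20) := by
    intro a ha
    rw [ht, mem_filter, mem_Ico] at ha
    obtain ⟨⟨h1, h2⟩, h3⟩ := ha
    have hpos : 0 < a := lt_of_lt_of_le (by positivity) h1
    rw [Nat.mem_smoothNumbers']
    intro p hp hpa
    by_cases hW : W ≤ p
    · have h4 := hA a h3 hpos p hp hpa hW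
      have h5 : p / 20 < r + 1 := (Nat.pow_lt_pow_iff_right (by norm_num : 1 < 2)).1
        (lt_of_le_of_lt h4 h2)
      omega
    · omega
  have h1 : ∑ a ∈ Ico (2 ^ r) (2 ^ (r + 1)), A.indicator (fun a : ℕ => (1 : ℝ) / a) a =
      ∑ a ∈ t, (1 : ℝ) / a := by
    rw [ht, sum_filter]
    apply sum_congr rfl
    intro a _
    by_cases h : a ∈ A
    · rw [Set.indicator_of_mem h, if_pos h]
    · rw [Set.indicator_of_notMem h, if_neg h]
  rw [h1]
  have h2 : ∑ a ∈ t, (1 : ℝ) / a ≤ ∑ a ∈ t, (5 / 7 : ℝ) ^ r * RAN_s a := by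
    apply sum_le_sum
    intro a ha
    rw [ht, mem_filter, mem_Ico] at ha
    have ha1 : (2 : ℝ) ^ r ≤ a := by exact_mod_cast ha.1.1
    have hpos : (0 : ℝ) < a := lt_of_lt_of_le (by positivity) ha1
    have hs : (7 / 5 : ℝ) ^ r ≤ Real.sqrt (a : ℝ) := by
      apply Real.le_sqrt_of_sq_le
      rw [← pow_mul, mul_comm r 2, pow_mul]
      calc ((7 / 5 : ℝ) ^ 2) ^ r ≤ (2 : ℝ) ^ r := by
            apply pow_le_pow_left₀ (by positivity)
            norm_num
        _ ≤ a := ha1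
    have h3 : RAN_s a ≤ (5 / 7 : ℝ) ^ r := by
      rw [RAN_s_apply]
      calc (Real.sqrt (a : ℝ))⁻¹ ≤ ((7 / 5 : ℝ) ^ r)⁻¹ := inv_anti₀ (by positivity) hs
        _ = (5 / 7 : ℝ) ^ r := by
          rw [← inv_pow]
          norm_num
    have h4 : (1 : ℝ) / a = RAN_s a * RAN_s a := by
      rw [RAN_s_apply, ← mul_inv, Real.mul_self_sqrt hpos.le, one_div]
    rw [h4]
    exact mul_le_mul_of_nonneg_right h3 (RAN_s_nonneg a)
  refine h2.trans ?_
  rw [← mul_sum]
  exact mul_le_mul_of_nonneg_left (RAN_smooth _ t hsm) (by positivity)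

private theorem RAN_exp (z : ℝ) (hz : 0 ≤ z) : 8 * Real.sqrt z ≤ z / 120 + 1920 := by
  have h := Real.mul_self_sqrt hz
  nlinarith [sq_nonneg (Real.sqrt z - 480)]

private theorem RAN_exp6 (r : ℕ) : Real.exp ((r : ℝ) / 6) ≤ (6 / 5 : ℝ) ^ r := by
  have h1 : Real.exp ((1 : ℝ) / 6) ≤ 6 / 5 := by
    have h := Real.add_one_le_exp (-(1 / 6) : ℝ)
    rw [Real.exp_neg] at h
    have hpos := Real.exp_pos ((1 : ℝ) / 6)
    have h2 : (5 : ℝ) / 6 ≤ (Real.exp (1 / 6))⁻¹ := by linarith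
    have h3 : (5 : ℝ) / 6 * Real.exp (1 / 6) ≤ 1 := by
      calc (5 : ℝ) / 6 * Real.exp (1 / 6) ≤ (Real.exp (1 / 6))⁻¹ * Real.exp (1 / 6) :=
            mul_le_mul_of_nonneg_right h2 hpos.le
        _ = 1 := inv_mul_cancel₀ hpos.ne'
    linarith
  have h2 : Real.exp ((r : ℝ) / 6) = Real.exp ((1 : ℝ) / 6) ^ r := by
    rw [← Real.exp_nat_mul]
    congr 1
    ring
  rw [h2]
  exact pow_le_pow_left₀ (Real.exp_pos _).le h1 r

theorem thm_RAN : St_RAN := by
  intro A W hA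
  set C : ℝ := Real.exp ((W + 20 : ℝ) / 120 + 1920) with hC
  have hCpos : 0 < C := Real.exp_pos _
  have hblock : ∀ r : ℕ, ∑ a ∈ Ico (2 ^ r) (2 ^ (r + 1)), A.indicator (fun a : ℕ => (1 : ℝ) / a) a ≤
      C * (6 / 7 : ℝ) ^ r := by
    intro r
    refine (RAN_block A W hA r).trans ?_
    have h1 := RAN_exp ((W + 20 * r + 20 : ℕ) : ℝ) (Nat.cast_nonneg _)
    have h2 : Real.exp (8 * Real.sqrt ((W + 20 * r + 20 : ℕ) : ℝ)) ≤ C * (6 / 5 : ℝ) ^ r := by
      calc Real.exp (8 * Real.sqrt ((W + 20 * r + 20 : ℕ) : ℝ))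
          ≤ Real.exp (((W + 20 * r + 20 : ℕ) : ℝ) / 120 + 1920) := Real.exp_le_exp.2 h1
        _ = C * Real.exp ((r : ℝ) / 6) := by
          rw [hC, ← Real.exp_add]
          congr 1
          push_cast
          ring
        _ ≤ C * (6 / 5 : ℝ) ^ r := mul_le_mul_of_nonneg_left (RAN_exp6 r) hCpos.le
    calc (5 / 7 : ℝ) ^ r * Real.exp (8 * Real.sqrt ((W + 20 * r + 20 : ℕ) : ℝ))
        ≤ (5 / 7 : ℝ) ^ r * (C * (6 / 5 : ℝ) ^ r) :=
          mul_le_mul_of_nonneg_left h2 (by positivity)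
      _ = C * ((5 / 7 : ℝ) ^ r * (6 / 5 : ℝ) ^ r) := by ring
      _ = C * (6 / 7 : ℝ) ^ r := by
        rw [← mul_pow]
        norm_num
  have hf : ∀ n : ℕ, 0 ≤ A.indicator (fun a : ℕ => (1 : ℝ) / a) n := by
    intro n
    exact Set.indicator_nonneg (fun a _ => by positivity) n
  have hind : ∀ n : ℕ, ∑ a ∈ range (2 ^ n), A.indicator (fun a : ℕ => (1 : ℝ) / a) a ≤
      ∑ r ∈ range n, C * (6 / 7 : ℝ) ^ r := by
    intro n
    induction n with
    | zero =>
      simp only [pow_zero, range_one, sum_singleton, range_zero, sum_empty]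
      by_cases h : (0 : ℕ) ∈ A
      · rw [Set.indicator_of_mem h]
        simp
      · rw [Set.indicator_of_notMem h]
    | succ n ih =>
      rw [sum_range_succ]
      have h1 : ∑ a ∈ range (2 ^ (n + 1)), A.indicator (fun a : ℕ => (1 : ℝ) / a) a =
          ∑ a ∈ range (2 ^ n), A.indicator (fun a : ℕ => (1 : ℝ) / a) a +
          ∑ a ∈ Ico (2 ^ n) (2 ^ (n + 1)), A.indicator (fun a : ℕ => (1 : ℝ) / a) a := by
        rw [Finset.sum_range_add_sum_Ico]
        exact Nat.pow_le_pow_right (by norm_num) (by omega)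
      rw [h1]
      exact add_le_add ih (hblock n)
  apply summable_of_sum_range_le (c := C * 7) hf
  intro n
  calc ∑ a ∈ range n, A.indicator (fun a : ℕ => (1 : ℝ) / a) a
      ≤ ∑ a ∈ range (2 ^ n), A.indicator (fun a : ℕ => (1 : ℝ) / a) a := by
        apply sum_le_sum_of_subset_of_nonneg
        · exact range_subset_range.2 Nat.lt_two_pow_self.le
        · intro i _ _
          exact hf i
    _ ≤ ∑ r ∈ range n, C * (6 / 7 : ℝ) ^ r := hind n
    _ = C * ∑ r ∈ range n, (6 / 7 : ℝ) ^ r := by rw [mul_sum]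
    _ ≤ C * 7 := by
      apply mul_le_mul_of_nonneg_left _ hCpos.le
      rw [geom_sum_eq (by norm_num)]
      rw [div_le_iff_of_neg (by norm_num)]
      have : (0 : ℝ) ≤ (6 / 7 : ℝ) ^ n := by positivity
      norm_num

end Pool.Agent.RMS
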