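import Pool.Agent.RMS.Basic

/-! RMS, module RES: the good values of a coordinate. -/

set_option autoImplicit false

namespace Pool.Agent.RMS

open Finset
open Classical

theorem RES_cnt (Q i : ℕ) [NeZero Q] (hi : i ∣ Q) (c : ZMod Q) :
    (univ.filter fun y : ZMod Q => i ∣ (y + c).val).card ≤ Q / i := by
  have hQ : 0 < Q := Nat.pos_of_ne_zero (NeZero.ne Q)
  have hi0 : 0 < i := Nat.pos_of_dvd_of_pos hi hQ
  have h1 : (univ.filter fun y : ZMod Q => i ∣ (y + c).val).card ≤ (range (Q / i)).card := by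
    refine card_le_card_of_injOn (fun y => (y + c).val / i) ?_ ?_
    · intro y _
      rw [mem_coe, mem_range]
      show (y + c).val / i < Q / i
      rw [Nat.div_lt_iff_lt_mul hi0, Nat.div_mul_cancel hi]
      exact ZMod.val_lt _
    · intro y hy y' hy' h
      have h2 : i ∣ (y + c).val := (mem_filter.1 (mem_coe.1 hy)).2
      have h3 : i ∣ (y' + c).val := (mem_filter.1 (mem_coe.1 hy')).2
      have h4 : (y + c).val = (y' + c).val := by
        rw [← Nat.div_mul_cancel h2, ← Nat.div_mul_cancel h3]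
        congr 1
      exact add_right_cancel (ZMod.val_injective Q h4)
  rwa [card_range] at h1

theorem thm_RES : St_RES := by
  intro Y i n hp hY hn
  have hQ : QQ Y i = i ^ Nat.log i Y := if_pos hp
  have he : 0 < Nat.log i Y := Nat.log_pos hp.one_lt hY
  have hd : i ∣ QQ Y i := by
    rw [hQ]
    exact dvd_pow_self i he.ne'
  set good := univ.filter fun y : ZMod (QQ Y i) =>
      ∀ k, 1 ≤ k → k ≤ n → ¬ i ∣ (y + ((k : ℕ) : ZMod (QQ Y i))).val with hgood
  have h1 : (univ : Finset (ZMod (QQ Y i))) ⊆ good ∪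
      (Icc 1 n).biUnion fun k => univ.filter fun y : ZMod (QQ Y i) =>
        i ∣ (y + ((k : ℕ) : ZMod (QQ Y i))).val := by
    intro y _
    rw [mem_union, mem_biUnion]
    by_cases hy : ∀ k, 1 ≤ k → k ≤ n → ¬ i ∣ (y + ((k : ℕ) : ZMod (QQ Y i))).val
    · left
      exact mem_filter.2 ⟨mem_univ _, hy⟩
    · right
      push Not at hy
      obtain ⟨k, h1, h2, h3⟩ := hy
      exact ⟨k, mem_Icc.2 ⟨h1, h2⟩, mem_filter.2 ⟨mem_univ _, h3⟩⟩
  have h2 := card_le_card h1
  have h3 : ((Icc 1 n).biUnion fun k => univ.filter fun y : ZMod (QQ Y i) =>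
        i ∣ (y + ((k : ℕ) : ZMod (QQ Y i))).val).card ≤ n * (QQ Y i / i) := by
    refine card_biUnion_le.trans ?_
    refine (sum_le_card_nsmul _ _ (QQ Y i / i) fun k _ => RES_cnt _ i hd _).trans ?_
    rw [Nat.card_Icc, Nat.add_sub_cancel, smul_eq_mul]
  have h4 : QQ Y i ≤ good.card + n * (QQ Y i / i) := by
    refine le_trans (le_of_eq ?_) (h2.trans ((card_union_le _ _).trans (by omega)))
    rw [card_univ, ZMod.card]
  have h5 : 2 * n * (QQ Y i / i) ≤ QQ Y i := by
    calc 2 * n * (QQ Y i / i) ≤ i * (QQ Y i / i) := Nat.mul_le_mul_right _ hn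
      _ = QQ Y i := Nat.mul_div_cancel' hd
  have h6 : QQ Y i ≤ 2 * good.card := by
    rw [mul_assoc] at h5
    omega
  exact_mod_cast h6

end Pool.Agent.RMS
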