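import Pool.Agent.RMS.Basic

/-! RMS, module SMO: smooth numbers. -/

set_option autoImplicit false

namespace Pool.Agent.RMS

open Finset
open Classical

/-- `n ↦ 1/n` -/
noncomputable def SMO_f : ℕ →* ℝ where
  toFun n := (n : ℝ)⁻¹
  map_one' := by simp
  map_mul' a b := by push_cast; rw [mul_inv]

theorem SMO_prod (w : ℕ) :
    ∏ p ∈ Nat.primesBelow (w + 2), (1 - SMO_f p)⁻¹ ≤ (w + 1 : ℝ) := by
  induction w with
  | zero =>
    have h1 : Nat.primesBelow (0 + 2) = ∅ := by decide
    rw [h1, prod_empty]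
    simp
  | succ w ih =>
    have h0 : (0 : ℝ) < w + 1 := by positivity
    have h1 : (0 : ℝ) ≤ ∏ p ∈ Nat.primesBelow (w + 2), (1 - SMO_f p)⁻¹ := by
      refine prod_nonneg fun p hp => ?_
      have hp' := Nat.prime_of_mem_primesBelow hp
      have h2 : (1 : ℝ) ≤ p := by exact_mod_cast hp'.one_lt.le
      have h3 : SMO_f p ≤ 1 := inv_le_one_of_one_le₀ h2
      exact inv_nonneg.2 (by linarith)
    by_cases hw : (w + 2).Prime
    · have h2 : Nat.primesBelow (w + 1 + 2) = insert (w + 2) (Nat.primesBelow (w + 2)) := by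
        rw [show w + 1 + 2 = (w + 2).succ by rfl, Nat.primesBelow_succ, if_pos hw]
      rw [h2, prod_insert (Nat.notMem_primesBelow _)]
      have h3 : (1 - SMO_f (w + 2))⁻¹ = (w + 2) / (w + 1) := by
        show (1 - ((w + 2 : ℕ) : ℝ)⁻¹)⁻¹ = _
        push_cast
        have h4 : (w + 2 : ℝ) ≠ 0 := by positivity
        have h5 : (1 : ℝ) - (w + 2 : ℝ)⁻¹ = (w + 1) / (w + 2) := by
          field_simp
          ring
        rw [h5, inv_div]
      rw [h3, div_mul_eq_mul_div, div_le_iff₀ h0]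
      push_cast
      nlinarith
    · have h2 : Nat.primesBelow (w + 1 + 2) = Nat.primesBelow (w + 2) := by
        rw [show w + 1 + 2 = (w + 2).succ by rfl, Nat.primesBelow_succ, if_neg hw]
      rw [h2]
      push_cast
      linarith

theorem thm_SMO : St_SMO := by
  intro B w hw hB
  have hf : ∀ {p : ℕ}, p.Prime → ‖SMO_f p‖ < 1 := by
    intro p hp
    show ‖(p : ℝ)⁻¹‖ < 1
    have h2 : (1 : ℝ) < p := by exact_mod_cast hp.one_lt
    rw [norm_inv, Real.norm_natCast]
    exact inv_lt_one_of_one_lt₀ h2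
  have h1 := (EulerProduct.summable_and_hasSum_smoothNumbers_prod_primesBelow_geometric hf w).2
  have h2 : ∏ p ∈ Nat.primesBelow w, (1 - SMO_f p)⁻¹ ≤ (w : ℝ) := by
    rcases Nat.lt_or_ge w 2 with h | h
    · have h3 : w = 1 := by omega
      subst h3
      have h4 : Nat.primesBelow 1 = ∅ := by decide
      rw [h4, prod_empty]
      simp
    · obtain ⟨v, rfl⟩ := Nat.exists_eq_add_of_le' h
      refine (SMO_prod v).trans ?_
      push_cast
      linarith
  refine le_trans ?_ h2
  have hmem : ∀ a ∈ B, a ∈ Nat.smoothNumbers w := fun a ha =>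
    Nat.mem_smoothNumbers'.2 (hB a ha).2
  have h3 : ∑ a ∈ B, (1 : ℝ) / a = ∑ x ∈ B.subtype (fun a => a ∈ Nat.smoothNumbers w),
      SMO_f x := by
    rw [sum_subtype_of_mem (fun a => SMO_f a) hmem]
    refine sum_congr rfl fun a _ => ?_
    rw [one_div]
    rfl
  rw [h3]
  exact sum_le_hasSum _ (fun x _ => inv_nonneg.2 (Nat.cast_nonneg _)) h1

end Pool.Agent.RMS
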