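import Pool.Agent.RMS.Basic

/-! RMS: module STG (helper99). -/

set_option autoImplicit false

namespace Pool.Agent.RMS

open Finset
open Classical

/-- the distance of a proper dyadic fraction to the integers -/
theorem STG_nrm (j E : ℕ) (h1 : 1 ≤ E) (h2 : E < 2 ^ j) (z : ℤ) :
    (1 : ℝ) / 2 ^ j ≤ |(E : ℝ) / 2 ^ j - z| := by
  have hp : (0 : ℝ) < 2 ^ j := by positivity
  have h3 : (E : ℝ) / 2 ^ j - z = ((E : ℝ) - z * 2 ^ j) / 2 ^ j := by
    field_simp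
  rw [h3, abs_div, abs_of_pos hp]
  apply div_le_div_of_nonneg_right _ hp.le
  have h4 : ((E : ℤ) - z * 2 ^ j) ≠ 0 := by
    intro h
    have h5 : (2 ^ j : ℤ) ∣ (E : ℤ) := ⟨z, by linarith [mul_comm z (2 ^ j)]⟩
    have h6 : (2 ^ j : ℕ) ∣ E := by exact_mod_cast h5
    have := Nat.le_of_dvd (by omega) h6
    omega
  have h5 : (1 : ℤ) ≤ |(E : ℤ) - z * 2 ^ j| := Int.one_le_abs h4
  exact_mod_cast h5

theorem STG_split (t : ℕ → ℝ) (J v : ℕ) :
    ∑ k ∈ Icc 1 J, t k = ∑ k ∈ (Icc 1 J).filter (fun k => k ≤ v), t k + ∑ k ∈ Ioc v J, t k := by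
  rw [← sum_filter_add_sum_filter_not (Icc 1 J) (fun k => k ≤ v)]
  congr 1
  refine sum_congr ?_ fun _ _ => rfl
  ext k
  simp only [mem_filter, mem_Icc, mem_Ioc]
  omega

/-- the bad points -/
def STG_Bad (Y : ℕ) (B : Finset ℕ) (κ : Om Y → ℝ) (J j v : ℕ) (x : Om Y) : Prop :=
  (1 : ℝ) / 2 ^ (j + 3) < nrm (TT B J x - κ x) ∨
    ∃ i ∈ Ioc v J, 2 ^ (i / 2) ≤ DD B (x + ((i : ℕ) : Om Y))

/-- the events -/
def STG_H (Y : ℕ) (B : Finset ℕ) (j w : ℕ) (i : Fin (Y + 1)) (x : Om Y) : Prop :=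
  (i : ℕ).Prime ∧ w ≤ i ∧ ∃ a ∈ B, (i : ℕ) ∣ a ∧ (∀ q : ℕ, q.Prime → q ∣ a → q ≤ i) ∧
    dv a (x + ((j : ℕ) : Om Y))

theorem STG_bad (Y : ℕ) (B : Finset ℕ) (κ : Om Y → ℝ) (J j v : ℕ) (ε : ℝ)
    (hε : pr (fun x : Om Y => (1 : ℝ) / 2 ^ (j + 3) < nrm (TT B J x - κ x)) ≤ ε) :
    pr (STG_Bad Y B κ J j v) ≤ ε + ∑ i ∈ Ioc v J, Fn Y B (i / 2) := by
  unfold STG_Bad
  refine (pr_or_le _ _).trans (add_le_add hε ?_)
  refine (pr_exists_le (Ioc v J) (fun i (x : Om Y) => 2 ^ (i / 2) ≤ DD B (x + ((i : ℕ) : Om Y)))).trans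
    (le_of_eq (sum_congr rfl fun i _ => ?_))
  exact pr_shift (fun x : Om Y => 2 ^ (i / 2) ≤ DD B x) ((i : ℕ) : Om Y)

theorem STG_lam (Y : ℕ) (B : Finset ℕ) (j w : ℕ) (hB : ∀ a ∈ B, 1 ≤ a ∧ a ≤ Y) :
    lam Y B w = pr (fun x : Om Y => ∃ i, STG_H Y B j w i x) := by
  unfold lam
  rw [← pr_shift (fun x : Om Y => ∃ a ∈ B, (∃ p : ℕ, p.Prime ∧ p ∣ a ∧ w ≤ p) ∧ dv a x)
    ((j : ℕ) : Om Y)]
  apply pr_congr
  intro x
  constructor
  · rintro ⟨a, ha, ⟨p, hp, hpa, hwp⟩, hdv⟩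
    have ha0 : a ≠ 0 := by have := (hB a ha).1; omega
    have hmem : p ∈ a.primeFactors := Nat.mem_primeFactors.2 ⟨hp, hpa, ha0⟩
    have hne : a.primeFactors.Nonempty := ⟨p, hmem⟩
    set i := a.primeFactors.max' hne with hi
    have hi1 := Nat.mem_primeFactors.1 (a.primeFactors.max'_mem hne)
    have hile : i ≤ Y := (Nat.le_of_dvd (Nat.pos_of_ne_zero ha0) hi1.2.1).trans (hB a ha).2
    refine ⟨⟨i, by omega⟩, hi1.1, hwp.trans (a.primeFactors.le_max' p hmem), a, ha, hi1.2.1, ?_, hdv⟩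
    intro q hq hqa
    exact a.primeFactors.le_max' q (Nat.mem_primeFactors.2 ⟨hq, hqa, ha0⟩)
  · rintro ⟨i, hi, hwi, a, ha, hia, -, hdv⟩
    exact ⟨a, ha, ⟨i, hi, hia, hwi⟩, hdv⟩

theorem STG_dep (Y : ℕ) (B : Finset ℕ) (j w : ℕ) (i : Fin (Y + 1)) (x y : Om Y)
    (hxy : ∀ k, k ≤ i → x k = y k) (h : STG_H Y B j w i x) : STG_H Y B j w i y := by
  obtain ⟨hi, hwi, a, ha, hia, hq, hdv⟩ := h
  refine ⟨hi, hwi, a, ha, hia, hq, fun k => ?_⟩
  have h1 := hdv k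
  by_cases hk : k ≤ i
  · rw [Pi.add_apply] at h1 ⊢
    rw [← hxy k hk]
    exact h1
  · have h0 : a.factorization k = 0 := by
      apply Nat.factorization_eq_zero_iff _ _ |>.2
      by_cases hp : (k : ℕ).Prime
      · right
        left
        intro hka
        exact hk (hq k hp hka)
      · left
        exact hp
    rw [h0, pow_zero]
    exact one_dvd _

theorem STG_U (hU : St_UBD) (Y : ℕ) (B : Finset ℕ) (κ : Om Y → ℝ) (J j w : ℕ)
    (hw : 4 * j + 20 ≤ w) (x : Om Y) (hx : ¬ STG_Bad Y B κ J j (w / 2) x) :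
    0 ≤ ∑ i ∈ Ioc (w / 2) J, (DD B (x + ((i : ℕ) : Om Y)) : ℝ) / 2 ^ i ∧
    ∑ i ∈ Ioc (w / 2) J, (DD B (x + ((i : ℕ) : Om Y)) : ℝ) / 2 ^ i < 1 / 2 ^ (j + 3) := by
  refine ⟨sum_nonneg fun i _ => by positivity, ?_⟩
  apply hU (fun i => DD B (x + ((i : ℕ) : Om Y))) j w J hw
  intro i hi
  by_contra hcon
  push Not at hcon
  exact hx (Or.inr ⟨i, hi, hcon⟩)

theorem STG_nbad (Y : ℕ) (B : Finset ℕ) (κ : Om Y → ℝ) (J j v : ℕ)
    (x : Om Y) (hx : ¬ STG_Bad Y B κ J j v x) : nrm (TT B J x - κ x) ≤ 1 / 2 ^ (j + 3) := by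
  by_contra hcon
  push Not at hcon
  exact hx (Or.inl hcon)

/-- main point: the new point is bad -/
theorem STG_key (hD : St_DIF) (hU : St_UBD) (Y : ℕ) (B : Finset ℕ) (h : ℕ) (κ : Om Y → ℝ)
    (J j w : ℕ) (hB : ∀ a ∈ B, 1 ≤ a ∧ a ≤ Y)
    (hκ : ∀ x y : Om Y, (∀ i : Fin (Y + 1), (i : ℕ) ≤ h → x i = y i) → κ x = κ y)
    (hj : 1 ≤ j) (hjJ : j ≤ J) (hw : 4 * j + 20 ≤ w) (hhw : h < w) (x : Om Y)
    (i : Fin (Y + 1)) (hi : STG_H Y B j w i x) (hx1 : DD B (x + ((j : ℕ) : Om Y)) < 2 ^ j)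
    (hx2 : ¬ STG_Bad Y B κ J j (w / 2) x) (y : ZMod (QQ Y i))
    (hy : ∀ k, 1 ≤ k → k ≤ w / 2 → ¬ (i : ℕ) ∣ (y + ((k : ℕ) : ZMod (QQ Y i))).val) :
    STG_Bad Y B κ J j (w / 2) (Function.update x i y) := by
  obtain ⟨hip, hwi, a, ha, hia, -, hdv⟩ := hi
  have ha0 : a ≠ 0 := by have := (hB a ha).1; omega
  have hdi : (i : ℕ) ∣ (x i + ((j : ℕ) : ZMod (QQ Y i))).val := by
    have h1 : (i : ℕ) ^ (a.factorization i) ∣ (x i + ((j : ℕ) : ZMod (QQ Y i))).val := hdv i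
    have h2 : 1 ≤ a.factorization i := (hip.dvd_iff_one_le_factorization ha0).1 hia
    exact (dvd_pow_self _ (by omega)).trans h1
  obtain ⟨hd1, hd2⟩ := hD Y B x i y (w / 2) j hip hj (by omega) (by omega)
    (fun b hb => by have := (hB b hb).1; omega) hdi hy
  set x' : Om Y := Function.update x i y with hx'
  set E : ℕ := (B.filter fun a => (i : ℕ) ∣ a ∧ dv a (x + ((j : ℕ) : Om Y))).card with hE
  have hE1 : 1 ≤ E := by
    rw [hE]
    exact card_pos.2 ⟨a, mem_filter.2 ⟨ha, hia, hdv⟩⟩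
  have hE2 : E < 2 ^ j := by omega
  by_contra hbad
  have hU1 := STG_U hU Y B κ J j w hw x hx2
  have hU2 := STG_U hU Y B κ J j w hw x' hbad
  have hn1 := STG_nbad Y B κ J j (w / 2) x hx2
  have hn2 := STG_nbad Y B κ J j (w / 2) x' hbad
  have hκx : κ x = κ x' := by
    apply hκ
    intro k hk
    have hki : k ≠ i := by
      rintro rfl
      omega
    rw [hx', Function.update_of_ne hki]
  set U : ℝ := ∑ i ∈ Ioc (w / 2) J, (DD B (x + ((i : ℕ) : Om Y)) : ℝ) / 2 ^ i with hUdef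
  set U' : ℝ := ∑ i ∈ Ioc (w / 2) J, (DD B (x' + ((i : ℕ) : Om Y)) : ℝ) / 2 ^ i with hU'def
  have hTT : TT B J x - TT B J x' = (E : ℝ) / 2 ^ j + (U - U') := by
    unfold TT
    rw [STG_split _ J (w / 2), STG_split (fun k => (DD B (x' + ((k : ℕ) : Om Y)) : ℝ) / 2 ^ k) J (w / 2)]
    have h1 : ∑ k ∈ (Icc 1 J).filter (fun k => k ≤ w / 2), (DD B (x + ((k : ℕ) : Om Y)) : ℝ) / 2 ^ k
        - ∑ k ∈ (Icc 1 J).filter (fun k => k ≤ w / 2), (DD B (x' + ((k : ℕ) : Om Y)) : ℝ) / 2 ^ k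
        = (E : ℝ) / 2 ^ j := by
      rw [← sum_sub_distrib, sum_eq_single j]
      · rw [hd2]
        push_cast
        ring
      · intro k hk hkj
        obtain ⟨hk1, hk2⟩ := mem_filter.1 hk
        have := hd1 k (mem_Icc.1 hk1).1 hk2 hkj
        rw [this, sub_self]
      · intro hcon
        exact absurd (mem_filter.2 ⟨mem_Icc.2 ⟨hj, hjJ⟩, by omega⟩) hcon
    linarith
  -- the distance
  have hz := STG_nrm j E hE1 hE2 (round (TT B J x - κ x) - round (TT B J x' - κ x'))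
  have hid : (E : ℝ) / 2 ^ j - ((round (TT B J x - κ x) - round (TT B J x' - κ x') : ℤ) : ℝ)
      = ((TT B J x - κ x) - round (TT B J x - κ x))
        - ((TT B J x' - κ x') - round (TT B J x' - κ x')) - (U - U') := by
    push_cast
    rw [hκx]
    linarith
  rw [hid] at hz
  unfold nrm at hn1 hn2
  have habs : |((TT B J x - κ x) - round (TT B J x - κ x))
        - ((TT B J x' - κ x') - round (TT B J x' - κ x')) - (U - U')|
      ≤ |(TT B J x - κ x) - round (TT B J x - κ x)|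
        + |(TT B J x' - κ x') - round (TT B J x' - κ x')| + |U - U'| :=
    (abs_sub _ _).trans (add_le_add_left (abs_sub _ _) _)
  have hUU : |U - U'| ≤ 1 / 2 ^ (j + 3) := by
    rw [abs_le]
    constructor <;> linarith [hU1.1, hU1.2, hU2.1, hU2.2]
  have h8 : (1 : ℝ) / 2 ^ j = 8 * (1 / 2 ^ (j + 3)) := by
    rw [pow_add]
    field_simp
    norm_num
  have hpos : (0 : ℝ) < 1 / 2 ^ (j + 3) := by positivity
  linarith

theorem thm_STG (hH : St_HIT) (hR : St_RES) (hD : St_DIF) (hU : St_UBD) : St_STG := by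
  intro Y B h κ J j w ε hB hκ hj hjJ hw hhw hε
  set Bad := STG_Bad Y B κ J j (w / 2) with hBad
  set H := STG_H Y B j w with hHdef
  set V : Om Y → Prop := fun x => (∃ i, H i x) ∧ DD B (x + ((j : ℕ) : Om Y)) < 2 ^ j ∧ ¬ Bad x
    with hV
  have hhit := hH (Y + 1) (fun i => ZMod (QQ Y i)) H V Bad
    (fun i x y hxy hx => STG_dep Y B j w i x y hxy hx) (by
      rintro x ⟨⟨i0, hi0⟩, hx1, hx2⟩
      obtain ⟨i, hi, hmin⟩ := (wellFounded_lt (α := Fin (Y + 1))).has_min {i | H i x} ⟨i0, hi0⟩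
      refine ⟨i, hi, fun k hk hHk => hmin k hHk hk, ?_⟩
      have h1 := hR Y i (w / 2) hi.1 (by have := i.2; omega) (by have := hi.2.1; omega)
      have h2 : (Fintype.card (ZMod (QQ Y i)) : ℝ) = (QQ Y i : ℝ) := by rw [ZMod.card]
      rw [h2]
      refine h1.trans ?_
      apply mul_le_mul_of_nonneg_left _ (by norm_num)
      apply Nat.cast_le.2
      apply card_le_card
      intro y hy
      have hy' : ∀ k, 1 ≤ k → k ≤ w / 2 → ¬ (i : ℕ) ∣ (y + ((k : ℕ) : ZMod (QQ Y i))).val :=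
        (mem_filter.1 hy).2
      exact mem_filter.2 ⟨mem_univ _,
        STG_key hD hU Y B h κ J j w hB hκ hj hjJ hw hhw x i hi hx1 hx2 y hy'⟩)
  have hbad := STG_bad Y B κ J j (w / 2) ε hε
  have hlam := STG_lam Y B j w hB
  have h3 : lam Y B w ≤ pr V + (Fn Y B j + pr Bad) := by
    rw [hlam]
    have hF : Fn Y B j = pr (fun x : Om Y => 2 ^ j ≤ DD B (x + ((j : ℕ) : Om Y))) :=
      (pr_shift (fun x : Om Y => 2 ^ j ≤ DD B x) ((j : ℕ) : Om Y)).symm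
    rw [hF]
    refine le_trans (pr_mono (P' := fun x => V x ∨
      ((2 ^ j ≤ DD B (x + ((j : ℕ) : Om Y))) ∨ Bad x)) ?_) ?_
    · intro x hx
      by_cases h4 : 2 ^ j ≤ DD B (x + ((j : ℕ) : Om Y))
      · exact Or.inr (Or.inl h4)
      · by_cases h5 : Bad x
        · exact Or.inr (Or.inr h5)
        · exact Or.inl ⟨hx, by omega, h5⟩
    · exact (pr_or_le _ _).trans (add_le_add_right (pr_or_le _ _) _)
  have h4 : pr V ≤ 1 / 2 * lam Y B w + 4 * pr Bad := by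
    rw [hlam]
    exact hhit
  linarith

end Pool.Agent.RMS
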