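import Pool.Agent.RMS.Basic

/-! RMS: module TAIL (helper99). -/

set_option autoImplicit false

namespace Pool.Agent.RMS

open Finset
open Classical

theorem TAIL_pow (k : ℕ) (L a : ℝ) (hL : 0 ≤ L) (ha : 0 ≤ a) :
    L ^ (k + 1) + (k + 1) * a * L ^ k ≤ (L + a) ^ (k + 1) := by
  induction k with
  | zero => simp
  | succ k ih =>
    have h1 : (L + a) ^ (k + 1 + 1) = (L + a) ^ (k + 1) * (L + a) := pow_succ _ _
    have h2 : (L ^ (k + 1) + (k + 1) * a * L ^ k) * (L + a) ≤ (L + a) ^ (k + 1) * (L + a) :=
      mul_le_mul_of_nonneg_right ih (add_nonneg hL ha)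
    have h3 : 0 ≤ (k + 1 : ℝ) * a * L ^ k * a := by positivity
    rw [h1]
    refine le_trans ?_ h2
    push_cast
    have h4 : L ^ (k + 1 + 1) = L ^ (k + 1) * L := pow_succ _ _
    have h5 : L ^ (k + 1) = L ^ k * L := pow_succ _ _
    rw [h4, h5]
    rw [h5] at *
    nlinarith [h3]

theorem TAIL_esymm {ι : Type} (g : ι → ℝ) (hg : ∀ i, 0 ≤ g i) (s : Finset ι) :
    ∀ k : ℕ, ∑ D ∈ powersetCard k s, ∏ i ∈ D, g i ≤ (∑ i ∈ s, g i) ^ k / k.factorial := by
  induction s using Finset.induction_on with
  | empty =>
    intro k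
    rcases k with _ | k
    · simp
    · rw [powersetCard_eq_empty.2 (by simp)]
      simp
  | insert a s ha ih =>
    intro k
    rcases k with _ | k
    · simp
    · rw [powersetCard_succ_insert ha, sum_union]
      · rw [sum_image]
        · have h1 : ∑ D ∈ powersetCard k s, ∏ i ∈ insert a D, g i
              = g a * ∑ D ∈ powersetCard k s, ∏ i ∈ D, g i := by
            rw [mul_sum]
            refine sum_congr rfl fun D hD => ?_
            have : a ∉ D := fun h => ha ((mem_powersetCard.1 hD).1 h)
            rw [prod_insert this]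
          rw [h1, sum_insert ha]
          have h2 := ih (k + 1)
          have h3 := mul_le_mul_of_nonneg_left (ih k) (hg a)
          set L := ∑ i ∈ s, g i with hL
          have hL0 : 0 ≤ L := sum_nonneg fun i _ => hg i
          have h4 := TAIL_pow k L (g a) hL0 (hg a)
          have hf : (0 : ℝ) < ((k + 1).factorial : ℝ) := by exact_mod_cast Nat.factorial_pos _
          have hf' : (0 : ℝ) < (k.factorial : ℝ) := by exact_mod_cast Nat.factorial_pos _
          have hff : ((k + 1).factorial : ℝ) = (k + 1) * (k.factorial : ℝ) := by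
            rw [Nat.factorial_succ]; push_cast; ring
          have h5 : g a * (L ^ k / k.factorial) = (k + 1) * g a * L ^ k / (k + 1).factorial := by
            rw [hff]
            have : (k + 1 : ℝ) ≠ 0 := by positivity
            field_simp
          calc ∑ D ∈ powersetCard (k + 1) s, ∏ i ∈ D, g i
                + g a * ∑ D ∈ powersetCard k s, ∏ i ∈ D, g i
              ≤ L ^ (k + 1) / (k + 1).factorial + (k + 1) * g a * L ^ k / (k + 1).factorial := by
                rw [← h5]; exact add_le_add h2 h3
            _ = (L ^ (k + 1) + (k + 1) * g a * L ^ k) / (k + 1).factorial := by rw [add_div]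
            _ ≤ (L + g a) ^ (k + 1) / (k + 1).factorial := div_le_div_of_nonneg_right h4 hf.le
            _ = (g a + L) ^ (k + 1) / (k + 1).factorial := by rw [add_comm L]
        · intro D hD D' hD' h
          have h1 : a ∉ D := fun h => ha ((mem_powersetCard.1 (mem_coe.1 hD)).1 h)
          have h2 : a ∉ D' := fun h => ha ((mem_powersetCard.1 (mem_coe.1 hD')).1 h)
          have := congrArg (fun t => t.erase a) h
          simpa [erase_insert h1, erase_insert h2] using this
      · rw [disjoint_left]
        intro D hD hD'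
        obtain ⟨E, _, rfl⟩ := mem_image.1 hD'
        exact ha ((mem_powersetCard.1 hD).1 (mem_insert_self a E))

theorem TAIL_mem {ι : Type} [Fintype ι] {Q : ι → ℕ} (N : ∀ i, Finset (ZMod (Q i)))
    (x : ∀ i, ZMod (Q i)) (i : ι) : i ∈ sp N x ↔ x i ∈ N i := by
  simp only [sp, mem_filter, mem_univ, true_and]

theorem TAIL_mean {ι : Type} [Fintype ι] (Q : ι → ℕ) [∀ i, NeZero (Q i)]
    (N : ∀ i, Finset (ZMod (Q i))) (D : Finset ι) :
    (∑ x : (∀ i, ZMod (Q i)), if D ⊆ sp N x then (1 : ℝ) else 0) /
      (Fintype.card (∀ i, ZMod (Q i)) : ℝ) = ∏ i ∈ D, ((N i).card : ℝ) / Q i := by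
  have h1 : (∑ x : (∀ i, ZMod (Q i)), if D ⊆ sp N x then (1 : ℝ) else 0)
      = ∏ i, (if i ∈ D then ((N i).card : ℝ) else Q i) := by
    rw [← sum_filter, sum_const, nsmul_eq_mul, mul_one]
    have h2 : (univ.filter fun x : (∀ i, ZMod (Q i)) => D ⊆ sp N x)
        = Fintype.piFinset fun i => if i ∈ D then N i else univ := by
      ext x
      rw [mem_filter, Fintype.mem_piFinset]
      constructor
      · rintro ⟨_, h⟩ i
        by_cases hi : i ∈ D
        · rw [if_pos hi]
          exact (TAIL_mem N x i).1 (h hi)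
        · rw [if_neg hi]
          exact mem_univ _
      · intro h
        refine ⟨mem_univ _, fun i hi => ?_⟩
        have := h i
        rw [if_pos hi] at this
        exact (TAIL_mem N x i).2 this
    rw [h2, Fintype.card_piFinset, Nat.cast_prod]
    refine prod_congr rfl fun i _ => ?_
    by_cases hi : i ∈ D
    · rw [if_pos hi, if_pos hi]
    · rw [if_neg hi, if_neg hi, card_univ, ZMod.card]
  have h3 : (Fintype.card (∀ i, ZMod (Q i)) : ℝ) = ∏ i, (Q i : ℝ) := by
    rw [Fintype.card_pi, Nat.cast_prod]
    exact prod_congr rfl fun i _ => by rw [ZMod.card]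
  have hQ : ∀ i, (Q i : ℝ) ≠ 0 := fun i => by exact_mod_cast NeZero.ne (Q i)
  rw [h1, h3, ← prod_div_distrib]
  have h4 : ∀ i, (if i ∈ D then ((N i).card : ℝ) else (Q i : ℝ)) / Q i
      = if i ∈ D then ((N i).card : ℝ) / Q i else 1 := by
    intro i
    by_cases hi : i ∈ D
    · rw [if_pos hi, if_pos hi]
    · rw [if_neg hi, if_neg hi, div_self (hQ i)]
  rw [prod_congr rfl fun i _ => h4 i, prod_ite_mem, univ_inter]

theorem thm_TAIL : St_TAIL := by
  intro ι _ Q _ N L hL K l
  set g : ι → ℝ := fun i => ((N i).card : ℝ) / Q i with hg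
  have hg0 : ∀ i, 0 ≤ g i := fun i => by rw [hg]; positivity
  set L' : ℝ := ∑ i, g i with hL'
  have hL'0 : 0 ≤ L' := sum_nonneg fun i _ => hg0 i
  have hLL : L' ≤ L := hL
  set c : ℝ := (Fintype.card (∀ i, ZMod (Q i)) : ℝ) with hc
  have hc0 : 0 ≤ c := Nat.cast_nonneg _
  constructor
  · -- (a)
    unfold pr
    rw [← hc]
    have h1 : ((univ.filter fun x : (∀ i, ZMod (Q i)) => K < (sp N x).card).card : ℝ)
        ≤ ∑ x : (∀ i, ZMod (Q i)), ∑ D ∈ powersetCard (K + 1) univ,
            (if D ⊆ sp N x then (1 : ℝ) else 0) := by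
      rw [card_filter, Nat.cast_sum]
      refine sum_le_sum fun x _ => ?_
      by_cases hx : K < (sp N x).card
      · rw [if_pos hx]
        obtain ⟨D, hD, hDc⟩ := exists_subset_card_eq (s := sp N x) (n := K + 1) hx
        have h2 : D ∈ powersetCard (K + 1) (univ : Finset ι) :=
          mem_powersetCard.2 ⟨subset_univ _, hDc⟩
        have h3 := single_le_sum (f := fun D => if D ⊆ sp N x then (1 : ℝ) else 0)
          (fun D _ => by positivity) h2
        rw [if_pos hD] at h3
        simpa using h3
      · rw [if_neg hx]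
        simp only [Nat.cast_zero]
        exact sum_nonneg fun D _ => by positivity
    have h4 : (∑ x : (∀ i, ZMod (Q i)), ∑ D ∈ powersetCard (K + 1) univ,
            (if D ⊆ sp N x then (1 : ℝ) else 0)) / c
        = ∑ D ∈ powersetCard (K + 1) univ, ∏ i ∈ D, g i := by
      rw [sum_comm, sum_div]
      exact sum_congr rfl fun D _ => TAIL_mean Q N D
    calc _ = ((univ.filter fun x : (∀ i, ZMod (Q i)) => K < (sp N x).card).card : ℝ) / c := by
            congr
      _ ≤ (∑ x : (∀ i, ZMod (Q i)), ∑ D ∈ powersetCard (K + 1) univ,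
            (if D ⊆ sp N x then (1 : ℝ) else 0)) / c := div_le_div_of_nonneg_right h1 hc0
      _ = ∑ D ∈ powersetCard (K + 1) univ, ∏ i ∈ D, g i := h4
      _ ≤ L' ^ (K + 1) / (K + 1).factorial := TAIL_esymm g hg0 univ (K + 1)
      _ ≤ L ^ (K + 1) / (K + 1).factorial :=
        div_le_div_of_nonneg_right (pow_le_pow_left₀ hL'0 hLL _) (Nat.cast_nonneg _)
  · -- (b)
    have h1 : ∀ x : (∀ i, ZMod (Q i)),
        ∑ D ∈ (sp N x).powerset, ((sp N x \ D).card.choose (2 * l) : ℝ)
          ≤ ∑ D ∈ (univ : Finset ι).powerset, ∑ D' ∈ powersetCard (2 * l) univ,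
              (if Disjoint D D' then (if D ∪ D' ⊆ sp N x then (1 : ℝ) else 0) else 0) := by
      intro x
      calc ∑ D ∈ (sp N x).powerset, ((sp N x \ D).card.choose (2 * l) : ℝ)
          ≤ ∑ D ∈ (sp N x).powerset, ∑ D' ∈ powersetCard (2 * l) univ,
              (if Disjoint D D' then (if D ∪ D' ⊆ sp N x then (1 : ℝ) else 0) else 0) := by
            refine sum_le_sum fun D hD => ?_
            have hD' : D ⊆ sp N x := mem_powerset.1 hD
            rw [← card_powersetCard, card_eq_sum_ones, Nat.cast_sum]
            calc ∑ D' ∈ powersetCard (2 * l) (sp N x \ D), ((1 : ℕ) : ℝ)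
                = ∑ D' ∈ powersetCard (2 * l) (sp N x \ D),
                    (if Disjoint D D' then (if D ∪ D' ⊆ sp N x then (1 : ℝ) else 0) else 0) := by
                  refine sum_congr rfl fun D' hDD => ?_
                  have h5 := (mem_powersetCard.1 hDD).1
                  have h6 : Disjoint D D' := by
                    rw [disjoint_right]
                    intro a ha haD
                    exact (mem_sdiff.1 (h5 ha)).2 haD
                  have h7 : D ∪ D' ⊆ sp N x :=
                    union_subset hD' fun a ha => (mem_sdiff.1 (h5 ha)).1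
                  rw [if_pos h6, if_pos h7]
                  simp
              _ ≤ _ := by
                  refine sum_le_sum_of_subset_of_nonneg ?_ fun D' _ _ => by positivity
                  exact powersetCard_mono (subset_univ _)
        _ ≤ _ := by
            refine sum_le_sum_of_subset_of_nonneg (powerset_mono.2 (subset_univ _)) fun D _ _ => ?_
            exact sum_nonneg fun D' _ => by positivity
    have h2 : (∑ x : (∀ i, ZMod (Q i)),
          ∑ D ∈ (univ : Finset ι).powerset, ∑ D' ∈ powersetCard (2 * l) univ,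
              (if Disjoint D D' then (if D ∪ D' ⊆ sp N x then (1 : ℝ) else 0) else 0)) / c
        = ∑ D ∈ (univ : Finset ι).powerset, ∑ D' ∈ powersetCard (2 * l) univ,
            (if Disjoint D D' then ∏ i ∈ D ∪ D', g i else 0) := by
      rw [sum_comm, sum_div]
      refine sum_congr rfl fun D _ => ?_
      rw [sum_comm, sum_div]
      refine sum_congr rfl fun D' _ => ?_
      by_cases h : Disjoint D D'
      · simp only [if_pos h]
        exact TAIL_mean Q N (D ∪ D')
      · simp only [if_neg h, sum_const_zero, zero_div]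
    have h3 : ∑ D ∈ (univ : Finset ι).powerset, ∑ D' ∈ powersetCard (2 * l) univ,
            (if Disjoint D D' then ∏ i ∈ D ∪ D', g i else 0)
        ≤ (∑ D ∈ (univ : Finset ι).powerset, ∏ i ∈ D, g i)
          * ∑ D' ∈ powersetCard (2 * l) univ, ∏ i ∈ D', g i := by
      rw [sum_mul_sum]
      refine sum_le_sum fun D _ => sum_le_sum fun D' _ => ?_
      by_cases h : Disjoint D D'
      · rw [if_pos h, prod_union h]
      · rw [if_neg h]
        exact mul_nonneg (prod_nonneg fun i _ => hg0 i) (prod_nonneg fun i _ => hg0 i)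
    have h4 : ∑ D ∈ (univ : Finset ι).powerset, ∏ i ∈ D, g i ≤ Real.exp L := by
      rw [← prod_one_add]
      calc ∏ i, (1 + g i) ≤ ∏ i, Real.exp (g i) :=
            prod_le_prod (fun i _ => by linarith [hg0 i])
              fun i _ => by rw [add_comm]; exact Real.add_one_le_exp _
        _ = Real.exp L' := (Real.exp_sum _ _).symm
        _ ≤ Real.exp L := Real.exp_le_exp.2 hLL
    have h5 : ∑ D' ∈ powersetCard (2 * l) (univ : Finset ι), ∏ i ∈ D', g i
        ≤ L ^ (2 * l) / (2 * l).factorial :=
      (TAIL_esymm g hg0 univ (2 * l)).trans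
        (div_le_div_of_nonneg_right (pow_le_pow_left₀ hL'0 hLL _) (Nat.cast_nonneg _))
    calc _ ≤ (∑ x : (∀ i, ZMod (Q i)),
          ∑ D ∈ (univ : Finset ι).powerset, ∑ D' ∈ powersetCard (2 * l) univ,
              (if Disjoint D D' then (if D ∪ D' ⊆ sp N x then (1 : ℝ) else 0) else 0)) / c :=
          div_le_div_of_nonneg_right (sum_le_sum fun x _ => h1 x) hc0
      _ ≤ _ := h2.le.trans h3
      _ ≤ Real.exp L * (L ^ (2 * l) / (2 * l).factorial) :=
          mul_le_mul h4 h5 (sum_nonneg fun D' _ => prod_nonneg fun i _ => hg0 i)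
            (Real.exp_pos _).le
      _ = Real.exp L * L ^ (2 * l) / (2 * l).factorial := by rw [mul_div_assoc]

end Pool.Agent.RMS
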