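import Pool.Agent.RMS.Basic

/-! RMS: module TRF (helper40). -/

set_option autoImplicit false

namespace Pool.Agent.RMS

open Finset
open Classical

/-- the point `x[D]` -/
noncomputable def TRF_pt {ι : Type} {Q : ι → ℕ} (r : ∀ i, ZMod (Q i)) (D : Finset ι)
    (x : ∀ i, ZMod (Q i)) : ∀ i, ZMod (Q i) := fun i => if i ∈ D then x i else r i

theorem TRF_mem {ι : Type} [Fintype ι] {Q : ι → ℕ} (N : ∀ i, Finset (ZMod (Q i)))
    (x : ∀ i, ZMod (Q i)) (i : ι) : i ∈ sp N x ↔ x i ∈ N i := by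
  simp only [sp, mem_filter, mem_univ, true_and]

/-- one term of the double sum -/
noncomputable def TRF_G {ι : Type} [Fintype ι] {Q : ι → ℕ} (N : ∀ i, Finset (ZMod (Q i)))
    (r : ∀ i, ZMod (Q i)) (f : (∀ i, ZMod (Q i)) → ℝ) (D E : Finset ι) (x : ∀ i, ZMod (Q i)) : ℝ :=
  if D ⊆ sp N x ∧ E ⊆ sp N x \ D then (-1) ^ E.card * f (TRF_pt r D x) else 0

/-- the finite sets with at most `K` elements -/
noncomputable def TRF_S (ι : Type) [Fintype ι] (K : ℕ) : Finset (Finset ι) :=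
  univ.filter fun D => D.card ≤ K

/-- the finite sets with less than `K` elements -/
noncomputable def TRF_S' (ι : Type) [Fintype ι] (K : ℕ) : Finset (Finset ι) :=
  univ.filter fun D => D.card < K

theorem TRF_memS (ι : Type) [Fintype ι] (K : ℕ) (D : Finset ι) : D ∈ TRF_S ι K ↔ D.card ≤ K := by
  simp only [TRF_S, mem_filter, mem_univ, true_and]

theorem TRF_memS' (ι : Type) [Fintype ι] (K : ℕ) (D : Finset ι) :
    D ∈ TRF_S' ι K ↔ D.card < K := by
  simp only [TRF_S', mem_filter, mem_univ, true_and]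

/-- the function `F` -/
noncomputable def TRF_F {ι : Type} [Fintype ι] {Q : ι → ℕ} (N : ∀ i, Finset (ZMod (Q i)))
    (r : ∀ i, ZMod (Q i)) (f : (∀ i, ZMod (Q i)) → ℝ) (K l : ℕ) (x : ∀ i, ZMod (Q i)) : ℝ :=
  ∑ D ∈ TRF_S ι K, ∑ E ∈ TRF_S' ι (2 * l), TRF_G N r f D E x

theorem TRF_cardS (ι : Type) [Fintype ι] (K : ℕ) :
    (TRF_S ι K).card ≤ (Fintype.card ι + 1) ^ K := by
  have h1 : (TRF_S ι K).card ≤ ∑ k ∈ range (K + 1), (powersetCard k (univ : Finset ι)).card := by
    refine (card_le_card (t := (range (K + 1)).biUnion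
      fun k => powersetCard k (univ : Finset ι)) ?_).trans card_biUnion_le
    intro D hD
    rw [TRF_memS] at hD
    rw [mem_biUnion]
    exact ⟨D.card, mem_range.2 (by omega), mem_powersetCard.2 ⟨subset_univ _, rfl⟩⟩
  refine h1.trans ?_
  rw [add_pow]
  refine sum_le_sum fun k hk => ?_
  have hk' : k ≤ K := by
    have := mem_range.1 hk
    omega
  rw [card_powersetCard, one_pow, mul_one, card_univ]
  calc (Fintype.card ι).choose k ≤ Fintype.card ι ^ k := Nat.choose_le_pow _ _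
    _ = Fintype.card ι ^ k * 1 := (mul_one _).symm
    _ ≤ Fintype.card ι ^ k * K.choose k := Nat.mul_le_mul_left _ (Nat.choose_pos hk')

theorem TRF_cardS' (ι : Type) [Fintype ι] (K : ℕ) :
    (TRF_S' ι K).card ≤ (Fintype.card ι + 1) ^ K := by
  refine (card_le_card ?_).trans (TRF_cardS ι K)
  intro D hD
  rw [TRF_memS'] at hD
  rw [TRF_memS]
  exact hD.le

theorem TRF_bb {ι : Type} [Fintype ι] (l : ℕ) (S : Finset ι) :
    (bb l S.card : ℝ) = ∑ E ∈ TRF_S' ι (2 * l), if E ⊆ S then (-1 : ℝ) ^ E.card else 0 := by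
  have h1 : ∑ E ∈ TRF_S' ι (2 * l), (if E ⊆ S then (-1 : ℝ) ^ E.card else 0) =
      ∑ k ∈ range (2 * l), ∑ E ∈ TRF_S' ι (2 * l) with E.card = k,
        (if E ⊆ S then (-1 : ℝ) ^ E.card else 0) := by
    rw [sum_fiberwise_of_maps_to]
    intro E hE
    rw [TRF_memS'] at hE
    exact mem_range.2 hE
  rw [h1]
  unfold bb
  push_cast
  refine sum_congr rfl fun k hk => ?_
  rw [← sum_filter, filter_filter]
  have h2 : (TRF_S' ι (2 * l)).filter (fun E => E.card = k ∧ E ⊆ S) = powersetCard k S := by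
    ext E
    rw [mem_filter, TRF_memS', mem_powersetCard]
    constructor
    · rintro ⟨_, h, h'⟩
      exact ⟨h', h⟩
    · rintro ⟨h', h⟩
      refine ⟨?_, h, h'⟩
      rw [h]
      exact mem_range.1 hk
  rw [h2, sum_congr rfl (g := fun _ => (-1 : ℝ) ^ k) fun E hE => by
    rw [(mem_powersetCard.1 hE).2], sum_const, card_powersetCard, nsmul_eq_mul, mul_comm]

/-- `F` as a single sum -/
theorem TRF_F_eq {ι : Type} [Fintype ι] {Q : ι → ℕ} (N : ∀ i, Finset (ZMod (Q i)))
    (r : ∀ i, ZMod (Q i)) (f : (∀ i, ZMod (Q i)) → ℝ) (K l : ℕ) (x : ∀ i, ZMod (Q i)) :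
    TRF_F N r f K l x = ∑ D ∈ TRF_S ι K,
      if D ⊆ sp N x then f (TRF_pt r D x) * (bb l (sp N x \ D).card : ℝ) else 0 := by
  unfold TRF_F
  refine sum_congr rfl fun D _ => ?_
  by_cases h : D ⊆ sp N x
  · rw [if_pos h, TRF_bb, mul_sum]
    refine sum_congr rfl fun E _ => ?_
    unfold TRF_G
    by_cases h' : E ⊆ sp N x \ D
    · rw [if_pos ⟨h, h'⟩, if_pos h', mul_comm]
    · rw [if_neg (fun hh => h' hh.2), if_neg h', mul_zero]
  · rw [if_neg h]
    refine sum_eq_zero fun E _ => ?_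
    unfold TRF_G
    rw [if_neg (fun hh => h hh.1)]

section
variable {ι : Type} [Fintype ι] {Q : ι → ℕ} (N : ∀ i, Finset (ZMod (Q i)))
    (r : ∀ i, ZMod (Q i)) (f : (∀ i, ZMod (Q i)) → ℝ)

theorem TRF_self (hf : ∀ x, f x = f (fun i => if x i ∈ N i then x i else r i))
    (x : ∀ i, ZMod (Q i)) : f (TRF_pt r (sp N x) x) = f x := by
  rw [hf x]
  congr 1
  funext i
  unfold TRF_pt
  by_cases h : x i ∈ N i
  · rw [if_pos h, if_pos ((TRF_mem N x i).2 h)]
  · rw [if_neg h, if_neg (fun hh => h ((TRF_mem N x i).1 hh))]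

theorem TRF_zero (x : ∀ i, ZMod (Q i)) (D : Finset ι) (hD : D ⊆ sp N x) :
    (sp N x \ D).card = 0 ↔ D = sp N x := by
  rw [card_eq_zero, sdiff_eq_empty_iff_subset]
  exact ⟨fun h => subset_antisymm hD h, fun h => h ▸ Subset.rfl⟩

theorem TRF_le (hB : St_BON) (h0 : ∀ x, 0 ≤ f x)
    (hf : ∀ x, f x = f (fun i => if x i ∈ N i then x i else r i)) (K l : ℕ)
    (x : ∀ i, ZMod (Q i)) : TRF_F N r f K l x ≤ f x := by
  rw [TRF_F_eq]
  calc ∑ D ∈ TRF_S ι K, (if D ⊆ sp N x then f (TRF_pt r D x) * (bb l (sp N x \ D).card : ℝ) else 0)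
      ≤ ∑ D ∈ TRF_S ι K, (if D = sp N x then f x else 0) := by
        refine sum_le_sum fun D _ => ?_
        by_cases h : D ⊆ sp N x
        · rw [if_pos h]
          have h1 := (hB l (sp N x \ D).card).1
          by_cases h2 : D = sp N x
          · rw [if_pos h2]
            rw [if_pos ((TRF_zero N x D h).2 h2)] at h1
            have h3 : (bb l (sp N x \ D).card : ℝ) ≤ 1 := by exact_mod_cast h1
            have h4 : f (TRF_pt r D x) = f x := by
              rw [h2]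
              exact TRF_self N r f hf x
            rw [h4]
            exact mul_le_of_le_one_right (h0 x) h3
          · rw [if_neg h2]
            rw [if_neg (fun hh => h2 ((TRF_zero N x D h).1 hh))] at h1
            have h3 : (bb l (sp N x \ D).card : ℝ) ≤ 0 := by exact_mod_cast h1
            exact mul_nonpos_of_nonneg_of_nonpos (h0 _) h3
        · rw [if_neg h]
          split_ifs
          · exact h0 x
          · exact le_rfl
    _ ≤ f x := by
        rw [sum_ite_eq']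
        split_ifs
        · exact le_rfl
        · exact h0 x

theorem TRF_ge (hB : St_BON) (h0 : ∀ x, 0 ≤ f x) (h1 : ∀ x, f x ≤ 1)
    (hf : ∀ x, f x = f (fun i => if x i ∈ N i then x i else r i)) (K l : ℕ)
    (x : ∀ i, ZMod (Q i)) :
    f x ≤ TRF_F N r f K l x + (if K < (sp N x).card then 1 else 0) +
      ∑ D ∈ (sp N x).powerset, ((sp N x \ D).card.choose (2 * l) : ℝ) := by
  have hA : ∑ D ∈ TRF_S ι K, (if D = sp N x then f x else 0) -
      ∑ D ∈ TRF_S ι K, (if D ⊆ sp N x then ((sp N x \ D).card.choose (2 * l) : ℝ) else 0) ≤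
      TRF_F N r f K l x := by
    rw [TRF_F_eq, ← sum_sub_distrib]
    refine sum_le_sum fun D _ => ?_
    by_cases h : D ⊆ sp N x
    · rw [if_pos h, if_pos h]
      have h2 := (hB l (sp N x \ D).card).2
      have hc : (0 : ℝ) ≤ ((sp N x \ D).card.choose (2 * l) : ℝ) := Nat.cast_nonneg _
      by_cases h3 : D = sp N x
      · rw [if_pos h3]
        rw [if_pos ((TRF_zero N x D h).2 h3)] at h2
        have h4 : (1 : ℝ) - ((sp N x \ D).card.choose (2 * l) : ℝ) ≤
            (bb l (sp N x \ D).card : ℝ) := by exact_mod_cast h2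
        have h5 : f (TRF_pt r D x) = f x := by
          rw [h3]
          exact TRF_self N r f hf x
        rw [h5]
        nlinarith [h0 x, h1 x, mul_le_mul_of_nonneg_left h4 (h0 x),
          mul_nonneg (sub_nonneg.2 (h1 x)) hc]
      · rw [if_neg h3]
        rw [if_neg (fun hh => h3 ((TRF_zero N x D h).1 hh))] at h2
        have h4 : (0 : ℝ) - ((sp N x \ D).card.choose (2 * l) : ℝ) ≤
            (bb l (sp N x \ D).card : ℝ) := by exact_mod_cast h2
        nlinarith [h0 (TRF_pt r D x), h1 (TRF_pt r D x),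
          mul_le_mul_of_nonneg_left h4 (h0 (TRF_pt r D x)),
          mul_nonneg (sub_nonneg.2 (h1 (TRF_pt r D x))) hc]
    · have hne : ¬ D = sp N x := fun hh => h (by rw [hh])
      rw [if_neg h, if_neg h, if_neg hne]
      simp
  have hS : ∑ D ∈ TRF_S ι K, (if D ⊆ sp N x then ((sp N x \ D).card.choose (2 * l) : ℝ) else 0) ≤
      ∑ D ∈ (sp N x).powerset, ((sp N x \ D).card.choose (2 * l) : ℝ) := by
    rw [← sum_filter]
    refine sum_le_sum_of_subset_of_nonneg ?_ (fun _ _ _ => Nat.cast_nonneg _)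
    intro D hD
    exact mem_powerset.2 (mem_filter.1 hD).2
  have hT : f x ≤ ∑ D ∈ TRF_S ι K, (if D = sp N x then f x else 0) +
      (if K < (sp N x).card then 1 else 0) := by
    rw [sum_ite_eq']
    by_cases h : K < (sp N x).card
    · rw [if_pos h, if_neg (by rw [TRF_memS]; omega)]
      linarith [h1 x]
    · rw [if_neg h, if_pos (by rw [TRF_memS]; omega)]
      linarith
  linarith

theorem TRF_G_abs (h0 : ∀ x, 0 ≤ f x) (h1 : ∀ x, f x ≤ 1) (D E : Finset ι)
    (x : ∀ i, ZMod (Q i)) : |TRF_G N r f D E x| ≤ 1 := by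
  unfold TRF_G
  split_ifs
  · rw [abs_mul, abs_pow, abs_neg, abs_one, one_pow, one_mul, abs_of_nonneg (h0 _)]
    exact h1 _
  · rw [abs_zero]
    exact zero_le_one

theorem TRF_G_dep (D E : Finset ι) (x y : ∀ i, ZMod (Q i)) (hxy : ∀ i ∈ D ∪ E, x i = y i) :
    TRF_G N r f D E x = TRF_G N r f D E y := by
  have key : ∀ x y : (∀ i, ZMod (Q i)), (∀ i ∈ D ∪ E, x i = y i) →
      (D ⊆ sp N x ∧ E ⊆ sp N x \ D) → (D ⊆ sp N y ∧ E ⊆ sp N y \ D) := by
    rintro x y hxy ⟨ha, hb⟩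
    refine ⟨fun i hi => ?_, fun i hi => ?_⟩
    · rw [TRF_mem, ← hxy i (mem_union_left _ hi)]
      exact (TRF_mem N x i).1 (ha hi)
    · have h2 := mem_sdiff.1 (hb hi)
      refine mem_sdiff.2 ⟨?_, h2.2⟩
      rw [TRF_mem, ← hxy i (mem_union_right _ hi)]
      exact (TRF_mem N x i).1 h2.1
  have hpt : TRF_pt r D x = TRF_pt r D y := by
    funext i
    unfold TRF_pt
    by_cases h : i ∈ D
    · rw [if_pos h, if_pos h, hxy i (mem_union_left _ h)]
    · rw [if_neg h, if_neg h]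
  unfold TRF_G
  rw [hpt]
  by_cases h : D ⊆ sp N x ∧ E ⊆ sp N x \ D
  · rw [if_pos h, if_pos (key x y hxy h)]
  · rw [if_neg h, if_neg (fun hh => h (key y x (fun i hi => (hxy i hi).symm) hh))]

end

theorem thm_TRF (hC : St_CRT) (hT : St_TAIL) (hB : St_BON) : St_TRF := by
  intro ι _ Q _ hcop N r f h0 h1 hf L hL K l X B hX hBd
  have hXR : (0 : ℝ) < X := by exact_mod_cast hX
  have hcard : (0 : ℝ) < (Fintype.card (∀ i, ZMod (Q i)) : ℝ) := by
    exact_mod_cast Fintype.card_pos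
  set M : ℝ := (Fintype.card (∀ i, ZMod (Q i)) : ℝ) with hM
  obtain ⟨hT1, hT2⟩ := hT ι Q N L hL K l
  -- the means of one term
  have hG : ∀ D ∈ TRF_S ι K, ∀ E ∈ TRF_S' ι (2 * l),
      (∑ x, TRF_G N r f D E x) / M ≤
        (∑ m ∈ Ico X (2 * X), TRF_G N r f D E (fun i => ((m : ℕ) : ZMod (Q i)))) / X +
          2 * B / X := by
    intro D hD E hE
    rw [TRF_memS] at hD
    rw [TRF_memS'] at hE
    have h2 := hC ι Q hcop (D ∪ E) (TRF_G N r f D E) X hX
      (TRF_G_abs N r f h0 h1 D E) (fun x y => TRF_G_dep N r f D E x y)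
    have h3 : ((∏ i ∈ D ∪ E, Q i : ℕ) : ℝ) ≤ B := by
      exact_mod_cast hBd (D ∪ E) ((card_union_le _ _).trans (by omega))
    have h4 : 2 * ((∏ i ∈ D ∪ E, Q i : ℕ) : ℝ) / X ≤ 2 * B / X := by
      apply div_le_div_of_nonneg_right _ hXR.le
      linarith
    have h5 := (abs_le.1 (h2.trans h4)).1
    linarith
  have hF : (∑ x, TRF_F N r f K l x) / M ≤
      (∑ m ∈ Ico X (2 * X), TRF_F N r f K l (fun i => ((m : ℕ) : ZMod (Q i)))) / X +
        2 * B * (Fintype.card ι + 1 : ℝ) ^ (K + 2 * l) / X := by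
    have e1 : (∑ x, TRF_F N r f K l x) / M =
        ∑ D ∈ TRF_S ι K, ∑ E ∈ TRF_S' ι (2 * l), (∑ x, TRF_G N r f D E x) / M := by
      unfold TRF_F
      rw [sum_comm, sum_div]
      refine sum_congr rfl fun D _ => ?_
      rw [sum_comm, sum_div]
    have e2 : (∑ m ∈ Ico X (2 * X), TRF_F N r f K l (fun i => ((m : ℕ) : ZMod (Q i)))) / X =
        ∑ D ∈ TRF_S ι K, ∑ E ∈ TRF_S' ι (2 * l),
          (∑ m ∈ Ico X (2 * X), TRF_G N r f D E (fun i => ((m : ℕ) : ZMod (Q i)))) / X := by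
      unfold TRF_F
      rw [sum_comm, sum_div]
      refine sum_congr rfl fun D _ => ?_
      rw [sum_comm, sum_div]
    have e3 : ∑ D ∈ TRF_S ι K, ∑ E ∈ TRF_S' ι (2 * l), (2 * (B : ℝ) / X) ≤
        2 * B * (Fintype.card ι + 1 : ℝ) ^ (K + 2 * l) / X := by
      rw [sum_const, sum_const, nsmul_eq_mul, nsmul_eq_mul, ← mul_assoc]
      have h6 : ((TRF_S ι K).card : ℝ) * ((TRF_S' ι (2 * l)).card : ℝ) ≤
          (Fintype.card ι + 1 : ℝ) ^ (K + 2 * l) := by
        rw [pow_add]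
        have h7 : ((TRF_S ι K).card : ℝ) ≤ (Fintype.card ι + 1 : ℝ) ^ K := by
          exact_mod_cast TRF_cardS ι K
        have h8 : ((TRF_S' ι (2 * l)).card : ℝ) ≤ (Fintype.card ι + 1 : ℝ) ^ (2 * l) := by
          exact_mod_cast TRF_cardS' ι (2 * l)
        exact mul_le_mul h7 h8 (Nat.cast_nonneg _) (by positivity)
      have h9 : (0 : ℝ) ≤ 2 * (B : ℝ) / X := by positivity
      calc ((TRF_S ι K).card : ℝ) * ((TRF_S' ι (2 * l)).card : ℝ) * (2 * (B : ℝ) / X)
          ≤ (Fintype.card ι + 1 : ℝ) ^ (K + 2 * l) * (2 * (B : ℝ) / X) :=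
            mul_le_mul_of_nonneg_right h6 h9
        _ = 2 * B * (Fintype.card ι + 1 : ℝ) ^ (K + 2 * l) / X := by ring
    rw [e1, e2]
    refine le_trans ?_ (add_le_add_right e3 _)
    rw [← sum_add_distrib]
    refine sum_le_sum fun D hD => ?_
    rw [← sum_add_distrib]
    exact sum_le_sum fun E hE => hG D hD E hE
  -- the mean of `f` over the product
  have hf1 : (∑ x, f x) / M ≤ (∑ x, TRF_F N r f K l x) / M +
      pr (fun x : (∀ i, ZMod (Q i)) => K < (sp N x).card) +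
      (∑ x : (∀ i, ZMod (Q i)), ∑ D ∈ (sp N x).powerset,
        ((sp N x \ D).card.choose (2 * l) : ℝ)) / M := by
    have e4 : pr (fun x : (∀ i, ZMod (Q i)) => K < (sp N x).card) =
        (∑ x : (∀ i, ZMod (Q i)), (if K < (sp N x).card then (1 : ℝ) else 0)) / M := by
      unfold pr
      rw [card_filter, Nat.cast_sum]
      simp only [Nat.cast_ite, Nat.cast_one, Nat.cast_zero]
      rfl
    rw [e4, ← add_div, ← add_div, ← sum_add_distrib, ← sum_add_distrib]
    apply div_le_div_of_nonneg_right _ hcard.le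
    exact sum_le_sum fun x _ => TRF_ge N r f hB h0 h1 hf K l x
  have hf2 : (∑ m ∈ Ico X (2 * X), TRF_F N r f K l (fun i => ((m : ℕ) : ZMod (Q i)))) / X ≤
      (∑ m ∈ Ico X (2 * X), f (fun i => ((m : ℕ) : ZMod (Q i)))) / X := by
    apply div_le_div_of_nonneg_right _ hXR.le
    exact sum_le_sum fun m _ => TRF_le N r f hB h0 hf K l _
  linarith

end Pool.Agent.RMS
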