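import Pool.Agent.RMS.Basic

/-! RMS, module TRU: truncation. -/

set_option autoImplicit false

namespace Pool.Agent.RMS

open Finset
open Classical

theorem TRU_geo0 (j k : ℕ) :
    ∑ i ∈ Icc 1 (j + 8 + 2 * k), (1 : ℝ) / 2 ^ ((i - (j + 8)) / 2) = j + 11 - 3 / 2 ^ k ∧
    ∑ i ∈ Icc 1 (j + 8 + 2 * k + 1), (1 : ℝ) / 2 ^ ((i - (j + 8)) / 2) = j + 11 - 2 / 2 ^ k := by
  induction k with
  | zero =>
    have h0 : ∑ i ∈ Icc 1 (j + 8), (1 : ℝ) / 2 ^ ((i - (j + 8)) / 2) = j + 8 := by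
      have h1 : ∀ i ∈ Icc 1 (j + 8), (1 : ℝ) / 2 ^ ((i - (j + 8)) / 2) = 1 := by
        intro i hi
        have h2 : (i - (j + 8)) / 2 = 0 := by
          have := (mem_Icc.1 hi).2
          omega
        rw [h2]
        norm_num
      rw [sum_congr rfl h1, sum_const, Nat.card_Icc, nsmul_eq_mul]
      push_cast
      simp
    have h3 : (j + 8 + 0 + 1 - (j + 8)) / 2 = 0 := by omega
    refine ⟨?_, ?_⟩
    · rw [Nat.mul_zero, Nat.add_zero, h0]
      norm_num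
      ring
    · rw [Nat.mul_zero, sum_Icc_succ_top (by omega), Nat.add_zero, h0]
      rw [Nat.add_zero] at h3
      rw [h3]
      norm_num
      ring
  | succ k ih =>
    have h1 : ∑ i ∈ Icc 1 (j + 8 + 2 * (k + 1)), (1 : ℝ) / 2 ^ ((i - (j + 8)) / 2) =
        j + 11 - 3 / 2 ^ (k + 1) := by
      have e : j + 8 + 2 * (k + 1) = j + 8 + 2 * k + 1 + 1 := by ring
      have e2 : (j + 8 + 2 * k + 1 + 1 - (j + 8)) / 2 = k + 1 := by omega
      rw [e, sum_Icc_succ_top (by omega), ih.2, e2, pow_succ]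
      field_simp
      ring
    refine ⟨h1, ?_⟩
    have e2 : (j + 8 + 2 * (k + 1) + 1 - (j + 8)) / 2 = k + 1 := by omega
    rw [sum_Icc_succ_top (by omega), h1, e2]
    ring

theorem TRU_geo (j X : ℕ) :
    ∑ i ∈ Icc 1 X, (1 : ℝ) / 2 ^ ((i - (j + 8)) / 2) ≤ j + 11 := by
  calc ∑ i ∈ Icc 1 X, (1 : ℝ) / 2 ^ ((i - (j + 8)) / 2)
      ≤ ∑ i ∈ Icc 1 (j + 8 + 2 * X), (1 : ℝ) / 2 ^ ((i - (j + 8)) / 2) :=
        sum_le_sum_of_subset_of_nonneg (Icc_subset_Icc_right (by omega))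
          (fun i _ _ => by positivity)
    _ = j + 11 - 3 / 2 ^ X := (TRU_geo0 j X).1
    _ ≤ j + 11 := by
        have : (0 : ℝ) ≤ 3 / 2 ^ X := by positivity
        linarith

theorem TRU_RS_nonneg (A : Set ℕ) (y z : ℕ) : 0 ≤ RS A y z := by
  unfold RS
  refine sum_nonneg fun a _ => ?_
  exact Set.indicator_nonneg (fun x _ => by positivity) a

theorem TRU_R2_nonneg (B : Finset ℕ) (J m : ℕ) : 0 ≤ R2 B J m := by
  unfold R2
  exact tsum_nonneg fun i => by positivity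

theorem TRU_sum (A : Set ℕ) (Y : ℕ) : ∑ a ∈ AY A Y, (1 : ℝ) / a = RS A 0 Y := by
  have e : Ioc 0 Y = Icc 1 Y := by
    ext x
    rw [mem_Ioc, mem_Icc]
    omega
  unfold AY RS
  rw [sum_filter, e]
  refine sum_congr rfl fun a _ => ?_
  rw [Set.indicator_apply]

theorem thm_TRU (hP : St_TRP) (hM : St_TRM) : St_TRU := by
  intro A κ s X Y J j hz hs hY hj
  have hX1 : 1 ≤ X := by omega
  have hX0 : (0 : ℝ) < X := by exact_mod_cast hX1
  set S := (Ico X (2 * X)).filter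
    fun m => (1 : ℝ) / 2 ^ (j + 3) < nrm (TF (AY A Y) J m - κ m) with hS
  set U : ℕ → Finset ℕ := fun i => (Ico X (2 * X)).filter
    fun m => 2 ^ ((i - (j + 8)) / 2) ≤ dG A Y (m + i) with hU
  set V := (Ico X (2 * X)).filter fun m => (1 : ℝ) / 2 ^ (j + 4) < R2 (AY A Y) J m with hV
  have hsub : S ⊆ (Icc 1 X).biUnion U ∪ V := by
    intro m hm
    rw [hS, mem_filter, mem_Ico] at hm
    rw [mem_union, mem_biUnion]
    rcases hP A κ X Y J j m (hz m (by omega)) hj hm.1.2 hm.2 with h | h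
    · left
      obtain ⟨i, hi, h⟩ := h
      refine ⟨i, hi, ?_⟩
      rw [hU]
      exact mem_filter.2 ⟨mem_Ico.2 hm.1, h⟩
    · right
      rw [hV]
      exact mem_filter.2 ⟨mem_Ico.2 hm.1, h⟩
  have hc : (S.card : ℝ) ≤ ∑ i ∈ Icc 1 X, ((U i).card : ℝ) + V.card := by
    have h1 : S.card ≤ ∑ i ∈ Icc 1 X, (U i).card + V.card :=
      (card_le_card hsub).trans ((card_union_le _ _).trans
        (Nat.add_le_add_right card_biUnion_le _))
    exact_mod_cast h1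
  have hRS := TRU_RS_nonneg A Y (4 * X)
  have hU1 : ∑ i ∈ Icc 1 X, ((U i).card : ℝ) ≤ 4 * X * RS A Y (4 * X) * (j + 11) := by
    calc ∑ i ∈ Icc 1 X, ((U i).card : ℝ)
        ≤ ∑ i ∈ Icc 1 X, 4 * X * RS A Y (4 * X) * (1 / 2 ^ ((i - (j + 8)) / 2)) := by
          refine sum_le_sum fun i hi => ?_
          have h := hM.1 A X Y i ((i - (j + 8)) / 2) hX1 (mem_Icc.1 hi).2
          rw [mul_one_div]
          exact h
      _ = 4 * X * RS A Y (4 * X) * ∑ i ∈ Icc 1 X, (1 : ℝ) / 2 ^ ((i - (j + 8)) / 2) := by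
          rw [mul_sum]
      _ ≤ 4 * X * RS A Y (4 * X) * (j + 11) :=
          mul_le_mul_of_nonneg_left (TRU_geo j X) (by positivity)
  have hV1 : (V.card : ℝ) ≤ 2 ^ (j + 4) * (X * (1 + RS A 0 Y) / 2 ^ J) := by
    have h1 : (V.card : ℝ) * (1 / 2 ^ (j + 4)) ≤ ∑ m ∈ Ico X (2 * X), R2 (AY A Y) J m := by
      calc (V.card : ℝ) * (1 / 2 ^ (j + 4)) = ∑ _m ∈ V, (1 : ℝ) / 2 ^ (j + 4) := by
            rw [sum_const, nsmul_eq_mul]
        _ ≤ ∑ m ∈ V, R2 (AY A Y) J m := by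
            refine sum_le_sum fun m hm => ?_
            rw [hV, mem_filter] at hm
            exact hm.2.le
        _ ≤ ∑ m ∈ Ico X (2 * X), R2 (AY A Y) J m :=
            sum_le_sum_of_subset_of_nonneg (filter_subset _ _)
              (fun m _ _ => TRU_R2_nonneg _ _ _)
    have h2 := hM.2 (AY A Y) X Y J (fun a ha => by
      unfold AY at ha
      exact mem_Icc.1 (mem_filter.1 ha).1) hY
    rw [TRU_sum] at h2
    have h3 := h1.trans h2
    have h4 : (0 : ℝ) < 2 ^ (j + 4) := by positivity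
    calc (V.card : ℝ) = 2 ^ (j + 4) * ((V.card : ℝ) * (1 / 2 ^ (j + 4))) := by
          field_simp
      _ ≤ 2 ^ (j + 4) * (X * (1 + RS A 0 Y) / 2 ^ J) := mul_le_mul_of_nonneg_left h3 h4.le
  rw [div_le_iff₀ hX0]
  calc (S.card : ℝ) ≤ 4 * X * RS A Y (4 * X) * (j + 11) +
        2 ^ (j + 4) * (X * (1 + RS A 0 Y) / 2 ^ J) := by linarith
    _ = (4 * (j + 11) * RS A Y (4 * X) + 2 ^ (j + 4) / 2 ^ J * (RS A 0 Y + 1)) * X := by
        ring

end Pool.Agent.RMS
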