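import Pool.Agent.RMS.Basic

/-! RMS, module UBD: the upper bound for the tail. -/

set_option autoImplicit false

namespace Pool.Agent.RMS

open Finset
open Classical

theorem UBD_tel (v J : ℕ) (h : v ≤ J) :
    ∑ i ∈ Ioc v J, (1 : ℝ) / 2 ^ ((i + 1) / 2) =
      (1 / 2 ^ (v / 2) + 1 / 2 ^ ((v + 1) / 2)) - (1 / 2 ^ (J / 2) + 1 / 2 ^ ((J + 1) / 2)) := by
  induction J, h using Nat.le_induction with
  | base =>
    rw [Ioc_self, sum_empty, sub_self]
  | succ n hn ih =>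
    rw [sum_Ioc_succ_top (by omega), ih]
    have h1 : (n + 1 + 1) / 2 = n / 2 + 1 := by omega
    rw [h1, pow_succ]
    have h2 : (0 : ℝ) < 2 ^ (n / 2) := by positivity
    field_simp
    ring

theorem thm_UBD : St_UBD := by
  intro d j w J hw hd
  have hpos : (0 : ℝ) < 1 / 2 ^ (j + 3) := by positivity
  rcases Nat.lt_or_ge J (w / 2) with hJ | hJ
  · rw [Ioc_eq_empty (by omega), sum_empty]
    exact hpos
  have h1 : ∀ i ∈ Ioc (w / 2) J, (d i : ℝ) / 2 ^ i ≤ 1 / 2 ^ ((i + 1) / 2) := by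
    intro i hi
    have h2 : (d i : ℝ) ≤ 2 ^ (i / 2) := by exact_mod_cast (hd i hi).le
    have h3 : (2 : ℝ) ^ i = 2 ^ (i / 2) * 2 ^ ((i + 1) / 2) := by
      rw [← pow_add]
      congr 1
      omega
    rw [h3, div_le_div_iff₀ (by positivity) (by positivity), one_mul]
    exact mul_le_mul_of_nonneg_right h2 (by positivity)
  refine lt_of_le_of_lt ((sum_le_sum h1).trans (le_of_eq (UBD_tel _ _ hJ))) ?_
  have h2 : (0 : ℝ) < 1 / 2 ^ (J / 2) + 1 / 2 ^ ((J + 1) / 2) := by positivity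
  have h3 : (1 : ℝ) / 2 ^ (w / 2 / 2) ≤ 1 / 2 ^ (j + 5) := by
    apply one_div_le_one_div_of_le (by positivity)
    exact pow_le_pow_right₀ (by norm_num) (by omega)
  have h4 : (1 : ℝ) / 2 ^ ((w / 2 + 1) / 2) ≤ 1 / 2 ^ (j + 5) := by
    apply one_div_le_one_div_of_le (by positivity)
    exact pow_le_pow_right₀ (by norm_num) (by omega)
  have h5 : (1 : ℝ) / 2 ^ (j + 5) = 1 / 2 ^ (j + 3) / 4 := by
    rw [div_div, show j + 5 = (j + 3) + 2 by ring, pow_add]
    norm_num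
  rw [h5] at h3 h4
  linarith

end Pool.Agent.RMS
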