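import Pool.Agent.RMS.BASE
import Pool.Agent.RMS.TRP
import Pool.Agent.RMS.TRM
import Pool.Agent.RMS.TRU
import Pool.Agent.RMS.CRT
import Pool.Agent.RMS.TAIL
import Pool.Agent.RMS.BON
import Pool.Agent.RMS.TRF
import Pool.Agent.RMS.HIT
import Pool.Agent.RMS.LIFT
import Pool.Agent.RMS.EMB
import Pool.Agent.RMS.APP
import Pool.Agent.RMS.RES
import Pool.Agent.RMS.DIF
import Pool.Agent.RMS.UBD
import Pool.Agent.RMS.STG
import Pool.Agent.RMS.MEA
import Pool.Agent.RMS.SMO
import Pool.Agent.RMS.FNB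
import Pool.Agent.RMS.DS2
import Pool.Agent.RMS.CORE
import Pool.Agent.RMS.SER
import Pool.Agent.RMS.LIM
import Pool.Agent.RMS.ERD
import Pool.Agent.RMS.RAN
import Pool.Agent.RMS.FIN
import Pool.Agent.RMS.COR

/-!
RMS: assembly of the window theorem and its corollary (MP_7d9581_nt).
-/

set_option autoImplicit false

namespace Pool.Agent.RMS

open Finset Filter

theorem trf : St_TRF := thm_TRF thm_CRT thm_TAIL thm_BON

theorem fnb : St_FNB := thm_FNB thm_MEA thm_SMO

theorem core : St_CORE :=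
  thm_CORE thm_LIFT (thm_APP trf thm_EMB) (thm_TRU thm_TRP thm_TRM)
    (thm_STG thm_HIT thm_RES thm_DIF thm_UBD) fnb thm_DS2

/-- The window theorem. -/
theorem window : St_FIN :=
  thm_FIN thm_BASE core thm_SER thm_LIM thm_ERD thm_RAN fnb

/-- Corollary: if the sum of `1/a` over the `a ≤ x` of the infinite set `A` is at most
`log log x / (log log log x)^5` for arbitrarily large `x`, then the series is irrational. -/
theorem slow (A : Set ℕ) (hA : A.Infinite)
    (h : ∃ᶠ x : ℕ in atTop,
      RS A 0 x ≤ Real.log (Real.log x) / Real.log (Real.log (Real.log x)) ^ 5) :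
    Irrational (∑' n : A, (1 : ℝ) / (2 ^ n.1 - 1)) :=
  window A hA (thm_COR A h)

end Pool.Agent.RMS
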