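import Pool.Agent.RMS.St3
import Pool.Agent.RMS.Basic

/-! RMS, module REM: the remainder (helper35).  Statement and proof: `St_REM` in `St3.lean`. -/

set_option autoImplicit false

namespace Pool.Agent.RMS

open Finset
open Classical

/-- a product over the blocks of sums over the subsets of the blocks -/
theorem REM_prod {ι κ : Type} [Fintype κ] (β : ι → κ) (S : Finset ι) (φ : κ → Finset ι → ℝ) :
    ∏ b, ∑ T ∈ (S.filter fun i => β i = b).powerset, φ b T =
      ∑ D ∈ S.powerset, ∏ b, φ b (D.filter fun i => β i = b) := by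
  rw [Finset.prod_univ_sum]
  refine Finset.sum_bij' (fun p _ => univ.biUnion p)
    (fun D _ => fun b => D.filter fun i => β i = b) ?_ ?_ ?_ ?_ ?_
  · intro p hp
    rw [Fintype.mem_piFinset] at hp
    rw [mem_powerset]
    intro i hi
    rw [mem_biUnion] at hi
    obtain ⟨b, -, hb⟩ := hi
    exact (mem_filter.1 (mem_powerset.1 (hp b) hb)).1
  · intro D hD
    rw [Fintype.mem_piFinset]
    intro b
    rw [mem_powerset] at hD ⊢
    exact filter_subset_filter _ hD
  · intro p hp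
    rw [Fintype.mem_piFinset] at hp
    funext b
    ext i
    rw [mem_filter, mem_biUnion]
    constructor
    · rintro ⟨⟨b', -, hb'⟩, h⟩
      have h2 := (mem_filter.1 (mem_powerset.1 (hp b') hb')).2
      rw [h] at h2
      rwa [h2]
    · intro h
      exact ⟨⟨b, mem_univ b, h⟩, (mem_filter.1 (mem_powerset.1 (hp b) h)).2⟩
  · intro D _
    ext i
    rw [mem_biUnion]
    constructor
    · rintro ⟨b, -, h⟩
      exact (mem_filter.1 h).1
    · intro h
      exact ⟨β i, mem_univ _, mem_filter.2 ⟨h, rfl⟩⟩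
  · intro p hp
    rw [Fintype.mem_piFinset] at hp
    refine prod_congr rfl fun b _ => ?_
    congr 1
    ext i
    rw [mem_filter, mem_biUnion]
    constructor
    · intro h
      exact ⟨⟨b, mem_univ b, h⟩, (mem_filter.1 (mem_powerset.1 (hp b) h)).2⟩
    · rintro ⟨⟨b', -, hb'⟩, h⟩
      have h2 := (mem_filter.1 (mem_powerset.1 (hp b') hb')).2
      rw [h] at h2
      rwa [h2]

theorem REM_cc {ι : Type} (l : ℕ) (S : Finset ι) :
    (cc l S.card : ℝ) = ∑ T ∈ S.powerset, if T.card ≤ 2 * l then (-1 : ℝ) ^ T.card else 0 := by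
  rw [Finset.sum_powerset_apply_card (fun m => if m ≤ 2 * l then (-1 : ℝ) ^ m else 0)]
  unfold cc
  push_cast
  have h1 : ∑ i ∈ range (2 * l + 1), (-1 : ℝ) ^ i * (S.card.choose i : ℝ) =
      ∑ i ∈ range (2 * l + 1 + S.card),
        (if i ≤ 2 * l then (-1 : ℝ) ^ i * (S.card.choose i : ℝ) else 0) := by
    rw [← Finset.sum_filter]
    apply Finset.sum_congr
    · ext i
      rw [mem_filter, mem_range, mem_range]
      omega
    · intro i _
      rfl
  have h2 : ∑ m ∈ range (S.card + 1), S.card.choose m • (if m ≤ 2 * l then (-1 : ℝ) ^ m else 0) =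
      ∑ m ∈ range (2 * l + 1 + S.card),
        S.card.choose m • (if m ≤ 2 * l then (-1 : ℝ) ^ m else 0) := by
    apply Finset.sum_subset
    · intro i hi
      rw [mem_range] at hi ⊢
      omega
    · intro i _ h
      rw [mem_range] at h
      rw [Nat.choose_eq_zero_of_lt (by omega), zero_smul]
  rw [h1, h2]
  refine sum_congr rfl fun m _ => ?_
  rw [nsmul_eq_mul]
  split_ifs
  · ring
  · ring

theorem REM_pcc {ι κ : Type} [Fintype κ] (β : ι → κ) (S : Finset ι) (l : κ → ℕ) :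
    ∏ b, (cc (l b) (S.filter fun i => β i = b).card : ℝ) =
      ∑ D ∈ S.powerset, if ∀ b, (D.filter fun i => β i = b).card ≤ 2 * l b then
        (-1 : ℝ) ^ D.card else 0 := by
  have h1 : ∀ b, (cc (l b) (S.filter fun i => β i = b).card : ℝ) =
      ∑ T ∈ (S.filter fun i => β i = b).powerset,
        if T.card ≤ 2 * l b then (-1 : ℝ) ^ T.card else 0 := fun b => REM_cc _ _
  rw [prod_congr rfl fun b _ => h1 b]
  rw [REM_prod β S fun b T => if T.card ≤ 2 * l b then (-1 : ℝ) ^ T.card else 0]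
  refine sum_congr rfl fun D _ => ?_
  rw [Finset.prod_ite_zero]
  have h2 : (∏ b, (-1 : ℝ) ^ (D.filter fun i => β i = b).card) = (-1 : ℝ) ^ D.card := by
    rw [Finset.prod_pow_eq_pow_sum]
    congr 1
    exact (Finset.card_eq_sum_card_fiberwise fun i _ => mem_univ (β i)).symm
  rw [h2]
  by_cases h3 : ∀ b, (D.filter fun i => β i = b).card ≤ 2 * l b
  · rw [if_pos h3, if_pos fun b _ => h3 b]
  · rw [if_neg h3, if_neg fun h4 => h3 fun b => h4 b (mem_univ b)]

/-- the pairs -/
noncomputable def REM_P {ι κ : Type} [Fintype ι] [Fintype κ] (β : ι → κ) (K : κ → ℕ) :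
    Finset (Finset ι) :=
  univ.filter fun D => ∀ b, (D.filter fun i => β i = b).card ≤ K b

theorem REM_mem {ι κ : Type} [Fintype ι] [Fintype κ] (β : ι → κ) (K : κ → ℕ) (D : Finset ι) :
    D ∈ REM_P β K ↔ ∀ b, (D.filter fun i => β i = b).card ≤ K b := by
  unfold REM_P
  rw [Finset.mem_filter]
  exact ⟨fun h => h.2, fun h => ⟨mem_univ D, h⟩⟩

/-- the functions of few coordinates -/
noncomputable def REM_h {ι : Type} [Fintype ι] {Q : ι → ℕ}
    (N : ∀ i, Finset (ZMod (Q i))) (r : ∀ i, ZMod (Q i)) (g : (∀ i, ZMod (Q i)) → ℝ)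
    (D D' : Finset ι) (x : ∀ i, ZMod (Q i)) : ℝ :=
  if D ⊆ sp N x ∧ D' ⊆ sp N x \ D then
    g (fun i => if i ∈ D then x i else r i) * (-1 : ℝ) ^ D'.card else 0

theorem REM_GG {ι κ : Type} [Fintype ι] [Fintype κ] {Q : ι → ℕ} (β : ι → κ)
    (N : ∀ i, Finset (ZMod (Q i))) (r : ∀ i, ZMod (Q i)) (g : (∀ i, ZMod (Q i)) → ℝ)
    (K l : κ → ℕ) (x : ∀ i, ZMod (Q i)) :
    GG β N r g K l x =
      ∑ D ∈ REM_P β K, ∑ D' ∈ REM_P β (fun b => 2 * l b), REM_h N r g D D' x := by
  unfold GG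
  have h1 : (sp N x).powerset.filter (fun D => ∀ b, (D.filter fun i => β i = b).card ≤ K b) =
      (REM_P β K).filter fun D => D ⊆ sp N x := by
    ext D
    rw [mem_filter, mem_filter, REM_mem, mem_powerset]
    exact ⟨fun h => ⟨h.2, h.1⟩, fun h => ⟨h.2, h.1⟩⟩
  rw [h1, sum_filter]
  refine sum_congr rfl fun D _ => ?_
  by_cases hD : D ⊆ sp N x
  · rw [if_pos hD, REM_pcc, mul_sum, ← sum_filter_add_sum_filter_not (sp N x \ D).powerset
      fun D' => ∀ b, (D'.filter fun i => β i = b).card ≤ 2 * l b]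
    have h2 : ∑ D' ∈ (sp N x \ D).powerset.filter
        (fun D' => ¬ ∀ b, (D'.filter fun i => β i = b).card ≤ 2 * l b),
        g (fun i => if i ∈ D then x i else r i) *
          (if ∀ b, (D'.filter fun i => β i = b).card ≤ 2 * l b then (-1 : ℝ) ^ D'.card else 0) =
        0 := by
      refine sum_eq_zero fun D' hD' => ?_
      rw [if_neg (mem_filter.1 hD').2, mul_zero]
    rw [h2, add_zero]
    have h3 : (sp N x \ D).powerset.filter
        (fun D' => ∀ b, (D'.filter fun i => β i = b).card ≤ 2 * l b) =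
        (REM_P β fun b => 2 * l b).filter fun D' => D' ⊆ sp N x \ D := by
      ext D'
      rw [mem_filter, mem_filter, REM_mem, mem_powerset]
      exact ⟨fun h => ⟨h.2, h.1⟩, fun h => ⟨h.2, h.1⟩⟩
    rw [h3, sum_filter]
    refine sum_congr rfl fun D' hD' => ?_
    unfold REM_h
    have h4 : ∀ b, (D'.filter fun i => β i = b).card ≤ 2 * l b :=
      (REM_mem β (fun b => 2 * l b) D').1 hD'
    by_cases h5 : D' ⊆ sp N x \ D
    · rw [if_pos h5, if_pos h4, if_pos ⟨hD, h5⟩]
    · rw [if_neg h5, if_neg fun h => h5 h.2]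
  · rw [if_neg hD]
    refine (sum_eq_zero fun D' _ => ?_).symm
    unfold REM_h
    rw [if_neg fun h => hD h.1]

theorem REM_bin (n k : ℕ) : ∑ i ∈ range (k + 1), n.choose i ≤ (n + 1) ^ k := by
  rw [add_pow n 1 k]
  refine sum_le_sum fun i hi => ?_
  rw [one_pow, mul_one]
  have h1 : n.choose i ≤ n ^ i := Nat.choose_le_pow n i
  have h2 : 1 ≤ k.choose i := Nat.choose_pos (by rw [mem_range] at hi; omega)
  calc n.choose i ≤ n ^ i := h1
    _ ≤ n ^ i * (k.choose i : ℕ) := Nat.le_mul_of_pos_right _ h2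
    _ = n ^ i * ((k.choose i : ℕ) : ℕ) := rfl

theorem REM_sub {ι : Type} (S : Finset ι) (k : ℕ) :
    ∑ T ∈ S.powerset, (if T.card ≤ k then (1 : ℝ) else 0) ≤ ((S.card : ℝ) + 1) ^ k := by
  rw [Finset.sum_powerset_apply_card (fun m => if m ≤ k then (1 : ℝ) else 0)]
  have h1 : ∑ m ∈ range (S.card + 1), S.card.choose m • (if m ≤ k then (1 : ℝ) else 0) ≤
      ∑ m ∈ range (k + 1), (S.card.choose m : ℝ) := by
    have h2 : ∑ m ∈ range (S.card + 1), S.card.choose m • (if m ≤ k then (1 : ℝ) else 0) =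
        ∑ m ∈ (range (S.card + 1)).filter (fun m => m ≤ k), (S.card.choose m : ℝ) := by
      rw [sum_filter]
      refine sum_congr rfl fun m _ => ?_
      rw [nsmul_eq_mul]
      split_ifs
      · rw [mul_one]
      · rw [mul_zero]
    rw [h2]
    refine sum_le_sum_of_subset_of_nonneg ?_ fun i _ _ => Nat.cast_nonneg _
    intro i hi
    rw [mem_filter] at hi
    rw [mem_range]
    omega
  refine h1.trans ?_
  exact_mod_cast REM_bin S.card k

theorem REM_card {ι κ : Type} [Fintype ι] [Fintype κ] (β : ι → κ) (K : κ → ℕ) :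
    ((REM_P β K).card : ℝ) ≤
      ∏ b, (((univ.filter fun i => β i = b).card : ℝ) + 1) ^ K b := by
  have h1 : ((REM_P β K).card : ℝ) = ∑ D ∈ (univ : Finset ι).powerset,
      ∏ b, (if (D.filter fun i => β i = b).card ≤ K b then (1 : ℝ) else 0) := by
    rw [Finset.card_eq_sum_ones]
    push_cast
    unfold REM_P
    rw [sum_filter, Finset.powerset_univ]
    refine sum_congr rfl fun D _ => ?_
    rw [Finset.prod_ite_zero, prod_const_one]
    by_cases h3 : ∀ b, (D.filter fun i => β i = b).card ≤ K b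
    · rw [if_pos h3, if_pos fun b _ => h3 b]
    · rw [if_neg h3, if_neg fun h4 => h3 fun b => h4 b (mem_univ b)]
  rw [h1, ← REM_prod β univ fun b T => if T.card ≤ K b then (1 : ℝ) else 0]
  refine prod_le_prod (fun b _ => sum_nonneg fun T _ => ?_) fun b _ => REM_sub _ _
  split_ifs <;> norm_num

theorem thm_REM (hC : St_CRT) : St_REM := by
  intro ι κ _ _ Q _ hQ β N r g hg K l X B hX hB
  have hX0 : (0 : ℝ) < X := by exact_mod_cast hX
  set PP : Finset (Finset ι × Finset ι) := REM_P β K ×ˢ REM_P β (fun b => 2 * l b) with hPP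
  have hGG : ∀ x, GG β N r g K l x = ∑ p ∈ PP, REM_h N r g p.1 p.2 x := by
    intro x
    rw [REM_GG, hPP, sum_product]
  have h1 : ∀ p ∈ PP,
      |(∑ m ∈ Ico X (2 * X), REM_h N r g p.1 p.2 (fun i => ((m : ℕ) : ZMod (Q i)))) / X -
        (∑ x, REM_h N r g p.1 p.2 x) / (Fintype.card (∀ i, ZMod (Q i)) : ℝ)| ≤ 2 * B / X := by
    intro p hp
    rw [hPP, mem_product] at hp
    have hp1 : ∀ b, (p.1.filter fun i => β i = b).card ≤ K b := (REM_mem β K p.1).1 hp.1
    have hp2 : ∀ b, (p.2.filter fun i => β i = b).card ≤ 2 * l b :=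
      (REM_mem β (fun b => 2 * l b) p.2).1 hp.2
    have h2 := hC ι Q hQ (p.1 ∪ p.2) (REM_h N r g p.1 p.2) X hX (fun x => by
      unfold REM_h
      split_ifs
      · rw [abs_mul, abs_pow, abs_neg, abs_one, one_pow, mul_one]
        exact hg _
      · rw [abs_zero]
        exact zero_le_one) (fun x y hxy => by
      unfold REM_h
      have e1 : (p.1 ⊆ sp N x ∧ p.2 ⊆ sp N x \ p.1) ↔ (p.1 ⊆ sp N y ∧ p.2 ⊆ sp N y \ p.1) := by
        have e2 : ∀ i ∈ p.1 ∪ p.2, (i ∈ sp N x ↔ i ∈ sp N y) := by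
          intro i hi
          unfold sp
          rw [mem_filter, mem_filter, hxy i hi]
        constructor
        · rintro ⟨ha, hb⟩
          refine ⟨fun i hi => (e2 i (mem_union_left _ hi)).1 (ha hi), fun i hi => ?_⟩
          have hc := mem_sdiff.1 (hb hi)
          exact mem_sdiff.2 ⟨(e2 i (mem_union_right _ hi)).1 hc.1, hc.2⟩
        · rintro ⟨ha, hb⟩
          refine ⟨fun i hi => (e2 i (mem_union_left _ hi)).2 (ha hi), fun i hi => ?_⟩
          have hc := mem_sdiff.1 (hb hi)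
          exact mem_sdiff.2 ⟨(e2 i (mem_union_right _ hi)).2 hc.1, hc.2⟩
      have e3 : (fun i => if i ∈ p.1 then x i else r i) = fun i => if i ∈ p.1 then y i else r i := by
        funext i
        by_cases hi : i ∈ p.1
        · rw [if_pos hi, if_pos hi, hxy i (mem_union_left _ hi)]
        · rw [if_neg hi, if_neg hi]
      by_cases e4 : p.1 ⊆ sp N x ∧ p.2 ⊆ sp N x \ p.1
      · rw [if_pos e4, if_pos (e1.1 e4), e3]
      · rw [if_neg e4, if_neg fun e5 => e4 (e1.2 e5)])
    refine h2.trans ?_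
    have h3 : ((∏ i ∈ p.1 ∪ p.2, Q i : ℕ) : ℝ) ≤ B := by
      have h4 : ∏ i ∈ p.1 ∪ p.2, Q i ≤ B := by
        apply hB
        intro b
        rw [filter_union]
        exact (card_union_le _ _).trans (Nat.add_le_add (hp1 b) (hp2 b))
      exact_mod_cast h4
    gcongr
  have h5 : (∑ m ∈ Ico X (2 * X), GG β N r g K l (fun i => ((m : ℕ) : ZMod (Q i)))) / X -
      (∑ x, GG β N r g K l x) / (Fintype.card (∀ i, ZMod (Q i)) : ℝ) =
      ∑ p ∈ PP, ((∑ m ∈ Ico X (2 * X), REM_h N r g p.1 p.2 (fun i => ((m : ℕ) : ZMod (Q i)))) / X -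
        (∑ x, REM_h N r g p.1 p.2 x) / (Fintype.card (∀ i, ZMod (Q i)) : ℝ)) := by
    rw [sum_sub_distrib, ← sum_div, ← sum_div, sum_comm, sum_comm (s := PP) (t := univ)]
    simp only [hGG]
  rw [h5]
  have hcard : ((PP.card : ℕ) : ℝ) ≤ NP β K l := by
    rw [hPP, card_product]
    push_cast
    have h6 := REM_card β K
    have h7 := REM_card β fun b => 2 * l b
    have h8 : NP β K l = (∏ b, (((univ.filter fun i => β i = b).card : ℝ) + 1) ^ K b) *
        ∏ b, (((univ.filter fun i => β i = b).card : ℝ) + 1) ^ (2 * l b) := by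
      unfold NP
      rw [← prod_mul_distrib]
      exact prod_congr rfl fun b _ => pow_add _ _ _
    rw [h8]
    exact mul_le_mul h6 h7 (Nat.cast_nonneg _) (prod_nonneg fun b _ => by positivity)
  calc |∑ p ∈ PP, ((∑ m ∈ Ico X (2 * X), REM_h N r g p.1 p.2 (fun i => ((m : ℕ) : ZMod (Q i)))) / X -
        (∑ x, REM_h N r g p.1 p.2 x) / (Fintype.card (∀ i, ZMod (Q i)) : ℝ))|
      ≤ ∑ p ∈ PP, |(∑ m ∈ Ico X (2 * X), REM_h N r g p.1 p.2 (fun i => ((m : ℕ) : ZMod (Q i)))) / X -
        (∑ x, REM_h N r g p.1 p.2 x) / (Fintype.card (∀ i, ZMod (Q i)) : ℝ)| :=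
        abs_sum_le_sum_abs _ _
    _ ≤ ∑ p ∈ PP, 2 * (B : ℝ) / X := sum_le_sum h1
    _ = 2 * B / X * PP.card := by rw [sum_const, nsmul_eq_mul, mul_comm]
    _ ≤ 2 * B / X * NP β K l := mul_le_mul_of_nonneg_left hcard (by positivity)

end Pool.Agent.RMS
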