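import Pool.Agent.RMS.St3
import Pool.Agent.RMS.TAIL

/-! RMS: module TLZ (helper55). -/

set_option autoImplicit false

namespace Pool.Agent.RMS

open Finset
open Classical

theorem TLZ_NP {ι κ : Type} [Fintype ι] [Fintype κ] (β : ι → κ) (K l : κ → ℕ) (b : κ)
    (hl : 1 ≤ l b) :
    ((powersetCard (K b + 1) (univ.filter fun i => β i = b)).card : ℝ) ≤ NP β K l := by
  set n : ℕ := (univ.filter fun i => β i = b).card with hn
  have h1 : (powersetCard (K b + 1) (univ.filter fun i => β i = b)).card ≤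
      (n + 1) ^ (K b + 2 * l b) := by
    rw [card_powersetCard, ← hn]
    calc n.choose (K b + 1) ≤ n ^ (K b + 1) := Nat.choose_le_pow n (K b + 1)
      _ ≤ (n + 1) ^ (K b + 1) := Nat.pow_le_pow_left (Nat.le_succ n) _
      _ ≤ (n + 1) ^ (K b + 2 * l b) := Nat.pow_le_pow_right (Nat.succ_pos n) (by omega)
  have h2 : ((powersetCard (K b + 1) (univ.filter fun i => β i = b)).card : ℝ) ≤
      ((n : ℝ) + 1) ^ (K b + 2 * l b) := by exact_mod_cast h1
  refine h2.trans ?_
  unfold NP
  have h3 : ∀ c : κ, (1 : ℝ) ≤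
      (((univ.filter fun i => β i = c).card : ℝ) + 1) ^ (K c + 2 * l c) := fun c =>
    one_le_pow₀ (by linarith [Nat.cast_nonneg (α := ℝ) (univ.filter fun i => β i = c).card])
  have h4 := prod_le_prod_of_subset_of_one_le (R := ℝ) (s := {b}) (t := univ)
    (f := fun c => (((univ.filter fun i => β i = c).card : ℝ) + 1) ^ (K c + 2 * l c))
    (subset_univ _) (fun c _ => zero_le_one.trans (h3 c)) (fun c _ _ => h3 c)
  rw [prod_singleton] at h4
  exact h4

theorem thm_TLZ (hC : St_CRT) : St_TLZ := by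
  intro ι κ _ _ Q _ hcop β N L K l X B hX hL hl hB b
  have hXR : (0 : ℝ) < X := by exact_mod_cast hX
  set g : ι → ℝ := fun i => ((N i).card : ℝ) / Q i with hg
  have hg0 : ∀ i, 0 ≤ g i := fun i => by rw [hg]; positivity
  set P : Finset (Finset ι) := powersetCard (K b + 1) (univ.filter fun i => β i = b) with hP
  have h1 : (((Ico X (2 * X)).filter fun m : ℕ =>
        K b < ((sp N (fun i => ((m : ℕ) : ZMod (Q i)))).filter fun i => β i = b).card).card : ℝ) ≤
      ∑ m ∈ Ico X (2 * X), ∑ D ∈ P,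
        (if D ⊆ sp N (fun i => ((m : ℕ) : ZMod (Q i))) then (1 : ℝ) else 0) := by
    rw [card_filter, Nat.cast_sum]
    refine sum_le_sum fun m _ => ?_
    by_cases hx : K b < ((sp N (fun i => ((m : ℕ) : ZMod (Q i)))).filter fun i => β i = b).card
    · rw [if_pos hx]
      obtain ⟨D, hD, hDc⟩ := exists_subset_card_eq
        (s := (sp N (fun i => ((m : ℕ) : ZMod (Q i)))).filter fun i => β i = b) (n := K b + 1) hx
      have h2 : D ∈ P := by
        rw [hP]
        refine mem_powersetCard.2 ⟨fun i hi => ?_, hDc⟩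
        exact mem_filter.2 ⟨mem_univ i, (mem_filter.1 (hD hi)).2⟩
      have hD' : D ⊆ sp N (fun i => ((m : ℕ) : ZMod (Q i))) := fun i hi => (mem_filter.1 (hD hi)).1
      have h3 := single_le_sum
        (f := fun D => if D ⊆ sp N (fun i => ((m : ℕ) : ZMod (Q i))) then (1 : ℝ) else 0)
        (fun D _ => by positivity) h2
      rw [if_pos hD'] at h3
      simpa using h3
    · rw [if_neg hx]
      simp only [Nat.cast_zero]
      exact sum_nonneg fun D _ => by positivity
  have h2 : ∀ D ∈ P, (∑ m ∈ Ico X (2 * X),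
      (if D ⊆ sp N (fun i => ((m : ℕ) : ZMod (Q i))) then (1 : ℝ) else 0)) / X ≤
      ∏ i ∈ D, g i + 2 * B / X := by
    intro D hD
    have hD2 := mem_powersetCard.1 hD
    have h3 := hC ι Q hcop D (fun x => if D ⊆ sp N x then (1 : ℝ) else 0) X hX
      (fun x => by
        by_cases h : D ⊆ sp N x
        · rw [if_pos h, abs_one]
        · rw [if_neg h, abs_zero]
          exact zero_le_one)
      (fun x y hxy => by
        have h : D ⊆ sp N x ↔ D ⊆ sp N y := by
          constructor
          · intro h i hi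
            exact (TAIL_mem N y i).2 (hxy i hi ▸ (TAIL_mem N x i).1 (h hi))
          · intro h i hi
            exact (TAIL_mem N x i).2 ((hxy i hi).symm ▸ (TAIL_mem N y i).1 (h hi))
        change (if D ⊆ sp N x then (1 : ℝ) else 0) = (if D ⊆ sp N y then (1 : ℝ) else 0)
        by_cases h' : D ⊆ sp N x
        · rw [if_pos h', if_pos (h.1 h')]
        · rw [if_neg h', if_neg fun h'' => h' (h.2 h'')])
    have h4 := TAIL_mean Q N D
    have h5 : ∏ i ∈ D, Q i ≤ B := by
      refine hB D fun c => ?_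
      by_cases hc : c = b
      · subst hc
        have h6 : (D.filter fun i => β i = c).card ≤ D.card := card_filter_le _ _
        rw [hD2.2] at h6
        have := hl c
        omega
      · have h6 : (D.filter fun i => β i = c) = ∅ := by
          refine filter_eq_empty_iff.2 fun i hi h7 => hc ?_
          rw [← h7]
          exact (mem_filter.1 (hD2.1 hi)).2
        rw [h6, card_empty]
        exact Nat.zero_le _
    have h6 : ((∏ i ∈ D, Q i : ℕ) : ℝ) ≤ B := by exact_mod_cast h5
    have h7 : 2 * ((∏ i ∈ D, Q i : ℕ) : ℝ) / X ≤ 2 * B / X :=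
      div_le_div_of_nonneg_right (by linarith) hXR.le
    have h8 := (abs_le.1 h3).2
    have h9 : (∑ x : (∀ i, ZMod (Q i)), if D ⊆ sp N x then (1 : ℝ) else 0) /
      (Fintype.card (∀ i, ZMod (Q i)) : ℝ) = ∏ i ∈ D, g i := h4
    rw [h9] at h8
    linarith
  have h3 : ∑ D ∈ P, ∏ i ∈ D, g i ≤ L b ^ (K b + 1) / (K b + 1).factorial := by
    refine (TAIL_esymm g hg0 _ (K b + 1)).trans ?_
    refine div_le_div_of_nonneg_right (pow_le_pow_left₀ (sum_nonneg fun i _ => hg0 i) (hL b) _)
      (Nat.cast_nonneg _)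
  have h4 : (P.card : ℝ) ≤ NP β K l := TLZ_NP β K l b (hl b)
  have h5 : (0 : ℝ) ≤ 2 * B / X := by positivity
  calc _ ≤ (∑ m ∈ Ico X (2 * X), ∑ D ∈ P,
        (if D ⊆ sp N (fun i => ((m : ℕ) : ZMod (Q i))) then (1 : ℝ) else 0)) / X :=
        div_le_div_of_nonneg_right h1 hXR.le
    _ = ∑ D ∈ P, (∑ m ∈ Ico X (2 * X),
        (if D ⊆ sp N (fun i => ((m : ℕ) : ZMod (Q i))) then (1 : ℝ) else 0)) / X := by
        rw [sum_comm, sum_div]
    _ ≤ ∑ D ∈ P, (∏ i ∈ D, g i + 2 * B / X) := sum_le_sum h2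
    _ = ∑ D ∈ P, ∏ i ∈ D, g i + P.card * (2 * B / X) := by
        rw [sum_add_distrib, sum_const, nsmul_eq_mul]
    _ ≤ L b ^ (K b + 1) / (K b + 1).factorial + 2 * B / X * NP β K l := by
        have h6 := mul_le_mul_of_nonneg_right h4 h5
        linarith

end Pool.Agent.RMS
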