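import Pool.Agent.RMS.St3

/-!
RMS, module TRG: transfer with blocks (statement in St3.lean).
-/

set_option autoImplicit false
set_option linter.unusedSectionVars false

namespace Pool.Agent.RMS

open Finset Filter
open Classical

section

variable {ι κ : Type} [Fintype ι] [Fintype κ] {Q : ι → ℕ}

theorem TRG_nonneg (hG : St_GB) (β : ι → κ) (l : κ → ℕ) (S : Finset ι) :
    0 ≤ ∏ b, (cc (l b) (S.filter fun i => β i = b).card : ℝ) :=
  Finset.prod_nonneg fun b _ => by exact_mod_cast (hG (l b) _).2.1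

theorem TRG_self (hG : St_GB) (β : ι → κ) (l : κ → ℕ) (S : Finset ι) :
    ∏ b, (cc (l b) ((S \ S).filter fun i => β i = b).card : ℝ) = 1 := by
  refine Finset.prod_eq_one fun b _ => ?_
  rw [Finset.sdiff_self, filter_empty, card_empty, (hG (l b) 0).1, Int.cast_one]

theorem TRG_inv (N : ∀ i, Finset (ZMod (Q i))) (r : ∀ i, ZMod (Q i))
    (g : (∀ i, ZMod (Q i)) → ℝ) (hg : ∀ x, g x = g (fun i => if x i ∈ N i then x i else r i))
    (x : ∀ i, ZMod (Q i)) : g (fun i => if i ∈ sp N x then x i else r i) = g x := by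
  rw [hg x]
  congr 1
  funext i
  have h1 : i ∈ sp N x ↔ x i ∈ N i := by
    unfold sp
    rw [mem_filter]
    exact ⟨fun h => h.2, fun h => ⟨mem_univ i, h⟩⟩
  by_cases h : x i ∈ N i
  · rw [if_pos h, if_pos (h1.2 h)]
  · rw [if_neg h, if_neg (fun h2 => h (h1.1 h2))]

theorem TRG_GG0 (hG : St_GB) (β : ι → κ) (N : ∀ i, Finset (ZMod (Q i))) (r : ∀ i, ZMod (Q i))
    (g : (∀ i, ZMod (Q i)) → ℝ) (h0 : ∀ x, 0 ≤ g x) (K l : κ → ℕ) (x : ∀ i, ZMod (Q i)) :
    0 ≤ GG β N r g K l x := by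
  unfold GG
  exact Finset.sum_nonneg fun D _ => mul_nonneg (h0 _) (TRG_nonneg hG β l _)

theorem TRG_low (hG : St_GB) (β : ι → κ) (N : ∀ i, Finset (ZMod (Q i))) (r : ∀ i, ZMod (Q i))
    (g : (∀ i, ZMod (Q i)) → ℝ) (h0 : ∀ x, 0 ≤ g x) (h1 : ∀ x, g x ≤ 1)
    (hg : ∀ x, g x = g (fun i => if x i ∈ N i then x i else r i)) (K l : κ → ℕ)
    (x : ∀ i, ZMod (Q i)) :
    g x ≤ GG β N r g K l x +
      ∑ b, (if K b < ((sp N x).filter fun i => β i = b).card then (1 : ℝ) else 0) := by
  by_cases h : ∀ b, ((sp N x).filter fun i => β i = b).card ≤ K b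
  · have h2 : g x ≤ GG β N r g K l x := by
      unfold GG
      have hmem : sp N x ∈ (sp N x).powerset.filter
          (fun D => ∀ b, (D.filter fun i => β i = b).card ≤ K b) :=
        mem_filter.2 ⟨mem_powerset_self _, h⟩
      have h3 := Finset.single_le_sum (f := fun D => g (fun i => if i ∈ D then x i else r i) *
        ∏ b, (cc (l b) ((sp N x \ D).filter fun i => β i = b).card : ℝ))
        (fun D _ => mul_nonneg (h0 _) (TRG_nonneg hG β l _)) hmem
      refine le_trans (le_of_eq ?_) h3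
      show g x = g (fun i => if i ∈ sp N x then x i else r i) *
        ∏ b, (cc (l b) ((sp N x \ sp N x).filter fun i => β i = b).card : ℝ)
      rw [TRG_self hG, mul_one, TRG_inv N r g hg]
    refine h2.trans (le_add_of_nonneg_right (Finset.sum_nonneg fun b _ => ?_))
    split_ifs
    · exact zero_le_one
    · exact le_rfl
  · push Not at h
    obtain ⟨b, hb⟩ := h
    have h3 : (1 : ℝ) ≤ ∑ b, (if K b < ((sp N x).filter fun i => β i = b).card then
        (1 : ℝ) else 0) := by
      have h4 := Finset.single_le_sum (f := fun b =>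
        (if K b < ((sp N x).filter fun i => β i = b).card then (1 : ℝ) else 0))
        (fun b _ => by
          show 0 ≤ (if K b < ((sp N x).filter fun i => β i = b).card then (1 : ℝ) else 0)
          split_ifs
          · exact zero_le_one
          · exact le_rfl) (mem_univ b)
      refine le_trans (le_of_eq ?_) h4
      show 1 = (if K b < ((sp N x).filter fun i => β i = b).card then (1 : ℝ) else 0)
      rw [if_pos hb]
    exact ((h1 x).trans h3).trans (le_add_of_nonneg_left (TRG_GG0 hG β N r g h0 K l x))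

theorem TRG_up (hG : St_GB) (β : ι → κ) (N : ∀ i, Finset (ZMod (Q i))) (r : ∀ i, ZMod (Q i))
    (g : (∀ i, ZMod (Q i)) → ℝ) (h0 : ∀ x, 0 ≤ g x) (h1 : ∀ x, g x ≤ 1)
    (hg : ∀ x, g x = g (fun i => if x i ∈ N i then x i else r i)) (K l : κ → ℕ)
    (x : ∀ i, ZMod (Q i)) :
    GG β N r g K l x ≤ g x + (∑ D ∈ (sp N x).powerset,
        ∏ b, (cc (l b) ((sp N x \ D).filter fun i => β i = b).card : ℝ)) - 1 := by
  have h2 : GG β N r g K l x ≤ ∑ D ∈ (sp N x).powerset,
      g (fun i => if i ∈ D then x i else r i) *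
        ∏ b, (cc (l b) ((sp N x \ D).filter fun i => β i = b).card : ℝ) := by
    unfold GG
    exact Finset.sum_le_sum_of_subset_of_nonneg (filter_subset _ _)
      (fun D _ _ => mul_nonneg (h0 _) (TRG_nonneg hG β l _))
  refine h2.trans ?_
  have hself := mem_powerset_self (sp N x)
  rw [← Finset.add_sum_erase _ _ hself, ← Finset.add_sum_erase _ (fun D =>
    ∏ b, (cc (l b) ((sp N x \ D).filter fun i => β i = b).card : ℝ)) hself]
  show g (fun i => if i ∈ sp N x then x i else r i) *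
        ∏ b, (cc (l b) ((sp N x \ sp N x).filter fun i => β i = b).card : ℝ) + _ ≤
      g x + (∏ b, (cc (l b) ((sp N x \ sp N x).filter fun i => β i = b).card : ℝ) + _) - 1
  rw [TRG_self hG, mul_one, TRG_inv N r g hg]
  have h3 : ∑ D ∈ (sp N x).powerset.erase (sp N x),
      g (fun i => if i ∈ D then x i else r i) *
        ∏ b, (cc (l b) ((sp N x \ D).filter fun i => β i = b).card : ℝ) ≤
      ∑ D ∈ (sp N x).powerset.erase (sp N x),
        ∏ b, (cc (l b) ((sp N x \ D).filter fun i => β i = b).card : ℝ) :=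
    Finset.sum_le_sum fun D _ => mul_le_of_le_one_left (TRG_nonneg hG β l _) (h1 _)
  linarith

end

theorem thm_TRG (hG : St_GB) (hE : St_GEX) (hR : St_REM) (hT : St_TLZ) : St_TRG := by
  intro ι κ _ _ Q _ hQ β N r f hf0 hf1 hf L K l X B hX hL hl hB
  obtain ⟨g, hgd⟩ : ∃ g : (∀ i, ZMod (Q i)) → ℝ, ∀ x, g x = 1 - f x := ⟨fun x => 1 - f x, fun _ => rfl⟩
  have g0 : ∀ x, 0 ≤ g x := fun x => by rw [hgd]; linarith [hf1 x]
  have g1 : ∀ x, g x ≤ 1 := fun x => by rw [hgd]; linarith [hf0 x]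
  have ginv : ∀ x, g x = g (fun i => if x i ∈ N i then x i else r i) := fun x => by
    rw [hgd, hgd, ← hf x]
  have gabs : ∀ x, |g x| ≤ 1 := fun x => abs_le.2 ⟨by linarith [g0 x], g1 x⟩
  have hXr : (0 : ℝ) < X := by exact_mod_cast hX
  have hMr : (0 : ℝ) < (Fintype.card (∀ i, ZMod (Q i)) : ℝ) := by exact_mod_cast Fintype.card_pos
  -- remainder
  have hrem := (abs_le.1 (hR ι κ Q hQ β N r g gabs K l X B hX hB)).2
  have htl := hT ι κ Q hQ β N L K l X B hX hL hl hB
  have hgex := hE ι κ Q β N L l hL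
  -- integers
  have hZ : (∑ m ∈ Ico X (2 * X), g (fun i => ((m : ℕ) : ZMod (Q i)))) / X ≤
      (∑ m ∈ Ico X (2 * X), GG β N r g K l (fun i => ((m : ℕ) : ZMod (Q i)))) / X +
      ∑ b, (L b ^ (K b + 1) / (K b + 1).factorial + 2 * B / X * NP β K l) := by
    have h2 : ∑ m ∈ Ico X (2 * X), g (fun i => ((m : ℕ) : ZMod (Q i))) ≤
        ∑ m ∈ Ico X (2 * X), GG β N r g K l (fun i => ((m : ℕ) : ZMod (Q i))) +
        ∑ b, (((Ico X (2 * X)).filter fun m : ℕ =>
          K b < ((sp N (fun i => ((m : ℕ) : ZMod (Q i)))).filter fun i => β i = b).card).card : ℝ) := by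
      have h3 : ∀ b, (((Ico X (2 * X)).filter fun m : ℕ =>
          K b < ((sp N (fun i => ((m : ℕ) : ZMod (Q i)))).filter fun i => β i = b).card).card : ℝ) =
          ∑ m ∈ Ico X (2 * X), (if K b < ((sp N (fun i => ((m : ℕ) : ZMod (Q i)))).filter
            fun i => β i = b).card then (1 : ℝ) else 0) := by
        intro b
        rw [Finset.card_filter]
        push_cast
        rfl
      rw [Finset.sum_congr rfl fun b _ => h3 b, Finset.sum_comm, ← Finset.sum_add_distrib]
      exact Finset.sum_le_sum fun m _ => TRG_low hG β N r g g0 g1 ginv K l _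
    have h4 := div_le_div_of_nonneg_right h2 hXr.le
    rw [add_div] at h4
    refine h4.trans (add_le_add le_rfl ?_)
    rw [Finset.sum_div]
    exact Finset.sum_le_sum fun b _ => htl b
  -- product space
  have hP : (∑ x, GG β N r g K l x) / (Fintype.card (∀ i, ZMod (Q i)) : ℝ) ≤
      (∑ x, g x) / (Fintype.card (∀ i, ZMod (Q i)) : ℝ) +
      Real.exp (∑ b, Real.exp (L b) * L b ^ (2 * l b) / (2 * l b).factorial) - 1 := by
    have h2 : ∑ x, GG β N r g K l x ≤ ∑ x, g x +
        (∑ x : (∀ i, ZMod (Q i)), ∑ D ∈ (sp N x).powerset,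
          ∏ b, (cc (l b) ((sp N x \ D).filter fun i => β i = b).card : ℝ)) -
        (Fintype.card (∀ i, ZMod (Q i)) : ℝ) := by
      have h3 : (Fintype.card (∀ i, ZMod (Q i)) : ℝ) = ∑ x : (∀ i, ZMod (Q i)), (1 : ℝ) := by
        rw [Finset.sum_const, nsmul_eq_mul, mul_one, Finset.card_univ]
      rw [h3, ← Finset.sum_add_distrib, ← Finset.sum_sub_distrib]
      exact Finset.sum_le_sum fun x _ => TRG_up hG β N r g g0 g1 ginv K l x
    have h4 := div_le_div_of_nonneg_right h2 hMr.le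
    rw [sub_div, add_div, div_self hMr.ne'] at h4
    linarith
  -- passage to `f`
  have hEf : (∑ x, f x) / (Fintype.card (∀ i, ZMod (Q i)) : ℝ) =
      1 - (∑ x, g x) / (Fintype.card (∀ i, ZMod (Q i)) : ℝ) := by
    have h3 : ∑ x, g x = (Fintype.card (∀ i, ZMod (Q i)) : ℝ) - ∑ x, f x := by
      rw [Finset.sum_congr rfl fun x _ => hgd x, Finset.sum_sub_distrib, Finset.sum_const,
        nsmul_eq_mul, mul_one, Finset.card_univ]
    rw [h3, sub_div, div_self hMr.ne']
    ring
  have hZf : (∑ m ∈ Ico X (2 * X), f (fun i => ((m : ℕ) : ZMod (Q i)))) / X =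
      1 - (∑ m ∈ Ico X (2 * X), g (fun i => ((m : ℕ) : ZMod (Q i)))) / X := by
    have h3 : ∑ m ∈ Ico X (2 * X), g (fun i => ((m : ℕ) : ZMod (Q i))) =
        (X : ℝ) - ∑ m ∈ Ico X (2 * X), f (fun i => ((m : ℕ) : ZMod (Q i))) := by
      rw [Finset.sum_congr rfl fun m _ => hgd _, Finset.sum_sub_distrib, Finset.sum_const,
        nsmul_eq_mul, mul_one, Nat.card_Ico]
      congr 2
      omega
    rw [h3, sub_div, div_self hXr.ne']
    ring
  rw [Finset.sum_add_distrib, Finset.sum_const, Finset.card_univ, nsmul_eq_mul] at hZ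
  rw [hEf, hZf]
  linarith

end Pool.Agent.RMS
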