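import Pool.Agent.RMS.Main
import Pool.Agent.RMS.GB
import Pool.Agent.RMS.IND
import Pool.Agent.RMS.GEX
import Pool.Agent.RMS.REM
import Pool.Agent.RMS.TLZ
import Pool.Agent.RMS.TRG
import Pool.Agent.RMS.HST
import Pool.Agent.RMS.HPR
import Pool.Agent.RMS.HTR
import Pool.Agent.RMS.HBL
import Pool.Agent.RMS.HNE
import Pool.Agent.RMS.HNR
import Pool.Agent.RMS.HAP
import Pool.Agent.RMS.HRE
import Pool.Agent.RMS.HPA
import Pool.Agent.RMS.HSU
import Pool.Agent.RMS.THH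
import Pool.Agent.RMS.HCO

/-!
RMS: assembly of Theorem H and its corollary (MP_7d9581_nt).
-/

set_option autoImplicit false

namespace Pool.Agent.RMS

open Finset Filter

theorem trg : St_TRG :=
  thm_TRG thm_GB (thm_GEX thm_GB thm_IND thm_TAIL) (thm_REM thm_CRT) (thm_TLZ thm_CRT)

/-- Theorem H. -/
theorem primes_window : St_THH :=
  thm_THH thm_HBL thm_HNE thm_HNR (thm_HRE thm_BASE) thm_ERD thm_HPA thm_HTR thm_HSU
    (thm_HAP trg) (thm_HST thm_HIT) thm_HPR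

/-- Corollary of Theorem H: sets of primes of small lower logarithmic relative density. -/
theorem primes_sparse : ∃ α : ℝ, 0 < α ∧ ∀ A : Set ℕ, A.Infinite →
    Summable ({a | a ∈ A ∧ ¬ a.Prime}.indicator fun a : ℕ => (1 : ℝ) / a) →
    (∃ᶠ x : ℕ in atTop, RS {p | p ∈ A ∧ p.Prime} 0 x ≤ α * Real.log (Real.log x)) →
    Irrational (∑' n : A, (1 : ℝ) / (2 ^ n.1 - 1)) := by
  obtain ⟨V, c0, hV, hc0, h⟩ := primes_window
  obtain ⟨α, hα, h2⟩ := thm_HCO V c0 hV hc0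
  exact ⟨α, hα, fun A hA hs hx => h A hA hs (h2 _ hx)⟩

end Pool.Agent.RMS
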