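import Mathlib

/-!
RMS (MP_7d9581_nt, helper20): `∑ 1/(2^a-1)` over `a` in `A` is irrational when the sum of `1/a` over the
`a ≤ x` of `A` is at most `(log log x)^(1-c)` for arbitrarily large `x`.  Definitions and the statements
of the modules; the proofs are in the docstrings.  Paper: /team-store/RMS7_paper_helper20.md.
Every module proves `theorem thm_NAME : St_NAME`, or `theorem thm_NAME (h : St_OTHER) ... : St_NAME`.
-/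

set_option autoImplicit false

namespace Pool.Agent.RMS

open Finset
open Classical

/-! ### Definitions: integers -/

/-- number of the elements of `A` which divide `n` (for `n ≥ 1`) -/
noncomputable def dA (A : Set ℕ) (n : ℕ) : ℕ := (n.divisors.filter fun a => a ∈ A).card

/-- number of the elements of `A` above `Y` which divide `n` (for `n ≥ 1`) -/
noncomputable def dG (A : Set ℕ) (Y n : ℕ) : ℕ := (n.divisors.filter fun a => a ∈ A ∧ Y < a).card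

/-- number of the elements of the finite set `B` which divide `n` -/
def dF (B : Finset ℕ) (n : ℕ) : ℕ := (B.filter fun a => a ∣ n).card

/-- the elements `1 ≤ a ≤ Y` of `A` -/
noncomputable def AY (A : Set ℕ) (Y : ℕ) : Finset ℕ := (Icc 1 Y).filter fun a => a ∈ A

/-- `T(m) = ∑_{i ≥ 1} d_A(m+i) / 2^i` -/
noncomputable def TA (A : Set ℕ) (m : ℕ) : ℝ := ∑' i : ℕ, (dA A (m + 1 + i) : ℝ) / 2 ^ (i + 1)

/-- the truncated sum `∑_{1 ≤ i ≤ J} d_B(m+i) / 2^i` -/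
noncomputable def TF (B : Finset ℕ) (J m : ℕ) : ℝ := ∑ i ∈ Icc 1 J, (dF B (m + i) : ℝ) / 2 ^ i

/-- the part `i > J` of the sum for a finite set `B` -/
noncomputable def R2 (B : Finset ℕ) (J m : ℕ) : ℝ :=
  ∑' i : ℕ, (dF B (m + 1 + (J + i)) : ℝ) / 2 ^ (J + i + 1)

/-- sum of the reciprocals of the elements of `A` in `(y, z]` -/
noncomputable def RS (A : Set ℕ) (y z : ℕ) : ℝ :=
  ∑ a ∈ Ioc y z, A.indicator (fun a : ℕ => (1 : ℝ) / a) a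

/-- distance to the nearest integer -/
noncomputable def nrm (t : ℝ) : ℝ := |t - round t|

/-! ### Definitions: uniform probability and the product space -/

/-- uniform probability on a finite type -/
noncomputable def pr {α : Type} [Fintype α] (P : α → Prop) : ℝ :=
  ((univ.filter P).card : ℝ) / (Fintype.card α : ℝ)

/-- the modulus at `i`: the power `i^k ≤ Y < i^(k+1)` if `i` is prime, `1` otherwise -/
def QQ (Y i : ℕ) : ℕ := if i.Prime then i ^ Nat.log i Y else 1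

instance QQ_neZero (Y i : ℕ) : NeZero (QQ Y i) := ⟨by
  unfold QQ
  split_ifs with h
  · exact pow_ne_zero _ h.ne_zero
  · exact one_ne_zero⟩

/-- the product space, a finite commutative ring; a natural number `m` gives the point `(m : Om Y)` -/
abbrev Om (Y : ℕ) : Type := ∀ i : Fin (Y + 1), ZMod (QQ Y i)

/-- `a` divides the point `x` (for `1 ≤ a ≤ Y`); at a nonprime `i` the exponent is `0` -/
def dv {Y : ℕ} (a : ℕ) (x : Om Y) : Prop :=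
  ∀ i : Fin (Y + 1), (i : ℕ) ^ (a.factorization i) ∣ (x i).val

/-- number of the elements of `B` which divide the point `x` -/
noncomputable def DD {Y : ℕ} (B : Finset ℕ) (x : Om Y) : ℕ := (B.filter fun a => dv a x).card

/-- the truncated sum on the product space -/
noncomputable def TT {Y : ℕ} (B : Finset ℕ) (J : ℕ) (x : Om Y) : ℝ :=
  ∑ i ∈ Icc 1 J, (DD B (x + ((i : ℕ) : Om Y)) : ℝ) / 2 ^ i

/-- probability that some `a` in `B` with a prime factor `≥ w` divides the random point -/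
noncomputable def lam (Y : ℕ) (B : Finset ℕ) (w : ℕ) : ℝ :=
  pr (fun x : Om Y => ∃ a ∈ B, (∃ p : ℕ, p.Prime ∧ p ∣ a ∧ w ≤ p) ∧ dv a x)

/-- probability that at least `2^e` elements of `B` divide the random point -/
noncomputable def Fn (Y : ℕ) (B : Finset ℕ) (e : ℕ) : ℝ := pr (fun x : Om Y => 2 ^ e ≤ DD B x)

/-- the support of `x` -/
noncomputable def sp {ι : Type} [Fintype ι] {Q : ι → ℕ} (N : ∀ i, Finset (ZMod (Q i)))
    (x : ∀ i, ZMod (Q i)) : Finset ι := univ.filter fun i => x i ∈ N i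

/-- alternating truncated binomial sum -/
def bb (l n : ℕ) : ℤ := ∑ i ∈ range (2 * l), (-1) ^ i * (n.choose i : ℤ)

/-! ### Integers -/

/-- [BASE].  PROOF.  (a) Only `a ≥ 1` counts (`1/(2^0-1) = 0`).  `1/(2^a-1) = ∑_{n ≥ 1, a ∣ n} 2^(-n)`, and the double
series (nonnegative terms; for fixed `n` the sum over `a` is `dA A n / 2^n ≤ n/2^n`) gives
`S = ∑_{n ≥ 1} dA A n / 2^n` (`summable_prod_of_nonneg`, `Summable.tsum_comm'`, or in `ENNReal`; `dA A 0 = 0`).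
(b) Multiply by `2^m` and split off `n ≤ m`: `2^m S = integer + TA A m` for every `m`.
(c) `S = u/v`, `v = 2^s b` with `b` odd.  Let `h = φ(b) ≥ 1`: `b ∣ 2^h - 1`.  Put `κ m = Int.fract (2^(m + s h) S)`.
`κ (m+h) = κ m`, since `2^(m+sh)(2^h-1) S` is an integer (`m + s h ≥ s`).  For `m ≥ s`: `2^(m+sh) S - 2^m S =
2^m (2^(sh) - 1) S` is an integer (`b ∣ 2^h - 1 ∣ 2^(sh) - 1`), so `TA A m = κ m + z`.
Compare `Pool.Agent.Helper89.Defect` (`exists_period`, `summable_inv`). -/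
def St_BASE : Prop :=
  ∀ A : Set ℕ, ¬ Irrational (∑' n : A, (1 : ℝ) / (2 ^ n.1 - 1)) →
    ∃ (h s : ℕ) (κ : ℕ → ℝ), 1 ≤ h ∧ (∀ m, κ (m + h) = κ m) ∧
      ∀ m, s ≤ m → ∃ z : ℤ, TA A m = κ m + z

/-- [TRP], pointwise.  PROOF.  For `n ≥ 1`: `dA A n = dF (AY A Y) n + dG A Y n`.  Everything is summable (`d(n) ≤ n`).
So `TA A m = TF (AY A Y) J m + R2 (AY A Y) J m + R3`, `R3 = ∑' i, dG A Y (m+1+i) / 2^(i+1)`.  Suppose that
`dG A Y (m+i) < 2^((i-(j+8))/2)` for all `1 ≤ i ≤ X` (natural subtraction and division; so `dG = 0` for `i ≤ j+9`).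
Then the part `i ≤ X` of `R3` is at most `∑_{r ≥ 1} 2^(r/2) / 2^(j+8+r) ≤ 2/2^(j+8)` (`i = j+8+r`; the sum of
`2^(r/2 - r)` over `r ≥ 1` is `1/2+1/2+1/4+1/4+... = 2`), and the part `i > X` is at most
`∑_{i > X} (m+i)/2^i ≤ ∑_{i > X} 3 i/2^i = 3 (X+2)/2^X ≤ 1/2^(j+7)` because `2^X ≥ 2^(j+10) 2^(X/2)` roughly
(`X ≥ 2j+20`; all you need is `2^(j+7) * 3 * (X+2) ≤ 2^X`).  So `R3 ≤ 1/2^(j+6) < 1/2^(j+4)`.
As `TF - κ = z - R2 - R3` with an integer `z`, `nrm (TF - κ) ≤ R2 + R3` (`|t - round t| ≤ |t - z|`: `round_le`),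
so `1/2^(j+3) < R2 + R3` gives `R2 > 1/2^(j+4)`. -/
def St_TRP : Prop :=
  ∀ (A : Set ℕ) (κ : ℕ → ℝ) (X Y J j m : ℕ), (∃ z : ℤ, TA A m = κ m + z) →
    2 * j + 20 ≤ X → m < 2 * X → (1 : ℝ) / 2 ^ (j + 3) < nrm (TF (AY A Y) J m - κ m) →
    (∃ i ∈ Icc 1 X, 2 ^ ((i - (j + 8)) / 2) ≤ dG A Y (m + i)) ∨
      (1 : ℝ) / 2 ^ (j + 4) < R2 (AY A Y) J m

/-- [TRM], means.  PROOF.  `#{m ∈ [X,2X) : a ∣ m+i} ≤ X/a + 1` (`Nat.Ioc_filter_dvd_card...`, or `Int`/`Nat.count`).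
(a) `∑_{m ∈ [X,2X)} dG A Y (m+i) ≤ ∑_{a ∈ A, Y < a ≤ 3X} (X/a + 1)`, because `a ∣ m+i < 3X`, and `1 ≤ 3X/a`.  So it is
at most `4 X RS A Y (4X)`; Markov.  (b) `∑_m dF B (m+n) ≤ ∑_{a ∈ B} (X/a+1) ≤ X (∑ 1/a) + Y ≤ X (1 + ∑ 1/a)` for every `n`
(`B ⊆ [1,Y]`, `Y ≤ X`), multiply by `2^(-n)` and sum over `n > J` (interchange a finite sum and a `tsum`). -/
def St_TRM : Prop :=
  (∀ (A : Set ℕ) (X Y i e : ℕ), 1 ≤ X → i ≤ X →
    (((Ico X (2 * X)).filter fun m => 2 ^ e ≤ dG A Y (m + i)).card : ℝ) ≤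
      4 * X * RS A Y (4 * X) / 2 ^ e) ∧
  ∀ (B : Finset ℕ) (X Y J : ℕ), (∀ a ∈ B, 1 ≤ a ∧ a ≤ Y) → Y ≤ X →
    ∑ m ∈ Ico X (2 * X), R2 B J m ≤ X * (1 + ∑ a ∈ B, (1 : ℝ) / a) / 2 ^ J

/-- [TRU], truncation.  PROOF.  From TRP and TRM by the union bound: `∑_{1 ≤ i ≤ X} 1/2^((i-(j+8))/2) ≤ (j+8) + 3 = j + 11`
(`i ≤ j+8` gives `j+8`, and the sum of `2^(-(r/2))` over `r ≥ 1` is `1+1/2+1/2+1/4+1/4+... = 3`), and Markov for `R2`. -/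
def St_TRU : Prop :=
  ∀ (A : Set ℕ) (κ : ℕ → ℝ) (s X Y J j : ℕ), (∀ m, s ≤ m → ∃ z : ℤ, TA A m = κ m + z) →
    s ≤ X → Y ≤ X → 2 * j + 20 ≤ X →
    (((Ico X (2 * X)).filter fun m => (1 : ℝ) / 2 ^ (j + 3) < nrm (TF (AY A Y) J m - κ m)).card : ℝ) / X ≤
      4 * (j + 11) * RS A Y (4 * X) + 2 ^ (j + 4) / 2 ^ J * (RS A 0 Y + 1)

/-! ### Transfer from `[X, 2X)` to a product of cyclic groups (Brun's pure sieve) -/

/-- [CRT].  PROOF.  `M = ∏ Q i`.  By the Chinese remainder theorem (`ZMod.prodEquivPi`, or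
`Nat.chineseRemainderOfFinset` plus counting) `m ↦ (m mod Q i)_i` is a bijection from `range M` to the product, so the
mean of `g` over the product is the mean of `G m = g (m : ...)` over `range M`.  `G` is periodic modulo `q = ∏_{i ∈ T} Q i`
(`g` depends on the coordinates in `T` only), and `q ∣ M`, so this is the mean over `range q`.  Write `X = q c + r`, `r < q`:
`|∑_{[X,2X)} G - X mean| ≤ 2 r ≤ 2 q`. -/
def St_CRT : Prop :=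
  ∀ (ι : Type) [Fintype ι] (Q : ι → ℕ) [∀ i, NeZero (Q i)],
    (∀ i j, i ≠ j → (Q i).Coprime (Q j)) →
    ∀ (T : Finset ι) (g : (∀ i, ZMod (Q i)) → ℝ) (X : ℕ), 0 < X →
    (∀ x, |g x| ≤ 1) → (∀ x y, (∀ i ∈ T, x i = y i) → g x = g y) →
    |(∑ m ∈ Ico X (2 * X), g (fun i => ((m : ℕ) : ZMod (Q i)))) / X -
      (∑ x, g x) / (Fintype.card (∀ i, ZMod (Q i)) : ℝ)| ≤ 2 * ((∏ i ∈ T, Q i : ℕ) : ℝ) / X

/-- [TAIL].  `sp N x` is the support.  PROOF.  `g_i = |N i| / Q i`, `∑ g_i ≤ L`.  For a finite set `D` of indices the proportion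
of the `x` with `D ⊆ sp N x` is `∏_{i ∈ D} g_i` (`Fintype.card_piFinset`).  (a) `1[K < |sp x|] ≤ C(|sp x|, K+1)` = number of
`D ⊆ sp x` with `|D| = K+1`, so the probability is at most `∑_{|D| = K+1} ∏_D g_i ≤ L^(K+1)/(K+1)!`
(`Finset.esymm`-type bound; e.g. by expanding `(∑ g_i)^k ≥ k! ∑_{|D| = k} ∏_D g_i`; search the pool for esymm, for
instance `Pool/Agent/Helper27/TripAP/Esymm.lean`, `Pool/Agent/PC/Sieve.lean`).  (b) `∑_{D ⊆ sp x} C(|sp x - D|, 2l)` is the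
number of pairs of disjoint `D, D' ⊆ sp x`, `|D'| = 2l`; its mean is `∑ ∏_{D ∪ D'} g_i ≤ (∑_D ∏_D g_i)(∑_{|D'| = 2l} ∏_{D'} g_i)
≤ ∏ (1+g_i) L^(2l)/(2l)! ≤ e^L L^(2l)/(2l)!`. -/
def St_TAIL : Prop :=
  ∀ (ι : Type) [Fintype ι] (Q : ι → ℕ) [∀ i, NeZero (Q i)]
    (N : ∀ i, Finset (ZMod (Q i))) (L : ℝ), ∑ i, ((N i).card : ℝ) / Q i ≤ L → ∀ K l : ℕ,
    pr (fun x : (∀ i, ZMod (Q i)) => K < (sp N x).card) ≤ L ^ (K + 1) / (K + 1).factorial ∧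
    (∑ x : (∀ i, ZMod (Q i)), ∑ D ∈ (sp N x).powerset, ((sp N x \ D).card.choose (2 * l) : ℝ)) /
      (Fintype.card (∀ i, ZMod (Q i)) : ℝ) ≤ Real.exp L * L ^ (2 * l) / (2 * l).factorial

/-- [BON].  PROOF.  For `n ≥ 1` and `l ≥ 1`: `bb l n = -C(n-1, 2l-1)` (`Int.alternating_sum_range_choose...`, or induction on the
number of terms).  It is `≤ 0`, and `C(n-1,2l-1) ≤ C(n,2l)` for `n ≥ 2l` by Pascal, while it is `0` for `1 ≤ n < 2l`.  For `n = 0`: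
`bb l 0 = 1` if `l ≥ 1`.  For `l = 0`: `bb 0 n = 0` and `C(n,0) = 1`. -/
def St_BON : Prop :=
  ∀ l n : ℕ, bb l n ≤ (if n = 0 then 1 else 0) ∧
    (if n = 0 then 1 else 0) - (n.choose (2 * l) : ℤ) ≤ bb l n

/-- [TRF], the transfer lemma.  PROOF.  `x[D]_i = x_i` for `i ∈ D` and `r_i` otherwise; `f x = f (x[sp x])` by hypothesis.
`F x = ∑_{D ⊆ sp x, |D| ≤ K} f (x[D]) bb l |sp x - D|`.
(1) `F x ≤ f x`: by BON the terms with `D ≠ sp x` are `≤ 0` and the term `D = sp x` is at most `f (x[sp x]) = f x`; `f ≥ 0`.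
(2) `F x ≥ f x 1[|sp x| ≤ K] - ∑_{D ⊆ sp x} C(|sp x - D|, 2l)`, by BON and `0 ≤ f ≤ 1`.
(3) `bb l |sp x - D| = ∑_{D' ⊆ sp x - D, |D'| < 2l} (-1)^|D'|`, so `F x` is the sum over the pairs `(D, D')` of disjoint subsets of `ι`
with `|D| ≤ K`, `|D'| < 2l` of `(-1)^|D'| f (x[D]) 1[D ∪ D' ⊆ sp x]`, a function bounded by `1` of the coordinates in `D ∪ D'`
(`|D ∪ D'| ≤ K + 2l`).  By CRT and `hB` its means over `[X,2X)` and over the product differ by at most `2B/X`, and there are at most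
`(|ι|+1)^K (|ι|+1)^(2l)` pairs (`∑_{k ≤ K} C(n,k) ≤ (n+1)^K`).
So `mean f ≤ mean F + Pr(|sp| > K) + mean(∑ C) ≤ mean_{[X,2X)} F + 2B(|ι|+1)^(K+2l)/X + ... ≤ mean_{[X,2X)} f + ...`, TAIL. -/
def St_TRF : Prop :=
  ∀ (ι : Type) [Fintype ι] (Q : ι → ℕ) [∀ i, NeZero (Q i)],
    (∀ i j, i ≠ j → (Q i).Coprime (Q j)) →
    ∀ (N : ∀ i, Finset (ZMod (Q i))) (r : ∀ i, ZMod (Q i)) (f : (∀ i, ZMod (Q i)) → ℝ),
    (∀ x, 0 ≤ f x) → (∀ x, f x ≤ 1) → (∀ x, f x = f (fun i => if x i ∈ N i then x i else r i)) →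
    ∀ L : ℝ, ∑ i, ((N i).card : ℝ) / Q i ≤ L → ∀ (K l X B : ℕ), 0 < X →
    (∀ s : Finset ι, s.card ≤ K + 2 * l → ∏ i ∈ s, Q i ≤ B) →
    (∑ x, f x) / (Fintype.card (∀ i, ZMod (Q i)) : ℝ) ≤
      (∑ m ∈ Ico X (2 * X), f (fun i => ((m : ℕ) : ZMod (Q i)))) / X +
      L ^ (K + 1) / (K + 1).factorial + Real.exp L * L ^ (2 * l) / (2 * l).factorial +
      2 * B * (Fintype.card ι + 1 : ℝ) ^ (K + 2 * l) / X

/-! ### The hit lemma -/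

/-- [HIT].  PROOF.  Induction on `R` (`Fin.consEquiv`, `Fin.cons`, `Fin.sum_univ_succ`...).  `R = 0`: `V` is empty.
`R + 1`: if `pr Bad ≥ 1/4` then `pr V ≤ 1 ≤ 4 pr Bad`.  Suppose `pr Bad < 1/4`.  `H 0 x` depends on `x 0` only; let `A0 ⊆ α 0` be the
values with `H 0`.  Points `x ∈ V` with `x 0 ∈ A0`: the index `i` must be `0` (`H 0 x` holds), so at least half of the `y ∈ α 0` have
`Bad (update x 0 y)`; this event `E` depends on the tail of `x` only and has probability `≤ 2 pr Bad < 1/2` (Markov over the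
tails), so `pr (V, x 0 ∈ A0) ≤ pr (x 0 ∈ A0) pr E ≤ 1/2 pr (x 0 ∈ A0)`.  For `a ∉ A0` the slice `x 0 = a` satisfies the hypotheses with
the events `H (i.succ)` (the index of a point of `V` in the slice is not `0`), so `pr V_a ≤ 1/2 pr (∪ H_a) + 4 pr Bad_a`.
Average over `a ∈ α 0`; for `a ∈ A0` the union of the `H` is everything. -/
def St_HIT : Prop :=
  ∀ (R : ℕ) (α : Fin R → Type) [∀ i, Fintype (α i)] [∀ i, Nonempty (α i)]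
    (H : Fin R → (∀ i, α i) → Prop) (V Bad : (∀ i, α i) → Prop),
    (∀ i x y, (∀ k, k ≤ i → x k = y k) → H i x → H i y) →
    (∀ x, V x → ∃ i, H i x ∧ (∀ k, k < i → ¬ H k x) ∧
      (Fintype.card (α i) : ℝ) ≤ 2 * ((univ.filter fun y => Bad (Function.update x i y)).card : ℝ)) →
    pr V ≤ 1 / 2 * pr (fun x => ∃ i, H i x) + 4 * pr Bad

/-! ### The product space -/

/-- [LIFT].  PROOF.  `m ↦ (m : Om Y)` is surjective (Chinese remainder theorem, the `QQ Y i` are pairwise coprime); put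
`κ' x = κ m` for any `m` with `(m : Om Y) = x`.  If `(m : Om Y)` and `(m' : Om Y)` agree at all `i ≤ h`, then
`m ≡ m' mod p^(log_p Y)` for all primes `p ≤ h` (`p ≤ Y`), so `p^(v_p(h)) ∣ m - m'` (`p^(v_p(h)) ≤ h ≤ Y`), so `h ∣ m - m'` and
`κ m = κ m'` by periodicity. -/
def St_LIFT : Prop :=
  ∀ (Y h : ℕ) (κ : ℕ → ℝ), 1 ≤ h → h ≤ Y → (∀ m, κ (m + h) = κ m) →
    ∃ κ' : Om Y → ℝ, (∀ m : ℕ, κ' ((m : ℕ) : Om Y) = κ m) ∧
      ∀ x y : Om Y, (∀ i : Fin (Y + 1), (i : ℕ) ≤ h → x i = y i) → κ' x = κ' y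

/-- [EMB].  PROOF.  `((m : ZMod q)).val = m % q` (`ZMod.val_natCast`), `i^e ∣ QQ Y i` for `i` prime and `e = a.factorization i`
(`i^e ≤ a ≤ Y` so `e ≤ Nat.log i Y`), so `i^e ∣ m % QQ Y i ↔ i^e ∣ m` (`Nat.dvd_mod_iff`); the primes dividing `a` are `≤ a ≤ Y`;
`a ∣ m` iff `p^(a.factorization p) ∣ m` for all primes `p` (`Nat.dvd_iff_prime_pow_dvd_dvd`, `Nat.factorization_prime_le_iff_dvd`; the
case `m = 0` is clear).  The rest is a cast. -/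
def St_EMB : Prop :=
  (∀ (Y a m : ℕ), 1 ≤ a → a ≤ Y → (dv a ((m : ℕ) : Om Y) ↔ a ∣ m)) ∧
  ∀ (Y : ℕ) (B : Finset ℕ), (∀ a ∈ B, 1 ≤ a ∧ a ≤ Y) →
    (∀ m : ℕ, DD B ((m : ℕ) : Om Y) = dF B m) ∧
    ∀ J m : ℕ, TT B J ((m : ℕ) : Om Y) = TF B J m

/-- [APP], application of TRF.  `f` = indicator of `{θ < nrm (TT B J x - κ' x)}`, `ι = Fin (Y+1)`, `Q i = QQ Y i`, `r = 0`,
`N i = univ` if `i ≤ h` or `i ≤ J`, and otherwise `N i = {z : i ∣ (z + k).val for some 1 ≤ k ≤ J}` if `i` is prime, `N i = ∅` if not (then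
`ZMod 1` has one element).  PROOF.  Hypothesis of TRF: `κ'` does not change (coordinates `≤ h`), and `DD B (x + k)` does not change
for `1 ≤ k ≤ J`: at a prime `p > J`, `p > h`, `x_p ∉ N_p`: `p^e ∣ (x_p + k).val` iff `e = 0` (for `e ≤ log_p Y`; if `e ≥ 1` then
`p ∣ (x_p+k).val`, excluded), and also `p^e ∣ (0 + k).val` iff `e = 0`, because `(0+k).val = k % QQ`, `p ∣ QQ`, `p ∤ k` (`0 < k ≤ J < p`).
`|N_i|/Q_i ≤ 1` for the at most `h + J + 1` indices `i ≤ h` or `i ≤ J`, and `≤ J/p` otherwise (for each `k` there are `Q_p/p` values `z`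
with `p ∣ (z+k).val`).  `∏_{i ∈ s} QQ Y i ≤ Y^|s| ≤ Y^(K+2l)` (`Y ≥ 1`).  Coprimality of the `QQ`: distinct primes.
On the integers `TT B J (m : Om Y) = TF B J m` (EMB) and `κ' (m : Om Y) = κ m`. -/
def St_APP : Prop :=
  ∀ (Y h J X K l : ℕ) (B : Finset ℕ) (κ : ℕ → ℝ) (κ' : Om Y → ℝ) (θ L : ℝ),
    (∀ a ∈ B, 1 ≤ a ∧ a ≤ Y) → 0 < X → 1 ≤ Y →
    (∀ m : ℕ, κ' ((m : ℕ) : Om Y) = κ m) →
    (∀ x y : Om Y, (∀ i : Fin (Y + 1), (i : ℕ) ≤ h → x i = y i) → κ' x = κ' y) →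
    (h : ℝ) + J + 1 + J * ∑ p ∈ (Icc 1 Y).filter Nat.Prime, (1 : ℝ) / p ≤ L →
    pr (fun x : Om Y => θ < nrm (TT B J x - κ' x)) ≤
      (((Ico X (2 * X)).filter fun m => θ < nrm (TF B J m - κ m)).card : ℝ) / X +
      L ^ (K + 1) / (K + 1).factorial + Real.exp L * L ^ (2 * l) / (2 * l).factorial +
      2 * (Y : ℝ) ^ (K + 2 * l) * (Y + 2 : ℝ) ^ (K + 2 * l) / X

/-- [RES].  PROOF.  `Q = QQ Y i = i^e`, `e ≥ 1` (`i ≤ Y`).  For each `k` exactly `i^(e-1) = Q/i` of the `y` have `i ∣ (y+k).val` (translate;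
`val` runs through `range Q`), so at most `n Q/i ≤ Q/2` of the `y` are excluded. -/
def St_RES : Prop :=
  ∀ (Y i n : ℕ), i.Prime → i ≤ Y → 2 * n ≤ i →
    (QQ Y i : ℝ) ≤ 2 * ((univ.filter fun y : ZMod (QQ Y i) =>
      ∀ k, 1 ≤ k → k ≤ n → ¬ i ∣ (y + ((k : ℕ) : ZMod (QQ Y i))).val).card : ℝ)

/-- [DIF].  `p = i`, `x' = update x i y`.  PROOF.  At the coordinates `≠ i` nothing changes.  For `z ∈ ZMod (QQ Y p)` and `k`:
`p ∣ (z + k).val ↔ p ∣ z.val + k` (`ZMod.val_add`, `ZMod.val_natCast`, `p ∣ QQ Y p` because `p ≤ Y`).  `p ∣ x_p + j`, so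
`p ∤ x_p + k` for `k ≤ v`, `k ≠ j` (`0 < |k-j| < p`), and `p ∤ y + k` for all `1 ≤ k ≤ v`.  If `p ∤ z.val + k` then `p^e ∣ (z+k).val ↔ e = 0`.
(a) For `k ≠ j` both `x_p + k` and `y + k` are prime to `p`, so `dv a (x' + k) ↔ dv a (x + k)` for every `a`.
(b) `k = j`: for `p ∤ a` (`a.factorization p = 0`) `dv a (x'+j) ↔ dv a (x+j)`; for `p ∣ a`, `a ≠ 0`: `dv a (x'+j)` is false. -/
def St_DIF : Prop :=
  ∀ (Y : ℕ) (B : Finset ℕ) (x : Om Y) (i : Fin (Y + 1)) (y : ZMod (QQ Y i)) (v j : ℕ),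
    (i : ℕ).Prime → 1 ≤ j → j ≤ v → 2 * v ≤ i → (∀ a ∈ B, a ≠ 0) →
    (i : ℕ) ∣ (x i + ((j : ℕ) : ZMod (QQ Y i))).val →
    (∀ k, 1 ≤ k → k ≤ v → ¬ (i : ℕ) ∣ (y + ((k : ℕ) : ZMod (QQ Y i))).val) →
    (∀ k, 1 ≤ k → k ≤ v → k ≠ j →
      DD B (Function.update x i y + ((k : ℕ) : Om Y)) = DD B (x + ((k : ℕ) : Om Y))) ∧
    DD B (x + ((j : ℕ) : Om Y)) = DD B (Function.update x i y + ((j : ℕ) : Om Y)) +
      (B.filter fun a => (i : ℕ) ∣ a ∧ dv a (x + ((j : ℕ) : Om Y))).card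

/-- [UBD].  PROOF.  `i = v + r`, `v = w/2 ≥ 2j+10`: `∑_{i > v} 2^(i/2)/2^i = ∑_{i > v} 2^(-⌈i/2⌉) ≤ 2 (2^(-⌈(v+1)/2⌉) + ...) ≤
4/2^((v+1)/2) ≤ 4/2^(j+5) = 1/2^(j+3)`; the inequality is strict since each `d i` is `≤ 2^(i/2) - 1` (or: if the sum is empty use
positivity; finite sums of a geometric series with ratio `1/2` in pairs are strictly below the bound). -/
def St_UBD : Prop :=
  ∀ (d : ℕ → ℕ) (j w J : ℕ), 4 * j + 20 ≤ w → (∀ i ∈ Ioc (w / 2) J, d i < 2 ^ (i / 2)) →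
    ∑ i ∈ Ioc (w / 2) J, (d i : ℝ) / 2 ^ i < 1 / 2 ^ (j + 3)

/-- [STG], the stage lemma.  Main point.  PROOF.  `v = w/2` (natural division), `j ≤ v ≤ J`-range: split
`TT B J x = ∑_{k ∈ Icc 1 (min v J)} + U x`, `U x = ∑_{i ∈ Ioc v J} DD B (x+i)/2^i`; note `j ≤ v`, `j ≤ J`.
`Bad x := 1/2^(j+3) < nrm (TT B J x - κ x) ∨ ∃ i ∈ Ioc v J, 2^(i/2) ≤ DD B (x+i)`.  `pr Bad ≤ ε + ∑_{i ∈ Ioc v J} Fn Y B (i/2)` (union bound;
`pr (P (x+c)) = pr P`, translation).  If `x` is not `Bad` then `0 ≤ U x < 1/2^(j+3)` (UBD).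
HIT with `R = Y+1`, `α i = ZMod (QQ Y i)`, `H i x := i` prime, `w ≤ i`, and there is `a ∈ B` with `i ∣ a`, all primes `q ∣ a` are `≤ i`,
and `dv a (x + j)`.  It depends on the coordinates `≤ i` only (`a.factorization q = 0` for `q > i`).  `∃ i, H i x` iff some `a ∈ B` with a prime
factor `≥ w` has `dv a (x+j)` (take for `i` the largest prime factor of `a`, `i ≤ a ≤ Y`), so `pr (∃ i, H i x) = lam Y B w` by translation.
`V x := (∃ i, H i x) ∧ DD B (x+j) < 2^j ∧ ¬ Bad x`.  For `x ∈ V` take the smallest `i` with `H i x`.  For `y` in the set of RES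
(`n = v`, `2v ≤ w ≤ i`) put `x' = update x i y`.  By DIF (`i ∣ (x i + j).val` because `i ∣ a`, `dv a (x+j)`):
`DD B (x'+k) = DD B (x+k)` for `k ≤ v`, `k ≠ j`, and `DD B (x+j) - DD B (x'+j) = E`, `1 ≤ E ≤ DD B (x+j) < 2^j`.  If `x'` were not `Bad`:
`TT x - TT x' = E/2^j + U x - U x'`, `κ x = κ x'` (`i ≥ w > h`), so `nrm (E/2^j) ≤ nrm (TT x - κ x) + nrm (TT x' - κ x') + |U x - U x'| ≤ 3/2^(j+3)`,
while `nrm (E/2^j) ≥ 1/2^j` since `1 ≤ E < 2^j`: contradiction.  So `Bad x'` for all these `y`: hypothesis of HIT (`Fintype.card (ZMod q) = q`).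
`lam w = pr (∃ H) ≤ pr V + pr (2^j ≤ DD B (x+j)) + pr Bad ≤ 1/2 lam w + 4 pr Bad + Fn j + pr Bad`, so
`lam w ≤ 2 Fn j + 10 pr Bad`. -/
def St_STG : Prop :=
  ∀ (Y : ℕ) (B : Finset ℕ) (h : ℕ) (κ : Om Y → ℝ) (J j w : ℕ) (ε : ℝ),
    (∀ a ∈ B, 1 ≤ a ∧ a ≤ Y) →
    (∀ x y : Om Y, (∀ i : Fin (Y + 1), (i : ℕ) ≤ h → x i = y i) → κ x = κ y) →
    1 ≤ j → j ≤ J → 4 * j + 20 ≤ w → h < w →
    pr (fun x : Om Y => (1 : ℝ) / 2 ^ (j + 3) < nrm (TT B J x - κ x)) ≤ ε →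
    lam Y B w ≤ 2 * Fn Y B j + 10 * ε + 10 * ∑ i ∈ Ioc (w / 2) J, Fn Y B (i / 2)

/-- [MEA].  PROOF.  `dv a x` is a condition on each coordinate separately: `i^e ∣ (x i).val` with `e = a.factorization i`, satisfied by
`QQ Y i / i^e` of the values (`e ≤ Nat.log i Y` for `i` prime; for `i` not prime all).  `Fintype.card_piFinset`,
`∏_{i ≤ Y} i^(a.factorization i) = a` (`Nat.factorization_prod_pow_eq_self`, primes dividing `a` are `≤ Y`). -/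
def St_MEA : Prop :=
  ∀ (Y a : ℕ), 1 ≤ a → a ≤ Y → pr (fun x : Om Y => dv a x) = 1 / a

/-- [SMO].  PROOF.  `∑_{a ∈ B} 1/a ≤ ∏_{p < w} (1 - 1/p)⁻¹` (`Nat.smoothNumbers`, `EulerProduct` :
`EulerProduct.summable_and_hasSum_smoothNumbers_prod_primesBelow_geometric`, `hasSum` of nonnegative terms bounds a finite sum) and
`∏_{p < w} p/(p-1) ≤ ∏_{2 ≤ n < w} n/(n-1) = w - 1 ≤ w` for `w ≥ 2`; for `w = 1` only `a = 1`. -/
def St_SMO : Prop :=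
  ∀ (B : Finset ℕ) (w : ℕ), 1 ≤ w → (∀ a ∈ B, 1 ≤ a ∧ ∀ p : ℕ, p.Prime → p ∣ a → p < w) →
    ∑ a ∈ B, (1 : ℝ) / a ≤ w

/-- [FNB].  PROOF.  MEA gives: the mean of `DD B'` is `∑_{a ∈ B'} 1/a` for `B' ⊆ B`; Markov.  (a) `2^e ≤ DD B x` has probability
`≤ S/2^e`.  (b) If no `a ∈ B` with a prime factor `≥ w` divides `x`, then `DD B x = DD B' x`, `B'` = elements of `B` with all prime
factors `< w`, and SMO.  (c) `lam` is nonincreasing, clear.  (d) one element: `1/a ≤ lam` (MEA). -/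
def St_FNB : Prop :=
  ∀ (Y : ℕ) (B : Finset ℕ), (∀ a ∈ B, 1 ≤ a ∧ a ≤ Y) →
    (∀ e : ℕ, Fn Y B e ≤ (∑ a ∈ B, (1 : ℝ) / a) / 2 ^ e) ∧
    (∀ e w : ℕ, 1 ≤ w → Fn Y B e ≤ lam Y B w + w / 2 ^ e) ∧
    (∀ w w' : ℕ, w ≤ w' → lam Y B w' ≤ lam Y B w) ∧
    ∀ a ∈ B, ∀ p : ℕ, p.Prime → p ∣ a → (1 : ℝ) / a ≤ lam Y B p

/-! ### Descent, Rankin -/

/-- [DES], descent.  PROOF.  `δ = 10 ε + 4 S/2^j0`.  Induction on `k`.  `k = 0`: `w ≥ 4 j0 + 20`, use `hR` with `j = j0` and `hB2`: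
`∑_{i > w/2} S/2^(i/2)`, `i ≥ 2 j0 + 11`, is at most `3 S/2^(j0+5)`, so `lam w ≤ 2S/2^j0 + 10 ε + 30 S/2^(j0+5) ≤ δ`.
Step `k+1`: if `4 j0 + 20 ≤ 2^k w` use the induction hypothesis.  Otherwise `w < 4 j0 + 20`.  Put `j = (w-20)/4` (natural division):
`45 ≤ j ≤ j0`, `4j+20 ≤ w`.  `hR`, and for `Fn j` use `hB1` with `w' = 2^(j/2)`: `w'/2^j ≤ 1/2^(j/2)`; for `Fn (i/2)` use `hB1` with
`w'' = 2^(i/4)`: `w''/2^(i/2) ≤ 1/2^(i/4)`.  All `w', w''` are `≥ 2w` (`w ≥ 200`: `2^(j/2) ≥ 8j+46` for `j ≥ 45`; `2^(i/4) ≥ 4i` for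
`i ≥ 101`, `w ≤ 2i`), so the induction hypothesis applies to them.  `1/2^(w''/20) ≤ 1/2^(i/4)` since `2^n ≥ 20 n` for `n ≥ 8`; the same for
`w'`.  Coefficient of `(22+10J)^k δ`: `1 + 2 + 10 J`.  Remainder: `2*2/2^(j/2) + 10*2*∑_{i > w/2} 1/2^(i/4) ≤
4/2^(j/2) + 160/2^((w/2+1)/4) ≤ 1/2^(w/20)` for `w ≥ 200` (`∑_{i ≥ n} 1/2^(i/4) ≤ 8/2^(n/4)`). -/
def St_DES : Prop :=
  ∀ (lm F : ℕ → ℝ) (S ε : ℝ) (J j0 W0 : ℕ), 0 ≤ S → 0 ≤ ε → (∀ w, 0 ≤ lm w) → (∀ e, 0 ≤ F e) →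
    (∀ w w', w ≤ w' → lm w' ≤ lm w) → (∀ e w : ℕ, 1 ≤ w → F e ≤ lm w + w / 2 ^ e) →
    (∀ e, F e ≤ S / 2 ^ e) →
    (∀ w j : ℕ, W0 ≤ w → 1 ≤ j → j ≤ j0 → 4 * j + 20 ≤ w →
      lm w ≤ 2 * F j + 10 * ε + 10 * ∑ i ∈ Ioc (w / 2) J, F (i / 2)) →
    200 ≤ W0 → 45 ≤ j0 →
    ∀ k w : ℕ, W0 ≤ w → 4 * j0 + 20 ≤ 2 ^ k * w →
      lm w ≤ (22 + 10 * (J : ℝ)) ^ k * (10 * ε + 4 * S / 2 ^ j0) + 1 / 2 ^ (w / 20)

/-- [RAN], Rankin.  PROOF.  For `a ∈ [2^r, 2^(r+1))` in `A` every prime factor `p` of `a` is `< W` or has `2^(p/20) ≤ a < 2^(r+1)`, so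
`p/20 ≤ r`, `p < 20 r + 20`; so all prime factors are `< y = W + 20 r + 20`.  `∑ 1/a ≤ 2^(-r/2) ∑_{a y-smooth} a^(-1/2) =
2^(-r/2) ∏_{p < y} (1 - p^(-1/2))⁻¹` (Euler product over `Nat.smoothNumbers`/`primesBelow`, completely multiplicative `a ↦ a^(-1/2)`),
`(1 - t)⁻¹ = 1 + t/(1-t) ≤ exp (4t)` for `0 < t ≤ 1/√2`, `∑_{n < y} n^(-1/2) ≤ 2 √y`: at most `2^(-r/2) exp (8 √(W+20r+20))`, summable over `r`.
(Summability of nonnegative terms: bound all finite sums, e.g. over `Ico 1 (2^R)`.)  The term `a = 0` is `0`. -/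
def St_RAN : Prop :=
  ∀ (A : Set ℕ) (W : ℕ), (∀ a ∈ A, 1 ≤ a → ∀ p : ℕ, p.Prime → p ∣ a → W ≤ p → 2 ^ (p / 20) ≤ a) →
    Summable (A.indicator fun a : ℕ => (1 : ℝ) / a)

end Pool.Agent.RMS
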