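import Pool.Agent.RMS.Basic

/-!
RMS, second part (MP_7d9581_nt, helper20): the refined descent, the parameters and the final theorem.

Final theorem [FIN]: let `A` be infinite and suppose that for arbitrarily large `Y` the sum of `1/a` over the elements of `A`
in the window `(Y, Y^((log log Y)^3)]` is at most `(log (2 + S_Y))^(-3)`, `S_Y = ∑_{a ∈ A, a ≤ Y} 1/a`.  Then the series is irrational.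
It contains ([COR]) the sets with `∑_{a ∈ A, a ≤ x} 1/a ≤ log log x / (log log log x)^5` for arbitrarily large `x`.
-/

set_option autoImplicit false

namespace Pool.Agent.RMS

open Finset Filter
open Classical

/-- sparse window at `Y` -/
def Win (A : Set ℕ) (Y : ℕ) : Prop :=
  RS A Y ⌊(Y : ℝ) ^ (Real.log (Real.log Y) ^ 3)⌋₊ ≤ 1 / Real.log (2 + RS A 0 Y) ^ 3

/-- [DS2], refined descent.  `δ = 10 ε + 4 S/2^j0`, `w0 = 4 j0 + 20`, `w1 = 8 n + 40`, `δ1 = (3 + 10 J) δ`.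
PROOF.  (0) `w ≥ w0` (and `w ≥ W0`): `hR` with `j = j0` and `hB2`: `∑_{i > w/2} S/2^(i/2)`, `i ≥ 2 j0 + 11`, is at most `3 S/2^(j0+5)`, so
`lm w ≤ 2S/2^j0 + 10 ε + 30 S/2^(j0+5) ≤ δ`.
(1) STEP.  Let `W0 ≤ w < w0`, `j = (w-20)/4` (natural division): `45 ≤ j ≤ j0`, `4j+20 ≤ w`.  Use `hR`; for `F j` use `hB1` with `w' = 2^(j/2)`:
`w'/2^j ≤ 1/2^(j/2)`; for `F (i/2)` use `hB1` with `w'' = 2^(i/4)`: `w''/2^(i/2) ≤ 1/2^(i/4)`.  All `w', w''` are `≥ 2w` (`w ≥ 200`: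
`2^(j/2) ≥ 8j+46` for `j ≥ 45`; `2^(i/4) ≥ 4i` for `i ≥ 101`, `w ≤ 2i-1`).  If `lm w' ≤ a' + 1/2^(w'/20)` and `lm w'' ≤ a i + 1/2^(w''/20)`
then `lm w ≤ 10 ε + 2 a' + 10 ∑_{i ∈ Ioc (w/2) J} a i + 1/2^(w/20)`: indeed `1/2^(w''/20) ≤ 1/2^(i/4)` since `2^n ≥ 20 n` for `n ≥ 8`
(same for `w'`), and `4/2^(j/2) + 20 ∑_{i > w/2} 1/2^(i/4) ≤ 4/2^(j/2) + 160/2^((w/2+1)/4) ≤ 1/2^(w/20)` for `w ≥ 200`
(`∑_{i ≥ m} 1/2^(i/4) ≤ 8/2^(m/4)`).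
(2) `w ≥ w1`: if `w < w0`, then `j/2 ≥ n+2` and `i/4 ≥ n+5` for `i > w/2`, so `w', w'' ≥ 2^n ≥ w0` and by (0) and STEP
`lm w ≤ 10 ε + 2 δ + 10 J δ + 1/2^(w/20) ≤ δ1 + 1/2^(w/20)`.
(3) Claim for all `k` and `w ≥ W0` with `w1 ≤ 2^k w`: `lm w ≤ (3+40 n1)^k (40 n + 1) δ1 + 1/2^(w/20)`.  `k = 0`: (2).  Step to `k+1`, `w < w1`
(and `w < w0`, otherwise (0)): STEP.  `w' ≥ 2w`, so `a' = A_k := (3+40 n1)^k (40n+1) δ1 ≥ δ1`.  For `i ≥ 4n`: `2^(i/4) ≥ 2^n ≥ w0`, `a i = δ`.  For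
`4 n1 ≤ i < 4n`: `2^(i/4) ≥ 2^n1 ≥ w1`, `a i = δ1`.  For `i < 4 n1`: `a i = A_k`.  Sum:
`10 ε + 2 A_k + 10 (4 n1 A_k + 4 n δ1 + J δ) ≤ (2 + 40 n1) A_k + (40 n + 1) δ1 ≤ A_{k+1}`. -/
def St_DS2 : Prop :=
  ∀ (lm F : ℕ → ℝ) (S ε : ℝ) (J j0 W0 n n1 : ℕ), 0 ≤ S → 0 ≤ ε → (∀ w, 0 ≤ lm w) → (∀ e, 0 ≤ F e) →
    (∀ w w', w ≤ w' → lm w' ≤ lm w) → (∀ e w : ℕ, 1 ≤ w → F e ≤ lm w + w / 2 ^ e) →
    (∀ e, F e ≤ S / 2 ^ e) →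
    (∀ w j : ℕ, W0 ≤ w → 1 ≤ j → j ≤ j0 → 4 * j + 20 ≤ w →
      lm w ≤ 2 * F j + 10 * ε + 10 * ∑ i ∈ Ioc (w / 2) J, F (i / 2)) →
    200 ≤ W0 → 45 ≤ j0 → 4 * j0 + 20 ≤ 2 ^ n → 8 * n + 40 ≤ 2 ^ n1 →
    ∀ k w : ℕ, W0 ≤ w → 8 * n + 40 ≤ 2 ^ k * w →
      lm w ≤ (3 + 40 * (n1 : ℝ)) ^ k * (40 * n + 1) * (3 + 10 * J) * (10 * ε + 4 * S / 2 ^ j0) +
        1 / 2 ^ (w / 20)

/-- [CORE], assembly.  PROOF.  `B = AY A Y`, `κ'` from LIFT.  For `j ≤ j0`, `θ = 1/2^(j+3)`: APP and TRU give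
`pr (θ < nrm (TT B J x - κ' x)) ≤ 4(j+11) RS A Y (4X) + 2^(j+4)/2^J (RS A 0 Y + 1) + (sieve errors) ≤ ε` (monotone in `j`, `RS ≥ 0`;
`∑_{a ∈ AY A Y} 1/a = RS A 0 Y`).  STG gives the hypothesis `hR` of DS2 for all `w ≥ W0 := max 200 (h+1)`, `lm = lam Y B`, `F = Fn Y B`; FNB gives the
others.  Apply DS2 at `w`. -/
def St_CORE : Prop :=
  ∀ (A : Set ℕ) (κ : ℕ → ℝ) (h s : ℕ), 1 ≤ h → (∀ m, κ (m + h) = κ m) →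
    (∀ m, s ≤ m → ∃ z : ℤ, TA A m = κ m + z) →
    ∀ (Y X J j0 K l n n1 k w : ℕ) (L ε : ℝ), h ≤ Y → Y ≤ X → s ≤ X → 2 * j0 + 20 ≤ X → 45 ≤ j0 → j0 ≤ J →
    (h : ℝ) + J + 1 + J * ∑ p ∈ (Icc 1 Y).filter Nat.Prime, (1 : ℝ) / p ≤ L →
    4 * (j0 + 11) * RS A Y (4 * X) + 2 ^ (j0 + 4) / 2 ^ J * (RS A 0 Y + 1) +
      (L ^ (K + 1) / (K + 1).factorial + Real.exp L * L ^ (2 * l) / (2 * l).factorial +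
      2 * (Y : ℝ) ^ (K + 2 * l) * (Y + 2 : ℝ) ^ (K + 2 * l) / X) ≤ ε →
    4 * j0 + 20 ≤ 2 ^ n → 8 * n + 40 ≤ 2 ^ n1 → 8 * n + 40 ≤ 2 ^ k * w → 200 ≤ w → h < w →
    lam Y (AY A Y) w ≤ (3 + 40 * (n1 : ℝ)) ^ k * (40 * n + 1) * (3 + 10 * J) *
        (10 * ε + 4 * RS A 0 Y / 2 ^ j0) + 1 / 2 ^ (w / 20)

/-- [SER], sieve errors.  PROOF.  `U = log log Y`, large.  `∑_{p ≤ Y} 1/p ≤ U + 8 ≤ 2U` (`Pool.Agent.GBQ.rhl_recip` in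
`Pool/Agent/GBQ/RhoLow.lean` gives `∑_{2 < p ≤ Y} 1/p ≤ U + 7`).  `L ≤ 7t + 10 t U ≤ 11 t U` for `h ≤ t`, `1 ≤ t`, `U ≥ 7`.
`l := ⌈50 t U⌉`, `K = 2l`.  `L^m/m! ≤ exp (8 L) / exp (2 m)` (`(e^2 L)^m/m! ≤ exp (e^2 L)`, `Real.pow_div_factorial_le_exp`, `e^2 ≤ 8`;
or `(7L)^m/m! ≤ exp (7L)`, `7^m ≥ exp m`, with `7L ≤ 77tU` against `m ≥ 100 t U`... choose what is easy), so the first two terms are at most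
`exp (9 L - 2 * 100 t U) ≤ exp (-100 t U)`.  `X := Y^(13 l)`: `(Y+2) ≤ Y^2`, so the third term is at most `2 Y^(12 l)/Y^(13 l) = 2/Y^l`.  Everything is
`≤ 1/4^t` together.  `4X ≤ Y^(13 l + 1)` and `13 l + 1 ≤ 13 (50 t U + 1) + 1 ≤ 1300 U^2 + 14 ≤ U^3` (`t ≤ 2U`, `U ≥ 1400`); real power against natural
power: `Real.rpow_natCast`, `Real.rpow_le_rpow_of_exponent_le`.  `4t + 20 ≤ 8U + 20 ≤ Y ≤ X`. -/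
def St_SER : Prop :=
  ∀ h : ℕ, ∃ Y0 : ℕ, ∀ Y t : ℕ, Y0 ≤ Y → h ≤ t → 1 ≤ t → (t : ℝ) ≤ 2 * Real.log (Real.log Y) →
    ∃ X l : ℕ, Y ≤ X ∧ 4 * t + 20 ≤ X ∧ (4 * X : ℝ) ≤ (Y : ℝ) ^ (Real.log (Real.log Y) ^ 3) ∧
    ∀ L : ℝ, L = (h : ℝ) + ((5 * t : ℕ) : ℝ) + 1 +
        ((5 * t : ℕ) : ℝ) * ∑ p ∈ (Icc 1 Y).filter Nat.Prime, (1 : ℝ) / p →
      L ^ (2 * l + 1) / (2 * l + 1).factorial + Real.exp L * L ^ (2 * l) / (2 * l).factorial +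
        2 * (Y : ℝ) ^ (2 * l + 2 * l) * (Y + 2 : ℝ) ^ (2 * l + 2 * l) / X ≤ 1 / 4 ^ t

/-- [LIM].  PROOF.  `t ≥ 2^(n-1)/8 - 3` roughly (`2^(n-1) ≤ 8t+20`), and `n ≥ 2^(n1-1)/8 - 5`.  Show for large `t`:
`(3+40 n1)^n1 ≤ 2^(n/4)` (as `n1 (log_2 (3+40 n1)) ≤ n/4` for large `n1`, since `n ≥ 2^(n1-4) - 5`), `40n+1 ≤ 2^(n/8)`, `(3+50t)/t^2 ≤ 53/t`,
`1/t ≤ 64/2^n` and so on; the product is at most `C 2^(n/4 + n/8 - n) → 0`. -/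
def St_LIM : Prop :=
  ∀ η : ℝ, 0 < η → ∃ t0 : ℕ, ∀ t n n1 : ℕ, t0 ≤ t → n = Nat.log 2 (8 * t + 20) + 1 →
    n1 = Nat.log 2 (8 * n + 40) + 1 →
    (3 + 40 * (n1 : ℝ)) ^ n1 * (40 * n + 1) * (3 + 10 * ((5 * t : ℕ) : ℝ)) * (20000 / (t : ℝ) ^ 2) ≤ η

/-- [ERD], Erdos 1968.  PROOF.  The tails of the convergent series tend to `0`, so the hypothesis of
`Pool.Agent.Results.MP_7d9581_nt.SparseWindows.result` holds.  Do NOT import that file (it will move): copy its proof into this module,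
importing `Pool.Agent.Helper89.Defect`, for a summable `A.indicator (1/a)`. -/
def St_ERD : Prop :=
  ∀ A : Set ℕ, A.Infinite → Summable (A.indicator fun a : ℕ => (1 : ℝ) / a) →
    Irrational (∑' n : A, (1 : ℝ) / (2 ^ n.1 - 1))

/-- [FIN].  PROOF.  Suppose the sum is rational; `h, s, κ` from BASE.  `A.indicator (1/a)` is not summable (ERD), so `RS A 0 Y → ∞`.  Let
`W0 = max 200 (h+1)`.  CLAIM: for every `w ≥ W0`, `η > 0`, `Y1` there is `Y ≥ Y1` with `lam Y (AY A Y) w ≤ η + 1/2^(w/20)`.  Take `Y` large with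
`Win A Y`; `S = RS A 0 Y`, `t := Nat.clog 2 ⌈2 + S⌉₊` (or `Nat.log 2 ⌈2+S⌉₊ + 1`), so `2 + S ≤ 2^t ≤ 4 (2 + S)` or so, `t → ∞`, and
`t ≤ 4 log (2+S)`, `t ≤ 2 log log Y` for large `Y` (`S ≤ 1 + log Y`, `log 4 + log (3 + log Y) ≤ 2 (log 2) log log Y`).  `J = 5t`, `j0 = 2t`, `K = 2l`,
`X, l` from SER, `n, n1` from LIM, `k = n1` (`8n+40 ≤ 2^n1 ≤ 2^n1 w`).  `4X ≤ ⌊Y^(..)⌋` so `RS A Y (4X) ≤ 1/log(2+S)^3 ≤ 64/t^3`.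
`ε := 4 (2t+11) 64/t^3 + 2^(2t+4)/2^(5t) (S+1) + 1/4^t`, `(S+1) ≤ 2^t`, so `ε ≤ 256 * 3/t^2 + 17/4^t ≤ 800/t^2`-ish for `t ≥ 11` large, and
`10 ε + 4S/2^j0 ≤ 8000/t^2 + 170/4^t.. + 4/2^t ≤ 20000/t^2`.  CORE and LIM.
Then for `a ∈ A`, `1 ≤ a`, `p` prime, `p ∣ a`, `W0 ≤ p`: `1/a ≤ lam Y (AY A Y) p` for `Y ≥ a` (FNB (d)) `≤ η + 1/2^(p/20)` for every `η`, so
`2^(p/20) ≤ a`.  RAN: summable, contradiction. -/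
def St_FIN : Prop :=
  ∀ A : Set ℕ, A.Infinite → (∃ᶠ Y : ℕ in atTop, Win A Y) →
    Irrational (∑' n : A, (1 : ℝ) / (2 ^ n.1 - 1))

/-- [COR], pigeonhole.  PROOF.  Given `Y1`; let `x` be large with the property, `U = log log x`, `t = log U`.  `y 0 = ` least natural number with
`log log (y 0) ≥ U/2` (so `log log (y 0) ≤ U/2 + 1`), `y (i+1) = ⌊(y i)^(log log (y i))^3⌋`.  While `y i ≤ x`: `log log (y (i+1)) ≤ log log (y i) + 3 t`.  So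
`y i ≤ x` for `i ≤ R := ⌊(U/2 - 1)/(3t)⌋ ≥ U/(12 t)`.  The windows `(y i, y (i+1)]`, `i < R`, are disjoint in `(0,x]` (`y` is nondecreasing), so one of
them has sum at most `(U/t^5)/R ≤ 12/t^4 ≤ 1/t^3`, and `log (2 + RS A 0 (y i)) ≤ log (2 + U/t^5) ≤ log U = t`.  `y i ≥ y 0 ≥ Y1`. -/
def St_COR : Prop :=
  ∀ A : Set ℕ, (∃ᶠ x : ℕ in atTop,
      RS A 0 x ≤ Real.log (Real.log x) / Real.log (Real.log (Real.log x)) ^ 5) →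
    ∃ᶠ Y : ℕ in atTop, Win A Y

end Pool.Agent.RMS
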