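import Pool.Agent.RMS.St2

/-!
RMS, part H (MP_7d9581_nt, helper20): sets of primes of small density.  Paper: /team-store/RMH_paper_helper20.md.
Final theorem [THH]: there are absolute constants `V`, `c0` such that the series is irrational for every infinite `A` whose non-prime elements
have convergent reciprocal sum and such that `∑_{p ∈ A, Y < p ≤ Y^V} 1/p ≤ c0` for arbitrarily large `Y`.
Every module proves `theorem thm_NAME : St_NAME`, or `theorem thm_NAME (h : St_OTHER) ... : St_NAME`.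
-/

set_option autoImplicit false

namespace Pool.Agent.RMS

open Finset Filter
open Classical

/-! ### Transfer with blocks -/

/-- upper bound weights of Brun's pure sieve -/
def cc (l n : ℕ) : ℤ := ∑ i ∈ range (2 * l + 1), (-1) ^ i * (n.choose i : ℤ)

/-- [GB].  PROOF.  `cc l n = C(n-1, 2l)` for `n ≥ 1` (compare `thm_BON`), and `C(n-1,2l) ≤ C(n,2l)`. -/
def St_GB : Prop :=
  ∀ l n : ℕ, cc l 0 = 1 ∧ 0 ≤ cc l n ∧ (1 ≤ n → cc l n ≤ (n.choose (2 * l) : ℤ))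

/-- [IND], independence of blocks.  PROOF.  Two factors: if `φ` depends on the coordinates in `{i | p i}` and `ψ` on the others then the mean of `φ ψ` is
the product of the means (`Equiv.piEquivPiSubtypeProd`, `Fintype.sum_prod_type`, `Finset.sum_mul_sum`).  Induction on a finite set of blocks:
`∏_{b ∈ s} φ b` depends on the coordinates with `β i ∈ s`. -/
def St_IND : Prop :=
  ∀ (ι κ : Type) [Fintype ι] [Fintype κ] (α : ι → Type) [∀ i, Fintype (α i)] [∀ i, Nonempty (α i)]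
    (β : ι → κ) (φ : κ → (∀ i, α i) → ℝ),
    (∀ b x y, (∀ i, β i = b → x i = y i) → φ b x = φ b y) →
    (∑ x, ∏ b, φ b x) / (Fintype.card (∀ i, α i) : ℝ) =
      ∏ b, ((∑ x, φ b x) / (Fintype.card (∀ i, α i) : ℝ))

/-- [GEX].  PROOF.  `supp = sp N x`, `supp_b` = its part in the block `b`.  `∑_{D ⊆ supp} ∏_b cc (l b) |(supp - D)_b| =
∏_b ∑_{D ⊆ supp_b} cc (l b) |supp_b - D|` (subsets of `supp` = families of subsets of the `supp_b`; e.g. `Finset.prod_univ_sum` and a bijection, or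
induction on the set of blocks).  The factor `b` depends on the coordinates in the block `b` only: IND.  It is at most
`1 + ∑_{D ⊆ supp_b} C(|supp_b - D|, 2 l_b)` (GB: `D = supp_b` gives `1`), whose mean is `≤ 1 + τ_b` by TAIL (b) applied to `N'_i = N_i` if `β i = b`
and `∅` otherwise (`sp N' x = supp_b`), `τ_b = exp (L_b) L_b^(2 l_b)/(2 l_b)!`.  `∏ (1 + τ_b) ≤ exp (∑ τ_b)` (`τ_b ≥ 0` as `L_b ≥ 0`). -/
def St_GEX : Prop :=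
  ∀ (ι κ : Type) [Fintype ι] [Fintype κ] (Q : ι → ℕ) [∀ i, NeZero (Q i)] (β : ι → κ)
    (N : ∀ i, Finset (ZMod (Q i))) (L : κ → ℝ) (l : κ → ℕ),
    (∀ b, ∑ i ∈ univ.filter (fun i => β i = b), ((N i).card : ℝ) / Q i ≤ L b) →
    (∑ x : (∀ i, ZMod (Q i)), ∑ D ∈ (sp N x).powerset,
        ∏ b, (cc (l b) ((sp N x \ D).filter fun i => β i = b).card : ℝ)) /
      (Fintype.card (∀ i, ZMod (Q i)) : ℝ) ≤
    Real.exp (∑ b, Real.exp (L b) * L b ^ (2 * l b) / (2 * l b).factorial)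

/-- the majorant: sum over `D ⊆ supp` with at most `K b` elements in each block -/
noncomputable def GG {ι κ : Type} [Fintype ι] [Fintype κ] {Q : ι → ℕ} (β : ι → κ)
    (N : ∀ i, Finset (ZMod (Q i))) (r : ∀ i, ZMod (Q i)) (g : (∀ i, ZMod (Q i)) → ℝ)
    (K l : κ → ℕ) (x : ∀ i, ZMod (Q i)) : ℝ :=
  ∑ D ∈ (sp N x).powerset.filter (fun D => ∀ b, (D.filter fun i => β i = b).card ≤ K b),
    g (fun i => if i ∈ D then x i else r i) *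
      ∏ b, (cc (l b) ((sp N x \ D).filter fun i => β i = b).card : ℝ)

/-- the number of pairs -/
noncomputable def NP {ι κ : Type} [Fintype ι] [Fintype κ] (β : ι → κ) (K l : κ → ℕ) : ℝ :=
  ∏ b, (((univ.filter fun i => β i = b).card : ℝ) + 1) ^ (K b + 2 * l b)

/-- [REM], remainder.  PROOF.  `cc l |S| = ∑_{D' ⊆ S, |D'| ≤ 2l} (-1)^|D'|`, so `∏_b cc (l b) |(supp - D)_b| = ∑_{D'} (-1)^|D'|` over the `D' ⊆ supp - D` with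
`|D'_b| ≤ 2 l_b` for all `b`.  So `GG x` is the sum over the pairs `(D, D')` of disjoint subsets of `ι` with `|D_b| ≤ K_b`, `|D'_b| ≤ 2 l_b` of
`(-1)^|D'| g (x[D]) 1[D ∪ D' ⊆ sp N x]`, functions bounded by `1` of the coordinates in `D ∪ D'`, and `∏_{D ∪ D'} Q ≤ B` by `hB`: CRT bounds the difference of
the means of each by `2B/X`.  The number of pairs is at most `∏_b (n_b+1)^(K_b) (n_b+1)^(2 l_b)` (`D ↦` its parts in the blocks; the number of subsets with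
at most `k` elements of a set with `n` elements is `≤ (n+1)^k`).  Compare `Pool/Agent/RMS/TRF.lean`. -/
def St_REM : Prop :=
  ∀ (ι κ : Type) [Fintype ι] [Fintype κ] (Q : ι → ℕ) [∀ i, NeZero (Q i)],
    (∀ i j, i ≠ j → (Q i).Coprime (Q j)) →
    ∀ (β : ι → κ) (N : ∀ i, Finset (ZMod (Q i))) (r : ∀ i, ZMod (Q i)) (g : (∀ i, ZMod (Q i)) → ℝ),
    (∀ x, |g x| ≤ 1) → ∀ (K l : κ → ℕ) (X B : ℕ), 0 < X →
    (∀ s : Finset ι, (∀ b, (s.filter fun i => β i = b).card ≤ K b + 2 * l b) → ∏ i ∈ s, Q i ≤ B) →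
    |(∑ m ∈ Ico X (2 * X), GG β N r g K l (fun i => ((m : ℕ) : ZMod (Q i)))) / X -
      (∑ x, GG β N r g K l x) / (Fintype.card (∀ i, ZMod (Q i)) : ℝ)| ≤ 2 * B / X * NP β K l

/-- [TLZ].  PROOF.  `1[K_b < n] ≤ C(n, K_b+1)`; `C(|supp_b|, K_b+1) = ∑_{D ⊆ block b, |D| = K_b+1} 1[D ⊆ supp]`; each term has means over `[X,2X)` and over the
product differing by at most `2B/X` (CRT; `K_b + 1 ≤ K_b + 2 l_b`), there are at most `(n_b+1)^(K_b+1) ≤ NP` of them, and the mean over the product of the sum is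
at most `L_b^(K_b+1)/(K_b+1)!` (as in the proof of TAIL (a), `Pool/Agent/RMS/TAIL.lean`). -/
def St_TLZ : Prop :=
  ∀ (ι κ : Type) [Fintype ι] [Fintype κ] (Q : ι → ℕ) [∀ i, NeZero (Q i)],
    (∀ i j, i ≠ j → (Q i).Coprime (Q j)) →
    ∀ (β : ι → κ) (N : ∀ i, Finset (ZMod (Q i))) (L : κ → ℝ) (K l : κ → ℕ) (X B : ℕ), 0 < X →
    (∀ b, ∑ i ∈ univ.filter (fun i => β i = b), ((N i).card : ℝ) / Q i ≤ L b) → (∀ b, 1 ≤ l b) →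
    (∀ s : Finset ι, (∀ b, (s.filter fun i => β i = b).card ≤ K b + 2 * l b) → ∏ i ∈ s, Q i ≤ B) →
    ∀ b, (((Ico X (2 * X)).filter fun m : ℕ =>
        K b < ((sp N (fun i => ((m : ℕ) : ZMod (Q i)))).filter fun i => β i = b).card).card : ℝ) / X ≤
      L b ^ (K b + 1) / (K b + 1).factorial + 2 * B / X * NP β K l

/-- [TRG], transfer with blocks.  PROOF.  `g = 1 - f`, `0 ≤ g ≤ 1`, `g x = g (x[sp N x])`.  On the integers `m ∈ [X,2X)`, `x = (m : ...)`: if `|supp_b| ≤ K_b` for all `b`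
then `g x ≤ GG x` (all terms are `≥ 0` by GB, the term `D = supp` is `g x ∏ cc (l b) 0 = g x`), and always `0 ≤ GG x`; so
`mean_Z g ≤ mean_Z GG + ∑_b P_Z(K_b < |supp_b|) ≤ E GG + 2B/X NP + ∑_b (TLZ)` (REM).  `E GG ≤ E g + (E ∑_{D ⊆ supp} ∏_b cc - 1) ≤ E g + exp (∑ τ_b) - 1`
(`g ≤ 1`, drop the condition `|D_b| ≤ K_b`; the term `D = supp` contributes `g x` (at most) against `1`), GEX.  So
`E f = 1 - E g ≤ 1 - mean_Z g + errors = mean_Z f + errors`. -/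
def St_TRG : Prop :=
  ∀ (ι κ : Type) [Fintype ι] [Fintype κ] (Q : ι → ℕ) [∀ i, NeZero (Q i)],
    (∀ i j, i ≠ j → (Q i).Coprime (Q j)) →
    ∀ (β : ι → κ) (N : ∀ i, Finset (ZMod (Q i))) (r : ∀ i, ZMod (Q i)) (f : (∀ i, ZMod (Q i)) → ℝ),
    (∀ x, 0 ≤ f x) → (∀ x, f x ≤ 1) → (∀ x, f x = f (fun i => if x i ∈ N i then x i else r i)) →
    ∀ (L : κ → ℝ) (K l : κ → ℕ) (X B : ℕ), 0 < X →
    (∀ b, ∑ i ∈ univ.filter (fun i => β i = b), ((N i).card : ℝ) / Q i ≤ L b) → (∀ b, 1 ≤ l b) →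
    (∀ s : Finset ι, (∀ b, (s.filter fun i => β i = b).card ≤ K b + 2 * l b) → ∏ i ∈ s, Q i ≤ B) →
    (∑ x, f x) / (Fintype.card (∀ i, ZMod (Q i)) : ℝ) ≤
      (∑ m ∈ Ico X (2 * X), f (fun i => ((m : ℕ) : ZMod (Q i)))) / X +
      ∑ b, L b ^ (K b + 1) / (K b + 1).factorial +
      (Real.exp (∑ b, Real.exp (L b) * L b ^ (2 * l b) / (2 * l b).factorial) - 1) +
      ((Fintype.card κ : ℝ) + 1) * (2 * B / X * NP β K l)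

/-! ### The product space for primes -/

/-- modulus at `i`: `h+1` at `0`, `i` if `P i`, otherwise `1` -/
noncomputable def qh (P : ℕ → Prop) (h i : ℕ) : ℕ := if i = 0 then h + 1 else if P i then i else 1

instance qh_neZero (P : ℕ → Prop) (h i : ℕ) : NeZero (qh P h i) := ⟨by
  unfold qh
  split_ifs with h1 h2
  · exact Nat.succ_ne_zero h
  · exact h1
  · exact one_ne_zero⟩

/-- the product space -/
abbrev Oh (P : ℕ → Prop) (h Y : ℕ) : Type := ∀ i : Fin (Y + 1), ZMod (qh P h i)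

/-- number of the `p ≤ c` with `P p` which divide `n` -/
noncomputable def dP (P : ℕ → Prop) (c n : ℕ) : ℕ := ((Icc 1 c).filter fun p => P p ∧ p ∣ n).card

/-- the truncated sum with cutoffs on the integers -/
noncomputable def TP (P : ℕ → Prop) (cut : ℕ → ℕ) (J m : ℕ) : ℝ :=
  ∑ k ∈ Icc 1 J, (dP P (cut k) (m + k) : ℝ) / 2 ^ k

/-- number of the `p ≤ c` with `P p` and `x p + k = 0` -/
noncomputable def dO {P : ℕ → Prop} {h Y : ℕ} (c k : ℕ) (x : Oh P h Y) : ℕ :=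
  (univ.filter fun i : Fin (Y + 1) => P i ∧ (i : ℕ) ≤ c ∧ x i + ((k : ℕ) : ZMod (qh P h i)) = 0).card

/-- the truncated sum with cutoffs on the product space -/
noncomputable def TO {P : ℕ → Prop} {h Y : ℕ} (cut : ℕ → ℕ) (J : ℕ) (x : Oh P h Y) : ℝ :=
  ∑ k ∈ Icc 1 J, (dO (cut k) k x : ℝ) / 2 ^ k

/-- the cutoffs -/
def ct (Z k1 k : ℕ) : ℕ := Z ^ 4 ^ (k1 - Nat.log 2 k)

/-- [HST], stage.  PROOF.  HIT with `R = Y+1`, `α i = ZMod (qh P h i)`, `H i x := P i ∧ x i + 1 = 0`, `Bad x := 1/16 < nrm (TO cut J x - κ (x 0).val)`,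
`V x := (∃ i, H i x) ∧ ¬ Bad x`.  For `x ∈ V` let `i` be the smallest index with `H i x`; `i > 20` is prime, `qh P h i = i`.  For the `y ∈ ZMod i` with
`y + k ≠ 0` for `k = 1, ..., 10` (at least `i - 10 ≥ i/2` of them) and `x' = update x i y`: only the contribution of the coordinate `i` changes, so
`TO x - TO x' = ∑_{k ≤ J, i ≤ cut k} (1[x i + k = 0] - 1[y + k = 0])/2^k`, and `x i = -1`: the first sum is `1/2` (`k = 1`, `i ≤ Y ≤ cut 1`, `1 ≤ J`) plus terms with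
`k ≥ i + 1 ≥ 22`, at most `2^(-21)` together; the second is at most `2^(-10)`.  The difference is in `[1/2 - 2^(-10), 1/2 + 2^(-21)]`; `(x 0).val` does not change
(`i ≠ 0`).  If `x'` were not `Bad` the difference would be within `1/8` of an integer, impossible.  So `Bad x'`.  HIT: `pr V ≤ 1/2 pr (∃ H) + 4 pr Bad`,
and `pr (∃ H) ≤ pr V + pr Bad`. -/
def St_HST : Prop :=
  ∀ (P : ℕ → Prop) (h Y J : ℕ) (cut : ℕ → ℕ) (κ : ℕ → ℝ), (∀ p, P p → p.Prime ∧ 20 < p) →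
    1 ≤ J → Y ≤ cut 1 →
    pr (fun x : Oh P h Y => ∃ i : Fin (Y + 1), P i ∧ x i + 1 = 0) ≤
      10 * pr (fun x : Oh P h Y => (1 : ℝ) / 16 < nrm (TO cut J x - κ (x 0).val))

/-- [HPR].  PROOF.  The complement is a product event: `∏_{p ≤ Y, P p} (1 - 1/p) ≤ ∏ exp (-1/p)` (`Fintype.card_piFinset`). -/
def St_HPR : Prop :=
  ∀ (P : ℕ → Prop) (h Y : ℕ), (∀ p, P p → p.Prime) →
    1 - Real.exp (-∑ p ∈ (Icc 1 Y).filter P, (1 : ℝ) / p) ≤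
      pr (fun x : Oh P h Y => ∃ i : Fin (Y + 1), P i ∧ x i + 1 = 0)

/-- [HTR], integers.  `P p := p ∈ A ∧ p.Prime`.  PROOF.  `G_i` = the elements of `A` which are not prime or `> cut i` (`i ≤ J`), all elements of `A` (`i > J`).
`TA A m - TP P cut J m = ∑_{i ≥ 1} d_{G_i}(m+i)/2^i`.  For `1 ≤ i ≤ X`: `∑_{m ∈ [X,2X)} d_{G_i}(m+i) ≤ ∑_{a ∈ G_i, a ≤ 3X} (X/a + 1) ≤ 4 X ∑_{a ∈ G_i, a ≤ 4X} 1/a` (as in
TRM), and `∑_{a ∈ G_i, a ≤ 4X} 1/a ≤ η + μ_i`, `μ_i = RS {p} (cut i) (4X)` for `i ≤ J`, `≤ η + μ`, `μ = RS {p} 0 (4X)`, for `i > J`.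
If `d_{G_i}(m+i) = 0` for all `i ≤ 31` and `∑_{31 < i ≤ X} d_{G_i}(m+i)/2^i < 1/64` then `0 ≤ TA - TP < 1/64 + ∑_{i > X} (m+i)/2^i ≤ 1/64 + 3(X+2)/2^X < 1/16`, so
`nrm (TP - κ) < 1/16` (`nrm t ≤ |t - z|` for every integer `z`).  Union bound for the first events, Markov for the second:
`64 * ∑_{31 < i ≤ X} 4 (η + μ_i)/2^i`, and `∑_{i > J} 1/2^i = 1/2^J`. -/
def St_HTR : Prop :=
  ∀ (A : Set ℕ) (κ : ℕ → ℝ) (s X J : ℕ) (cut : ℕ → ℕ) (η : ℝ),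
    (∀ m, s ≤ m → ∃ z : ℤ, TA A m = κ m + z) → s ≤ X → 100 ≤ X → 31 ≤ J → J ≤ X → 0 ≤ η →
    RS {a | a ∈ A ∧ ¬ a.Prime} 0 (4 * X) ≤ η →
    (((Ico X (2 * X)).filter fun m =>
      (1 : ℝ) / 16 < nrm (TP (fun p => p ∈ A ∧ p.Prime) cut J m - κ m)).card : ℝ) / X ≤
      ∑ i ∈ Icc 1 31, 4 * (η + RS {p | p ∈ A ∧ p.Prime} (cut i) (4 * X)) +
      256 * ∑ i ∈ Ioc 31 J, (η + RS {p | p ∈ A ∧ p.Prime} (cut i) (4 * X)) / 2 ^ i +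
      256 * (η + RS {p | p ∈ A ∧ p.Prime} 0 (4 * X)) / 2 ^ J

/-- [HBL].  PROOF.  Chebyshev: `∏_{n < p ≤ 2n} p ≤ C(2n,n) ≤ 4^n`, so for `n = 2^k`, `k ≥ 1`, `#{n < p ≤ 2n} ≤ n log 4/log n = 2n/k` and
`∑_{n < p ≤ 2n} 1/p ≤ 2/k`.  `(u, u^4]` is covered by the intervals `(2^k, 2^(k+1)]` with `K ≤ k ≤ 4K+4`, `K = Nat.log 2 u ≥ 1`: sum `≤ 2 (3K+5)/K ≤ 16`.
(With `primorial_le_4_pow` only: `#{n < p ≤ 2n} ≤ 2n log 4/log n`, sum `≤ 32`.  Any constant `≤ 100` is fine.) -/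
def St_HBL : Prop :=
  ∀ u v : ℕ, 2 ≤ u → v ≤ u ^ 4 → ∑ p ∈ (Ioc u v).filter Nat.Prime, (1 : ℝ) / p ≤ 100

/-- size of the last block (a bound for its `L`) -/
def lst (k1 : ℕ) : ℕ := 1 + (k1 + 30) * (2 ^ k1 + 8)

/-- `L_b` -/
noncomputable def Lb (C1 : ℝ) (k1 b : ℕ) : ℝ := if b < k1 then 2 ^ (b + 1) * C1 else (lst k1 : ℝ)

/-- `l_b` -/
def lb (c2 k1 b : ℕ) : ℕ := if b < k1 then c2 * 2 ^ b else 5 * lst k1

/-- [HNE].  PROOF.  `c2 ≥ (18 C1 + 12)/4`, `c2 ≥ 1`.  `L^n/n! ≤ exp (8L - 2n)` for `L ≥ 0` (`(e^2 L)^n/n! ≤ exp (e^2 L)`, `e^2 ≤ 8`, `Real.pow_div_factorial_le_exp`).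
So both `L^(2l+1)/(2l+1)!` and `exp(L) L^(2l)/(2l)!` are at most `exp (9L - 4l)`.  For `b < k1`: `9 L_b - 4 l_b = 2^b (18 C1 - 4 c2) ≤ -12 * 2^b`; last block: `9 L - 20 L = -11 L`,
`L = lst k1 ≥ 271`.  `∑_b exp (-12 * 2^b) ≤ ∑_b exp (-12 (b+1)) ≤ 2 exp (-12)`, `exp t - 1 ≤ 2t` for `0 ≤ t ≤ 1`: total `≤ 10 exp (-12) ≤ 1/120`. -/
def St_HNE : Prop :=
  ∀ C1 : ℝ, 0 ≤ C1 → ∃ c2 : ℕ, 1 ≤ c2 ∧ ∀ k1 : ℕ,
    ∑ b ∈ range (k1 + 1), Lb C1 k1 b ^ (2 * lb c2 k1 b + 1) / (2 * lb c2 k1 b + 1).factorial +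
      (Real.exp (∑ b ∈ range (k1 + 1),
        Real.exp (Lb C1 k1 b) * Lb C1 k1 b ^ (2 * lb c2 k1 b) / (2 * lb c2 k1 b).factorial) - 1) ≤ 1 / 120

/-- [HNR].  PROOF.  `l' = 5 lst k1`.  `Z + 2 ≤ Z^2`, so `Z^(4 l') (Z+2)^(4 l') ≤ Z^(12 l') = Z^(60 lst k1)`, and `60 lst k1 ≤ 4^k1` for large `k1`; so the left side is at most
`(k1+2) * 2 * (h+1)/Z^(4^k1) ≤ (k1+2) * 2 * (h+1)/2^(4^k1) ≤ 1/120` for large `k1`. -/
def St_HNR : Prop :=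
  ∀ c2 h : ℕ, ∃ k0 : ℕ, ∀ k1 Z : ℕ, k0 ≤ k1 → 2 ≤ Z →
    ((k1 : ℝ) + 2) * (2 * ((Z : ℝ) ^ (8 * c2 * 4 ^ k1) * (h + 1) * (Z : ℝ) ^ (4 * (5 * lst k1))) /
      (Z : ℝ) ^ ((16 * c2 + 2) * 4 ^ k1) *
      ((Z : ℝ) ^ (8 * c2 * 4 ^ k1) * ((Z : ℝ) + 2) ^ (4 * (5 * lst k1)))) ≤ 1 / 120

/-- [HAP], application of TRG.  `Y = Z^(4^k1)`, `J = k1 + 30 < Z`, `X = Z^((16 c2 + 2) 4^k1)`, cutoffs `ct Z k1`.  PROOF.  `ι = Fin (Y+1)`, `κ = Fin (k1+1)`, `Q i = qh P h i` (pairwise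
coprime: distinct primes, none divides `h+1`), `Z_b = Z^(4^(k1-b))`, `β i` = the largest `b ≤ k1` with `i ≤ Z_b` (`Nat.findGreatest`); so `Z_{b+1} < i ≤ Z_b` if `β i = b < k1`, and
`i ≤ Z` if `β i = k1`.  `f` = indicator of the event, `r = 0`.  `N 0 = univ`.  For `i` with `P i`: `N i = univ` if `i ≤ J`, otherwise `N i = {z : z + k = 0 for some k ∈ [1,J] with
i ≤ ct Z k1 k}`; for the others `N i = ∅` (`ZMod 1` has one element).  Invariance of `f`: if `x i ∉ N i` (so `i > J`) then neither `x i` nor `0` is counted at any shift `k ≤ J`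
(`0 < k < i` is not `0` in `ZMod i`); `(x 0).val` does not change.  Block `b < k1`: `i > Z_{b+1} ≥ Z > J` and `i ≤ ct Z k1 k` forces `Nat.log 2 k ≤ b`, `k < 2^(b+1)`: `|N i|/i ≤ 2^(b+1)/i`,
sum `≤ 2^(b+1) C1 = Lb` by the hypothesis on `C1` (`Z_b = Z_{b+1}^4`, `Z_{b+1} ≥ 2`).  Last block: `1 + ∑_{p ≤ Z} J/p ≤ 1 + J (log log Z + 8) ≤ lst k1` (`|N i| ≤ J` for `i > J`, and `1 ≤ J/i`
for `i ≤ J`; `Pool.Agent.GBQ.rhl_recip` as in `SER.lean`).  `K b = 2 l b`, `l b = lb c2 k1 b`, so `K b + 2 l b = 4 l b`.  `∏_{i ∈ s} Q i ≤ ∏_{b < k1} Z_b^(4 l_b) * (h+1) * Z^(4 l_k1)`, exponent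
`∑_{b < k1} 4^(k1-b) * 4 c2 2^b ≤ 8 c2 4^k1`; the same for `NP` with `n_b + 1 ≤ Z_b` (`b < k1`) and `n_k1 + 1 ≤ Z + 2`.  On the integers `TO (m : ...) = TP m` (`P i → 1 ≤ i`,
`ZMod.natCast_eq_zero_iff`) and `κ ((m : ZMod (h+1)).val) = κ (m % (h+1)) = κ m`. -/
def St_HAP : Prop :=
  ∀ (C1 : ℝ) (c2 h : ℕ) (P : ℕ → Prop) (κ : ℕ → ℝ) (k1 Z : ℕ), 0 ≤ C1 → 1 ≤ c2 →
    (∀ u v : ℕ, 2 ≤ u → v ≤ u ^ 4 → ∑ p ∈ (Ioc u v).filter Nat.Prime, (1 : ℝ) / p ≤ C1) →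
    (∀ p, P p → p.Prime ∧ ¬ p ∣ h + 1) → (∀ m, κ (m + (h + 1)) = κ m) →
    3 ≤ Z → k1 + 30 < Z → k1 + 30 < 2 ^ k1 → Real.log (Real.log Z) ≤ 2 ^ k1 →
    pr (fun x : Oh P h (Z ^ 4 ^ k1) =>
        (1 : ℝ) / 16 < nrm (TO (ct Z k1) (k1 + 30) x - κ (x 0).val)) ≤
      (((Ico (Z ^ ((16 * c2 + 2) * 4 ^ k1)) (2 * Z ^ ((16 * c2 + 2) * 4 ^ k1))).filter fun m =>
        (1 : ℝ) / 16 < nrm (TP P (ct Z k1) (k1 + 30) m - κ m)).card : ℝ) /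
        (Z : ℝ) ^ ((16 * c2 + 2) * 4 ^ k1) +
      (∑ b ∈ range (k1 + 1), Lb C1 k1 b ^ (2 * lb c2 k1 b + 1) / (2 * lb c2 k1 b + 1).factorial +
      (Real.exp (∑ b ∈ range (k1 + 1),
        Real.exp (Lb C1 k1 b) * Lb C1 k1 b ^ (2 * lb c2 k1 b) / (2 * lb c2 k1 b).factorial) - 1)) +
      ((k1 : ℝ) + 2) * (2 * ((Z : ℝ) ^ (8 * c2 * 4 ^ k1) * (h + 1) * (Z : ℝ) ^ (4 * (5 * lst k1))) /
        (Z : ℝ) ^ ((16 * c2 + 2) * 4 ^ k1) *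
        ((Z : ℝ) ^ (8 * c2 * 4 ^ k1) * ((Z : ℝ) + 2) ^ (4 * (5 * lst k1))))

/-! ### Reduction, parameters, end -/

/-- [HRE], reduction.  PROOF.  BASE: `h0, s0, κ0`.  Choose `w ≥ 20` with `∑ 1/a ≤ η` over the non-prime elements `a > w` of `A` (tail of a convergent series).
`A0 = {a ∈ A : 1 ≤ a ≤ w} ∪ {p ∈ A : p prime, p ∣ h0}`, `H = h0 ∏_{a ∈ A0} a`, `A1 = A0 ∪ {p ∈ A : p prime, p ∣ H}` (finite), `A' = A \ (A1 ∪ {0})`, `h + 1 = H`.  Every element of `A1`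
divides `H`.  For `a ∣ H` the function `m ↦ ∑_{i ≥ 1, a ∣ m+i} 2^(-i)` has period `H`; `TA A m = TA A' m + ∑_{a ∈ A1} (that)` (`dA A = dA A' + dA A1` on `n ≥ 1`; summability from
`dA A n ≤ n`).  `κ m = κ0 m - ∑_{a ∈ A1} (that)`. -/
def St_HRE : Prop :=
  ∀ A : Set ℕ, Summable ({a | a ∈ A ∧ ¬ a.Prime}.indicator fun a : ℕ => (1 : ℝ) / a) →
    ¬ Irrational (∑' n : A, (1 : ℝ) / (2 ^ n.1 - 1)) → ∀ η : ℝ, 0 < η →
    ∃ (A' : Set ℕ) (h s : ℕ) (κ : ℕ → ℝ), A' ⊆ A ∧ (A \ A').Finite ∧ (∀ m, κ (m + (h + 1)) = κ m) ∧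
      (∀ m, s ≤ m → ∃ z : ℤ, TA A' m = κ m + z) ∧ (∀ p ∈ A', p.Prime → 20 < p ∧ ¬ p ∣ h + 1) ∧
      ∀ n : ℕ, RS {a | a ∈ A' ∧ ¬ a.Prime} 0 n ≤ η

/-- [HPA], parameters.  PROOF.  `U = log log Y` large.  `k1 = Nat.clog 2 ⌈U⌉₊ + 4` or so: `U ≤ 2^k1 ≤ 64 U`.  `Z` = the least natural number with `Y ≤ Z^(4^(k1-4))`.  `M = 4^(k1-4) ≤ 16 U^2`.
`Z ≤ Y` so `log log Z ≤ U ≤ 2^k1`; `Z ≥ Y^(1/M)` is larger than `k1 + 31` for large `Y` (`log Y / M ≥ exp U/(16 U^2)`).  `(Z-1)^M < Y` and `Z ≤ 2 (Z-1)`, so `Z^M ≤ 2^M Y ≤ Y^2` (`M ≤ log_2 Y`).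
`4 Z^(c 4^k1) = 4 (Z^M)^(256 c) ≤ 4 Y^(512 c) ≤ Y^(512 c + 2)`. -/
def St_HPA : Prop :=
  ∀ k0 c : ℕ, ∃ Y0 : ℕ, ∀ Y : ℕ, Y0 ≤ Y → ∃ k1 Z : ℕ, k0 ≤ k1 ∧ 3 ≤ Z ∧ k1 + 30 < Z ∧
    k1 + 30 < 2 ^ k1 ∧ Real.log (Real.log Z) ≤ 2 ^ k1 ∧ Y ≤ Z ^ 4 ^ (k1 - 4) ∧
    4 * Z ^ (c * 4 ^ k1) ≤ Y ^ (512 * c + 2)

/-- [HSU], the numerical sum.  `cut = ct Z k1`.  PROOF.  For `i ≤ 31`: `Nat.log 2 i ≤ 4`, `ct Z k1 i ≥ Z^(4^(k1-4))`, so `RS ≤ W`.  For `32 ≤ i ≤ k1+30`, `e = Nat.log 2 i ≤ k1`: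
`RS {p} (Z^(4^(k1-e))) (4X) ≤ W + ∑_{5 ≤ b ≤ e} RS (Z^(4^(k1-b))) (Z^(4^(k1-b+1))) ≤ W + C1 e ≤ W + C1 i`.  `∑_{i ≥ 32} (η + W + C1 i)/2^i ≤ (η + W)/2^31 + 33 C1/2^31`.  So the bound is
`124 (η+W) + 256 ((η+W) + 33 C1)/2^31 + 256 (η + S)/2^(k1+30)`. -/
def St_HSU : Prop :=
  ∀ (A : Set ℕ) (C1 η W S : ℝ) (Z k1 X : ℕ), 0 ≤ C1 → 0 ≤ η → 0 ≤ W → 2 ≤ Z → 5 ≤ k1 → k1 + 30 < 2 ^ k1 →
    (∀ u v : ℕ, 2 ≤ u → v ≤ u ^ 4 → ∑ p ∈ (Ioc u v).filter Nat.Prime, (1 : ℝ) / p ≤ C1) →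
    Z ^ 4 ^ k1 ≤ X → RS {p | p ∈ A ∧ p.Prime} (Z ^ 4 ^ (k1 - 4)) (4 * X) ≤ W →
    RS {p | p ∈ A ∧ p.Prime} 0 (4 * X) ≤ S →
    ∑ i ∈ Icc 1 31, 4 * (η + RS {p | p ∈ A ∧ p.Prime} (ct Z k1 i) (4 * X)) +
      256 * ∑ i ∈ Ioc 31 (k1 + 30), (η + RS {p | p ∈ A ∧ p.Prime} (ct Z k1 i) (4 * X)) / 2 ^ i +
      256 * (η + RS {p | p ∈ A ∧ p.Prime} 0 (4 * X)) / 2 ^ (k1 + 30) ≤
    125 * (η + W) + C1 / 200000 + 256 * (η + S) / 2 ^ (k1 + 30)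

/-- [THH].  PROOF.  `C1 = 100` (HBL), `c2` from HNE, `c = 16 c2 + 2`, `V = 512 c + 2`, `c0 = 1/10^5`.  Suppose the sum is rational; HRE with `η = 1/10^5`: `A', h, s, κ`.
`P p := p ∈ A' ∧ p.Prime`.  If `∑_{p ∈ A'} 1/p < ∞` then `A.indicator (1/a)` is summable (`A \ A'` finite) and ERD applies.  So for large `Y1`: `∑_{p ∈ P, p ≤ Y1} 1/p ≥ 1`.  `k0` from HNR
(for `c2`, `h`), enlarged.  Take `Y` large with the window property, `k1, Z` from HPA (with `c`), `X = Z^(c 4^k1)`.  `W := RS P (Z^(4^(k1-4))) (4X) ≤ RS P Y (Y^V) ≤ c0` (`A' ⊆ A`).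
`S = RS P 0 (4X) ≤ log log (4X) + 8 ≤ 2^k1 + k1 log 4 + log c + 20`, so `256 (η + S)/2^(k1+30) ≤ 1/1000` for large `k1`.  HTR and HSU (`J = k1+30`): the integer probability is
`≤ 125 * 2/10^5 + 1/1000 + 1/1000 ≤ 1/100`.  HAP, HNE, HNR: `pr Bad ≤ 1/100 + 1/120 + 1/120 ≤ 1/30`.  HST (`cut 1 = Z^(4^k1)`) and HPR: `1 - exp (-1) ≤ 10/30`: contradiction
(`exp (-1) ≤ 0.37`). -/
def St_THH : Prop :=
  ∃ (V : ℕ) (c0 : ℝ), 2 ≤ V ∧ 0 < c0 ∧ ∀ A : Set ℕ, A.Infinite →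
    Summable ({a | a ∈ A ∧ ¬ a.Prime}.indicator fun a : ℕ => (1 : ℝ) / a) →
    (∃ᶠ Y : ℕ in atTop, RS {p | p ∈ A ∧ p.Prime} Y (Y ^ V) ≤ c0) →
    Irrational (∑' n : A, (1 : ℝ) / (2 ^ n.1 - 1))

/-- [HCO], pigeonhole.  PROOF.  `α = c0/(8 log V)`.  Given `Y1`; `x` large, `U = log log x`; windows `(Y_r, Y_{r+1}]`, `Y_r = 2^(V^r)`, `Y_{r+1} = Y_r^V`, for `r0 ≤ r < R`,
`R = ⌊U/log V⌋ - 1`, `Y_R ≤ x`, `r0 = ⌈R/2⌉` (so `Y_r ≥ Y1` for large `x`).  They are disjoint in `(0,x]`, so one has sum at most `α U/(R/2) ≤ 4 α log V ≤ c0`. -/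
def St_HCO : Prop :=
  ∀ (V : ℕ) (c0 : ℝ), 2 ≤ V → 0 < c0 → ∃ α : ℝ, 0 < α ∧ ∀ B : Set ℕ,
    (∃ᶠ x : ℕ in atTop, RS B 0 x ≤ α * Real.log (Real.log x)) → ∃ᶠ Y : ℕ in atTop, RS B Y (Y ^ V) ≤ c0

end Pool.Agent.RMS
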