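import Pool.Agent.RMS.St3
import Pool.Agent.RMS.SER

set_option autoImplicit false

/-! RMS [THH]: the theorem for sets of primes. -/

namespace Pool.Agent.RMS

open Finset Filter
open Classical

theorem THH_RS_mono {B B' : Set ℕ} {y y' z z' : ℕ} (hB : B ⊆ B') (hy : y' ≤ y) (hz : z ≤ z') :
    RS B y z ≤ RS B' y' z' := by
  unfold RS
  have h1 : ∀ a : ℕ, 0 ≤ B'.indicator (fun a : ℕ => (1 : ℝ) / a) a := fun a =>
    Set.indicator_nonneg (fun _ _ => by positivity) _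
  calc ∑ a ∈ Ioc y z, B.indicator (fun a : ℕ => (1 : ℝ) / a) a
      ≤ ∑ a ∈ Ioc y z, B'.indicator (fun a : ℕ => (1 : ℝ) / a) a :=
        sum_le_sum fun a _ => Set.indicator_le_indicator_of_subset hB (fun _ => by positivity) a
    _ ≤ _ := sum_le_sum_of_subset_of_nonneg
        (fun a ha => by rw [mem_Ioc] at ha ⊢; omega) (fun a _ _ => h1 a)

theorem THH_split (A : Set ℕ) (n : ℕ) :
    RS A 0 n = RS {p | p ∈ A ∧ p.Prime} 0 n + RS {a | a ∈ A ∧ ¬ a.Prime} 0 n := by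
  unfold RS
  rw [← sum_add_distrib]
  refine sum_congr rfl fun a _ => ?_
  simp only [Set.indicator_apply, Set.mem_setOf_eq]
  by_cases h1 : a ∈ A <;> by_cases h2 : a.Prime <;> simp [h1, h2]

theorem THH_filter (P : ℕ → Prop) (n : ℕ) :
    ∑ p ∈ (Icc 1 n).filter P, (1 : ℝ) / p = RS {p | P p} 0 n := by
  unfold RS
  rw [sum_filter]
  refine sum_congr rfl fun a _ => ?_
  simp only [Set.indicator_apply, Set.mem_setOf_eq]

theorem THH_summable (A : Set ℕ) (M : ℝ) (h : ∀ n, RS A 0 n ≤ M) :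
    Summable (A.indicator fun a : ℕ => (1 : ℝ) / a) := by
  refine summable_of_sum_range_le (c := M) (fun a => Set.indicator_nonneg (fun _ _ => by positivity) _)
    fun n => ?_
  refine le_trans ?_ (h n)
  unfold RS
  rw [Finset.range_eq_Ico]
  have h0 : A.indicator (fun a : ℕ => (1 : ℝ) / a) 0 = 0 := by
    rw [Set.indicator_apply]
    split_ifs <;> simp
  have h1 : ∑ a ∈ Ico 0 n, A.indicator (fun a : ℕ => (1 : ℝ) / a) a ≤
      ∑ a ∈ {0} ∪ Ioc 0 n, A.indicator (fun a : ℕ => (1 : ℝ) / a) a :=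
    sum_le_sum_of_subset_of_nonneg (fun a ha => by
      rw [mem_Ico] at ha
      rw [mem_union, mem_singleton, mem_Ioc]
      omega) (fun a _ _ => Set.indicator_nonneg (fun _ _ => by positivity) _)
  have h2 : ∑ a ∈ {0} ∪ Ioc 0 n, A.indicator (fun a : ℕ => (1 : ℝ) / a) a =
      ∑ a ∈ Ioc 0 n, A.indicator (fun a : ℕ => (1 : ℝ) / a) a := by
    rw [sum_union (by simp), sum_singleton, h0, zero_add]
  rw [h2] at h1
  exact h1

theorem THH_fin {A A' : Set ℕ} (hfin : (A \ A').Finite)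
    (h : Summable (A'.indicator fun a : ℕ => (1 : ℝ) / a)) :
    Summable (A.indicator fun a : ℕ => (1 : ℝ) / a) := by
  have h1 : Summable ((A \ A').indicator fun a : ℕ => (1 : ℝ) / a) := by
    refine summable_of_finite_support (hfin.subset ?_)
    exact Set.support_indicator_subset
  refine Summable.of_nonneg_of_le (fun a => Set.indicator_nonneg (fun _ _ => by positivity) _)
    (fun a => ?_) (h.add h1)
  simp only [Set.indicator_apply, Set.mem_diff]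
  by_cases h2 : a ∈ A <;> by_cases h3 : a ∈ A' <;> simp [h2, h3]

theorem THH_RS_le (B : Set ℕ) (n : ℕ) (hn : 3 ≤ n) :
    RS {p | p ∈ B ∧ p.Prime} 0 n ≤ Real.log (Real.log n) + 8 := by
  refine le_trans ?_ (SER_recip n hn)
  refine (le_of_eq (THH_filter (fun p => p ∈ B ∧ p.Prime) n).symm).trans ?_
  refine sum_le_sum_of_subset_of_nonneg (fun p hp => ?_) (fun _ _ _ => by positivity)
  have h1 := (@Finset.mem_filter _ _ (fun a => Classical.propDecidable (a ∈ B ∧ a.Prime)) _ _).1 hp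
  exact Finset.mem_filter.2 ⟨h1.1, h1.2.2⟩

theorem THH_S (c k1 Z : ℕ) (hc : 1 ≤ c) (hZ : 3 ≤ Z) (hk : c + 2 ≤ k1)
    (hZl : Real.log (Real.log Z) ≤ 2 ^ k1) :
    Real.log (Real.log ((4 * Z ^ (c * 4 ^ k1) : ℕ) : ℝ)) + 8 ≤ 12 * 2 ^ k1 := by
  have hZr : (3 : ℝ) ≤ Z := by exact_mod_cast hZ
  have hlZ : 1 < Real.log Z := by
    rw [Real.lt_log_iff_exp_lt (by linarith)]
    have := Real.exp_one_lt_d9
    linarith
  have h4 : (4 : ℕ) * Z ^ (c * 4 ^ k1) ≤ Z ^ ((c + 2) * 4 ^ k1) := by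
    have h5 : 4 ≤ Z ^ (2 * 4 ^ k1) := by
      calc 4 ≤ Z ^ 2 := by nlinarith
        _ ≤ Z ^ (2 * 4 ^ k1) := Nat.pow_le_pow_right (by omega)
          (Nat.le_mul_of_pos_right _ (by positivity))
    calc 4 * Z ^ (c * 4 ^ k1) ≤ Z ^ (2 * 4 ^ k1) * Z ^ (c * 4 ^ k1) :=
          Nat.mul_le_mul_right _ h5
      _ = Z ^ ((c + 2) * 4 ^ k1) := by rw [← pow_add]; congr 1; ring
  have h6 : (1 : ℝ) < ((4 * Z ^ (c * 4 ^ k1) : ℕ) : ℝ) := by
    have : 1 < 4 * Z ^ (c * 4 ^ k1) := by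
      have : 0 < Z ^ (c * 4 ^ k1) := by positivity
      omega
    exact_mod_cast this
  have h7 : Real.log ((4 * Z ^ (c * 4 ^ k1) : ℕ) : ℝ) ≤ ((c : ℝ) + 2) * 4 ^ k1 * Real.log Z := by
    calc Real.log ((4 * Z ^ (c * 4 ^ k1) : ℕ) : ℝ)
        ≤ Real.log ((Z ^ ((c + 2) * 4 ^ k1) : ℕ) : ℝ) :=
          Real.log_le_log (by linarith) (by exact_mod_cast h4)
      _ = _ := by
          push_cast
          rw [Real.log_pow]
          push_cast
          ring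
  have h8 : Real.log (Real.log ((4 * Z ^ (c * 4 ^ k1) : ℕ) : ℝ)) ≤
      Real.log (((c : ℝ) + 2) * 4 ^ k1 * Real.log Z) :=
    Real.log_le_log (Real.log_pos h6) h7
  have h9 : Real.log (((c : ℝ) + 2) * 4 ^ k1 * Real.log Z) =
      Real.log ((c : ℝ) + 2) + k1 * Real.log 4 + Real.log (Real.log Z) := by
    rw [Real.log_mul (by positivity) (by linarith), Real.log_mul (by positivity) (by positivity),
      Real.log_pow]
  have h10 : Real.log ((c : ℝ) + 2) ≤ c + 2 := by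
    have := Real.log_le_sub_one_of_pos (show (0 : ℝ) < (c : ℝ) + 2 by positivity)
    linarith
  have h11 : Real.log 4 ≤ 2 := by
    have h12 : Real.log 4 = 2 * Real.log 2 := by
      rw [show (4 : ℝ) = 2 ^ 2 by norm_num, Real.log_pow]
      norm_num
    have := Real.log_two_lt_d9
    linarith
  have hk2 : (k1 : ℝ) ≤ 2 ^ k1 := by exact_mod_cast (Nat.lt_two_pow_self (n := k1)).le
  have hck : (c : ℝ) + 2 ≤ k1 := by exact_mod_cast hk
  have h1k : (1 : ℝ) ≤ 2 ^ k1 := one_le_pow₀ (by norm_num)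
  have h13 : (k1 : ℝ) * Real.log 4 ≤ k1 * 2 := mul_le_mul_of_nonneg_left h11 (by positivity)
  rw [h9] at h8
  linarith

theorem thm_THH (hB : St_HBL) (hN : St_HNE) (hR : St_HNR) (hE : St_HRE) (hD : St_ERD)
    (hP : St_HPA) (hT : St_HTR) (hS : St_HSU) (hA : St_HAP) (hG : St_HST) (hQ : St_HPR) :
    St_THH := by
  obtain ⟨c2, hc2, hN'⟩ := hN 100 (by norm_num)
  refine ⟨512 * (16 * c2 + 2) + 2, 1 / 10 ^ 5, by omega, by norm_num, ?_⟩
  intro A hinf hsum hfreq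
  by_contra hirr
  obtain ⟨A', h, s, κ, hsub, hfin, hper, hTA, hpr, hnp⟩ :=
    hE A hsum hirr (1 / 10 ^ 5) (by norm_num)
  -- the sum over the primes is at least one
  have hY1 : ∃ Y1 : ℕ, 1 ≤ RS {p | p ∈ A' ∧ p.Prime} 0 Y1 := by
    by_contra hno
    push Not at hno
    refine hirr (hD A hinf (THH_fin hfin (THH_summable A' 2 fun n => ?_)))
    rw [THH_split]
    have h1 := hno n
    have h2 := hnp n
    have h3 : (1 : ℝ) / 10 ^ 5 ≤ 1 := by norm_num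
    linarith
  obtain ⟨Y1, hY1⟩ := hY1
  obtain ⟨k0, hk0⟩ := hR c2 h
  obtain ⟨Y0, hY0⟩ := hP (max k0 (16 * c2 + 2 + 2)) (16 * c2 + 2)
  obtain ⟨Y, hYw, hYge⟩ := (hfreq.and_eventually
    (eventually_ge_atTop (max Y0 (max Y1 (max s 100))))).exists
  obtain ⟨k1, Z, hk1, hZ3, hkZ, hk2, hZl, hYZ, h4Z⟩ := hY0 Y (le_trans (le_max_left _ _) hYge)
  have hYY1 : Y1 ≤ Y := le_trans (le_trans (le_max_left _ _) (le_max_right _ _)) hYge
  have hYs : s ≤ Y := le_trans (le_trans (le_trans (le_max_left _ _) (le_max_right _ _))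
    (le_max_right _ _)) hYge
  have hY100 : 100 ≤ Y := le_trans (le_trans (le_trans (le_max_right _ _) (le_max_right _ _))
    (le_max_right _ _)) hYge
  have hkk0 : k0 ≤ k1 := le_trans (le_max_left _ _) hk1
  have hkc : 16 * c2 + 2 + 2 ≤ k1 := le_trans (le_max_right _ _) hk1
  have hZ1 : 1 ≤ Z := by omega
  -- the number `X`
  set X : ℕ := Z ^ ((16 * c2 + 2) * 4 ^ k1) with hX
  have hXr : (X : ℝ) = (Z : ℝ) ^ ((16 * c2 + 2) * 4 ^ k1) := by
    rw [hX]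
    push_cast
    rfl
  have hZX : Z ^ 4 ^ k1 ≤ X :=
    Nat.pow_le_pow_right hZ1 (Nat.le_mul_of_pos_left _ (by omega))
  have hZZ : Z ^ 4 ^ (k1 - 4) ≤ Z ^ 4 ^ k1 :=
    Nat.pow_le_pow_right hZ1 (Nat.pow_le_pow_right (by norm_num) (by omega))
  have hYX : Y ≤ X := hYZ.trans (hZZ.trans hZX)
  have hZleX : Z ≤ X := by
    calc Z = Z ^ 1 := (pow_one Z).symm
      _ ≤ Z ^ 4 ^ k1 := Nat.pow_le_pow_right hZ1 (Nat.one_le_pow _ _ (by norm_num))
      _ ≤ X := hZX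
  have hX0 : (0 : ℝ) < X := by
    have : 0 < X := by omega
    exact_mod_cast this
  have hBL : ∀ u v : ℕ, 2 ≤ u → v ≤ u ^ 4 →
      ∑ p ∈ (Ioc u v).filter Nat.Prime, (1 : ℝ) / p ≤ 100 := hB
  -- the window
  have hW : RS {p | p ∈ A' ∧ p.Prime} (Z ^ 4 ^ (k1 - 4)) (4 * X) ≤ 1 / 10 ^ 5 :=
    (THH_RS_mono (B := {p | p ∈ A' ∧ p.Prime}) (B' := {p | p ∈ A ∧ p.Prime})
      (fun p hp => ⟨hsub hp.1, hp.2⟩) hYZ h4Z).trans hYw
  have hS' : RS {p | p ∈ A' ∧ p.Prime} 0 (4 * X) ≤ 12 * 2 ^ k1 :=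
    (THH_RS_le A' (4 * X) (by omega)).trans
      (THH_S (16 * c2 + 2) k1 Z (by omega) hZ3 hkc hZl)
  -- the integers
  have h1 := hT A' κ s X (k1 + 30) (ct Z k1) (1 / 10 ^ 5) hTA (hYs.trans hYX) (hY100.trans hYX)
    (by omega) (by omega) (by norm_num) (hnp _)
  have h2 := hS A' 100 (1 / 10 ^ 5) (1 / 10 ^ 5) (12 * 2 ^ k1) Z k1 X (by norm_num) (by norm_num)
    (by norm_num) (by omega) (by omega) hk2 hBL hZX hW hS'
  have h3 : 256 * ((1 : ℝ) / 10 ^ 5 + 12 * 2 ^ k1) / 2 ^ (k1 + 30) ≤ 1 / 1000 := by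
    rw [div_le_iff₀ (by positivity), pow_add]
    have h1k : (1 : ℝ) ≤ 2 ^ k1 := one_le_pow₀ (by norm_num)
    have : (0 : ℝ) < 2 ^ k1 := by positivity
    norm_num
    nlinarith
  have hint : (((Ico X (2 * X)).filter fun m =>
      (1 : ℝ) / 16 < nrm (TP (fun p => p ∈ A' ∧ p.Prime) (ct Z k1) (k1 + 30) m - κ m)).card : ℝ) / X
        ≤ 1 / 100 := by
    refine h1.trans (h2.trans ?_)
    have h4 : 125 * ((1 : ℝ) / 10 ^ 5 + 1 / 10 ^ 5) + 100 / 200000 ≤ 4 / 1000 := by norm_num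
    linarith
  -- the product space
  have h5 := hA 100 c2 h (fun p => p ∈ A' ∧ p.Prime) κ k1 Z (by norm_num) hc2 hBL
    (fun p hp => ⟨hp.2, (hpr p hp.1 hp.2).2⟩) hper hZ3 hkZ hk2 hZl
  rw [← hXr, ← hX] at h5
  have h6 := hN' k1
  have h7 := hk0 k1 Z hkk0 (by omega)
  rw [← hXr] at h7
  have hbad := h5.trans (add_le_add (add_le_add hint h6) h7)
  have h8 := hG (fun p => p ∈ A' ∧ p.Prime) h (Z ^ 4 ^ k1) (k1 + 30) (ct Z k1) κ
    (fun p hp => ⟨hp.2, (hpr p hp.1 hp.2).1⟩) (by omega) (by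
      unfold ct
      rw [Nat.log_one_right, Nat.sub_zero])
  have h9 := hQ (fun p => p ∈ A' ∧ p.Prime) h (Z ^ 4 ^ k1) (fun p hp => hp.2)
  rw [THH_filter (fun p => p ∈ A' ∧ p.Prime)] at h9
  have h10 : 1 ≤ RS {p | p ∈ A' ∧ p.Prime} 0 (Z ^ 4 ^ k1) :=
    hY1.trans (THH_RS_mono subset_rfl le_rfl (hYY1.trans (hYZ.trans hZZ)))
  have h11 : Real.exp (-RS {p | p ∈ A' ∧ p.Prime} 0 (Z ^ 4 ^ k1)) ≤ 1 / 2 := by
    have h12 : Real.exp (-RS {p | p ∈ A' ∧ p.Prime} 0 (Z ^ 4 ^ k1)) ≤ Real.exp (-1) :=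
      Real.exp_le_exp.2 (by linarith)
    have h13 : Real.exp (-1) ≤ 1 / 2 := by
      rw [Real.exp_neg, inv_eq_one_div]
      refine one_div_le_one_div_of_le (by norm_num) ?_
      have := Real.add_one_le_exp (1 : ℝ)
      linarith
    exact h12.trans h13
  have h14 := h9.trans (h8.trans (mul_le_mul_of_nonneg_left hbad (by norm_num)))
  have h15 : (10 : ℝ) * (1 / 100 + 1 / 120 + 1 / 120) < 1 / 2 := by norm_num
  linarith

end Pool.Agent.RMS
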